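import Pool.Agent.Lib.MP_439fea_co.Z.Defs

/-! Level sets: sums of minima along edges and the Poincare inequality in `L1`. -/

namespace Pool.Agent.Lib.MP_439fea_co.Ud
open Finset Z
open scoped Classical

variable {V : Type} [Fintype V] {E : V → V → Prop}

theorem lay_ind (Φ : (V → ℝ) → ℝ) (Q : Finset V → Prop) (hQ : ∀ T T', T' ⊆ T → Q T → Q T')
    (h0 : Φ (fun _ => 0) ≤ 0)
    (hs : ∀ (T : Finset V) (t : ℝ) (g : V → ℝ), 0 < t → Q T → (∀ x, 0 ≤ g x) →
      (∀ x, x ∉ T → g x = 0) → Φ (fun x => g x + if x ∈ T then t else 0) ≤ Φ g)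
    (g : V → ℝ) (hg : ∀ x, 0 ≤ g x) (h : Q (univ.filter fun x => g x ≠ 0)) : Φ g ≤ 0 := by
  generalize hT : (univ.filter fun x => g x ≠ 0) = T at h
  induction T using Finset.strongInduction generalizing g with
  | H T ih =>
    have hm : ∀ x, x ∈ T ↔ g x ≠ 0 := fun x => by rw [← hT, mem_filter, and_iff_right (mem_univ x)]
    rcases T.eq_empty_or_nonempty with rfl | hne
    · rwa [show g = fun _ => 0 from funext fun x => not_not.1 (mt (hm x).2 (notMem_empty x))]
    obtain ⟨a, ha, h1⟩ := T.exists_min_image g hne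
    have h2 : ∀ x, x ∉ T → g x = 0 := fun x hx => not_not.1 (mt (hm x).2 hx)
    let g' : V → ℝ := fun x => if x ∈ T then g x - g a else 0
    have h3 : ∀ x, 0 ≤ g' x := fun x => by
      simp only [g']
      split_ifs with hx
      exacts [sub_nonneg.2 (h1 x hx), le_rfl]
    have h4 : (univ.filter fun x => g' x ≠ 0) ⊂ T := ⟨fun x hx => by_contra fun h5 =>
      (mem_filter.1 hx).2 (if_neg h5), fun h5 => (mem_filter.1 (h5 ha)).2
        ((if_pos ha).trans (sub_self _))⟩
    have h6 := hs T (g a) g' ((hg a).lt_of_ne' ((hm a).1 ha)) h h3 fun x hx => if_neg hx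
    have h7 : (fun x => g' x + if x ∈ T then g a else 0) = g := funext fun x => by
      simp only [g']
      split_ifs with hx
      exacts [sub_add_cancel _ _, (add_zero _).trans (h2 x hx).symm]
    rw [h7] at h6
    exact h6.trans (ih _ h4 g' h3 rfl (hQ _ _ h4.1 h))

theorem lay_ed (S T : Finset V) (t : ℝ) :
    ∑ x, ∑ y ∈ nb E univ x, (if x ∈ S ∧ y ∈ T then t else 0) = t * ed E S T := by
  simp only [ed, nb]
  push_cast
  rw [mul_sum, ← univ_inter S, ← sum_ite_mem]
  refine sum_congr rfl fun x _ => ?_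
  by_cases hx : x ∈ S
  · simp only [hx, univ_inter, true_and, if_true]
    rw [sum_ite_mem, sum_const, nsmul_eq_mul, mul_comm, filter_inter, univ_inter]
  · simp [hx]

theorem lay_min {M β : ℝ} (h : ∀ T : Finset V, (T.card : ℝ) ≤ M → (ed E T T : ℝ) ≤ β * T.card)
    (g : V → ℝ) (hg : ∀ x, 0 ≤ g x) (hM : ((univ.filter fun x => g x ≠ 0).card : ℝ) ≤ M) :
    ∑ x, ∑ y ∈ nb E univ x, min (g x) (g y) ≤ β * ∑ x, g x := by
  refine sub_nonpos.1 (lay_ind (fun g => ∑ x, ∑ y ∈ nb E univ x, min (g x) (g y) - β * ∑ x, g x)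
    (fun T => (T.card : ℝ) ≤ M) (fun T T' h1 h2 => (Nat.cast_le.2 (card_le_card h1)).trans h2)
    (by simp) (fun T t g ht hT hg h0 => ?_) g hg hM)
  have h1 : ∀ x y, min (g x + if x ∈ T then t else 0) (g y + if y ∈ T then t else 0) =
      min (g x) (g y) + if x ∈ T ∧ y ∈ T then t else 0 := fun x y => by
    have := hg x
    have := hg y
    by_cases hx : x ∈ T <;> by_cases hy : y ∈ T <;> simp only [hx, hy, if_true, if_false, and_self,
      and_false, false_and, add_zero]
    · exact min_add_add_right _ _ _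
    · rw [h0 y hy, min_eq_right (by linarith), min_eq_right ‹_›]
    · rw [h0 x hx, min_eq_left (by linarith), min_eq_left ‹_›]
  simp only [h1, sum_add_distrib, lay_ed, sum_ite_mem, univ_inter, sum_const, nsmul_eq_mul]
  nlinarith [mul_le_mul_of_nonneg_left (h T hT) ht.le]

theorem lay_pos {α : ℝ}
    (h : ∀ T : Finset V, 2 * T.card ≤ Fintype.card V → α * T.card ≤ ed E T Tᶜ)
    (g : V → ℝ) (hg : ∀ x, 0 ≤ g x)
    (hM : 2 * (univ.filter fun x => g x ≠ 0).card ≤ Fintype.card V) :
    α * ∑ x, g x ≤ ∑ x, ∑ y ∈ nb E univ x, max (g x - g y) 0 := by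
  refine sub_nonpos.1 (lay_ind (fun g => α * ∑ x, g x - ∑ x, ∑ y ∈ nb E univ x, max (g x - g y) 0)
    (fun T => 2 * T.card ≤ Fintype.card V)
    (fun T T' h1 h2 => (Nat.mul_le_mul_left 2 (card_le_card h1)).trans h2)
    (by simp) (fun T t g ht hT hg h0 => ?_) g hg hM)
  have h1 : ∀ x y, max ((g x + if x ∈ T then t else 0) - (g y + if y ∈ T then t else 0)) 0 =
      max (g x - g y) 0 + if x ∈ T ∧ y ∈ Tᶜ then t else 0 := fun x y => by
    have := hg x
    have := hg y
    by_cases hx : x ∈ T <;> by_cases hy : y ∈ T <;> simp only [hx, hy, if_true, if_false, and_self,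
      and_false, false_and, add_zero, mem_compl, not_true, not_false_iff, add_sub_add_right_eq_sub]
    · rw [h0 y hy, max_eq_left (by linarith), max_eq_left (by linarith)]
      ring
    · rw [h0 x hx, max_eq_right (by linarith), max_eq_right (by linarith)]
  simp only [h1, sum_add_distrib, lay_ed, sum_ite_mem, univ_inter, sum_const, nsmul_eq_mul]
  nlinarith [mul_le_mul_of_nonneg_left (h T hT) ht.le]

theorem lay_med [Nonempty V] (f : V → ℝ) :
    ∃ m, 2 * (univ.filter fun x => m < f x).card ≤ Fintype.card V ∧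
      2 * (univ.filter fun x => f x < m).card ≤ Fintype.card V := by
  obtain ⟨b, -, hb⟩ := univ.exists_max_image f univ_nonempty
  obtain ⟨a, ha, h1⟩ := (univ.filter fun a => 2 * (univ.filter fun x => f a < f x).card ≤
    Fintype.card V).exists_min_image f ⟨b, mem_filter.2 ⟨mem_univ _, by
      rw [filter_eq_empty_iff.2 fun x hx => (hb x hx).not_gt]
      exact Nat.zero_le _⟩⟩
  refine ⟨f a, (mem_filter.1 ha).2, ?_⟩
  rcases (univ.filter fun x => f x < f a).eq_empty_or_nonempty with h | h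
  · rw [h]
    exact Nat.zero_le _
  obtain ⟨c, hc, h2⟩ := exists_max_image _ f h
  have h3 : ¬2 * (univ.filter fun x => f c < f x).card ≤ Fintype.card V := fun h4 =>
    (h1 c (mem_filter.2 ⟨mem_univ _, h4⟩)).not_gt (mem_filter.1 hc).2
  have h4 := card_le_univ ((univ.filter fun x => f c < f x) ∪ univ.filter fun x => f x < f a)
  rw [card_union_of_disjoint (disjoint_left.2 fun x hx hx' =>
    (h2 x hx').not_gt (mem_filter.1 hx).2)] at h4
  omega

theorem lay_poin [Nonempty V] {α : ℝ}
    (h : ∀ T : Finset V, 2 * T.card ≤ Fintype.card V → α * T.card ≤ ed E T Tᶜ) (f : V → ℝ) :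
    ∃ m, α * ∑ x, |f x - m| ≤ ∑ x, ∑ y ∈ nb E univ x, |f x - f y| := by
  obtain ⟨m, h1, h2⟩ := lay_med f
  have h3 := lay_pos h (fun x => max (f x - m) 0) (fun x => le_max_right _ _)
    (le_trans (Nat.mul_le_mul_left 2 (card_le_card fun x hx => by grind)) h1)
  have h4 := lay_pos h (fun x => max (m - f x) 0) (fun x => le_max_right _ _)
    (le_trans (Nat.mul_le_mul_left 2 (card_le_card fun x hx => by grind)) h2)
  refine ⟨m, le_trans (le_of_eq ?_) ((add_le_add h3 h4).trans ?_)⟩
  · rw [← mul_add, ← sum_add_distrib]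
    refine congrArg _ (sum_congr rfl fun x _ => ?_)
    grind
  · simp only [← sum_add_distrib]
    refine sum_le_sum fun x _ => sum_le_sum fun y _ => ?_
    grind

end Pool.Agent.Lib.MP_439fea_co.Ud
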