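import Pool.Agent.Lib.MP_439fea_co.Ud.AccA
import Pool.Agent.Lib.MP_439fea_co.Ud.Lay

/-! The global accounting of heights. -/

namespace Pool.Agent.Lib.MP_439fea_co.Ud
open Finset Z
open scoped Classical

variable {V : Type} [Fintype V] {E : V → V → Prop} {pt : V → Prop} {bl : V → V → Finset V}

theorem acc_nb {a b : V} : b ∈ nb E univ a ↔ E a b := by simp [nb]

theorem acc_bip (hs : ∀ a b, E a b → E b a) (h : Bip E pt) (g : V → V → ℝ) :
    ∑ x, ∑ y ∈ nb E univ x, g x y =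
      ∑ p ∈ univ.filter pt, ∑ c ∈ nb E univ p, (g p c + g c p) := by
  simp only [sum_add_distrib]
  rw [← sum_filter_add_sum_filter_not univ pt]
  refine congrArg _ (sum_comm' fun x y => ?_)
  simp only [mem_filter, mem_univ, true_and, acc_nb]
  exact ⟨fun h1 => ⟨hs _ _ h1.2, (h _ _ (hs _ _ h1.2)).2 h1.1⟩,
    fun h1 => ⟨(h _ _ h1.1).1 h1.2, hs _ _ h1.1⟩⟩

omit [Fintype V] in
theorem acc_three (h : Blk E pt bl) {p c : V} (hp : pt p) (hc : E p c) :
    ((bl c p).erase p).card = 3 := by rw [card_erase_of_mem (h.mem p c hp hc), h.card p c hp hc]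

theorem acc_swap (h : Blk E pt bl) (f : V → V → ℝ) :
    ∑ p ∈ univ.filter pt, ∑ c ∈ nb E univ p, ∑ q ∈ (bl c p).erase p, f q c =
      ∑ p ∈ univ.filter pt, ∑ c ∈ nb E univ p, 3 * f p c := by
  have h1 : ∀ p c q, pt p → E p c → q ∈ (bl c p).erase p →
      pt q ∧ E q c ∧ p ∈ (bl c q).erase q := fun p c q hp hc hq => by
    obtain ⟨h2, h3⟩ := h.adj p c hp hc q (mem_of_mem_erase hq)
    exact ⟨(h.bip _ _ h2).2 ((h.bip _ _ hc).1 hp), h2,
      mem_erase.2 ⟨(ne_of_mem_erase hq).symm, h3 ▸ h.mem p c hp hc⟩⟩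
  have h2 : ∑ p ∈ univ.filter pt, ∑ c ∈ nb E univ p, 3 * f p c =
      ∑ p ∈ univ.filter pt, ∑ c ∈ nb E univ p, ∑ _ ∈ (bl c p).erase p, f p c :=
    sum_congr rfl fun p hp => sum_congr rfl fun c hc => by
      rw [sum_const, acc_three h (mem_filter.1 hp).2 (acc_nb.1 hc), nsmul_eq_mul, Nat.cast_ofNat]
  rw [h2]
  simp only [sum_sigma']
  refine sum_bij' (fun t _ => ⟨t.2.2, t.2.1, t.1⟩) (fun t _ => ⟨t.2.2, t.2.1, t.1⟩) ?_ ?_
    (fun _ _ => rfl) (fun _ _ => rfl) fun _ _ => rfl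
  all_goals
    simp only [mem_sigma, mem_filter, mem_univ, true_and, acc_nb]
    exact fun t ht => h1 _ _ _ ht.1 ht.2.1 ht.2.2

omit [Fintype V] in
theorem acc_four {B : Finset V} (hB : B.card = 4) {a : V → ℝ} {e : V → V → ℝ}
    (h : ∀ q ∈ B, ∀ q' ∈ B.erase q, |a q + a q'| ≤ e q q') {p : V} (hp : p ∈ B) :
    |a p| ≤ ∑ q ∈ B, ∑ q' ∈ B.erase q, e q q' := by
  have h1 : ∀ q ∈ B, |2 * a q + ∑ x ∈ B, a x| ≤ ∑ q' ∈ B.erase q, e q q' := fun q hq => by
    refine le_trans (le_of_eq (congrArg _ ?_))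
      ((abs_sum_le_sum_abs _ _).trans (sum_le_sum (h q hq)))
    rw [sum_add_distrib, sum_const, card_erase_of_mem hq, hB, ← add_sum_erase B a hq, nsmul_eq_mul]
    push_cast
    ring
  have h2 := (abs_sum_le_sum_abs _ _).trans (sum_le_sum h1)
  have h3 := (h1 p hp).trans (single_le_sum (fun q hq => (abs_nonneg _).trans (h1 q hq)) hp)
  rw [sum_add_distrib, sum_const, hB, ← mul_sum, nsmul_eq_mul] at h2
  push_cast at h2
  grind

theorem acc_core {C κ K d θ : ℝ} (hH : Hst E C κ K d) (hB : Blk E pt bl) (hκ : 2 ≤ κ * d)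
    {ht : V → ℝ} {er : V → V → V → ℝ} {mn : V → V → ℝ} (e0 : ∀ x y z, 0 ≤ er x y z)
    (m0 : ∀ x y, 0 ≤ mn x y) (ms : ∀ x y, mn x y = mn y x)
    (hl : ∀ x y x', E x y → E x' y → x ≠ x' →
      er x y x' ≤ ht x + ht x' - 2 * ht y + 8 * (mn x y + mn x' y) ∧
        |ht x + ht x' - 2 * ht y| ≤ er x y x')
    (hJ : ∑ x, ∑ y ∈ nb E univ x, mn x y ≤ θ) :
    chs E pt (fun p c c' => er c p c' + mn p c + ∑ q ∈ (bl c p).erase p, er p c q) ≤
        K * d * (129 * θ) ∧ ∑ x, ∑ y ∈ nb E univ x, |ht x - ht y| ≤ 768 * θ := by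
  have hs := hH.symm
  let X : V → ℝ := fun p => ∑ c ∈ nb E univ p, (2 * ht c - 2 * ht p + 16 * mn p c)
  let u : V → V → ℝ := fun p c => ∑ q ∈ (bl c p).erase p, er p c q
  have u0 : ∀ p c, 0 ≤ u p c := fun p c => sum_nonneg fun _ _ => e0 _ _ _
  have hd : ∀ p, ∀ c ∈ nb E univ p, (((nb E univ p).erase c).card : ℝ) =
      (nb E univ p).card - 1 := fun p c hc => by
    rw [card_erase_of_mem hc, Nat.cast_sub (card_pos.2 ⟨c, hc⟩), Nat.cast_one]
  have h1 : ∀ p, ∑ c ∈ nb E univ p, ∑ c' ∈ (nb E univ p).erase c, er c p c' ≤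
      ((nb E univ p).card - 1) * X p := fun p => by
    let g : V → ℝ := fun c => ht c - ht p + 8 * mn p c
    calc _ ≤ ∑ c ∈ nb E univ p, ∑ c' ∈ (nb E univ p).erase c, (g c + g c') :=
          sum_le_sum fun c hc => sum_le_sum fun c' hc' => by
            have := (hl c p c' (hs _ _ (acc_nb.1 hc)) (hs _ _ (acc_nb.1 (mem_of_mem_erase hc')))
              (ne_of_mem_erase hc').symm).1
            simp only [g, ms p]
            linarith
      _ = ∑ c ∈ nb E univ p, (((nb E univ p).card - 2) * g c + ∑ c' ∈ nb E univ p, g c') :=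
          sum_congr rfl fun c hc => by
            rw [sum_add_distrib, sum_const, nsmul_eq_mul, hd p c hc, ← add_sum_erase _ g hc]
            ring
      _ = _ := by
          have : X p = 2 * ∑ c ∈ nb E univ p, g c := by
            rw [mul_sum]
            exact sum_congr rfl fun c _ => by simp only [g]; ring
          rw [sum_add_distrib, sum_const, nsmul_eq_mul, ← mul_sum, this]
          ring
  have hX : ∀ p, 0 ≤ X p := fun p => nonneg_of_mul_nonneg_right
    ((sum_nonneg fun _ _ => sum_nonneg fun _ _ => e0 _ _ _).trans (h1 p)) (by linarith [hH.lo p])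
  have h2 : ∑ p ∈ univ.filter pt, ∑ c ∈ nb E univ p, u p c ≤
      ∑ p ∈ univ.filter pt, ∑ c ∈ nb E univ p, 3 * (2 * ht p - 2 * ht c + 16 * mn p c) := by
    let g : V → V → ℝ := fun p c => ht p - ht c + 8 * mn p c
    calc _ ≤ ∑ p ∈ univ.filter pt, ∑ c ∈ nb E univ p,
            (3 * g p c + ∑ q ∈ (bl c p).erase p, g q c) :=
          sum_le_sum fun p hp => sum_le_sum fun c hc => by
            have hp := (mem_filter.1 hp).2
            have hc := acc_nb.1 hc
            refine (sum_le_sum (g := fun q => g p c + g q c) fun q hq => ?_).trans_eq ?_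
            · have := (hl p c q hc (hB.adj p c hp hc q (mem_of_mem_erase hq)).1
                (ne_of_mem_erase hq).symm).1
              simp only [g]
              linarith
            · rw [sum_add_distrib, sum_const, acc_three hB hp hc, nsmul_eq_mul, Nat.cast_ofNat]
      _ = _ := by
          simp only [sum_add_distrib, acc_swap hB g]
          simp only [← sum_add_distrib]
          exact sum_congr rfl fun p _ => sum_congr rfl fun c _ => by simp only [g]; ring
  have h3 : ∑ p ∈ univ.filter pt, ∑ c ∈ nb E univ p, mn p c ≤ θ :=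
    (sum_le_sum_of_subset_of_nonneg (subset_univ _) fun _ _ _ =>
      sum_nonneg fun _ _ => m0 _ _).trans hJ
  have h4 : 3 * ∑ p ∈ univ.filter pt, X p + ∑ p ∈ univ.filter pt, ∑ c ∈ nb E univ p,
      3 * (2 * ht p - 2 * ht c + 16 * mn p c) =
        96 * ∑ p ∈ univ.filter pt, ∑ c ∈ nb E univ p, mn p c := by
    simp only [X, mul_sum, ← sum_add_distrib]
    exact sum_congr rfl fun p _ => sum_congr rfl fun c _ => by ring
  have h5 : 0 ≤ ∑ p ∈ univ.filter pt, X p := sum_nonneg fun p _ => hX p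
  have h6 : 0 ≤ ∑ p ∈ univ.filter pt, ∑ c ∈ nb E univ p, u p c :=
    sum_nonneg fun _ _ => sum_nonneg fun _ _ => u0 _ _
  constructor
  · calc _ ≤ ∑ p ∈ univ.filter pt, K * d * (X p + ∑ c ∈ nb E univ p, (mn p c + u p c)) := by
          refine sum_le_sum fun p _ => ?_
          have h7 : ((nb E univ p).card : ℝ) - 1 ≤ K * d := by linarith [hH.hi p]
          simp only [add_assoc]
          simp only [sum_add_distrib (f := fun c' => er _ p c')]
          rw [sum_add_distrib, mul_add, mul_sum _ fun c => mn p c + u p c]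
          refine add_le_add ((h1 p).trans (mul_le_mul_of_nonneg_right h7 (hX p)))
            (sum_le_sum fun c hc => ?_)
          rw [sum_const, nsmul_eq_mul, hd p c hc]
          exact mul_le_mul_of_nonneg_right h7 (add_nonneg (m0 _ _) (u0 _ _))
      _ ≤ _ := by
          obtain ⟨x⟩ : Nonempty V := Fintype.card_pos_iff.1
            (Nat.cast_pos.1 (hH.hd ▸ pow_pos hH.dpos 3 : (0 : ℝ) < _))
          rw [← mul_sum]
          refine mul_le_mul_of_nonneg_left ?_ ((Nat.cast_nonneg _).trans (hH.hi x))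
          simp only [sum_add_distrib]
          linarith
  · have h8 : ∑ p ∈ univ.filter pt, ∑ c ∈ nb E univ p, |ht p - ht c| ≤
        ∑ p ∈ univ.filter pt, ∑ c ∈ nb E univ p, (u p c + ∑ q ∈ (bl c p).erase p, u q c) :=
      sum_le_sum fun p hp => sum_le_sum fun c hc => by
        have hp := (mem_filter.1 hp).2
        have hc := acc_nb.1 hc
        rw [add_sum_erase _ (fun q => u q c) (hB.mem p c hp hc)]
        refine (acc_four (a := fun q => ht q - ht c) (e := fun q q' => er q c q')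
          (hB.card p c hp hc) (fun q hq q' hq' => ?_) (hB.mem p c hp hc)).trans_eq
          (sum_congr rfl fun q hq => by simp only [u, (hB.adj p c hp hc q hq).2])
        refine le_trans (le_of_eq (congrArg _ (by ring))) (hl q c q' (hB.adj p c hp hc q hq).1
          (hB.adj p c hp hc q' (mem_of_mem_erase hq')).1 (ne_of_mem_erase hq').symm).2
    have h9 : ∑ p ∈ univ.filter pt, ∑ c ∈ nb E univ p, |ht c - ht p| =
        ∑ p ∈ univ.filter pt, ∑ c ∈ nb E univ p, |ht p - ht c| :=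
      sum_congr rfl fun _ _ => sum_congr rfl fun _ _ => abs_sub_comm _ _
    rw [acc_bip hs hB.bip]
    simp only [sum_add_distrib, acc_swap hB u, h9] at h8 ⊢
    simp only [← mul_sum _ _ (3 : ℝ)] at h8
    linarith

omit [Fintype V] in
theorem acc_perr {φ ψ : V → V → V → ℝ} (h : ∀ x y z, φ x y z ≤ ψ x y z) (p : Fin 4 → V)
    (c : Fin 4 → Fin 4 → V) : perr φ p c ≤ perr ψ p c :=
  sum_le_sum fun _ _ => sum_le_sum fun _ _ => sum_le_sum fun _ _ => by
    split_ifs
    exacts [h _ _ _, le_rfl]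

omit [Fintype V] in
theorem acc_one {φ : V → V → V → ℝ} (h : ∀ x y z, 0 ≤ φ x y z) (p : Fin 4 → V)
    (c : Fin 4 → Fin 4 → V) (i : Fin 4) : ∃ y z, φ (p i) y z ≤ perr φ p c := by
  have h0 : ∀ i j k : Fin 4, 0 ≤ if i ≠ j ∧ i ≠ k ∧ j ≠ k then φ (p i) (c i j) (c i k) else 0 :=
    fun i j k => by
      split_ifs
      exacts [h _ _ _, le_rfl]
  have h1 : i ≠ i + 1 ∧ i ≠ i + 2 ∧ i + 1 ≠ i + 2 := by revert i; decide
  refine ⟨c i (i + 1), c i (i + 2), le_trans ?_ (single_le_sum (fun i _ => sum_nonneg fun j _ =>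
    sum_nonneg fun k _ => h0 i j k) (mem_univ i))⟩
  refine le_trans ?_ (single_le_sum (fun j _ => sum_nonneg fun k _ => h0 i j k) (mem_univ (i + 1)))
  exact (if_pos h1).ge.trans (single_le_sum (fun k _ => h0 i (i + 1) k) (mem_univ (i + 2)))

theorem acc_ind {C κ K d : ℝ} (hH : Hst E C κ K d) {φ : V → V → V → ℝ} {g : V → ℝ}
    (hg : ∀ x, 0 ≤ g x) :
    chs E pt (fun p c c' => φ p c c' + g p) ≤ chs E pt φ + (K * d) ^ 2 * ∑ x, g x := by
  simp only [chs, sum_add_distrib, sum_const, nsmul_eq_mul]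
  refine add_le_add le_rfl (le_trans ?_ (mul_le_mul_of_nonneg_left
    (sum_le_sum_of_subset_of_nonneg (subset_univ (univ.filter pt)) fun x _ _ => hg x)
    (sq_nonneg _)))
  rw [mul_sum]
  refine sum_le_sum fun p _ => (sum_le_card_nsmul _ _ (K * d * g p) fun c _ =>
    mul_le_mul_of_nonneg_right ((Nat.cast_le.2 card_erase_le).trans (hH.hi p)) (hg p)).trans ?_
  rw [nsmul_eq_mul, sq, mul_assoc (K * d)]
  exact mul_le_mul_of_nonneg_right (hH.hi p)
    (mul_nonneg ((Nat.cast_nonneg _).trans (hH.hi p)) (hg p))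

theorem accS (hS : SmallS) (hA : AlgS) : AccS := fun C κ K K' hC hκ hK hK' => by
  obtain ⟨θ, θ0, θ1, θ2⟩ : ∃ θ : ℝ, 0 < θ ∧ 768 * θ ≤ κ / 2 ∧
      K' * (129 * K + 3072 * K ^ 2 / κ) * θ ≤ 1 / 8000 := by
    have : 0 < K' * (129 * K + 3072 * K ^ 2 / κ) := by positivity
    refine ⟨min (κ / 1536) (1 / 8000 / (K' * (129 * K + 3072 * K ^ 2 / κ))), by positivity,
      by linarith [min_le_left (κ / 1536) (1 / 8000 / (K' * (129 * K + 3072 * K ^ 2 / κ)))], ?_⟩
    rw [← le_div_iff₀' this]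
    exact min_le_right _ _
  obtain ⟨δ, δ0, ρ0, hs⟩ := hS C θ hC θ0
  refine ⟨δ, δ0, max ρ0 (2 / κ), fun L _ _ V _ F E pt bl d hd hH hB hR hr hst hsup => ?_⟩
  have d0 := hH.dpos
  have : Nonempty V := Fintype.card_pos_iff.1 (Nat.cast_pos.1 (hH.hd ▸ pow_pos d0 3 : (0 : ℝ) < _))
  have E0 : ∀ i x, 0 ≤ F.Ef i x := fun i x => add_nonneg Real.posLog_nonneg Real.posLog_nonneg
  have h0 : ∀ x, 0 ≤ F.ht x := fun x => sum_nonneg fun i _ => E0 i x
  have e0 : ∀ x y z, 0 ≤ F.er x y z := fun x y z => sum_nonneg fun i _ => by positivity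
  have m0 : ∀ x y, 0 ≤ F.mn x y := fun x y => sum_nonneg fun i _ => le_min (E0 i x) (E0 i y)
  obtain ⟨t, ht⟩ : ∃ t, ∑ x, F.ht x = d ^ 3 * t := ⟨_, (mul_div_cancel₀ _ (pow_pos d0 3).ne').symm⟩
  have hJ : ∑ x, ∑ y ∈ nb E univ x, F.mn x y ≤ θ * d * (d ^ 3 * t) := by
    rw [← ht]
    simp only [Frame.mn, Frame.ht]
    rw [sum_congr rfl fun x _ => sum_comm, sum_comm, sum_comm (s := (univ : Finset V)), mul_sum]
    exact sum_le_sum fun i _ => lay_min (fun T hT => (hs V E d T ((le_max_left _ _).trans hd)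
      ⟨hH.symm, hH.st, hH.hd.ge⟩ hT).2) _ (E0 i) (hsup i)
  obtain ⟨h1, h2⟩ := acc_core hH hB ((div_le_iff₀' hκ).1 ((le_max_right _ _).trans hd)) e0 m0
    (fun x y => sum_congr rfl fun i _ => min_comm _ _) (fun x y x' => acc_loc F hr) hJ
  suffices h : t ≤ 0 from fun x => (sum_eq_zero_iff_of_nonneg fun x _ => h0 x).1
    (le_antisymm (ht.trans_le (mul_nonpos_of_nonneg_of_nonpos (by positivity) h))
      (sum_nonneg fun x _ => h0 x)) x (mem_univ x)
  by_contra! t0
  obtain ⟨m, hm⟩ := lay_poin (α := κ * d) hH.ex F.ht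
  have h3 : ∑ x, |F.ht x - m| ≤ 768 * θ / κ * (d ^ 3 * t) := by
    refine le_of_mul_le_mul_left ((hm.trans h2).trans_eq ?_) (mul_pos hκ d0)
    field_simp
  have h4 : t / 2 ≤ m := by
    have h5 : ∑ x, (F.ht x - m) ≤ _ := (sum_le_sum fun x _ => le_abs_self _).trans h3
    have h6 : 768 * θ / κ ≤ 1 / 2 := by rw [div_le_iff₀ hκ]; linarith
    rw [sum_sub_distrib, ht, sum_const, card_univ, nsmul_eq_mul, ← hH.hd] at h5
    have h7 := mul_le_mul_of_nonneg_right h6 (mul_pos (pow_pos d0 3) t0).le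
    exact le_of_mul_le_mul_left (by linarith) (pow_pos d0 3)
  let g : V → ℝ := fun x => if F.ht x < t / 4 then t else 0
  have g0 : ∀ x, 0 ≤ g x := fun x => by
    simp only [g]
    split_ifs
    exacts [t0.le, le_rfl]
  have h5 : ∑ x, g x ≤ 4 * ∑ x, |F.ht x - m| := by
    rw [mul_sum]
    refine sum_le_sum fun x _ => ?_
    simp only [g]
    split_ifs
    · linarith [neg_le_abs (F.ht x - m)]
    · positivity
  have l0 : ∀ p c c', 0 ≤ F.loc bl p c c' := fun p c c' =>
    add_nonneg (add_nonneg (e0 _ _ _) (m0 _ _)) (sum_nonneg fun _ _ => e0 _ _ _)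
  obtain ⟨p, c, hp, h6⟩ := hR (fun p c c' => F.loc bl p c c' + g p) fun p c c' =>
    add_nonneg (l0 p c c') (g0 p)
  have h7 : perr (fun p c c' => F.loc bl p c c' + g p) p c ≤ t / 8000 := by
    refine le_of_mul_le_mul_left (h6.trans ?_) (pow_pos d0 5)
    calc _ ≤ K' * (K * d * (129 * (θ * d * (d ^ 3 * t))) +
            (K * d) ^ 2 * (4 * (768 * θ / κ * (d ^ 3 * t)))) := by
          refine mul_le_mul_of_nonneg_left ((acc_ind hH g0).trans (add_le_add h1 ?_)) hK'.le
          exact mul_le_mul_of_nonneg_left (by linarith) (sq_nonneg _)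
      _ = K' * (129 * K + 3072 * K ^ 2 / κ) * θ * (d ^ 5 * t) := by ring
      _ ≤ 1 / 8000 * (d ^ 5 * t) := by gcongr
      _ = _ := by ring
  obtain ⟨i, hi⟩ := hA L V F E pt bl p c hH.symm hr hst hp
  have h8 := acc_perr (fun p c c' => le_add_of_nonneg_right (a := F.loc bl p c c') (g0 p)) p c
  obtain ⟨y, z, h9⟩ := acc_one (fun p c c' => add_nonneg (l0 p c c') (g0 p)) p c i
  have h10 : g (p i) = t := if_pos (by linarith)
  linarith [l0 (p i) y z]

end Pool.Agent.Lib.MP_439fea_co.Ud
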