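import Pool.Agent.Lib.MP_439fea_co.Ud.Defs

/-! Local inequalities for the heights along a path of length two. -/

namespace Pool.Agent.Lib.MP_439fea_co.Ud
open Finset Z Real
open scoped Classical

variable {L V : Type} [Field L] {v : AbsoluteValue L ℝ}

theorem acc_sub (hv : NA v) (x y a : L) : v (x - y) ≤ max (v (x - a)) (v (y - a)) := by
  have := hv.add (x - a) (-(y - a))
  rwa [v.map_neg, show x - a + -(y - a) = x - y by ring] at this

theorem acc_log (hv : NA v) {x y : L} (a : L) {R : ℝ} (hR : 0 < R) (h : x ≠ y) :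
    log (v (x - y) / R) ≤ max (posLog (v (x - a) / R)) (posLog (v (y - a) / R)) := by
  have h0 := div_pos (v.pos (sub_ne_zero.2 h)) hR
  rcases le_max_iff.1 (acc_sub hv x y a) with h1 | h1
  · exact le_max_of_le_left ((log_le_log h0 (by gcongr)).trans (le_max_right _ _))
  · exact le_max_of_le_right ((log_le_log h0 (by gcongr)).trans (le_max_right _ _))

theorem acc_far (hv : NA v) {x y b : L} {S : ℝ} (hS : 0 < S)
    (h : posLog (v (x - b) / S) < posLog (v (y - b) / S)) :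
    log (v (x - y) / S) = posLog (v (y - b) / S) := by
  have h1 : v (x - b) < v (y - b) := not_le.1 fun h2 =>
    h.not_ge (posLog_le_posLog (by positivity) (by gcongr))
  have h2 : v (x - y) = v (y - b) := by
    refine le_antisymm ((acc_sub hv x y b).trans (max_le h1.le le_rfl)) ?_
    have h3 := acc_sub hv y b x
    rw [v.map_sub y x, v.map_sub b x] at h3
    exact (le_max_iff.1 h3).resolve_right h1.not_ge
  rw [h2]
  exact (max_eq_right_of_lt (lt_max_iff.1 (posLog_nonneg.trans_lt h) |>.resolve_left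
    (lt_irrefl _))).symm

theorem acc_low (F : Frame L V) (i : Fin F.P.n) {x y x' : V} (hz : F.z x ≠ F.z x')
    (hw : F.w x ≠ F.w x') (h : (F.z x - F.z y) * (F.w x - F.w y) = 1)
    (h' : (F.z x' - F.z y) * (F.w x' - F.w y) = 1) :
    -(2 * (min (F.Ef i x) (F.Ef i y) + min (F.Ef i x') (F.Ef i y))) ≤ F.dz i x y x' := by
  have hv := F.P.na i
  have z1 : 0 ≤ F.Zf i x := posLog_nonneg
  have z2 : 0 ≤ F.Zf i x' := posLog_nonneg
  have z3 : 0 ≤ F.Zf i y := posLog_nonneg
  have w1 : 0 ≤ F.Wf i x := posLog_nonneg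
  have w2 : 0 ≤ F.Wf i x' := posLog_nonneg
  have w3 : 0 ≤ F.Wf i y := posLog_nonneg
  have h1 : _ ≤ max (F.Zf i x) (F.Zf i x') := acc_log hv (F.a i) (F.Rpos i) hz
  have h2 : _ ≤ max (F.Wf i x) (F.Wf i x') := acc_log hv (F.b i) (F.Spos i) hw
  unfold Frame.dz Frame.Ef
  rcases le_or_gt (F.Wf i y) (max (F.Zf i x + F.Wf i x) (F.Zf i x' + F.Wf i x')) with h3 | h3
  · grind
  have h4 : _ = F.Wf i y := acc_far hv (F.Spos i) (show F.Wf i x < F.Wf i y by grind)
  have h5 : _ = F.Wf i y := acc_far hv (F.Spos i) (show F.Wf i x' < F.Wf i y by grind)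
  have h6 : (F.z x - F.z x') * ((F.w x - F.w y) * (F.w x' - F.w y)) = -(F.w x - F.w x') := by
    linear_combination (F.w x' - F.w y) * h - (F.w x - F.w y) * h'
  have h7 := congrArg (fun t => log (F.P.v i t)) h6
  have n1 := (F.P.v i).ne_zero (sub_ne_zero.2 hz)
  have n2 := (F.P.v i).ne_zero (sub_ne_zero.2 hw)
  have n3 := (F.P.v i).ne_zero (right_ne_zero_of_mul_eq_one h)
  have n4 := (F.P.v i).ne_zero (right_ne_zero_of_mul_eq_one h')
  have h8 := congrArg log (F.RS i)
  simp only [map_mul, AbsoluteValue.map_neg] at h7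
  rw [log_mul n1 (mul_ne_zero n3 n4), log_mul n3 n4] at h7
  rw [log_mul (F.Rpos i).ne' (F.Spos i).ne', log_one] at h8
  rw [log_div n3 (F.Spos i).ne'] at h4
  rw [log_div n4 (F.Spos i).ne'] at h5
  rw [log_div n2 (F.Spos i).ne'] at h2
  rw [log_div n1 (F.Rpos i).ne']
  grind

theorem acc_unit (P : Plc L) {f : V → L} (h : P.Has f) {x y : V} (hne : f x ≠ f y) :
    ∑ i, log (P.v i (f x - f y)) = 0 := by
  have h1 := P.pf _ (h x y).1 (sub_ne_zero.2 hne)
  have h2 := P.pf _ (h x y).2 (inv_ne_zero (sub_ne_zero.2 hne))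
  simp only [map_inv₀, log_inv, sum_neg_distrib] at h2
  linarith

theorem acc_sum (F : Frame L V) {x x' : V} (y : V) (hz : F.z x ≠ F.z x') (hw : F.w x ≠ F.w x') :
    ∑ i, (F.dz i x y x' + F.dw i x y x') = F.ht x + F.ht x' - 2 * F.ht y := by
  have h : ∀ i, F.dz i x y x' + F.dw i x y x' = F.Ef i x + F.Ef i x' - 2 * F.Ef i y -
      log (F.P.v i (F.z x - F.z x')) - log (F.P.v i (F.w x - F.w x')) := fun i => by
    have h8 := congrArg log (F.RS i)
    rw [log_mul (F.Rpos i).ne' (F.Spos i).ne', log_one] at h8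
    unfold Frame.dz Frame.dw Frame.Ef
    rw [log_div ((F.P.v i).ne_zero (sub_ne_zero.2 hz)) (F.Rpos i).ne',
      log_div ((F.P.v i).ne_zero (sub_ne_zero.2 hw)) (F.Spos i).ne']
    linarith
  simp only [h, sum_sub_distrib, sum_add_distrib, ← mul_sum, acc_unit F.P F.hz hz,
    acc_unit F.P F.hw hw, sub_zero, Frame.ht]

theorem acc_loc (F : Frame L V) {E : V → V → Prop} (hr : Re E F.z F.w) {x y x' : V} (h : E x y)
    (h' : E x' y) (hne : x ≠ x') :
    F.er x y x' ≤ F.ht x + F.ht x' - 2 * F.ht y + 8 * (F.mn x y + F.mn x' y) ∧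
      |F.ht x + F.ht x' - 2 * F.ht y| ≤ F.er x y x' := by
  have hz := hr.zinj.ne hne
  have hw := hr.winj.ne hne
  rw [← acc_sum F y hz hw]
  refine ⟨?_, (abs_sum_le_sum_abs _ _).trans (sum_le_sum fun i _ => abs_add_le _ _)⟩
  simp only [Frame.er, Frame.mn, ← sum_add_distrib, mul_sum]
  refine sum_le_sum fun i _ => ?_
  have h1 := acc_low F i hz hw (hr.adj _ _ h) (hr.adj _ _ h')
  have h2 : _ ≤ F.dw i x y x' := acc_low F.swap i hw hz ((mul_comm _ _).trans (hr.adj _ _ h))
    ((mul_comm _ _).trans (hr.adj _ _ h'))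
  have h3 : ∀ t, F.swap.Ef i t = F.Ef i t := fun t => add_comm _ _
  have h4 : ∀ t, 0 ≤ F.Ef i t := fun t => add_nonneg posLog_nonneg posLog_nonneg
  have h5 := le_min (h4 x) (h4 y)
  have h6 := le_min (h4 x') (h4 y)
  simp only [h3] at h2
  generalize min (F.Ef i x) (F.Ef i y) = m at *
  generalize min (F.Ef i x') (F.Ef i y) = m' at *
  grind

end Pool.Agent.Lib.MP_439fea_co.Ud
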