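import Pool.Agent.Lib.MP_439fea_co.Ud.AlgA

/-! The pattern of four points and six centres: the sum over the places. -/

namespace Pool.Agent.Lib.MP_439fea_co.Ud

open Finset

variable {L V ι : Type} [Field L]

/-- Defect of the path `x, y, x'` at one place. -/
def chd (g : L → ℝ) (r : ℝ) (z : V → L) (Z W : V → ℝ) (x y x' : V) : ℝ :=
  Z x + Z x' - 2 * W y - (g (z x - z x') - r)

/-- Four points and six centres in the coordinates `z` and `w`. -/
structure SixAlg (z w : V → L) (p : Fin 4 → V) (c : Fin 4 → Fin 4 → V) : Prop where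
  symm : ∀ i j, i ≠ j → c i j = c j i
  adj : ∀ i j, i ≠ j → (z (p i) - z (c i j)) * (w (p i) - w (c i j)) = 1
  pz : ∀ i j, i ≠ j → z (p i) ≠ z (p j)
  pw : ∀ i j, i ≠ j → w (p i) ≠ w (p j)
  cz : ∀ i j k, i ≠ j → i ≠ k → j ≠ k → z (c i j) ≠ z (c i k)
  cw : ∀ i j k, i ≠ j → i ≠ k → j ≠ k → w (c i j) ≠ w (c i k)

/-- All local errors of the pattern at one place are at most `e`. -/
structure SixErr (g : L → ℝ) (r r' : ℝ) (z w : V → L) (Z W : V → ℝ) (p : Fin 4 → V)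
    (c : Fin 4 → Fin 4 → V) (e : ℝ) : Prop where
  Z0 : ∀ x, 0 ≤ Z x
  W0 : ∀ x, 0 ≤ W x
  uz : ∀ i j, i ≠ j → g (z (p i) - z (p j)) - r ≤ max (Z (p i)) (Z (p j))
  uw : ∀ i j, i ≠ j → g (w (p i) - w (p j)) - r' ≤ max (W (p i)) (W (p j))
  cz : ∀ i j k, i ≠ j → i ≠ k → j ≠ k → |chd g r z Z W (c i j) (p i) (c i k)| ≤ e
  cw : ∀ i j k, i ≠ j → i ≠ k → j ≠ k → |chd g r' w W Z (c i j) (p i) (c i k)| ≤ e
  pz : ∀ i j, i ≠ j → |chd g r z Z W (p i) (c i j) (p j)| ≤ e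
  pw : ∀ i j, i ≠ j → |chd g r' w W Z (p i) (c i j) (p j)| ≤ e
  edge : ∀ i j, i ≠ j → min (Z (p i) + W (p i)) (Z (c i j) + W (c i j)) ≤ e

variable {z w : V → L} {p : Fin 4 → V} {c : Fin 4 → Fin 4 → V}

theorem SixAlg.swap (h : SixAlg z w p c) : SixAlg w z p c :=
  ⟨h.symm, fun i j hij => (mul_comm _ _).trans (h.adj i j hij), h.pw, h.pz, h.cw, h.cz⟩

theorem SixErr.swap {g : L → ℝ} {r r' e : ℝ} {Z W : V → ℝ} (h : SixErr g r r' z w Z W p c e) :
    SixErr g r' r w z W Z p c e :=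
  ⟨h.W0, h.Z0, h.uw, h.uz, h.cw, h.cz, h.pw, h.pz, fun i j hij => by
    rw [add_comm (W _), add_comm (W _)]; exact h.edge i j hij⟩

theorem SixErr.nonneg {g : L → ℝ} {r r' e : ℝ} {Z W : V → ℝ} (h : SixErr g r r' z w Z W p c e) :
    0 ≤ e := (abs_nonneg _).trans (h.pz 0 1 (by decide))

theorem SixErr.four {g : L → ℝ} {r r' e : ℝ} {Z W : V → ℝ} (h : SixErr g r r' z w Z W p c e)
    {i j : Fin 4} (hij : i ≠ j) : min (W (p i)) (W (p j)) ≤ 3 * e := by
  have h1 := (abs_le.1 (h.pw i j hij)).2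
  have h2 := h.uw i j hij
  have h3 := h.edge i j hij
  have h4 := h.Z0 (p i)
  have h5 := h.W0 (c i j)
  have h6 := h.nonneg
  have h7 := min_add_max (W (p i)) (W (p j))
  have h8 := min_le_left (W (p i)) (W (p j))
  unfold chd at h1
  rcases min_le_iff.1 h3 with h3 | h3 <;> linarith

theorem SixErr.caseR {g : L → ℝ} {r r' e : ℝ} {Z W : V → ℝ} (h : SixErr g r r' z w Z W p c e)
    {i j k l : Fin 4} (ij : i ≠ j) (ik : i ≠ k) (il : i ≠ l) (jk : j ≠ k) (jl : j ≠ l) (kl : k ≠ l)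
    (hz : z (c i j) - z (c i k) = z (c l j) - z (c l k)) : W (p i) ≤ 5 * e := by
  have h1 := (abs_le.1 (h.cz i j k ij ik jk)).2
  have h1' := (abs_le.1 (h.cz i j k ij ik jk)).1
  have h2 := (abs_le.1 (h.cz l j k jl.symm kl.symm jk)).2
  have h3 := h.four il
  have h4 := h.edge i j ij
  have h5 := h.edge i k ik
  have := h.nonneg
  have := h.Z0 (p i)
  have := h.W0 (c i j)
  have := h.W0 (c i k)
  have := h.Z0 (c l j)
  have := h.Z0 (c l k)
  unfold chd at h1 h1' h2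
  rw [hz] at h1 h1'
  rcases min_le_iff.1 h4 with h4 | h4
  · linarith
  rcases min_le_iff.1 h5 with h5 | h5
  · linarith
  rcases min_le_iff.1 h3 with h3 | h3 <;> linarith

theorem sum_abs_le {S : Finset ι} {f e : ι → ℝ} (h : ∀ v ∈ S, f v ≤ e v) (he : ∀ v ∈ S, 0 ≤ e v)
    (h0 : 0 ≤ ∑ v ∈ S, f v) : ∑ v ∈ S, |f v| ≤ 2 * ∑ v ∈ S, e v := by
  have : ∑ v ∈ S, |f v| ≤ ∑ v ∈ S, (2 * e v - f v) := sum_le_sum fun v hv =>
    abs_le.2 ⟨by linarith [h v hv, he v hv], by linarith [h v hv]⟩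
  rw [sum_sub_distrib, ← mul_sum] at this
  linarith

/-- A finite set of places with one half of the product formula on a subring. -/
structure Sees (g : ι → L → ℝ) (S : Finset ι) (R : Subring L) : Prop where
  lg : ∀ v, IsLg (g v)
  prod : ∀ x ∈ R, x ≠ 0 → 0 ≤ ∑ v ∈ S, g v x

theorem IsLg.inv {g : L → ℝ} (h : IsLg g) {x : L} (hx : x ≠ 0) : g x⁻¹ = -g x := by
  have := h.mul x x⁻¹ hx (inv_ne_zero hx)
  rw [mul_inv_cancel₀ hx, h.one] at this
  linarith

theorem Sees.unit {g : ι → L → ℝ} {S : Finset ι} {R : Subring L} (h : Sees g S R) {x : L}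
    (hx : x ≠ 0) (hu : x ∈ R ∧ x⁻¹ ∈ R) : ∑ v ∈ S, g v x = 0 := by
  have h1 := h.prod x hu.1 hx
  have h2 := h.prod x⁻¹ hu.2 (inv_ne_zero hx)
  simp only [fun v => (h.lg v).inv hx, sum_neg_distrib] at h2
  linarith

theorem six_caseD {g : ι → L → ℝ} {S : Finset ι} {R : Subring L} (hS : Sees g S R)
    (h : SixAlg z w p c)
    {r r' e : ι → ℝ} {Z W : ι → V → ℝ}
    (he : ∀ v ∈ S, SixErr (g v) (r v) (r' v) z w (Z v) (W v) p c (e v))
    (hu : ∀ a b, z a - z b ∈ R ∧ (z a - z b)⁻¹ ∈ R)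
    {i j k l : Fin 4} (ij : i ≠ j) (ik : i ≠ k) (il : i ≠ l) (jk : j ≠ k) (jl : j ≠ l) (kl : k ≠ l)
    (hm : men6 (z (c i j)) (z (c i k)) (z (c i l)) (z (c j k)) (z (c j l)) (z (c k l)) ≠ 0) :
    ∑ v ∈ S, W v (p i) ≤ 24 * ∑ v ∈ S, e v := by
  have ji := h.symm j i ij.symm
  have ki := h.symm k i ik.symm
  have li := h.symm l i il.symm
  have kj := h.symm k j jk.symm
  have lj := h.symm l j jl.symm
  have lk := h.symm l k kl.symm
  have ab := sub_ne_zero.2 (h.cz i j k ij ik jk)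
  have ac := sub_ne_zero.2 (h.cz i j l ij il jl)
  have bc := sub_ne_zero.2 (h.cz i k l ik il kl)
  have ad := sub_ne_zero.2 (h.cz j i k ij.symm jk ik)
  have ae := sub_ne_zero.2 (h.cz j i l ij.symm jl il)
  have de := sub_ne_zero.2 (h.cz j k l jk jl kl)
  have bd := sub_ne_zero.2 (h.cz k i j ik.symm jk.symm ij)
  have bf := sub_ne_zero.2 (h.cz k i l ik.symm kl il)
  have df := sub_ne_zero.2 (h.cz k j l jk.symm kl jl)
  have ce := sub_ne_zero.2 (h.cz l i j il.symm jl.symm ij)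
  have cf := sub_ne_zero.2 (h.cz l i k il.symm kl.symm ik)
  have ef := sub_ne_zero.2 (h.cz l j k jl.symm kl.symm jk)
  simp only [ji, ki, li, kj, lj, lk] at ad ae bd bf df ce cf ef
  obtain ⟨γ, hγR, hγ, hg⟩ := six_D0 (R := R) (T := Set.range z)
    (by rintro _ ⟨a, rfl⟩ _ ⟨b, rfl⟩; exact hu a b) ⟨_, rfl⟩ ⟨_, rfl⟩ ⟨_, rfl⟩ ⟨_, rfl⟩ ⟨_, rfl⟩
    ⟨_, rfl⟩ ab ac bc ad ae de bd bf df ce cf ef hm
  have key : ∀ v ∈ S, ∃ t : ℝ, t = g v (z (c i j) - z (c j l)) + g v (z (c i j) - z (c j k)) +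
      g v (z (c i k) - z (c i l)) - g v (z (c i j) - z (c i l)) - g v (z (c i j) - z (c i k)) -
      g v (z (c j k) - z (c j l)) + g v γ ∧ g v γ ≤ 12 * e v ∧ t ≤ 6 * e v ∧
      2 * W v (p i) ≤ 12 * e v + |t| + |g v γ| := fun v hv => by
    have E := he v hv
    have eab := abs_le.1 (E.cz i j k ij ik jk)
    have eac := abs_le.1 (E.cz i j l ij il jl)
    have ebc := abs_le.1 (E.cz i k l ik il kl)
    have ead := abs_le.1 (E.cz j i k ij.symm jk ik)
    have eae := abs_le.1 (E.cz j i l ij.symm jl il)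
    have ede := abs_le.1 (E.cz j k l jk jl kl)
    have ebd := abs_le.1 (E.cz k i j ik.symm jk.symm ij)
    have ebf := abs_le.1 (E.cz k i l ik.symm kl il)
    have edf := abs_le.1 (E.cz k j l jk.symm kl jl)
    have ece := abs_le.1 (E.cz l i j il.symm jl.symm ij)
    have ecf := abs_le.1 (E.cz l i k il.symm kl.symm ik)
    have eef := abs_le.1 (E.cz l j k jl.symm kl.symm jk)
    simp only [chd, ji, ki, li, kj, lj, lk] at eab eac ebc ead eae ede ebd ebf edf ece ecf eef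
    obtain ⟨g1, g2⟩ := hg (g v) (hS.lg v)
    have e0 := E.nonneg
    have f4 := E.four ij
    refine ⟨_, rfl, g1.trans (max_le ?_ ?_), g2.trans (max_le ?_ ?_), ?_⟩
    · linarith [eab.1, ecf.1, ede.1, ebc.2, eef.2, ead.2]
    · linarith [eab.1, ece.1, edf.1, eef.2, eac.2, ebd.2, eac.1, ebf.1, ede.1, ebc.2, edf.2, eae.2]
    · linarith
    · linarith [eab.1, ece.1, edf.1, eef.2, eac.2, ebd.2]
    · have a1 := le_abs_self (g v (z (c i j) - z (c j l)) + g v (z (c i j) - z (c j k)) +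
        g v (z (c i k) - z (c i l)) - g v (z (c i j) - z (c i l)) - g v (z (c i j) - z (c i k)) -
        g v (z (c j k) - z (c j l)) + g v γ)
      have a2 := neg_abs_le (g v γ)
      have a3 := abs_nonneg (g v γ)
      rcases min_le_iff.1 f4 with f4 | f4
      · linarith [abs_nonneg (g v (z (c i j) - z (c j l)) + g v (z (c i j) - z (c j k)) +
        g v (z (c i k) - z (c i l)) - g v (z (c i j) - z (c i l)) - g v (z (c i j) - z (c i k)) -
        g v (z (c j k) - z (c j l)) + g v γ)]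
      · linarith [eae.2, ead.2, ebc.2, eac.1, eab.1, ede.1]
  choose! t ht h1 h2 h3 using key
  have e0 : ∀ v ∈ S, 0 ≤ e v := fun v hv => (he v hv).nonneg
  have s0 : 0 ≤ ∑ v ∈ S, g v γ := hS.prod γ hγR hγ
  have s1 : ∑ v ∈ S, t v = ∑ v ∈ S, g v γ := by
    rw [sum_congr rfl ht]
    simp only [sum_add_distrib, sum_sub_distrib, hS.unit ab (hu _ _), hS.unit ac (hu _ _),
      hS.unit bc (hu _ _), hS.unit ad (hu _ _), hS.unit ae (hu _ _), hS.unit de (hu _ _)]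
    ring
  have s2 := sum_abs_le h1 (fun v hv => by linarith [e0 v hv]) s0
  have s3 := sum_abs_le h2 (fun v hv => by linarith [e0 v hv]) (s1 ▸ s0)
  have s4 := sum_le_sum h3
  simp only [sum_add_distrib, ← mul_sum] at s2 s3 s4
  linarith

/-- One of the points of a pattern has small height. -/
theorem six_sum {g : ι → L → ℝ} {S : Finset ι} {R : Subring L} (hS : Sees g S R)
    (h : SixAlg z w p c)
    (hstar : ∀ a b c d e f : V, men6 (z a) (z b) (z c) (z d) (z e) (z f) = 0 ↔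
      men6 (w a) (w b) (w c) (w d) (w e) (w f) = 0)
    {r r' e : ι → ℝ} {Z W : ι → V → ℝ}
    (he : ∀ v ∈ S, SixErr (g v) (r v) (r' v) z w (Z v) (W v) p c (e v))
    (hz : ∀ a b, z a - z b ∈ R ∧ (z a - z b)⁻¹ ∈ R)
    (hw : ∀ a b, w a - w b ∈ R ∧ (w a - w b)⁻¹ ∈ R) :
    ∃ i, ∑ v ∈ S, (Z v (p i) + W v (p i)) ≤ 48 * ∑ v ∈ S, e v := by
  have D : ∀ i j k l : Fin 4, i ≠ j → i ≠ k → i ≠ l → j ≠ k → j ≠ l → k ≠ l →
      men6 (z (c i j)) (z (c i k)) (z (c i l)) (z (c j k)) (z (c j l)) (z (c k l)) ≠ 0 →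
      ∑ v ∈ S, (Z v (p i) + W v (p i)) ≤ 48 * ∑ v ∈ S, e v := fun i j k l ij ik il jk jl kl hm => by
    have h1 := six_caseD hS h he hz ij ik il jk jl kl hm
    have h2 := six_caseD hS h.swap (fun v hv => (he v hv).swap) hw ij ik il jk jl kl
      (fun h0 => hm ((hstar _ _ _ _ _ _).2 h0))
    rw [sum_add_distrib]
    linarith
  have RR : ∀ i j k l : Fin 4, i ≠ j → i ≠ k → i ≠ l → j ≠ k → j ≠ l → k ≠ l →
      men6 (z (c i j)) (z (c i k)) (z (c i l)) (z (c j k)) (z (c j l)) (z (c k l)) = 0 →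
      z (c i j) - z (c i k) = z (p j) - z (p k) ∧ w (c i j) - w (c i k) = w (p j) - w (p k) :=
    fun i j k l ij ik il jk jl kl hm => by
      have ji := h.symm j i ij.symm
      have ki := h.symm k i ik.symm
      have kj := h.symm k j jk.symm
      exact six_R (h.adj i j ij) (h.adj i k ik) (h.adj i l il) (ji ▸ h.adj j i ij.symm)
        (h.adj j k jk) (h.adj j l jl) (ki ▸ h.adj k i ik.symm) (kj ▸ h.adj k j jk.symm)
        (h.adj k l kl) (h.cz i j l ij il jl) (h.cz j k l jk jl kl)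
        (ki ▸ h.cz k i l ik.symm kl il) (ki ▸ kj ▸ h.cw k i j ik.symm jk.symm ij) (h.pw i k ik) hm
        ((hstar _ _ _ _ _ _).1 hm)
  by_cases m0 : men6 (z (c 0 1)) (z (c 0 2)) (z (c 0 3)) (z (c 1 2)) (z (c 1 3)) (z (c 2 3)) = 0
  swap
  · exact ⟨0, D 0 1 2 3 (by decide) (by decide) (by decide) (by decide) (by decide) (by decide) m0⟩
  by_cases m3 : men6 (z (c 3 1)) (z (c 3 2)) (z (c 3 0)) (z (c 1 2)) (z (c 1 0)) (z (c 2 0)) = 0
  swap
  · exact ⟨3, D 3 1 2 0 (by decide) (by decide) (by decide) (by decide) (by decide) (by decide) m3⟩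
  obtain ⟨a1, a2⟩ := RR 0 1 2 3 (by decide) (by decide) (by decide) (by decide) (by decide)
    (by decide) m0
  obtain ⟨b1, b2⟩ := RR 3 1 2 0 (by decide) (by decide) (by decide) (by decide) (by decide)
    (by decide) m3
  refine ⟨0, ?_⟩
  rw [mul_sum]
  refine sum_le_sum fun v hv => ?_
  have c1 := (he v hv).caseR (i := 0) (j := 1) (k := 2) (l := 3) (by decide) (by decide)
    (by decide) (by decide) (by decide) (by decide) (a1.trans b1.symm)
  have c2 := (he v hv).swap.caseR (i := 0) (j := 1) (k := 2) (l := 3) (by decide) (by decide)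
    (by decide) (by decide) (by decide) (by decide) (a2.trans b2.symm)
  linarith [(he v hv).nonneg]

end Pool.Agent.Lib.MP_439fea_co.Ud
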