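import Pool.Agent.Lib.MP_439fea_co.Ud.Defs
import Pool.Agent.Lib.MP_439fea_co.Ud.AlgB

/-! One point of a pattern has height bounded by the errors of the pattern. -/

namespace Pool.Agent.Lib.MP_439fea_co.Ud

open Finset
open scoped Classical

variable {L V : Type} [Field L]

theorem alg_lg {v : AbsoluteValue L ℝ} (h : NA v) : IsLg fun x => Real.log (v x) := by
  refine ⟨fun x y hx hy => ?_, fun x y hx hy hxy => ?_⟩
  · rw [v.map_mul, Real.log_mul (v.ne_zero hx) (v.ne_zero hy)]
  · rcases le_max_iff.1 (h.add x y) with k | k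
    · exact le_max_of_le_left (Real.log_le_log (v.pos hxy) k)
    · exact le_max_of_le_right (Real.log_le_log (v.pos hxy) k)

theorem alg_ultra {v : AbsoluteValue L ℝ} (h : NA v) {x y a : L} {R : ℝ} (hR : 0 < R)
    (hxy : x ≠ y) : Real.log (v (x - y)) - Real.log R ≤
      max (Real.posLog (v (x - a) / R)) (Real.posLog (v (y - a) / R)) := by
  have h0 := v.pos (sub_ne_zero.2 hxy)
  have h1 := h.add (x - a) (-(y - a))
  rw [v.map_neg, show x - a + -(y - a) = x - y by ring] at h1
  rw [← Real.log_div h0.ne' hR.ne']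
  have k : ∀ t : ℝ, v (x - y) ≤ t → Real.log (v (x - y) / R) ≤ Real.posLog (t / R) := fun t ht =>
    (Real.log_le_log (div_pos h0 hR) (div_le_div_of_nonneg_right ht hR.le)).trans (le_max_right _ _)
  rcases le_max_iff.1 h1 with h1 | h1
  · exact le_max_of_le_left (k _ h1)
  · exact le_max_of_le_right (k _ h1)

theorem alg_dz (F : Frame L V) (n : Fin F.P.n) {x x' : V} (y : V) (h : F.z x ≠ F.z x') :
    chd (fun t => Real.log (F.P.v n t)) (Real.log (F.R n)) F.z (F.Zf n) (F.Wf n) x y x' =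
      F.dz n x y x' := by
  unfold chd Frame.dz
  rw [Real.log_div ((F.P.v n).ne_zero (sub_ne_zero.2 h)) (F.Rpos n).ne']

theorem alg_dw (F : Frame L V) (n : Fin F.P.n) {x x' : V} (y : V) (h : F.w x ≠ F.w x') :
    chd (fun t => Real.log (F.P.v n t)) (Real.log (F.S n)) F.w (F.Wf n) (F.Zf n) x y x' =
      F.dw n x y x' := alg_dz F.swap n y h

/-- The error at one place. -/
noncomputable def locv (F : Frame L V) (bl : V → V → Finset V) (n : Fin F.P.n) (p c c' : V) : ℝ :=
  (|F.dz n c p c'| + |F.dw n c p c'|) + min (F.Ef n p) (F.Ef n c) +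
    ∑ p' ∈ (bl c p).erase p, (|F.dz n p c p'| + |F.dw n p c p'|)

theorem alg_perr (F : Frame L V) (bl : V → V → Finset V) (p : Fin 4 → V) (c : Fin 4 → Fin 4 → V) :
    ∑ n, perr (locv F bl n) p c = perr (F.loc bl) p c := by
  unfold perr
  rw [sum_comm]
  refine sum_congr rfl fun i _ => ?_
  rw [sum_comm]
  refine sum_congr rfl fun j _ => ?_
  rw [sum_comm]
  refine sum_congr rfl fun k _ => ?_
  split_ifs
  · simp only [locv, Frame.loc, Frame.er, Frame.mn]
    rw [sum_add_distrib, sum_add_distrib, sum_comm]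
  · simp

theorem alg_le_perr {φ : V → V → V → ℝ} (h : ∀ a b c, 0 ≤ φ a b c) (p : Fin 4 → V)
    (c : Fin 4 → Fin 4 → V) {i j k : Fin 4} (ij : i ≠ j) (ik : i ≠ k) (jk : j ≠ k) :
    φ (p i) (c i j) (c i k) ≤ perr φ p c := by
  have t : ∀ i j k : Fin 4,
      0 ≤ if i ≠ j ∧ i ≠ k ∧ j ≠ k then φ (p i) (c i j) (c i k) else 0 := fun i j k => by
    split_ifs
    · exact h _ _ _
    · exact le_rfl
  unfold perr
  refine le_trans ?_ (single_le_sum (fun i _ => sum_nonneg fun j _ => sum_nonneg fun k _ => t i j k)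
    (mem_univ i))
  refine le_trans ?_ (single_le_sum (fun j _ => sum_nonneg fun k _ => t i j k) (mem_univ j))
  refine le_trans ?_ (single_le_sum (fun k _ => t i j k) (mem_univ k))
  rw [if_pos ⟨ij, ik, jk⟩]

theorem algS : AlgS := by
  intro L _ _ V F E pt bl p c _ hR hS hP
  have hA : SixAlg F.z F.w p c := ⟨hP.symm, fun i j ij => hR.adj _ _ (hP.adj i j ij),
    fun i j ij => hR.zinj.ne (hP.ne i j ij), fun i j ij => hR.winj.ne (hP.ne i j ij),
    fun i j k ij ik jk => hR.zinj.ne (hP.cne i j k ij ik jk),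
    fun i j k ij ik jk => hR.winj.ne (hP.cne i j k ij ik jk)⟩
  have hm : ∀ a b c d e f : L, men6 a b c d e f = 0 ↔ men a b c d e f = 0 := fun a b c d e f => by
    rw [← neg_eq_zero, show -men6 a b c d e f = men a b c d e f by unfold men6 men; ring]
  have E0 : ∀ n x, 0 ≤ F.Ef n x := fun n x => add_nonneg Real.posLog_nonneg Real.posLog_nonneg
  have m0 : ∀ n x y, 0 ≤ min (F.Ef n x) (F.Ef n y) := fun n x y => le_min (E0 n x) (E0 n y)
  have s0 : ∀ n a b, 0 ≤ ∑ p' ∈ (bl b a).erase a, (|F.dz n a b p'| + |F.dw n a b p'|) :=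
    fun n a b => sum_nonneg fun _ _ => by positivity
  have l0 : ∀ n a b c, 0 ≤ locv F bl n a b c := fun n a b c =>
    add_nonneg (add_nonneg (by positivity) (m0 n a b)) (s0 n a b)
  have third : ∀ i j : Fin 4, i ≠ j → ∃ k, i ≠ k ∧ j ≠ k := by decide
  have hE : ∀ n ∈ (univ : Finset (Fin F.P.n)), SixErr (fun t => Real.log (F.P.v n t))
      (Real.log (F.R n)) (Real.log (F.S n)) F.z F.w (F.Zf n) (F.Wf n) p c
      (perr (locv F bl n) p c) := fun n _ => by
    have a : ∀ i j k, i ≠ j → i ≠ k → j ≠ k →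
        |F.dz n (c i j) (p i) (c i k)| + |F.dw n (c i j) (p i) (c i k)| ≤
          perr (locv F bl n) p c := fun i j k ij ik jk => by
      have := alg_le_perr (l0 n) p c ij ik jk
      unfold locv at this ⊢
      linarith [m0 n (p i) (c i j), s0 n (p i) (c i j)]
    have b : ∀ i j, i ≠ j → min (F.Ef n (p i)) (F.Ef n (c i j)) ≤ perr (locv F bl n) p c ∧
        |F.dz n (p i) (c i j) (p j)| + |F.dw n (p i) (c i j) (p j)| ≤ perr (locv F bl n) p c :=
      fun i j ij => by
        obtain ⟨k, ik, jk⟩ := third i j ij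
        have := alg_le_perr (l0 n) p c ij ik jk
        have q : |F.dz n (p i) (c i j) (p j)| + |F.dw n (p i) (c i j) (p j)| ≤ _ :=
          single_le_sum (f := fun p' => |F.dz n (p i) (c i j) p'| + |F.dw n (p i) (c i j) p'|)
            (fun _ _ => by positivity) (mem_erase.2 ⟨(hP.ne i j ij).symm, hP.blk i j ij⟩)
        have q1 := abs_nonneg (F.dz n (c i j) (p i) (c i k))
        have q2 := abs_nonneg (F.dw n (c i j) (p i) (c i k))
        unfold locv at this ⊢
        constructor <;> linarith [m0 n (p i) (c i j), s0 n (p i) (c i j)]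
    refine ⟨fun _ => Real.posLog_nonneg, fun _ => Real.posLog_nonneg,
      fun i j ij => alg_ultra (F.P.na n) (F.Rpos n) (hA.pz i j ij),
      fun i j ij => alg_ultra (F.P.na n) (F.Spos n) (hA.pw i j ij), fun i j k ij ik jk => ?_,
      fun i j k ij ik jk => ?_, fun i j ij => ?_, fun i j ij => ?_, fun i j ij => (b i j ij).1⟩
    · rw [alg_dz F n _ (hA.cz i j k ij ik jk)]
      exact (le_add_of_nonneg_right (abs_nonneg _)).trans (a i j k ij ik jk)
    · rw [alg_dw F n _ (hA.cw i j k ij ik jk)]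
      exact (le_add_of_nonneg_left (abs_nonneg _)).trans (a i j k ij ik jk)
    · rw [alg_dz F n _ (hA.pz i j ij)]
      exact (le_add_of_nonneg_right (abs_nonneg _)).trans (b i j ij).2
    · rw [alg_dw F n _ (hA.pw i j ij)]
      exact (le_add_of_nonneg_left (abs_nonneg _)).trans (b i j ij).2
  obtain ⟨i, hi⟩ := six_sum (g := fun n t => Real.log (F.P.v n t)) (R := F.P.A)
    ⟨fun n => alg_lg (F.P.na n), F.P.pf⟩ hA
    (fun a b c d e f => by rw [hm, hm]; exact hS a b c d e f) hE F.hz F.hw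
  refine ⟨i, ?_⟩
  rw [alg_perr] at hi
  have : 0 ≤ perr (F.loc bl) p c := by
    rw [← alg_perr]
    exact sum_nonneg fun n hn => (hE n hn).nonneg
  have e : F.ht (p i) = ∑ v, (F.Zf v (p i) + F.Wf v (p i)) := rfl
  linarith

end Pool.Agent.Lib.MP_439fea_co.Ud
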