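import Mathlib

/-! The pattern of four points and six centres: algebra and the estimate at the places. -/

namespace Pool.Agent.Lib.MP_439fea_co.Ud

open Finset

/-- The Menelaus expression of the six centres `12, 13, 14, 23, 24, 34`. -/
def men6 {L : Type} [CommRing L] (a b c d e f : L) : L :=
  (b - c) * (a - e) * (d - f) - (a - c) * (d - e) * (b - f)

variable {L : Type} [Field L]

theorem six_diff {z w b c b' c' : L} (h1 : (z - b) * (w - b') = 1) (h2 : (z - c) * (w - c') = 1) :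
    b' - c' = -((b - c) * ((w - b') * (w - c'))) := by
  linear_combination (w - b') * h2 - (w - c') * h1

theorem six_R {z1 z2 z3 w1 w2 w3 a b c d e f a' b' c' d' e' f' : L}
    (h12 : (z1 - a) * (w1 - a') = 1) (h13 : (z1 - b) * (w1 - b') = 1)
    (h14 : (z1 - c) * (w1 - c') = 1) (h21 : (z2 - a) * (w2 - a') = 1)
    (h23 : (z2 - d) * (w2 - d') = 1) (h24 : (z2 - e) * (w2 - e') = 1)
    (h31 : (z3 - b) * (w3 - b') = 1) (h32 : (z3 - d) * (w3 - d') = 1)
    (h34 : (z3 - f) * (w3 - f') = 1) (ac : a ≠ c) (de : d ≠ e) (bf : b ≠ f) (bd : b' ≠ d')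
    (n13 : w1 ≠ w3) (hz : men6 a b c d e f = 0) (hw : men6 a' b' c' d' e' f' = 0) :
    a - b = z2 - z3 ∧ a' - b' = w2 - w3 := by
  unfold men6 at hz hw
  rw [six_diff h13 h14, six_diff h21 h24, six_diff h32 h34, six_diff h12 h14, six_diff h23 h24,
    six_diff h31 h34] at hw
  have hD : (a - c) * (d - e) * (b - f) * ((w1 - c') * (w2 - e') * (w3 - f')) ≠ 0 :=
    mul_ne_zero (mul_ne_zero (mul_ne_zero (sub_ne_zero.2 ac) (sub_ne_zero.2 de)) (sub_ne_zero.2 bf))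
      (mul_ne_zero (mul_ne_zero (right_ne_zero_of_mul_eq_one h14) (right_ne_zero_of_mul_eq_one h24))
        (right_ne_zero_of_mul_eq_one h34))
  have e3 : (w1 - a') * (w2 - d') * (w3 - b') = (w2 - a') * (w3 - d') * (w1 - b') := by
    refine mul_left_cancel₀ hD ?_
    linear_combination hw + ((w1 - b') * (w1 - c') * ((w2 - a') * (w2 - e')) *
      ((w3 - d') * (w3 - f'))) * hz
  have e2 : (w1 - a') * (w2 - d') + (w1 - a') * (w3 - b') + (w2 - d') * (w3 - b') =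
      (w2 - a') * (w3 - d') + (w2 - a') * (w1 - b') + (w3 - d') * (w1 - b') := by
    linear_combination ((z1 - a) + (z2 - d) + (z3 - b)) * e3
      - (w2 - d') * (w3 - b') * h12 - (w1 - a') * (w3 - b') * h23 - (w1 - a') * (w2 - d') * h31
      + (w3 - d') * (w1 - b') * h21 + (w2 - a') * (w1 - b') * h32 + (w2 - a') * (w3 - d') * h13
  have e1 : ((w3 - b') - (w2 - a')) * ((d' - b') * (w3 - w1)) = 0 := by
    linear_combination e3 - (w3 - b') * e2
  have e0 : w3 - b' = w2 - a' := sub_eq_zero.1 ((mul_eq_zero.1 e1).resolve_right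
    (mul_ne_zero (sub_ne_zero.2 bd.symm) (sub_ne_zero.2 n13.symm)))
  refine ⟨?_, by linear_combination e0⟩
  rw [e0] at h31
  have := mul_right_cancel₀ (right_ne_zero_of_mul_eq_one h21) (h31.trans h21.symm)
  linear_combination this

/-- Logarithm of a nonarchimedean absolute value. -/
structure IsLg (g : L → ℝ) : Prop where
  mul : ∀ x y, x ≠ 0 → y ≠ 0 → g (x * y) = g x + g y
  add : ∀ x y, x ≠ 0 → y ≠ 0 → x + y ≠ 0 → g (x + y) ≤ max (g x) (g y)

theorem IsLg.one {g : L → ℝ} (h : IsLg g) : g 1 = 0 := by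
  have := h.mul 1 1 one_ne_zero one_ne_zero
  rw [mul_one] at this
  linarith

theorem IsLg.neg {g : L → ℝ} (h : IsLg g) (x : L) : g (-x) = g x := by
  rcases eq_or_ne x 0 with rfl | hx
  · rw [neg_zero]
  have h1 := h.mul (-1) (-1) (by simp) (by simp)
  have h2 := h.mul (-1) x (by simp) hx
  rw [neg_mul_neg, mul_one, h.one] at h1
  rw [neg_one_mul] at h2
  linarith

theorem IsLg.comm {g : L → ℝ} (h : IsLg g) (x y : L) : g (x - y) = g (y - x) := by
  rw [← h.neg, neg_sub]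

theorem IsLg.div3 {g : L → ℝ} (h : IsLg g) {x y z u v w : L} (hx : x ≠ 0) (hy : y ≠ 0)
    (hz : z ≠ 0) (hu : u ≠ 0) (hv : v ≠ 0) (hw : w ≠ 0) :
    g (x * y * z / (u * v * w)) = g x + g y + g z - g u - g v - g w := by
  have h0 : u * v * w ≠ 0 := mul_ne_zero (mul_ne_zero hu hv) hw
  have h1 := h.mul (x * y * z / (u * v * w)) (u * v * w)
    (div_ne_zero (mul_ne_zero (mul_ne_zero hx hy) hz) h0) h0
  rw [div_mul_cancel₀ _ h0, h.mul _ _ (mul_ne_zero hx hy) hz, h.mul _ _ hx hy,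
    h.mul _ _ (mul_ne_zero hu hv) hw, h.mul _ _ hu hv] at h1
  linarith

theorem div3_mem {R : Subring L} {x y z u v w : L} (hx : x ∈ R ∧ x⁻¹ ∈ R) (hy : y ∈ R ∧ y⁻¹ ∈ R)
    (hz : z ∈ R ∧ z⁻¹ ∈ R) (hu : u ∈ R ∧ u⁻¹ ∈ R) (hv : v ∈ R ∧ v⁻¹ ∈ R) (hw : w ∈ R ∧ w⁻¹ ∈ R) :
    -(x * y * z / (u * v * w)) ∈ R := by
  rw [div_eq_mul_inv, mul_inv, mul_inv]
  exact neg_mem (mul_mem (mul_mem (mul_mem hx.1 hy.1) hz.1) (mul_mem (mul_mem hu.2 hv.2) hw.2))

theorem six_D0 {R : Subring L} {T : Set L} (hR : ∀ x ∈ T, ∀ y ∈ T, x - y ∈ R ∧ (x - y)⁻¹ ∈ R)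
    {a b c d e f : L} (ha : a ∈ T) (hb : b ∈ T) (hc : c ∈ T) (hd : d ∈ T) (he : e ∈ T) (hf : f ∈ T)
    (ab : a - b ≠ 0) (ac : a - c ≠ 0) (bc : b - c ≠ 0)
    (ad : a - d ≠ 0) (ae : a - e ≠ 0) (de : d - e ≠ 0) (bd : b - d ≠ 0) (bf : b - f ≠ 0)
    (df : d - f ≠ 0) (ce : c - e ≠ 0) (cf : c - f ≠ 0) (ef : e - f ≠ 0)
    (hm : men6 a b c d e f ≠ 0) : ∃ γ ∈ R, γ ≠ 0 ∧ ∀ g : L → ℝ, IsLg g →
      g γ ≤ max (g (a - b) + g (c - f) + g (d - e) - g (b - c) - g (e - f) - g (a - d))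
        ((g (a - b) + g (c - e) + g (d - f) - g (e - f) - g (a - c) - g (b - d)) +
          (g (a - c) + g (b - f) + g (d - e) - g (b - c) - g (d - f) - g (a - e))) ∧
      g (a - e) + g (a - d) + g (b - c) - g (a - c) - g (a - b) - g (d - e) + g γ ≤
        max 0 (g (a - b) + g (c - e) + g (d - f) - g (e - f) - g (a - c) - g (b - d)) := by
  obtain ⟨A, hA⟩ : ∃ A, A = -((a - c) * (b - f) * (d - e) / ((b - c) * (d - f) * (a - e))) :=
    ⟨_, rfl⟩
  obtain ⟨B, hB⟩ : ∃ B, B = -((a - b) * (c - f) * (d - e) / ((b - c) * (e - f) * (a - d))) :=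
    ⟨_, rfl⟩
  obtain ⟨C, hC⟩ : ∃ C, C = -((a - b) * (c - e) * (d - f) / ((e - f) * (a - c) * (b - d))) :=
    ⟨_, rfl⟩
  have A0 : A ≠ 0 := by rw [hA]; simp [*]
  have B0 : B ≠ 0 := by rw [hB]; simp [*]
  have C0 : C ≠ 0 := by rw [hC]; simp [*]
  have k1 : B + C * A =
      (1 + C) * -((a - c) * (a - b) * (d - e) / ((a - e) * (a - d) * (b - c))) := by
    rw [hA, hB, hC]; field_simp; ring
  have k2 : 1 + B = (1 + C) * ((a - c) * (b - d) / ((b - c) * (a - d))) := by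
    rw [hB, hC]; field_simp; ring
  have q0 : -((a - c) * (a - b) * (d - e) / ((a - e) * (a - d) * (b - c))) ≠ 0 := by simp [*]
  have c1 : 1 + C ≠ 0 := fun h => by
    rw [h, zero_mul] at k1 k2
    have h2 : A = -1 := by linear_combination k2 - k1 + A * h
    rw [hA, neg_inj, div_eq_one_iff_eq (by simp [*])] at h2
    exact hm (by unfold men6; linear_combination -h2)
  have g0 : B + C * A ≠ 0 := k1 ▸ mul_ne_zero c1 q0
  have AR : A ∈ R := hA ▸ div3_mem (hR a ha c hc) (hR b hb f hf) (hR d hd e he) (hR b hb c hc)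
    (hR d hd f hf) (hR a ha e he)
  have BR : B ∈ R := hB ▸ div3_mem (hR a ha b hb) (hR c hc f hf) (hR d hd e he) (hR b hb c hc)
    (hR e he f hf) (hR a ha d hd)
  have CR : C ∈ R := hC ▸ div3_mem (hR a ha b hb) (hR c hc e he) (hR d hd f hf) (hR e he f hf)
    (hR a ha c hc) (hR b hb d hd)
  refine ⟨B + C * A, add_mem BR (mul_mem CR AR), g0, fun g hg => ?_⟩
  have gA := hg.div3 ac bf de bc df ae
  have gB := hg.div3 ab cf de bc ef ad
  have gC := hg.div3 ab ce df ef ac bd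
  rw [← hg.neg, ← hA] at gA
  rw [← hg.neg, ← hB] at gB
  rw [← hg.neg, ← hC] at gC
  have h1 := hg.add _ _ B0 (mul_ne_zero C0 A0) g0
  have h2 := hg.add _ _ one_ne_zero C0 c1
  rw [hg.mul _ _ C0 A0, gA, gB, gC] at h1
  rw [hg.one, gC] at h2
  refine ⟨h1, ?_⟩
  rw [k1, hg.mul _ _ c1 q0, hg.neg, hg.div3 ac ab de ae ad bc]
  linarith

end Pool.Agent.Lib.MP_439fea_co.Ud
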