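import Pool.Agent.Lib.MP_439fea_co.Ud.Defs
import Pool.Agent.Lib.MP_439fea_co.Z.PCons

/-! Almost all vertices of a realised expander lie in one box of area one. -/

namespace Pool.Agent.Lib.MP_439fea_co.Ud
open Finset Pool.Agent.Lib.MP_439fea_co.Z
open scoped Classical
noncomputable section

variable {V : Type}

theorem box_nb_le {A E : V → V → Prop} (h : ∀ x y, A x y → E x y) (Y : Finset V) (a : V) :
    (nb A Y a).card ≤ (nb E Y a).card :=
  card_le_card fun b hb => mem_nb.2 ⟨(mem_nb.1 hb).1, h _ _ (mem_nb.1 hb).2⟩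

theorem box_nb_add {A B E : V → V → Prop} (h : ∀ x y, E x y → A x y ∨ B x y) (Y : Finset V)
    (a : V) : (nb E Y a).card ≤ (nb A Y a).card + (nb B Y a).card := by
  refine le_trans (card_le_card fun b hb => ?_) (card_union_le _ _)
  rcases h _ _ (mem_nb.1 hb).2 with h1 | h1
  · exact mem_union_left _ (mem_nb.2 ⟨(mem_nb.1 hb).1, h1⟩)
  · exact mem_union_right _ (mem_nb.2 ⟨(mem_nb.1 hb).1, h1⟩)

theorem box_ed_add {A B E : V → V → Prop} (h : ∀ x y, E x y → A x y ∨ B x y) (X Y : Finset V) :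
    ed E X Y ≤ ed A X Y + ed B X Y := by
  simp only [ed]
  rw [← sum_add_distrib]
  exact sum_le_sum fun a _ => box_nb_add h Y a

theorem box_ed_card (E : V → V → Prop) (X Y : Finset V) :
    ed E X Y = ((X ×ˢ Y).filter fun p => E p.1 p.2).card := by
  simp only [ed, nb, card_filter]
  rw [sum_product]

theorem box_ed_compl [Fintype V] (A : V → V → Prop) (T : Finset V) :
    ed A univ univ = ed A T univ + ed A Tᶜ univ := by
  simp only [ed]
  rw [sum_add_sum_compl]

/-- If few vertices are rich in both kinds of edges, the rarer kind is rare. -/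
theorem box_few [Fintype V] {E A B : V → V → Prop} {C κ K d c : ℝ} (h : Hst E C κ K d)
    (hκ : 0 < κ) (hK : 0 < K) (hc : 0 < c) (hA : ∀ x y, A x y → E x y)
    (hB : ∀ x y, B x y → E x y) (hAB : ∀ x y, E x y → A x y ∨ B x y)
    (hAs : ∀ x y, A x y → A y x)
    (hX : ((univ.filter fun x => c * d ≤ (nb A univ x).card ∧
      c * d ≤ (nb B univ x).card).card : ℝ) ≤ c * d ^ 3)
    (hhalf : ed E univ univ ≤ 2 * ed A univ univ)
    (hsm : 2 * (c * (1 + K) * (1 + K / κ)) < κ) :
    (ed B univ univ : ℝ) ≤ c * (1 + K) * (1 + K / κ) * d ^ 4 := by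
  have hd := h.dpos
  set X := univ.filter fun x => c * d ≤ (nb A univ x).card ∧ c * d ≤ (nb B univ x).card with hXd
  set T := univ.filter fun x => (nb B univ x).card ≤ (nb A univ x).card with hT
  have hhiA : ∀ x, ((nb A univ x).card : ℝ) ≤ K * d := fun x =>
    le_trans (by exact_mod_cast box_nb_le hA univ x) (h.hi x)
  have hhiB : ∀ x, ((nb B univ x).card : ℝ) ≤ K * d := fun x =>
    le_trans (by exact_mod_cast box_nb_le hB univ x) (h.hi x)
  have hmin : (ed B T univ : ℝ) + ed A Tᶜ univ ≤ c * (1 + K) * d ^ 4 := by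
    have h1 : (ed B T univ : ℝ) ≤ ∑ x ∈ T, (c * d + if x ∈ X then K * d else 0) := by
      simp only [ed]
      push_cast
      refine sum_le_sum fun x hx => ?_
      have h2 : ((nb B univ x).card : ℝ) ≤ (nb A univ x).card := by
        exact_mod_cast (mem_filter.1 hx).2
      split_ifs with h3
      · have := hhiB x
        have : 0 < c * d := by positivity
        linarith
      · by_contra h4
        refine h3 (mem_filter.2 ⟨mem_univ _, ?_, ?_⟩) <;> linarith [not_le.1 h4]
    have h2 : (ed A Tᶜ univ : ℝ) ≤ ∑ x ∈ Tᶜ, (c * d + if x ∈ X then K * d else 0) := by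
      simp only [ed]
      push_cast
      refine sum_le_sum fun x hx => ?_
      have h2 : ((nb A univ x).card : ℝ) ≤ (nb B univ x).card := by
        have h5 : ¬ (nb B univ x).card ≤ (nb A univ x).card := fun h5 =>
          (mem_compl.1 hx) (mem_filter.2 ⟨mem_univ _, h5⟩)
        exact_mod_cast (not_le.1 h5).le
      split_ifs with h3
      · have := hhiA x
        have : 0 < c * d := by positivity
        linarith
      · by_contra h4
        refine h3 (mem_filter.2 ⟨mem_univ _, ?_, ?_⟩) <;> linarith [not_le.1 h4]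
    have h3 := sum_add_sum_compl T fun x => (c * d + if x ∈ X then K * d else 0)
    have h4 : ∑ x : V, (c * d + if x ∈ X then K * d else 0) = c * d * d ^ 3 + K * d * X.card := by
      rw [sum_add_distrib, sum_const, card_univ, nsmul_eq_mul, ← h.hd, sum_ite_mem, univ_inter,
        sum_const, nsmul_eq_mul]
      ring
    have h5 : K * d * X.card ≤ K * d * (c * d ^ 3) := by gcongr
    nlinarith
  have hcut : (ed E T Tᶜ : ℝ) ≤ c * (1 + K) * d ^ 4 := by
    have h1 := box_ed_add hAB T Tᶜ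
    rw [ed_comm hAs] at h1
    have h2 : ed A Tᶜ T ≤ ed A Tᶜ univ := ed_mono Subset.rfl (subset_univ _)
    have h3 : ed B T Tᶜ ≤ ed B T univ := ed_mono Subset.rfl (subset_univ _)
    have h4 : (ed E T Tᶜ : ℝ) ≤ ed B T univ + ed A Tᶜ univ := by
      have : ed E T Tᶜ ≤ ed B T univ + ed A Tᶜ univ := by omega
      exact_mod_cast this
    linarith
  have hsmall : ∀ (F : V → V → Prop) (U : Finset V), (∀ x, ((nb F univ x).card : ℝ) ≤ K * d) →
      κ * d * U.card ≤ c * (1 + K) * d ^ 4 →
      (ed F U univ : ℝ) ≤ c * (1 + K) * (K / κ) * d ^ 4 := by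
    intro F U hF hU
    have h1 := ed_le_card_mul (E := F) U univ fun y _ => hF y
    have h2 : K * d * U.card = K / κ * (κ * d * U.card) := by field_simp
    have h3 : K / κ * (κ * d * U.card) ≤ K / κ * (c * (1 + K) * d ^ 4) := by gcongr
    nlinarith
  have hA0 : (0 : ℝ) ≤ ed A Tᶜ univ := Nat.cast_nonneg _
  have hB0 : (0 : ℝ) ≤ ed B T univ := Nat.cast_nonneg _
  by_cases hTc : 2 * T.card ≤ Fintype.card V
  · exfalso
    have h1 := hsmall A T hhiA ((h.ex T hTc).trans hcut)
    have h2 : (ed A univ univ : ℝ) = ed A T univ + ed A Tᶜ univ := by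
      exact_mod_cast box_ed_compl A T
    have h3 := card_mul_le_ed (E := E) univ univ fun y _ => h.lo y
    rw [card_univ, ← h.hd] at h3
    have h4 : (ed E univ univ : ℝ) ≤ 2 * ed A univ univ := by exact_mod_cast hhalf
    have h5 : 2 * (c * (1 + K) * (1 + K / κ)) * d ^ 4 < κ * d ^ 4 := by gcongr
    nlinarith
  · have h0 : 2 * Tᶜ.card ≤ Fintype.card V := by
      have := card_add_card_compl T
      omega
    have h1 := h.ex Tᶜ h0
    rw [compl_compl, ed_comm h.symm] at h1
    have h2 := hsmall B Tᶜ hhiB (h1.trans hcut)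
    have h3 : (ed B univ univ : ℝ) = ed B T univ + ed B Tᶜ univ := by
      exact_mod_cast box_ed_compl B T
    nlinarith

/-- If few edges join different classes, one class holds almost all vertices. -/
theorem box_giant [Fintype V] {Λ : Type} {E B : V → V → Prop} {C κ K d δ : ℝ}
    (h : Hst E C κ K d) (lab : V → Λ) (hB : ∀ x y, E x y → lab x ≠ lab y → B x y)
    (hδ : (ed B univ univ : ℝ) ≤ δ * d ^ 4) (hsm : δ < κ) :
    ∃ a, κ * ((univ.filter fun x => lab x ≠ lab a).card : ℝ) ≤ δ * d ^ 3 := by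
  have hd := h.dpos
  have hout : ∀ l : Λ, ed E (univ.filter fun x => lab x = l) (univ.filter fun x => lab x = l)ᶜ ≤
      ed B (univ.filter fun x => lab x = l) univ := by
    intro l
    simp only [ed]
    refine sum_le_sum fun x hx => card_le_card fun y hy => ?_
    obtain ⟨h1, h2⟩ := mem_nb.1 hy
    refine mem_nb.2 ⟨mem_univ _, hB _ _ h2 fun h3 => (mem_compl.1 h1) ?_⟩
    exact mem_filter.2 ⟨mem_univ _, h3 ▸ (mem_filter.1 hx).2⟩
  by_cases hex : ∃ a, 2 * (univ.filter fun x => lab x = lab a)ᶜ.card ≤ Fintype.card V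
  · obtain ⟨a, ha⟩ := hex
    refine ⟨a, ?_⟩
    have h1 := h.ex _ ha
    rw [compl_compl, ed_comm h.symm] at h1
    have h2 : (ed E (univ.filter fun x => lab x = lab a) (univ.filter fun x => lab x = lab a)ᶜ : ℝ)
        ≤ ed B univ univ := by
      exact_mod_cast (hout (lab a)).trans (ed_mono (subset_univ _) Subset.rfl)
    have h3 : (univ.filter fun x => lab x ≠ lab a) = (univ.filter fun x => lab x = lab a)ᶜ := by
      ext x
      simp
    rw [h3]
    refine le_of_mul_le_mul_right ?_ hd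
    nlinarith
  · exfalso
    push Not at hex
    have h1 : ∀ l ∈ univ.image lab, κ * d * ((univ.filter fun x => lab x = l).card : ℝ) ≤
        ed B (univ.filter fun x => lab x = l) univ := by
      intro l hl
      obtain ⟨a, -, rfl⟩ := mem_image.1 hl
      have h2 := hex a
      have h3 := card_add_card_compl (univ.filter fun x => lab x = lab a)
      exact (h.ex _ (by omega)).trans (by exact_mod_cast hout (lab a))
    have hmaps : ∀ a ∈ (univ : Finset V), lab a ∈ univ.image lab := fun a ha =>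
      mem_image_of_mem _ ha
    have e1 : ed B univ univ = ∑ l ∈ univ.image lab, ed B (univ.filter fun x => lab x = l) univ := by
      simp only [ed]
      rw [sum_fiberwise_of_maps_to hmaps]
    have e2 : Fintype.card V = ∑ l ∈ univ.image lab, (univ.filter fun x => lab x = l).card :=
      card_eq_sum_card_fiberwise hmaps
    have h2 := sum_le_sum h1
    rw [← mul_sum, ← Nat.cast_sum, ← Nat.cast_sum, ← e1, ← e2, ← h.hd] at h2
    have h5 : δ * d ^ 4 < κ * d ^ 4 := by gcongr
    nlinarith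

/-- A median of a real function on a nonempty finite set. -/
theorem box_median {α : Type} (F : Finset α) (hF : F.Nonempty) (f : α → ℝ) :
    ∃ e ∈ F, F.card ≤ 2 * (F.filter fun x => f x ≤ f e).card ∧
      F.card ≤ 2 * (F.filter fun x => f e ≤ f x).card := by
  have hne : (F.filter fun e => F.card ≤ 2 * (F.filter fun x => f x ≤ f e).card).Nonempty := by
    obtain ⟨e, he, hm⟩ := exists_max_image F f hF
    refine ⟨e, mem_filter.2 ⟨he, ?_⟩⟩
    rw [filter_true_of_mem hm]
    omega
  obtain ⟨e, he, hm⟩ := exists_min_image _ f hne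
  obtain ⟨he1, he2⟩ := mem_filter.1 he
  refine ⟨e, he1, he2, ?_⟩
  have h1 := card_filter_add_card_filter_not (s := F) fun x => f e ≤ f x
  rcases (F.filter fun x => ¬ f e ≤ f x).eq_empty_or_nonempty with h0 | h0
  · rw [h0, card_empty] at h1
    omega
  · obtain ⟨e', he', hm'⟩ := exists_max_image _ f h0
    obtain ⟨he3, he4⟩ := mem_filter.1 he'
    by_contra h2
    refine he4 (hm e' (mem_filter.2 ⟨he3, ?_⟩))
    have h3 : (F.filter fun x => ¬ f e ≤ f x).card ≤ (F.filter fun x => f x ≤ f e').card :=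
      card_le_card fun x hx => mem_filter.2 ⟨(mem_filter.1 hx).1, hm' x hx⟩
    omega

theorem box_tri {K : Type} [Field K] {v : AbsoluteValue K ℝ} (hv : NA v) (a b c : K) :
    v (a - c) ≤ max (v (a - b)) (v (b - c)) := by
  have := hv.add (a - b) (b - c)
  rwa [sub_add_sub_cancel] at this

theorem box_lab (r : V → V → Prop) (h : Equivalence r) :
    ∃ (Λ : Type) (lab : V → Λ), ∀ x y, lab x = lab y ↔ r x y :=
  ⟨Quotient ⟨r, h⟩, Quotient.mk _, fun _ _ => Quotient.eq⟩

theorem box_ed_ge (E : V → V → Prop) (X Y : Finset V) (F : Finset (V × V))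
    (h : ∀ p ∈ F, p.1 ∈ X ∧ p.2 ∈ Y ∧ E p.1 p.2) : F.card ≤ ed E X Y := by
  rw [box_ed_card]
  exact card_le_card fun p hp => mem_filter.2 ⟨mem_product.2 ⟨(h p hp).1, (h p hp).2.1⟩, (h p hp).2.2⟩

/-- One column holds almost all vertices when half of the edges are short. -/
theorem box_col (Q : ∀ (K : Type) [Field K], AbsoluteValue K ℝ → Prop) (h0 : E0S) (h2 : TwoDS Q)
    {C κ K0 ε : ℝ} (hC : 1 ≤ C) (hκ : 0 < κ) (hK : 0 < K0) (hε : 0 < ε) : ∃ d0 : ℝ,
    ∀ (K : Type) [Field K] [CharZero K] (v : AbsoluteValue K ℝ) (V : Type) [Fintype V]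
      (E : V → V → Prop) (d : ℝ) (z w : V → K),
      d0 ≤ d → NA v → Q K v → Hst E C κ K0 d → Re E z w →
      ed E univ univ ≤ 2 * ed (fun x y => E x y ∧ v (z x - z y) ≤ 1) univ univ →
      ∃ a : K, ((univ.filter fun x => 1 < v (z x - a)).card : ℝ) ≤ ε * d ^ 3 := by
  set M : ℝ := (1 + K0) * (1 + K0 / κ) with hM
  have hM0 : 0 < M := by positivity
  set c : ℝ := min (1 / 4) ε * κ / M with hc
  have hm0 : 0 < min (1 / 4) ε := lt_min (by norm_num) hε
  have hc0 : 0 < c := by positivity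
  have hcM : c * (1 + K0) * (1 + K0 / κ) = min (1 / 4) ε * κ := by
    rw [mul_assoc, ← hM, hc]
    field_simp
  obtain ⟨η, hη, ρ1, hE⟩ := h0 C 1 (c ^ 2 / 2) hC one_pos (by positivity)
  obtain ⟨ρ2, hT⟩ := h2 C (min c η) hC (lt_min hc0 hη)
  refine ⟨max ρ1 ρ2, fun K _ _ v V _ E d z w hd hv hQ h hR hhalf => ?_⟩
  have hd0 := h.dpos
  have hamb : Amb E C d := ⟨h.symm, h.st, h.hd.ge⟩
  set A : V → V → Prop := fun x y => E x y ∧ v (z x - z y) ≤ 1 with hA
  set B : V → V → Prop := fun x y => E x y ∧ 1 < v (z x - z y) with hB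
  have hBw : ∀ x y, B x y → v (w x - w y) < 1 := by
    intro x y hxy
    have h1 : v (z x - z y) * v (w x - w y) = 1 := by rw [← v.map_mul, hR.adj _ _ hxy.1, v.map_one]
    by_contra h3
    have h4 := not_lt.1 h3
    nlinarith [hxy.2]
  set X := univ.filter fun x => c * d ≤ (nb A univ x).card ∧ c * d ≤ (nb B univ x).card with hX
  have hXc : (X.card : ℝ) ≤ c * d ^ 3 := by
    by_contra hX1
    have hX2 := not_le.1 hX1
    obtain ⟨Λ, lab, hlab⟩ := box_lab (fun x y => v (w x - w y) < 1)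
      ⟨fun x => by simp, fun h1 => by rwa [v.map_sub], fun h1 h3 =>
        (box_tri hv _ _ _).trans_lt (max_lt h1 h3)⟩
    have hl1 : ∀ x y, v (w x - w y) < 1 → lab x = lab y := fun x y => (hlab x y).2
    have hl2 : ∀ x y, lab x = lab y → v (w x - w y) < 1 := fun x y => (hlab x y).1
    have h3 := hE V E B d X Λ lab ((le_max_left _ _).trans hd) hamb (fun _ _ hb => hb.1)
      (fun y => by
        refine Nat.cast_le_one.2 (card_le_one.2 fun l hl l' hl' => ?_)
        simp only [mem_image, mem_filter] at hl hl'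
        obtain ⟨x, hx, rfl⟩ := hl
        obtain ⟨x', hx', rfl⟩ := hl'
        rw [hl1 _ _ (hBw _ _ hx.2), hl1 _ _ (hBw _ _ hx'.2)])
    by_cases h4 : ∀ x ∈ X, ((fib X lab x).card : ℝ) ≤ η * d ^ 3
    · rw [filter_true_of_mem h4] at h3
      have h5 := card_mul_le_ed (E := B) X univ fun y hy => (mem_filter.1 hy).2.2
      have h6 : c * d * (c * d ^ 3) < c * d * X.card := by gcongr
      have h7 : 0 < c ^ 2 * d ^ 4 := by positivity
      nlinarith
    · push Not at h4
      obtain ⟨x, hx, h5⟩ := h4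
      have h6 : min c η * d ≤ c * d := by gcongr; exact min_le_left _ _
      refine hT K v V E d (fib X lab x) z w ((le_max_right _ _).trans hd) hv hQ hamb hR
        (le_trans (by gcongr; exact min_le_right _ _) h5.le) (fun a ha b hb => ?_)
        (fun a ha => ?_) (fun a ha => ?_)
      · exact hl2 _ _ ((mem_filter.1 ha).2.trans (mem_filter.1 hb).2.symm)
      · exact h6.trans (mem_filter.1 (mem_filter.1 ha).1).2.1
      · exact h6.trans (mem_filter.1 (mem_filter.1 ha).1).2.2
  have hm1 : min (1 / 4) ε * κ ≤ 1 / 4 * κ := by gcongr; exact min_le_left _ _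
  have hm2 : min (1 / 4) ε * κ ≤ ε * κ := by gcongr; exact min_le_right _ _
  have hfew := box_few (A := A) (B := B) h hκ hK hc0 (fun _ _ ha => ha.1) (fun _ _ hb => hb.1)
    (fun x y hxy => (le_or_gt (v (z x - z y)) 1).imp (fun h1 => ⟨hxy, h1⟩) fun h1 => ⟨hxy, h1⟩)
    (fun x y hxy => ⟨h.symm _ _ hxy.1, by rw [v.map_sub]; exact hxy.2⟩) hXc hhalf
    (by rw [hcM]; linarith)
  rw [hcM] at hfew
  obtain ⟨Λ, lab, hlab⟩ := box_lab (fun x y => v (z x - z y) ≤ 1)
    ⟨fun x => by simp, fun h1 => by rwa [v.map_sub], fun h1 h3 =>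
      (box_tri hv _ _ _).trans (max_le h1 h3)⟩
  have hl1 : ∀ x y, v (z x - z y) ≤ 1 → lab x = lab y := fun x y => (hlab x y).2
  have hl2 : ∀ x y, lab x = lab y → v (z x - z y) ≤ 1 := fun x y => (hlab x y).1
  obtain ⟨a, ha⟩ := box_giant (B := B) h lab
    (fun x y hxy hne => ⟨hxy, not_le.1 fun h1 => hne (hl1 _ _ h1)⟩) hfew (by linarith)
  refine ⟨z a, ?_⟩
  have h1 : ((univ.filter fun x => 1 < v (z x - z a)).card : ℝ) ≤
      (univ.filter fun x => lab x ≠ lab a).card := by
    refine Nat.cast_le.2 (card_le_card fun x hx => ?_)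
    exact mem_filter.2 ⟨mem_univ _, fun h1 => (not_le.2 (mem_filter.1 hx).2) (hl2 _ _ h1)⟩
  refine h1.trans (le_of_mul_le_mul_left (ha.trans ?_) hκ)
  have h3 : min (1 / 4) ε * κ * d ^ 3 ≤ ε * κ * d ^ 3 := by gcongr
  linarith

theorem box_scale {K : Type} [Field K] {E : V → V → Prop} {z w : V → K} (h : Re E z w) {t : K}
    (ht : t ≠ 0) : Re E (fun x => z x / t) (fun x => w x * t) where
  zinj := fun a b hab => h.zinj ((div_left_inj' ht).1 hab)
  winj := fun a b hab => h.winj (mul_right_cancel₀ ht hab)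
  adj := fun a b hab => by
    have := h.adj a b hab
    field_simp
    linear_combination this

theorem boxS (Q : ∀ (K : Type) [Field K], AbsoluteValue K ℝ → Prop) (h0 : E0S) (_hS : SmallS)
    (h2 : TwoDS Q) : BoxS Q := by
  intro C κ K0 ε hC hκ hK hε
  obtain ⟨d0, hcol⟩ := box_col Q h0 h2 hC hκ hK (half_pos hε)
  refine ⟨d0, fun K _ _ v V _ E d z w hd hv hQ h hR => ?_⟩
  have hd0 := h.dpos
  have hF : (((univ : Finset V) ×ˢ univ).filter fun p => E p.1 p.2).Nonempty := by
    rw [← card_pos, ← box_ed_card]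
    have h3 := card_mul_le_ed (E := E) univ univ fun y _ => h.lo y
    rw [card_univ, ← h.hd] at h3
    have h4 : (0 : ℝ) < ed E univ univ := lt_of_lt_of_le (by positivity) h3
    exact_mod_cast h4
  obtain ⟨e, he, hm1, hm2⟩ := box_median _ hF fun p => v (z p.1 - z p.2)
  set t : K := z e.1 - z e.2 with ht
  have ht0 : t ≠ 0 := left_ne_zero_of_mul_eq_one (hR.adj _ _ (mem_filter.1 he).2)
  have hvt : 0 < v t := v.pos ht0
  have hR' : Re E w z := ⟨hR.winj, hR.zinj, fun a b hab => by rw [mul_comm]; exact hR.adj a b hab⟩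
  obtain ⟨a, ha⟩ := hcol K v V E d _ _ hd hv hQ h (box_scale hR ht0) (by
    rw [box_ed_card]
    refine hm1.trans (Nat.mul_le_mul_left _ (box_ed_ge _ _ _ _ fun p hp => ?_))
    obtain ⟨hp1, hp2⟩ := mem_filter.1 hp
    refine ⟨mem_univ _, mem_univ _, (mem_filter.1 hp1).2, ?_⟩
    rw [← sub_div, map_div₀, div_le_one hvt]
    exact hp2)
  obtain ⟨b, hb⟩ := hcol K v V E d _ _ hd hv hQ h (box_scale hR' (inv_ne_zero ht0)) (by
    rw [box_ed_card]
    refine hm2.trans (Nat.mul_le_mul_left _ (box_ed_ge _ _ _ _ fun p hp => ?_))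
    obtain ⟨hp1, hp2⟩ := mem_filter.1 hp
    refine ⟨mem_univ _, mem_univ _, (mem_filter.1 hp1).2, ?_⟩
    have h1 : v (z p.1 - z p.2) * v (w p.1 - w p.2) = 1 := by
      rw [← v.map_mul, hR.adj _ _ (mem_filter.1 hp1).2, v.map_one]
    rw [← sub_div, div_inv_eq_mul, v.map_mul, ← h1, mul_comm]
    exact mul_le_mul_of_nonneg_right hp2 (v.nonneg _))
  refine ⟨a * t, b * t⁻¹, v t, (v t)⁻¹, hvt, inv_pos.2 hvt, mul_inv_cancel₀ hvt.ne', ?_⟩
  have hsub : (univ.filter fun x => v t < v (z x - a * t) ∨ (v t)⁻¹ < v (w x - b * t⁻¹)) ⊆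
      (univ.filter fun x => 1 < v (z x / t - a)) ∪ univ.filter fun x => 1 < v (w x / t⁻¹ - b) := by
    intro x hx
    rcases (mem_filter.1 hx).2 with h1 | h1
    · refine mem_union_left _ (mem_filter.2 ⟨mem_univ _, ?_⟩)
      have h3 : z x / t - a = (z x - a * t) / t := by field_simp
      rw [h3, map_div₀, one_lt_div hvt]
      exact h1
    · refine mem_union_right _ (mem_filter.2 ⟨mem_univ _, ?_⟩)
      have h3 : w x / t⁻¹ - b = (w x - b * t⁻¹) / t⁻¹ := by field_simp
      rw [h3, map_div₀, map_inv₀, one_lt_div (inv_pos.2 hvt)]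
      exact h1
  have h3 := (card_le_card hsub).trans (card_union_le _ _)
  have h4 : ((univ.filter fun x => v t < v (z x - a * t) ∨
      (v t)⁻¹ < v (w x - b * t⁻¹)).card : ℝ) ≤ (univ.filter fun x => 1 < v (z x / t - a)).card +
      (univ.filter fun x => 1 < v (w x / t⁻¹ - b)).card := by exact_mod_cast h3
  linarith

end
end Pool.Agent.Lib.MP_439fea_co.Ud
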