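import Pool.Agent.Lib.MP_439fea_co.Z.Defs

/-! Definitions and exit statements for the bound on unit distances. -/

namespace Pool.Agent.Lib.MP_439fea_co.Ud
open Finset Pool.Agent.Lib.MP_439fea_co.Z
open scoped Classical
noncomputable section

variable {V : Type}

/-- Fibre of a labelling inside `X`. -/
def fib {Λ : Type} (X : Finset V) (f : V → Λ) (a : V) : Finset V := X.filter fun b => f b = f a

/-- Ambient graph at scale `ρ`. -/
structure Amb [Fintype V] (E : V → V → Prop) (C ρ : ℝ) : Prop where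
  symm : ∀ a b, E a b → E b a
  st : ST E C
  card : (Fintype.card V : ℝ) ≤ ρ ^ 3

/-- A family of flags in which every point of `X` has degree at least `t`. -/
structure Fam [Fintype V] (E A : V → V → Prop) (X : Finset V) (t : ℝ) : Prop where
  sub : ∀ a b, A a b → E a b
  deg : ∀ a ∈ X, t ≤ (nb A univ a).card

/-- Pseudo-ultrametric. -/
structure PUM (d : V → V → ℝ) : Prop where
  nonneg : ∀ a b, 0 ≤ d a b
  refl : ∀ a, d a a = 0
  symm : ∀ a b, d a b = d b a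
  ultra : ∀ a b c, d a c ≤ max (d a b) (d b c)

/-- The fibres of `lab` in `X` are clusters for `d`. -/
def Clu {Λ : Type} (X : Finset V) (d : V → V → ℝ) (lab : V → Λ) : Prop :=
  ∀ a ∈ X, ∀ b ∈ X, ∀ c ∈ X, lab a = lab b → lab a ≠ lab c → d a b < d a c

/-- Nonarchimedean absolute value that is trivial on the integers. -/
structure NA {K : Type} [Field K] (v : AbsoluteValue K ℝ) : Prop where
  add : ∀ x y, v (x + y) ≤ max (v x) (v y)
  nat : ∀ n : ℕ, n ≠ 0 → v n = 1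

/-- Discrete value group. -/
def Disc {K : Type} [Field K] (v : AbsoluteValue K ℝ) : Prop :=
  ∃ p : K, p ≠ 0 ∧ v p < 1 ∧ ∀ x, x ≠ 0 → ∃ k : ℤ, v x = v p ^ k

/-- No condition on the absolute value. -/
def QT (K : Type) [Field K] (_ : AbsoluteValue K ℝ) : Prop := True

/-- Discreteness as a condition on the absolute value. -/
def QD (K : Type) [Field K] (v : AbsoluteValue K ℝ) : Prop := Disc v

/-- Realisation by unit distances in the coordinates `z`, `w`. -/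
structure Re {K : Type} [Field K] (E : V → V → Prop) (z w : V → K) : Prop where
  zinj : Function.Injective z
  winj : Function.Injective w
  adj : ∀ a b, E a b → (z a - z b) * (w a - w b) = 1

/-- Almost regular edge expander on `d ^ 3` vertices. -/
structure Hst [Fintype V] (E : V → V → Prop) (C κ K d : ℝ) : Prop where
  symm : ∀ a b, E a b → E b a
  k22 : ∀ a a' b b', a ≠ a' → E a b → E a' b → E a b' → E a' b' → b = b'
  st : ST E C
  dpos : 0 < d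
  hd : d ^ 3 = Fintype.card V
  lo : ∀ a, κ * d ≤ (nb E univ a).card
  hi : ∀ a, ((nb E univ a).card : ℝ) ≤ K * d
  ex : ∀ T : Finset V, 2 * T.card ≤ Fintype.card V → κ * d * T.card ≤ ed E T Tᶜ

/-- Every edge joins a point to a centre. -/
def Bip (E : V → V → Prop) (pt : V → Prop) : Prop := ∀ a b, E a b → (pt a ↔ ¬ pt b)

/-- The neighbours of each centre are grouped in blocks of four points. -/
structure Blk (E : V → V → Prop) (pt : V → Prop) (bl : V → V → Finset V) : Prop where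
  bip : Bip E pt
  mem : ∀ p c, pt p → E p c → p ∈ bl c p
  card : ∀ p c, pt p → E p c → (bl c p).card = 4
  adj : ∀ p c, pt p → E p c → ∀ p' ∈ bl c p, E p' c ∧ bl c p' = bl c p

/-- Few small cells, every block inside a cell. -/
structure Cell [Fintype V] (E : V → V → Prop) (pt : V → Prop) (bl : V → V → Finset V)
    (lab : V → ℕ) (K d : ℝ) : Prop where
  few : ((univ.image lab).card : ℝ) ≤ K * d ^ 2
  small : ∀ a, ((fib (univ.filter pt) lab a).card : ℝ) ≤ K * d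
  ins : ∀ p c, pt p → E p c → ∀ p' ∈ bl c p, lab p' = lab p

/-- Four points, pairwise in a block, with their six centres. -/
structure Pat (E : V → V → Prop) (pt : V → Prop) (bl : V → V → Finset V)
    (p : Fin 4 → V) (c : Fin 4 → Fin 4 → V) : Prop where
  pts : ∀ i, pt (p i)
  symm : ∀ i j, i ≠ j → c i j = c j i
  adj : ∀ i j, i ≠ j → E (p i) (c i j)
  blk : ∀ i j, i ≠ j → p j ∈ bl (c i j) (p i)
  ne : ∀ i j, i ≠ j → p i ≠ p j
  cne : ∀ i j k, i ≠ j → i ≠ k → j ≠ k → c i j ≠ c i k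

/-- Total weight of the cherries of a pattern. -/
def perr (φ : V → V → V → ℝ) (p : Fin 4 → V) (c : Fin 4 → Fin 4 → V) : ℝ :=
  ∑ i, ∑ j, ∑ k, if i ≠ j ∧ i ≠ k ∧ j ≠ k then φ (p i) (c i j) (c i k) else 0

/-- Total weight of all cherries with a point in the middle. -/
def chs [Fintype V] (E : V → V → Prop) (pt : V → Prop) (φ : V → V → V → ℝ) : ℝ :=
  ∑ p ∈ univ.filter pt, ∑ c ∈ nb E univ p, ∑ c' ∈ (nb E univ p).erase c, φ p c c'

/-- For every weight some pattern has at most average weight. -/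
def Rich [Fintype V] (E : V → V → Prop) (pt : V → Prop) (bl : V → V → Finset V) (K d : ℝ) : Prop :=
  ∀ φ : V → V → V → ℝ, (∀ p c c', 0 ≤ φ p c c') →
    ∃ p c, Pat E pt bl p c ∧ d ^ 5 * perr φ p c ≤ K * chs E pt φ

/-- The polynomial that vanishes when the Menelaus product is `-1`. -/
def men {K : Type} [Field K] (x12 x13 x14 x23 x24 x34 : K) : K :=
  (x13 - x14) * (x24 - x12) * (x23 - x34) + (x23 - x24) * (x34 - x13) * (x14 - x12)

/-- The two coordinates satisfy the Menelaus relation together. -/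
def Star {K : Type} [Field K] (z w : V → K) : Prop :=
  ∀ a b c d e f, men (z a) (z b) (z c) (z d) (z e) (z f) = 0 ↔
    men (w a) (w b) (w c) (w d) (w e) (w f) = 0

/-- Finitely many places with one half of the product formula on a subring. -/
structure Plc (L : Type) [Field L] where
  A : Subring L
  n : ℕ
  v : Fin n → AbsoluteValue L ℝ
  na : ∀ i, NA (v i)
  pf : ∀ a ∈ A, a ≠ 0 → 0 ≤ ∑ i, Real.log (v i a)

/-- All differences of coordinates and their inverses lie in the subring. -/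
def Plc.Has {L : Type} [Field L] (P : Plc L) (z : V → L) : Prop :=
  ∀ a b, z a - z b ∈ P.A ∧ (z a - z b)⁻¹ ∈ P.A

/-- Coordinates, places and one box of area one at every place. -/
structure Frame (L V : Type) [Field L] where
  P : Plc L
  z : V → L
  w : V → L
  hz : P.Has z
  hw : P.Has w
  a : Fin P.n → L
  b : Fin P.n → L
  R : Fin P.n → ℝ
  S : Fin P.n → ℝ
  Rpos : ∀ i, 0 < R i
  Spos : ∀ i, 0 < S i
  RS : ∀ i, R i * S i = 1

namespace Frame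
variable {L : Type} [Field L] (F : Frame L V)

/-- Exchange of the two coordinates. -/
def swap : Frame L V where
  P := F.P
  z := F.w
  w := F.z
  hz := F.hw
  hw := F.hz
  a := F.b
  b := F.a
  R := F.S
  S := F.R
  Rpos := F.Spos
  Spos := F.Rpos
  RS := fun i => (mul_comm _ _).trans (F.RS i)

def Zf (i : Fin F.P.n) (x : V) : ℝ := Real.posLog (F.P.v i (F.z x - F.a i) / F.R i)
def Wf (i : Fin F.P.n) (x : V) : ℝ := Real.posLog (F.P.v i (F.w x - F.b i) / F.S i)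
def Ef (i : Fin F.P.n) (x : V) : ℝ := F.Zf i x + F.Wf i x
def dz (i : Fin F.P.n) (x y x' : V) : ℝ :=
  F.Zf i x + F.Zf i x' - 2 * F.Wf i y - Real.log (F.P.v i (F.z x - F.z x') / F.R i)
def dw (i : Fin F.P.n) (x y x' : V) : ℝ :=
  F.Wf i x + F.Wf i x' - 2 * F.Zf i y - Real.log (F.P.v i (F.w x - F.w x') / F.S i)
def ht (x : V) : ℝ := ∑ i, F.Ef i x
def er (x y x' : V) : ℝ := ∑ i, (|F.dz i x y x'| + |F.dw i x y x'|)
def mn (x y : V) : ℝ := ∑ i, min (F.Ef i x) (F.Ef i y)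
/-- The error attached to a point and two of its centres. -/
def loc (bl : V → V → Finset V) (p c c' : V) : ℝ :=
  F.er c p c' + F.mn p c + ∑ p' ∈ (bl c p).erase p, F.er p c p'

end Frame

/-- Unit distances across the line `im = t` inside the strip `s ≤ re < s + 1`. -/
def Wn (s t : ℝ) (p q : ℂ) : Prop :=
  s ≤ p.re ∧ p.re < s + 1 ∧ s ≤ q.re ∧ q.re < s + 1 ∧ (p.im < t ↔ ¬ q.im < t) ∧
    Complex.normSq (p - q) = 1

/-- Ordered pairs at squared distance `τ`. -/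
def ud (A : Finset ℂ) (τ : ℝ) : ℕ := ed (fun p q : ℂ => Complex.normSq (p - q) = τ) A A

/-! ### Exit statements -/

/-- Section 0: geometry. -/
def PlS : Prop := ∀ s t : ℝ, PL (Wn s t)

/-- Section 0: incidence bound. -/
def StS : Prop := ∃ C : ℝ, 1 ≤ C ∧ ∀ (V : Type) (E : V → V → Prop), PL E → ST E C

/-- Small sets carry few edges. -/
def SmallS : Prop := ∀ C θ : ℝ, 1 ≤ C → 0 < θ → ∃ δ : ℝ, 0 < δ ∧ ∃ ρ0 : ℝ,
  ∀ (V : Type) [Fintype V] (E : V → V → Prop) (ρ : ℝ) (S : Finset V), ρ0 ≤ ρ → Amb E C ρ →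
    (S.card : ℝ) ≤ δ * ρ ^ 3 → (ed E S univ : ℝ) ≤ θ * ρ ^ 4 ∧ (ed E S S : ℝ) ≤ θ * ρ * S.card

/-- Edges at vertices with many neighbours in `S`. -/
def RichS : Prop := ∀ (V : Type) (E : V → V → Prop) (C j : ℝ) (S T : Finset V), 1 ≤ C →
  (∀ a b, E a b → E b a) → ST E C → 2 * C ≤ j → (∀ y ∈ T, j ≤ (nb E S y).card) →
    (ed E S T : ℝ) ≤ 2 * C * (4 * C ^ 2 * (S.card : ℝ) ^ 2 / j ^ 2 + S.card)

/-- Light fibres carry few flags. -/
def E0S : Prop := ∀ C J θ : ℝ, 1 ≤ C → 0 < J → 0 < θ → ∃ η : ℝ, 0 < η ∧ ∃ ρ0 : ℝ,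
  ∀ (V : Type) [Fintype V] (E A : V → V → Prop) (ρ : ℝ) (X : Finset V) (Λ : Type) (lab : V → Λ),
    ρ0 ≤ ρ → Amb E C ρ → (∀ a b, A a b → E a b) →
    (∀ y, (((X.filter fun x => A x y).image lab).card : ℝ) ≤ J) →
    (ed A (X.filter fun x => ((fib X lab x).card : ℝ) ≤ η * ρ ^ 3) univ : ℝ) ≤ θ * ρ ^ 4

/-- A set that maximises `b S / |S| ^ (5 / 4)`. -/
def MaxS : Prop := ∀ C c : ℝ, 0 < C → 0 < c → ∃ κ : ℝ, 0 < κ ∧
  ∀ (V : Type) [Fintype V] (b : Finset V → ℝ) (ρ : ℝ), 0 < ρ → (Fintype.card V : ℝ) ≤ ρ ^ 3 →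
    (∀ S : Finset V, b S ≤ C * (S.card : ℝ) ^ (4 / 3 : ℝ)) → c * ρ ^ 4 ≤ b univ →
    ∃ S : Finset V, κ * ρ ^ 3 ≤ S.card ∧ κ * ρ ^ 4 ≤ b S ∧
      ∀ T ⊆ S, 2 * T.card ≤ S.card → b T + b (S \ T) + κ * ρ * T.card ≤ b S

/-- Lemma L. -/
def LemLS : Prop := ∀ C c η θ : ℝ, 1 ≤ C → 0 < c → 0 < η → 0 < θ → ∃ η' : ℝ, 0 < η' ∧ ∃ ρ0 : ℝ,
  ∀ (V : Type) [Fintype V] (E H A : V → V → Prop) (ρ : ℝ) (X : Finset V) (d1 d2 : V → V → ℝ),
    ρ0 ≤ ρ → Amb E C ρ → PUM d1 → PUM d2 →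
    (∀ a ∈ X, ∀ b ∈ X, a ≠ b → 0 < max (d1 a b) (d2 a b)) →
    Fam E H X (c * ρ) → Fam E A X (c * ρ) →
    (∀ a ∈ X, ∀ b ∈ X, ∀ y, a ≠ b → H a y → H b y → d1 a b < d2 a b) →
    (∀ a ∈ X, ∀ b ∈ X, ∀ y, A a y → A b y → d2 a b ≤ d1 a b) →
    ∃ lab : V → Finset V, Clu X (fun a b => max (d1 a b) (d2 a b)) lab ∧
      (∀ a ∈ X, ((fib X lab a).card : ℝ) ≤ η * ρ ^ 3) ∧
      ((X.filter fun a => ((fib X lab a).card : ℝ) ≤ η' * ρ ^ 3).card : ℝ) ≤ θ * ρ ^ 3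

/-- Lemma 3D. -/
def ThreeDS : Prop := ∀ C c : ℝ, 1 ≤ C → 0 < c → ∃ ρ0 : ℝ,
  ∀ (K : Type) [Field K] [CharZero K] (v : AbsoluteValue K ℝ) (V : Type) [Fintype V]
    (E F1 F2 F3 : V → V → Prop) (ρ : ℝ) (X : Finset V) (z w : V → K),
    ρ0 ≤ ρ → NA v → Amb E C ρ → c * ρ ^ 3 ≤ X.card →
    (∀ a ∈ X, ∀ b ∈ X, z a = z b → w a = w b → a = b) →
    Fam E F1 X (c * ρ) → Fam E F2 X (c * ρ) → Fam E F3 X (c * ρ) →
    (∀ a ∈ X, ∀ b ∈ X, ∀ y, a ≠ b → F1 a y → F1 b y → v (z a - z b) < v (w a - w b)) →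
    (∀ a ∈ X, ∀ b ∈ X, ∀ y, a ≠ b → F2 a y → F2 b y →
      v ((z a - z b) - (w a - w b)) < v (w a - w b)) →
    (∀ a ∈ X, ∀ b ∈ X, ∀ y, a ≠ b → F3 a y → F3 b y → v (w a - w b) < v (z a - z b)) → False

/-- Lemma 2D, for the absolute values with the property `Q`. -/
def TwoDS (Q : ∀ (K : Type) [Field K], AbsoluteValue K ℝ → Prop) : Prop :=
  ∀ C c : ℝ, 1 ≤ C → 0 < c → ∃ ρ0 : ℝ,
  ∀ (K : Type) [Field K] [CharZero K] (v : AbsoluteValue K ℝ) (V : Type) [Fintype V]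
    (E : V → V → Prop) (ρ : ℝ) (X : Finset V) (z w : V → K),
    ρ0 ≤ ρ → NA v → Q K v → Amb E C ρ → Re E z w → c * ρ ^ 3 ≤ X.card →
    (∀ a ∈ X, ∀ b ∈ X, v (w a - w b) < 1) →
    (∀ a ∈ X, c * ρ ≤ (nb (fun x y => E x y ∧ v (z x - z y) ≤ 1) univ a).card) →
    (∀ a ∈ X, c * ρ ≤ (nb (fun x y => E x y ∧ 1 < v (z x - z y)) univ a).card) → False

/-- Lemma B. -/
def BoxS (Q : ∀ (K : Type) [Field K], AbsoluteValue K ℝ → Prop) : Prop :=
  ∀ C κ K0 ε : ℝ, 1 ≤ C → 0 < κ → 0 < K0 → 0 < ε → ∃ d0 : ℝ,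
  ∀ (K : Type) [Field K] [CharZero K] (v : AbsoluteValue K ℝ) (V : Type) [Fintype V]
    (E : V → V → Prop) (d : ℝ) (z w : V → K),
    d0 ≤ d → NA v → Q K v → Hst E C κ K0 d → Re E z w →
    ∃ (a b : K) (R S : ℝ), 0 < R ∧ 0 < S ∧ R * S = 1 ∧
      ((univ.filter fun x => R < v (z x - a) ∨ S < v (w x - b)).card : ℝ) ≤ ε * d ^ 3

/-- Lemma 2.1. -/
def RegS : Prop := ∀ C c : ℝ, 1 ≤ C → 0 < c → ∃ κ K : ℝ, 0 < κ ∧ 0 < K ∧ ∃ ρ0 : ℝ,
  ∀ (V : Type) [Fintype V] (E : V → V → Prop) (pt : V → Prop) (ρ : ℝ),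
    ρ0 ≤ ρ → PL E → ST E C → Bip E pt → (Fintype.card V : ℝ) ≤ ρ ^ 3 →
    c * ρ ^ 4 ≤ ed E univ univ →
    ∃ (S : Finset V) (H : S → S → Prop) (bl : S → S → Finset S) (lab : S → ℕ) (d : ℝ),
      κ * ρ ≤ d ∧ (∀ a b, H a b → E a b) ∧ Hst H C κ K d ∧ Blk H (fun a => pt a) bl ∧
      Cell H (fun a => pt a) bl lab K d

/-- Lemma 2.2. -/
def PatS : Prop := ∀ C κ K : ℝ, 1 ≤ C → 0 < κ → 0 < K → ∃ K' : ℝ, 0 < K' ∧ ∃ d0 : ℝ,
  ∀ (V : Type) [Fintype V] (E : V → V → Prop) (pt : V → Prop) (bl : V → V → Finset V)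
    (lab : V → ℕ) (d : ℝ), d0 ≤ d → Hst E C κ K d → Blk E pt bl → Cell E pt bl lab K d →
    Rich E pt bl K' d

/-- Existence of places with the property `Q`. -/
def PlcS (Q : ∀ (K : Type) [Field K], AbsoluteValue K ℝ → Prop) : Prop :=
  ∀ (O : Type) [Field O] [CharZero O] (S : Finset O) (r : O), Transcendental ℚ r →
    ∃ (L : Type) (_ : Field L) (_ : CharZero L) (φ : L →+* O) (P : Plc L),
      (∀ i, Q L (P.v i)) ∧ (∀ s ∈ S, ∃ a ∈ P.A, φ a = s) ∧ ∃ a i, φ a = r ∧ 1 < P.v i a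

/-- Section 6. -/
def AlgS : Prop := ∀ (L : Type) [Field L] [CharZero L] (V : Type) (F : Frame L V)
  (E : V → V → Prop) (pt : V → Prop) (bl : V → V → Finset V) (p : Fin 4 → V)
  (c : Fin 4 → Fin 4 → V), (∀ a b, E a b → E b a) → Re E F.z F.w → Star F.z F.w →
    Pat E pt bl p c → ∃ i, F.ht (p i) ≤ 1000 * perr (F.loc bl) p c

/-- Section 5. -/
def AccS : Prop := ∀ C κ K K' : ℝ, 1 ≤ C → 0 < κ → 0 < K → 0 < K' → ∃ ε : ℝ, 0 < ε ∧ ∃ d0 : ℝ,
  ∀ (L : Type) [Field L] [CharZero L] (V : Type) [Fintype V] (F : Frame L V)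
    (E : V → V → Prop) (pt : V → Prop) (bl : V → V → Finset V) (d : ℝ),
    d0 ≤ d → Hst E C κ K d → Blk E pt bl → Rich E pt bl K' d → Re E F.z F.w → Star F.z F.w →
    (∀ i, ((univ.filter fun x => F.Ef i x ≠ 0).card : ℝ) ≤ ε * d ^ 3) → ∀ x, F.ht x = 0

/-- Rigidity of dense graphs. -/
def RigS : Prop := ∀ c : ℝ, 0 < c → ∃ ρ0 : ℝ,
  ∀ (V : Type) [Fintype V] (E : V → V → Prop) (pt : V → Prop) (ρ : ℝ),
    ρ0 ≤ ρ → PL E → Bip E pt → (Fintype.card V : ℝ) ≤ ρ ^ 3 → c * ρ ^ 4 ≤ ed E univ univ →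
    ∃ p p' q, pt p ∧ p ≠ p' ∧ E p q ∧ E p' q ∧
      ∀ (O : Type) [Field O] [CharZero O] (z w : V → O), Re E z w → Star z w →
        IsAlgebraic ℚ ((z p - z p') * (w p - w p'))

/-- A finite list of distances. -/
def FlexS : Prop := ∀ c : ℝ, 0 < c → ∃ ρ0 : ℝ, ∀ ρ : ℝ, ρ0 ≤ ρ → ∃ D : Finset ℝ,
  ∀ (s t : ℝ) (B : Finset ℂ), (B.card : ℝ) ≤ ρ ^ 3 → c * ρ ^ 4 ≤ ed (Wn s t) B B →
    ∃ p ∈ B, ∃ p' ∈ B, ∃ q ∈ B, p.im < t ∧ p ≠ p' ∧ Wn s t p q ∧ Wn s t p' q ∧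
      Complex.normSq (p - p') ∈ D

/-- From strips to all configurations. -/
def WinS : Prop := ∀ (n : ℕ) (lam : ℝ), 0 ≤ lam →
  (∀ (s t : ℝ) (B : Finset ℂ), B.card ≤ n → (ed (Wn s t) B B : ℝ) ≤ lam * B.card) →
  ∀ (A : Finset ℂ) (τ : ℝ), A.card ≤ n → 0 < τ → (ud A τ : ℝ) ≤ 24 * lam * A.card

/-- The bound in a strip. -/
def RedS : Prop := ∀ c : ℝ, 0 < c → ∃ ρ0 : ℝ, ∀ (ρ s t : ℝ) (B : Finset ℂ), ρ0 ≤ ρ →
  (B.card : ℝ) ≤ ρ ^ 3 → (ed (Wn s t) B B : ℝ) ≤ c * ρ ^ 4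

end
end Pool.Agent.Lib.MP_439fea_co.Ud
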