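import Pool.Agent.Lib.MP_439fea_co.Ud.Defs
import Pool.Agent.Lib.MP_439fea_co.Defs

/-! From the bound in a strip to the bound on the number of pairs at one distance. -/

namespace Pool.Agent.Lib.MP_439fea_co.Ud
open Finset Pool.Agent.Lib.MP_439fea_co Pool.Agent.Lib.MP_439fea_co.Z
open scoped Classical

lemma fin_cube (m : ℕ) : ((m : ℝ) ^ (1 / 3 : ℝ)) ^ 3 = m := by
  rw [← Real.rpow_natCast, ← Real.rpow_mul (Nat.cast_nonneg m)]
  norm_num

lemma fin_ed {V : Type} (E : V → V → Prop) (X Y : Finset V) :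
    ed E X Y = #((X ×ˢ Y).filter fun x => E x.1 x.2) := by
  unfold ed nb
  rw [card_filter, sum_product]
  exact sum_congr rfl fun a _ => by rw [card_filter]

lemma fin_strip (h : RedS) {c : ℝ} (hc : 0 < c) : ∃ n₀ : ℕ, ∀ n ≥ n₀, ∀ (s t : ℝ) (B : Finset ℂ),
    #B ≤ n → (ed (Wn s t) B B : ℝ) ≤ c * (n : ℝ) ^ (1 / 3 : ℝ) * #B := by
  obtain ⟨ρ0, h⟩ := h c hc
  refine ⟨⌈(|ρ0| ^ 3 / c) ^ 3⌉₊, fun n hn s t B hB => ?_⟩
  have b0 : (0 : ℝ) ≤ #B := Nat.cast_nonneg _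
  have b1 : (0 : ℝ) ≤ (#B : ℝ) ^ (1 / 3 : ℝ) := by positivity
  rcases le_total ρ0 ((#B : ℝ) ^ (1 / 3 : ℝ)) with k | k
  · refine (h _ s t B k (fin_cube _).ge).trans ?_
    rw [pow_succ', fin_cube, ← mul_assoc]
    gcongr
  · have a1 : (ed (Wn s t) B B : ℝ) ≤ #B * #B := by
      rw [fin_ed]
      exact_mod_cast (card_filter_le _ _).trans (card_product _ _).le
    have a2 : (#B : ℝ) ≤ |ρ0| ^ 3 := by
      rw [← fin_cube #B]
      exact pow_le_pow_left₀ b1 (k.trans (le_abs_self _)) 3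
    have a3 : |ρ0| ^ 3 / c ≤ (n : ℝ) ^ (1 / 3 : ℝ) := by
      refine (pow_le_pow_iff_left₀ (by positivity) (by positivity) three_ne_zero).1 ?_
      rw [fin_cube]
      exact Nat.ceil_le.1 hn
    rw [div_le_iff₀' hc] at a3
    exact a1.trans (mul_le_mul_of_nonneg_right (a2.trans a3) b0)

theorem fin (h3 : WinS) (h : RedS) : ∀ ε : ℝ, 0 < ε → ∃ n₀ : ℕ, ∀ n ≥ n₀,
    ∀ A : Finset (EuclideanSpace ℝ (Fin 2)), A.card = n → ∀ d : ℝ,
      (pairs A d : ℝ) ≤ ε * (n : ℝ) ^ (4 / 3 : ℝ) := by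
  intro ε hε
  obtain ⟨n₀, h⟩ := fin_strip h (c := ε / 24) (by positivity)
  refine ⟨n₀, fun n hn A hA d => ?_⟩
  rcases le_or_gt d 0 with hd | hd
  · rw [pairs, filter_false_of_mem, card_empty, Nat.cast_zero]
    · positivity
    · rintro s - ⟨x, -, y, -, h1, h2⟩
      exact (dist_pos.2 h1).not_ge (h2 ▸ hd)
  let e := Complex.orthonormalBasisOneI.repr.symm
  have hi : Function.Injective e := e.injective
  have hc : #(A.image e) = n := by rw [card_image_of_injective _ hi, hA]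
  have h1 := h3 n _ (by positivity) (h n hn) (A.image e) (d ^ 2) hc.le (by positivity)
  have h2 : 24 * (ε / 24 * (n : ℝ) ^ (1 / 3 : ℝ)) * n = ε * (n : ℝ) ^ (4 / 3 : ℝ) := by
    rw [show (4 / 3 : ℝ) = 1 / 3 + 1 by norm_num,
      Real.rpow_add' (Nat.cast_nonneg n) (by norm_num), Real.rpow_one]
    ring
  rw [hc, h2, ud, fin_ed] at h1
  refine le_trans (Nat.cast_le.2 ?_) h1
  refine (card_le_card_of_surjOn (s := (A ×ˢ A).filter fun x => dist x.1 x.2 = d)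
    (fun x => {x.1, x.2}) fun s hs => ?_).trans
    (card_le_card_of_injOn (Prod.map e e) (fun x hx => ?_) (hi.prodMap hi).injOn)
  · obtain ⟨h2, x, hx, y, hy, h3, h4⟩ := mem_filter.1 hs
    obtain ⟨h5, h6⟩ := mem_powersetCard.1 h2
    exact ⟨(x, y), mem_filter.2 ⟨mem_product.2 ⟨h5 hx, h5 hy⟩, h4⟩, eq_of_subset_of_card_le
      (insert_subset hx (singleton_subset_iff.2 hy)) (h6.trans (card_pair h3).symm).le⟩
  · simp only [coe_filter, mem_product, Set.mem_ofPred_eq] at hx ⊢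
    refine ⟨⟨mem_image_of_mem e hx.1.1, mem_image_of_mem e hx.1.2⟩, ?_⟩
    rw [← Complex.sq_norm, ← dist_eq_norm, ← hx.2]
    exact congrArg (· ^ 2) (e.dist_map _ _)

/-- The same bound with the number of points as the parameter. -/
theorem fin' (h3 : WinS) (h : RedS) : ∀ ε : ℝ, 0 < ε → ∃ n₀ : ℕ,
    ∀ (A : Finset (EuclideanSpace ℝ (Fin 2))) (d : ℝ), n₀ ≤ A.card →
      (pairs A d : ℝ) ≤ ε * (A.card : ℝ) ^ (4 / 3 : ℝ) :=
  fun e he => (fin h3 h e he).imp fun _ h A d hn => h _ hn A rfl d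

end Pool.Agent.Lib.MP_439fea_co.Ud
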