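import Pool.Agent.Lib.MP_439fea_co.Ud.Rig
import Pool.Agent.Lib.MP_439fea_co.Z.PArc

/-! From algebraic distances to a finite list of distances. -/

namespace Pool.Agent.Lib.MP_439fea_co.Ud
open Finset Filter Pool.Agent.Lib.MP_439fea_co.Z
open scoped Classical
noncomputable section

theorem finite_vals {V : Type} (E : V → V → Prop) (p p' : V)
    (h : ∀ (O : Type) [Field O] [CharZero O] (z w : V → O), Re E z w → Star z w →
      IsAlgebraic ℚ ((z p - z p') * (w p - w p'))) :
    {τ : ℝ | ∃ z : V → ℂ, Function.Injective z ∧ (∀ a b, E a b → Complex.normSq (z a - z b) = 1) ∧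
      τ = Complex.normSq (z p - z p')}.Finite := by
  by_contra hinf
  let t := Set.Infinite.natEmbedding _ hinf
  have ht := fun k => (t k).2
  choose z hz he hτ using ht
  let O := Germ (hyperfilter ℕ : Filter ℕ) ℂ
  let π : (ℕ → ℂ) →+* O := Germ.coeRingHom _
  have hπ : ∀ f g : ℕ → ℂ, π f = π g ↔ ∀ᶠ k in (hyperfilter ℕ : Filter ℕ), f k = g k :=
    fun f g => Germ.coe_eq
  have : CharZero O := ⟨fun m n e => by
    rw [← map_natCast π, ← map_natCast π, hπ] at e
    obtain ⟨k, hk⟩ := e.exists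
    simpa using hk⟩
  have hq : ∀ k a b, (z k a - z k b) * ((starRingEnd ℂ) (z k a) - (starRingEnd ℂ) (z k b)) =
      Complex.normSq (z k a - z k b) := fun k a b => by rw [← map_sub, Complex.mul_conj]
  have halg := h O (fun a => π fun k => z k a) (fun a => π fun k => (starRingEnd ℂ) (z k a))
    ⟨fun a b e => by
      obtain ⟨k, hk⟩ := ((hπ _ _).1 e).exists
      exact hz k hk,
    fun a b e => by
      obtain ⟨k, hk⟩ := ((hπ _ _).1 e).exists
      exact hz k ((starRingEnd ℂ).injective hk),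
    fun a b e => by
      rw [← map_sub, ← map_sub, ← map_mul, ← map_one π]
      refine congrArg π (funext fun k => ?_)
      simp only [Pi.mul_apply, Pi.sub_apply, Pi.one_apply]
      rw [hq, he k a b e]; simp⟩
    (fun a b c d e f => by
      have g : ∀ y : ℕ → V → ℂ, men (π fun k => y k a) (π fun k => y k b) (π fun k => y k c)
          (π fun k => y k d) (π fun k => y k e) (π fun k => y k f) =
          π fun k => men (y k a) (y k b) (y k c) (y k d) (y k e) (y k f) := fun y => by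
        simp only [men, ← map_sub, ← map_mul, ← map_add]
        rfl
      rw [g z, g fun k x => (starRingEnd ℂ) (z k x), ← map_zero π, hπ, hπ]
      refine eventually_congr (Eventually.of_forall fun k => ?_)
      rw [← men_map]
      simp)
  obtain ⟨P, hP, hP0⟩ := halg
  rw [← map_sub, ← map_sub, ← map_mul] at hP0
  have e1 := Polynomial.aeval_algHom_apply π.toRatAlgHom
    (((fun k => z k p) - fun k => z k p') * ((fun k => (starRingEnd ℂ) (z k p)) -
      fun k => (starRingEnd ℂ) (z k p'))) P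
  rw [RingHom.toRatAlgHom_apply, RingHom.toRatAlgHom_apply, hP0, ← map_zero π, hπ] at e1
  have hfin : {k : ℕ | Polynomial.aeval ((t k : ℝ)) P = 0}.Finite := by
    refine Set.Finite.subset ((P.rootSet_finite ℝ).preimage (f := fun k => (t k : ℝ))
      (Subtype.val_injective.comp t.injective).injOn) fun k hk => ?_
    exact (Polynomial.mem_rootSet_of_ne hP).2 hk
  obtain ⟨k, hk1, hk2⟩ := (e1.and hfin.compl_mem_hyperfilter).exists
  refine hk2 ?_
  have e2 := Polynomial.aeval_algHom_apply (Pi.evalAlgHom ℚ (fun _ : ℕ => ℂ) k)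
    (((fun k => z k p) - fun k => z k p') * ((fun k => (starRingEnd ℂ) (z k p)) -
      fun k => (starRingEnd ℂ) (z k p'))) P
  rw [Pi.evalAlgHom_apply, Pi.evalAlgHom_apply, ← hk1] at e2
  simp only [Pi.mul_apply, Pi.sub_apply, Pi.zero_apply] at e2
  rw [hq, ← hτ] at e2
  have e3 := Polynomial.aeval_algHom_apply (Complex.ofRealHom.toRatAlgHom) (t k : ℝ) P
  rw [RingHom.toRatAlgHom_apply, RingHom.toRatAlgHom_apply] at e3
  have e4 : Complex.ofRealHom (Polynomial.aeval (t k : ℝ) P) = 0 := e3 ▸ e2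
  exact (map_eq_zero _).1 e4

theorem ed_comap {V W : Type} [Fintype W] (E : V → V → Prop) (f : W → V)
    (hf : Function.Injective f) :
    ed (fun a b => E (f a) (f b)) univ univ = ed E (univ.image f) (univ.image f) := by
  rw [ed, ed, sum_image hf.injOn]
  refine sum_congr rfl fun a _ => ?_
  rw [nb, nb, filter_image, card_image_of_injective _ hf]

theorem flexS (h1 : PlS) (h2 : RigS) : FlexS := by
  intro c hc
  obtain ⟨ρ0, hrig⟩ := h2 c hc
  refine ⟨ρ0, fun ρ hρ => ?_⟩
  have hD : ∀ (n : ℕ) (E : Fin n → Fin n → Prop) (pt : Fin n → Prop), ∃ D : Set ℝ, D.Finite ∧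
      (PL E → Bip E pt → (n : ℝ) ≤ ρ ^ 3 → c * ρ ^ 4 ≤ ed E univ univ →
        ∃ p p' q, pt p ∧ p ≠ p' ∧ E p q ∧ E p' q ∧ ∀ z : Fin n → ℂ, Function.Injective z →
          (∀ a b, E a b → Complex.normSq (z a - z b) = 1) → Complex.normSq (z p - z p') ∈ D) := by
    intro n E pt
    by_cases hh : PL E ∧ Bip E pt ∧ (n : ℝ) ≤ ρ ^ 3 ∧ c * ρ ^ 4 ≤ ed E univ univ
    · obtain ⟨p, p', q, g1, g2, g3, g4, g5⟩ :=
        hrig (Fin n) E pt ρ hρ hh.1 hh.2.1 (by simpa using hh.2.2.1) hh.2.2.2
      exact ⟨_, finite_vals E p p' g5, fun _ _ _ _ =>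
        ⟨p, p', q, g1, g2, g3, g4, fun z a b => ⟨z, a, b, rfl⟩⟩⟩
    · exact ⟨∅, Set.finite_empty, fun a b c d => absurd ⟨a, b, c, d⟩ hh⟩
  choose D hDf hDs using hD
  have hfin : (⋃ n ∈ Set.Iic ⌊ρ ^ 3⌋₊, ⋃ E, ⋃ pt, D n E pt).Finite :=
    (Set.finite_Iic _).biUnion fun n _ => Set.finite_iUnion fun E => Set.finite_iUnion fun pt =>
      hDf n E pt
  refine ⟨hfin.toFinset, fun s t B hB he => ?_⟩
  let f : Fin B.card → ℂ := fun i => B.equivFin.symm i
  have hf : Function.Injective f := Subtype.val_injective.comp B.equivFin.symm.injective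
  have hfB : ∀ i, f i ∈ B := fun i => (B.equivFin.symm i).2
  have him : univ.image f = B := eq_of_subset_of_card_le
    (fun x hx => by obtain ⟨i, -, rfl⟩ := mem_image.1 hx; exact hfB i)
    (by rw [card_image_of_injective _ hf]; simp)
  obtain ⟨p, p', q, g1, g2, g3, g4, g5⟩ := hDs B.card (fun a b => Wn s t (f a) (f b))
    (fun a => (f a).im < t) ((h1 s t).comap hf) (fun a b e => e.2.2.2.2.1) hB
    (by rw [ed_comap _ _ hf, him]; exact he)
  refine ⟨f p, hfB _, f p', hfB _, f q, hfB _, g1, hf.ne g2, g3, g4, ?_⟩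
  rw [Set.Finite.mem_toFinset]
  refine Set.mem_biUnion (x := B.card) (Nat.le_floor hB) (Set.mem_iUnion.2 ⟨_, Set.mem_iUnion.2
    ⟨_, g5 f hf fun a b e => e.2.2.2.2.2⟩⟩)

end
end Pool.Agent.Lib.MP_439fea_co.Ud
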