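import Mathlib

namespace Pool.Agent.Lib.MP_439fea_co.Gain
open Finset
open scoped Classical
noncomputable section

variable {V : Type}

/-- Size of the fibre of `f` through `x` inside `X`. -/
def fb {A : Type} (X : Finset V) (f : V → A) (x : V) : ℕ := (X.filter fun y => f y = f x).card

/-- Number of points of `X` with a property. -/
def cnt (X : Finset V) (P : V → Prop) : ℕ := (X.filter P).card

lemma cnt_eq (X : Finset V) (P : V → Prop) [DecidablePred P] : cnt X P = (X.filter P).card := by
  unfold cnt; congr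

lemma fb_eq {A : Type} (X : Finset V) (f : V → A) (x : V) [DecidablePred fun y => f y = f x] :
    fb X f x = (X.filter fun y => f y = f x).card := by
  unfold fb; congr

lemma fb_pos {A : Type} (X : Finset V) (f : V → A) {x : V} (hx : x ∈ X) : 0 < fb X f x :=
  card_pos.2 ⟨x, mem_filter.2 ⟨hx, rfl⟩⟩

lemma fb_congr {A B : Type} (X : Finset V) (f : V → A) (g : V → B)
    (h : ∀ x y, f y = f x ↔ g y = g x) (x : V) : fb X f x = fb X g x := by
  unfold fb
  congr 1
  exact filter_congr fun y _ => h x y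

/-- Sum over the points of a function of the label, divided by the fibre size. -/
lemma sum_div_fb {A : Type} (X : Finset V) (f : V → A) (h : A → ℝ) :
    ∑ x ∈ X, h (f x) / (fb X f x : ℝ) = ∑ p ∈ X.image f, h p := by
  have := Finset.sum_comp (s := X) (fun p : A => h p / ((X.filter fun y => f y = p).card : ℝ)) f
  unfold fb
  rw [this]
  refine sum_congr rfl fun p hp => ?_
  obtain ⟨x, hx, rfl⟩ := mem_image.1 hp
  have : (0 : ℝ) < ((X.filter fun y => f y = f x).card : ℝ) := by
    exact_mod_cast fb_pos X f hx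
  rw [nsmul_eq_mul]
  field_simp

/-- Variational lower bound for the mutual information. -/
lemma dv {A B : Type} (X : Finset V) (hX : X.Nonempty) (U : V → A) (W : V → B)
    (φ : A → B → ℝ) (hφ : ∀ a b, 0 < φ a b) :
    ∑ x ∈ X, Real.log (φ (U x) (W x)) + X.card
        - (∑ x ∈ X, ∑ y ∈ X, φ (U x) (W y)) / X.card ≤
      ∑ x ∈ X, (Real.log (fb X (fun y => (U y, W y)) x) + Real.log X.card
        - Real.log (fb X U x) - Real.log (fb X W x)) := by
  have hN : (0 : ℝ) < X.card := by exact_mod_cast card_pos.2 hX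
  set J : V → A × B := fun y => (U y, W y) with hJ
  set h : A × B → ℝ := fun p => φ p.1 p.2 * ((X.filter fun y => U y = p.1).card : ℝ) *
    ((X.filter fun y => W y = p.2).card : ℝ) with hh
  have h1 : ∀ x ∈ X, Real.log (φ (U x) (W x)) + 1 - (h (J x) / fb X J x) / X.card ≤
      Real.log (fb X J x) + Real.log X.card - Real.log (fb X U x) - Real.log (fb X W x) := by
    intro x hx
    have a1 : (0 : ℝ) < fb X J x := by exact_mod_cast fb_pos X J hx
    have a2 : (0 : ℝ) < fb X U x := by exact_mod_cast fb_pos X U hx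
    have a3 : (0 : ℝ) < fb X W x := by exact_mod_cast fb_pos X W hx
    have a4 := hφ (U x) (W x)
    have e : h (J x) = φ (U x) (W x) * fb X U x * fb X W x := rfl
    have hp : 0 < (h (J x) / fb X J x) / X.card := by rw [e]; positivity
    have := Real.log_le_sub_one_of_pos hp
    rw [e, Real.log_div (by positivity) hN.ne', Real.log_div (by positivity) a1.ne',
      Real.log_mul (by positivity) a3.ne', Real.log_mul a4.ne' a2.ne'] at this
    rw [e]
    linarith
  have h2 : ∑ x ∈ X, h (J x) / fb X J x ≤ ∑ x ∈ X, ∑ y ∈ X, φ (U x) (W y) := by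
    rw [sum_div_fb]
    have e1 : ∑ x ∈ X, ∑ y ∈ X, φ (U x) (W y) = ∑ p ∈ X.image U ×ˢ X.image W, h p := by
      rw [sum_product, Finset.sum_comp (s := X) (fun a : A => ∑ y ∈ X, φ a (W y)) U]
      refine sum_congr rfl fun a _ => ?_
      rw [Finset.sum_comp (s := X) (fun b : B => φ a b) W, nsmul_eq_mul, mul_sum]
      refine sum_congr rfl fun b _ => ?_
      rw [nsmul_eq_mul]
      simp only [hh]
      ring
    rw [e1]
    refine sum_le_sum_of_subset_of_nonneg ?_ ?_
    · intro p hp
      simp only [mem_image] at hp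
      obtain ⟨x, hx, rfl⟩ := hp
      exact mem_product.2 ⟨mem_image_of_mem _ hx, mem_image_of_mem _ hx⟩
    · intro p _ _
      have := hφ p.1 p.2
      simp only [hh]
      positivity
  have h3 := sum_le_sum h1
  rw [sum_sub_distrib, sum_add_distrib, ← sum_div] at h3
  simp only [sum_const, nsmul_eq_mul, mul_one] at h3
  have h4 := div_le_div_of_nonneg_right h2 hN.le
  linarith

/-- Mutual information (times the number of points). -/
def mi {A B C : Type} (X : Finset V) (J : V → C) (U : V → A) (W : V → B) : ℝ :=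
  ∑ x ∈ X, (Real.log (fb X J x) + Real.log X.card - Real.log (fb X U x) - Real.log (fb X W x))

lemma lin {A B C : Type} (X : Finset V) (hX : X.Nonempty) (J : V → C) (U : V → A) (W : V → B)
    (hJ : ∀ x y, J y = J x ↔ U y = U x ∧ W y = W x) (α : A → Prop) (β : B → Prop)
    (s : ℝ) (hs : -1 / 2 ≤ s) :
    (s - 2 * s ^ 2) * cnt X (fun x => α (U x) ∧ β (W x))
      - s * (cnt X (fun x => α (U x)) * cnt X (fun x => β (W x)) / X.card)
      ≤ mi X J U W := by
  rw [cnt_eq, cnt_eq, cnt_eq]
  have hN : (0 : ℝ) < X.card := by exact_mod_cast card_pos.2 hX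
  have hd := dv X hX U W (fun a b => if α a ∧ β b then 1 + s else 1) (by
    intro a b; split_ifs <;> linarith)
  have e0 : mi X J U W = ∑ x ∈ X, (Real.log (fb X (fun y => (U y, W y)) x) + Real.log X.card
        - Real.log (fb X U x) - Real.log (fb X W x)) := by
    unfold mi
    refine sum_congr rfl fun x _ => ?_
    rw [fb_congr X J (fun y => (U y, W y)) (fun x y => by rw [hJ, Prod.mk.injEq]) x]
  rw [e0]
  refine le_trans ?_ hd
  have hl : s - 2 * s ^ 2 ≤ Real.log (1 + s) := by
    have hp : 0 < 1 + s := by linarith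
    have := Real.one_sub_inv_le_log_of_pos hp
    have h2 : s - 2 * s ^ 2 ≤ 1 - (1 + s)⁻¹ := by
      rw [inv_eq_one_div, le_sub_comm, div_le_iff₀ hp]
      nlinarith [sq_nonneg s, mul_nonneg (sq_nonneg s) (by linarith : (0 : ℝ) ≤ 1 + 2 * s)]
    linarith
  have e1 : ∑ x ∈ X, Real.log (if α (U x) ∧ β (W x) then 1 + s else 1) =
      (X.filter fun x => α (U x) ∧ β (W x)).card * Real.log (1 + s) := by
    rw [← nsmul_eq_mul, ← sum_const, sum_filter]
    refine sum_congr rfl fun x _ => ?_
    split_ifs <;> simp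
  have e2 : ∑ x ∈ X, ∑ y ∈ X, (if α (U x) ∧ β (W y) then 1 + s else 1) =
      (X.card : ℝ) * X.card + s * ((X.filter fun x => α (U x)).card *
        (X.filter fun x => β (W x)).card) := by
    have : ∀ x ∈ X, ∑ y ∈ X, (if α (U x) ∧ β (W y) then 1 + s else 1) =
        (X.card : ℝ) + (if α (U x) then s * (X.filter fun x => β (W x)).card else 0) := by
      intro x _
      by_cases h : α (U x)
      · simp only [h, true_and, if_true]
        have : ∀ y ∈ X, (if β (W y) then 1 + s else 1) = 1 + (if β (W y) then s else 0) := by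
          intro y _; split_ifs <;> simp
        rw [sum_congr rfl this, sum_add_distrib, ← sum_filter]
        simp [mul_comm]
      · simp [h]
    rw [sum_congr rfl this, sum_add_distrib, ← sum_filter]
    simp only [sum_const, nsmul_eq_mul]
    ring
  rw [e1, e2]
  have hc : (0 : ℝ) ≤ (X.filter fun x => α (U x) ∧ β (W x)).card := Nat.cast_nonneg _
  have e3 : ((X.card : ℝ) * X.card + s * ((X.filter fun x => α (U x)).card *
        (X.filter fun x => β (W x)).card)) / X.card = X.card +
        s * ((X.filter fun x => α (U x)).card * (X.filter fun x => β (W x)).card / X.card) := by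
    field_simp
  rw [e3]
  nlinarith [mul_le_mul_of_nonneg_left hl hc]

/-- A threshold that cuts off between 1/16 and 15/16 of the points. -/
lemma thr (X : Finset V) (hX : X.Nonempty) (u : V → ℚ)
    (hu : ∀ x ∈ X, 8 * fb X u x ≤ 7 * X.card) :
    ∃ s : ℚ, X.card ≤ 16 * (X.filter fun x => s < u x).card ∧
      16 * (X.filter fun x => s < u x).card ≤ 15 * X.card := by
  have hne : (X.filter fun x => 16 * (X.filter fun y => u x < u y).card ≤ 15 * X.card).Nonempty := by
    obtain ⟨x, hx, hm⟩ := exists_max_image X u hX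
    refine ⟨x, mem_filter.2 ⟨hx, ?_⟩⟩
    have : (X.filter fun y => u x < u y) = ∅ :=
      filter_eq_empty_iff.2 fun y hy => not_lt.2 (hm y hy)
    rw [this]; simp
  obtain ⟨x, hx, hm⟩ := exists_min_image _ u hne
  obtain ⟨hxX, hx2⟩ := mem_filter.1 hx
  refine ⟨u x, ?_, hx2⟩
  have hge : 15 * X.card ≤ 16 * (X.filter fun y => u x ≤ u y).card := by
    by_cases hl : (X.filter fun y => u y < u x).Nonempty
    · obtain ⟨z, hz, hzm⟩ := exists_max_image _ u hl
      obtain ⟨hzX, hz2⟩ := mem_filter.1 hz
      have hnot : ¬ 16 * (X.filter fun y => u z < u y).card ≤ 15 * X.card := by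
        intro h
        exact absurd (hm z (mem_filter.2 ⟨hzX, h⟩)) (not_le.2 hz2)
      have : (X.filter fun y => u z < u y) ⊆ X.filter fun y => u x ≤ u y := by
        intro y hy
        obtain ⟨hyX, hy2⟩ := mem_filter.1 hy
        refine mem_filter.2 ⟨hyX, ?_⟩
        by_contra hc
        exact absurd (hzm y (mem_filter.2 ⟨hyX, not_le.1 hc⟩)) (not_le.2 hy2)
      have := card_le_card this
      omega
    · have : (X.filter fun y => u x ≤ u y) = X := by
        refine filter_eq_self.2 fun y hy => ?_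
        by_contra hc
        exact hl ⟨y, mem_filter.2 ⟨hy, not_le.1 hc⟩⟩
      rw [this]; omega
  have hsub : (X.filter fun y => u x ≤ u y) ⊆
      (X.filter fun y => u x < u y) ∪ (X.filter fun y => u y = u x) := by
    intro y hy
    obtain ⟨hyX, hy2⟩ := mem_filter.1 hy
    rcases hy2.lt_or_eq with h | h
    · exact mem_union_left _ (mem_filter.2 ⟨hyX, h⟩)
    · exact mem_union_right _ (mem_filter.2 ⟨hyX, h.symm⟩)
  have h1 := (card_le_card hsub).trans (card_union_le _ _)
  have h2 := hu x hxX
  rw [fb_eq] at h2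
  omega

/-- The spread case, for labels with a rational functional that adds up. -/
lemma spread {A B C D : Type} (X : Finset V) (hX : X.Nonempty) (J : V → D)
    (U : V → A) (T : V → B) (W : V → C) (fu : A → ℚ) (ft : B → ℚ) (fw : C → ℚ)
    (h1 : ∀ x y, J y = J x ↔ U y = U x ∧ T y = T x)
    (h2 : ∀ x y, J y = J x ↔ U y = U x ∧ W y = W x)
    (h3 : ∀ x y, J y = J x ↔ T y = T x ∧ W y = W x)
    (hadd : ∀ x, fw (W x) = fu (U x) + ft (T x))
    (hu : ∀ x ∈ X, 8 * fb X (fun y => fu (U y)) x ≤ 7 * X.card)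
    (ht : ∀ x ∈ X, 8 * fb X (fun y => ft (T y)) x ≤ 7 * X.card) :
    (1 / 1572864 : ℝ) * X.card ≤ mi X J U T + mi X J U W + mi X J T W := by
  have hN : (0 : ℝ) < X.card := by exact_mod_cast card_pos.2 hX
  obtain ⟨s, hs1, hs2⟩ := thr X hX _ hu
  obtain ⟨t, ht1, ht2⟩ := thr X hX _ ht
  have a1 := lin X hX J U T h1 (fun a => s < fu a) (fun b => t < ft b) (-(1 / 3072)) (by norm_num)
  have a2 := lin X hX J U W h2 (fun a => s < fu a) (fun c => s + t < fw c) (1 / 3072) (by norm_num)
  have a3 := lin X hX J T W h3 (fun b => t < ft b) (fun c => s + t < fw c) (1 / 3072) (by norm_num)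
  rw [cnt_eq, cnt_eq, cnt_eq] at a1 a2 a3
  have hid : (X.filter fun x => s < fu (U x) ∧ s + t < fw (W x)).card +
      (X.filter fun x => t < ft (T x) ∧ s + t < fw (W x)).card =
      (X.filter fun x => s + t < fw (W x)).card +
      (X.filter fun x => s < fu (U x) ∧ t < ft (T x)).card := by
    simp only [card_filter, ← sum_add_distrib]
    refine sum_congr rfl fun x _ => ?_
    have := hadd x
    by_cases p1 : s < fu (U x) <;> by_cases p2 : t < ft (T x) <;>
      by_cases p3 : s + t < fw (W x) <;> simp [p1, p2, p3] <;> linarith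
  set A' : ℝ := ((X.filter fun x => s < fu (U x)).card : ℝ) with hA
  set B' : ℝ := ((X.filter fun x => t < ft (T x)).card : ℝ) with hB
  set C' : ℝ := ((X.filter fun x => s + t < fw (W x)).card : ℝ) with hC
  set AB : ℝ := ((X.filter fun x => s < fu (U x) ∧ t < ft (T x)).card : ℝ) with hAB
  set AC : ℝ := ((X.filter fun x => s < fu (U x) ∧ s + t < fw (W x)).card : ℝ) with hAC
  set BC : ℝ := ((X.filter fun x => t < ft (T x) ∧ s + t < fw (W x)).card : ℝ) with hBC
  set N : ℝ := (X.card : ℝ) with hNd
  have hid' : AC + BC = C' + AB := by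
    rw [hAC, hBC, hC, hAB]; exact_mod_cast hid
  have b1 : N ≤ 16 * A' := by rw [hA, hNd]; exact_mod_cast hs1
  have b2 : 16 * A' ≤ 15 * N := by rw [hA, hNd]; exact_mod_cast hs2
  have b3 : N ≤ 16 * B' := by rw [hB, hNd]; exact_mod_cast ht1
  have b4 : 16 * B' ≤ 15 * N := by rw [hB, hNd]; exact_mod_cast ht2
  have c0 : 0 ≤ C' := Nat.cast_nonneg _
  have c1 : C' ≤ N := by rw [hC, hNd]; exact_mod_cast card_filter_le _ _
  have c2 : AB ≤ N := by rw [hAB, hNd]; exact_mod_cast card_filter_le _ _
  have c3 : AC ≤ N := by rw [hAC, hNd]; exact_mod_cast card_filter_le _ _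
  have c4 : BC ≤ N := by rw [hBC, hNd]; exact_mod_cast card_filter_le _ _
  have key : N / 256 ≤ C' + A' * B' / N - A' * C' / N - B' * C' / N := by
    have : N * N / 256 ≤ C' * N + A' * B' - A' * C' - B' * C' := by
      have q1 : N * N / 256 ≤ A' * B' := by nlinarith
      have q2 : N * N / 256 ≤ (N - A') * (N - B') := by nlinarith
      by_cases h : A' + B' ≤ N
      · nlinarith [mul_nonneg c0 (sub_nonneg.2 h)]
      · nlinarith [mul_nonneg (sub_nonneg.2 c1) (sub_nonneg.2 (not_le.1 h).le)]
    have e : C' + A' * B' / N - A' * C' / N - B' * C' / N =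
        (C' * N + A' * B' - A' * C' - B' * C') / N := by field_simp
    rw [e, le_div_iff₀ hN]
    linarith
  linarith

/-- Lemma G: entropy gain for three directions in a rational vector space. -/
theorem gain {G : Type} [AddCommGroup G] [Module ℚ G] (X : Finset V) (a b : V → G) (m : ℝ)
    (hm0 : 0 ≤ m) (hm : ∀ x ∈ X, (fb X (fun y => (a y, b y)) x : ℝ) ≤ m) :
    ∑ x ∈ X, (2 * Real.log (fb X a x) + 2 * Real.log (fb X b x)
        + 2 * Real.log (fb X (fun y => b y - a y) x)
        - 3 * Real.log (fb X (fun y => (a y, b y)) x) - 3 * Real.log X.card)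
      ≤ -(1 / 1572864) * (X.card - m) := by
  rcases X.eq_empty_or_nonempty with rfl | hX
  · simp only [sum_empty, card_empty, Nat.cast_zero]
    linarith
  have hN : (0 : ℝ) < X.card := by exact_mod_cast card_pos.2 hX
  set J : V → G × G := fun y => (a y, b y) with hJ
  set c : V → G := fun y => b y - a y with hc
  have h1 : ∀ x y, J y = J x ↔ a y = a x ∧ b y = b x := fun x y => by simp [hJ]
  have h2 : ∀ x y, J y = J x ↔ a y = a x ∧ c y = c x := fun x y => by
    rw [h1]
    constructor
    · rintro ⟨p, q⟩; exact ⟨p, by simp [hc, p, q]⟩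
    · rintro ⟨p, q⟩
      refine ⟨p, ?_⟩
      simp only [hc, p] at q
      exact sub_left_injective q
  have h3 : ∀ x y, J y = J x ↔ b y = b x ∧ c y = c x := fun x y => by
    rw [h1]
    constructor
    · rintro ⟨p, q⟩; exact ⟨q, by simp [hc, p, q]⟩
    · rintro ⟨p, q⟩
      refine ⟨?_, p⟩
      simp only [hc, p] at q
      exact sub_right_injective q
  have sy : ∀ {A B : Type} (U : V → A) (W : V → B), mi X J U W = mi X J W U := by
    intro A B U W
    unfold mi
    exact sum_congr rfl fun x _ => by ring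
  have e0 : ∑ x ∈ X, (2 * Real.log (fb X a x) + 2 * Real.log (fb X b x)
        + 2 * Real.log (fb X c x) - 3 * Real.log (fb X J x) - 3 * Real.log X.card) =
      -(mi X J a b + mi X J a c + mi X J b c) := by
    unfold mi
    rw [← sum_add_distrib, ← sum_add_distrib, ← sum_neg_distrib]
    exact sum_congr rfl fun x _ => by ring
  rw [e0]
  suffices h : (1 / 1572864 : ℝ) * (X.card - m) ≤ mi X J a b + mi X J a c + mi X J b c by linarith
  by_cases hbig : ∃ x0 ∈ X, 3 * X.card ≤ 4 * fb X J x0
  · obtain ⟨x0, hx0, hb⟩ := hbig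
    have a1 := lin X hX J a b h1 (fun g => g ≠ a x0) (fun g => g ≠ b x0) (1 / 16) (by norm_num)
    have a2 := lin X hX J a c h2 (fun g => g ≠ a x0) (fun g => g ≠ c x0) (1 / 16) (by norm_num)
    have a3 := lin X hX J b c h3 (fun g => g ≠ b x0) (fun g => g ≠ c x0) (1 / 16) (by norm_num)
    rw [cnt_eq, cnt_eq, cnt_eq] at a1 a2 a3
    have hq : (X.filter fun x => J x ≠ J x0).card + fb X J x0 = X.card := by
      rw [fb_eq, add_comm]
      exact card_filter_add_card_filter_not _
    have s1 : (X.filter fun x => a x ≠ a x0).card ≤ (X.filter fun x => J x ≠ J x0).card :=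
      card_le_card fun x hx => mem_filter.2 ⟨(mem_filter.1 hx).1, fun h =>
        (mem_filter.1 hx).2 ((h1 x0 x).1 h).1⟩
    have s2 : (X.filter fun x => b x ≠ b x0).card ≤ (X.filter fun x => J x ≠ J x0).card :=
      card_le_card fun x hx => mem_filter.2 ⟨(mem_filter.1 hx).1, fun h =>
        (mem_filter.1 hx).2 ((h1 x0 x).1 h).2⟩
    have s3 : (X.filter fun x => c x ≠ c x0).card ≤ (X.filter fun x => J x ≠ J x0).card :=
      card_le_card fun x hx => mem_filter.2 ⟨(mem_filter.1 hx).1, fun h =>
        (mem_filter.1 hx).2 ((h2 x0 x).1 h).2⟩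
    have s4 : (X.filter fun x => J x ≠ J x0).card ≤
        (X.filter fun x => a x ≠ a x0 ∧ b x ≠ b x0).card +
        (X.filter fun x => a x ≠ a x0 ∧ c x ≠ c x0).card +
        (X.filter fun x => b x ≠ b x0 ∧ c x ≠ c x0).card := by
      simp only [card_filter, ← sum_add_distrib]
      refine sum_le_sum fun x _ => ?_
      have k1 := h1 x0 x
      have k2 := h2 x0 x
      have k3 := h3 x0 x
      by_cases p1 : a x = a x0 <;> by_cases p2 : b x = b x0 <;> by_cases p3 : c x = c x0 <;>
        by_cases p4 : J x = J x0 <;> simp_all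
    set Q : ℝ := ((X.filter fun x => J x ≠ J x0).card : ℝ) with hQ
    set A' : ℝ := ((X.filter fun x => a x ≠ a x0).card : ℝ) with hA
    set B' : ℝ := ((X.filter fun x => b x ≠ b x0).card : ℝ) with hB
    set C' : ℝ := ((X.filter fun x => c x ≠ c x0).card : ℝ) with hC
    set N : ℝ := (X.card : ℝ) with hNd
    have r1 : A' ≤ Q := by rw [hA, hQ]; exact_mod_cast s1
    have r2 : B' ≤ Q := by rw [hB, hQ]; exact_mod_cast s2
    have r3 : C' ≤ Q := by rw [hC, hQ]; exact_mod_cast s3
    have r4 : Q ≤ ((X.filter fun x => a x ≠ a x0 ∧ b x ≠ b x0).card : ℝ) +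
        ((X.filter fun x => a x ≠ a x0 ∧ c x ≠ c x0).card : ℝ) +
        ((X.filter fun x => b x ≠ b x0 ∧ c x ≠ c x0).card : ℝ) := by
      rw [hQ]; exact_mod_cast s4
    have r5 : Q + fb X J x0 = N := by rw [hQ, hNd]; exact_mod_cast hq
    have r6 : 3 * N ≤ 4 * (fb X J x0 : ℝ) := by rw [hNd]; exact_mod_cast hb
    have r7 := hm x0 hx0
    have pA : 0 ≤ A' := Nat.cast_nonneg _
    have pB : 0 ≤ B' := Nat.cast_nonneg _
    have pC : 0 ≤ C' := Nat.cast_nonneg _
    have pQ : 0 ≤ Q := Nat.cast_nonneg _
    have u : ∀ p q : ℝ, 0 ≤ p → 0 ≤ q → p ≤ Q → q ≤ Q → p * q / N ≤ Q / 4 := by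
      intro p q hp hq hp' hq'
      rw [div_le_iff₀ hN]
      have : p * q ≤ Q * Q := mul_le_mul hp' hq' hq pQ
      nlinarith
    have u1 := u A' B' pA pB r1 r2
    have u2 := u A' C' pA pC r1 r3
    have u3 := u B' C' pB pC r2 r3
    linarith
  · push Not at hbig
    obtain ⟨f, hf⟩ := Module.exists_dual_forall_apply_ne_zero (K := ℚ) (M := G)
      (ι := {p : G × G // p ∈ ((X.image a ∪ X.image b ∪ X.image c) ×ˢ
        (X.image a ∪ X.image b ∪ X.image c)).filter fun p => p.1 ≠ p.2})
      (fun p => p.1.1 - p.1.2) (fun p => sub_ne_zero.2 (mem_filter.1 p.2).2)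
    have inj : ∀ U : V → G, (∀ x ∈ X, U x ∈ X.image a ∪ X.image b ∪ X.image c) →
        ∀ (σ : ℚ), σ ≠ 0 → ∀ x ∈ X, fb X (fun y => σ * f (U y)) x = fb X U x := by
      intro U hU σ hσ x hx
      rw [fb_eq, fb_eq]
      congr 1
      refine filter_congr fun y hy => ⟨fun h => ?_, fun h => by simp only [h]⟩
      by_contra hne
      have := hf ⟨(U y, U x), mem_filter.2 ⟨mem_product.2 ⟨hU y hy, hU x hx⟩, hne⟩⟩
      apply this
      simp only [map_sub]
      exact sub_eq_zero.2 (mul_left_cancel₀ hσ h)
    have ma : ∀ x ∈ X, a x ∈ X.image a ∪ X.image b ∪ X.image c := fun x hx =>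
      mem_union_left _ (mem_union_left _ (mem_image_of_mem _ hx))
    have mb : ∀ x ∈ X, b x ∈ X.image a ∪ X.image b ∪ X.image c := fun x hx =>
      mem_union_left _ (mem_union_right _ (mem_image_of_mem _ hx))
    have mc : ∀ x ∈ X, c x ∈ X.image a ∪ X.image b ∪ X.image c := fun x hx =>
      mem_union_right _ (mem_image_of_mem _ hx)
    have two : ∀ U W : V → G, (∀ x y, J y = J x ↔ U y = U x ∧ W y = W x) →
        (∀ x ∈ X, 8 * fb X U x ≤ 7 * X.card) ∨ (∀ x ∈ X, 8 * fb X W x ≤ 7 * X.card) := by
      intro U W h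
      by_contra hcon
      push Not at hcon
      obtain ⟨⟨x, hx, hx2⟩, ⟨y, hy, hy2⟩⟩ := hcon
      have hi := card_union_add_card_inter (X.filter fun z => U z = U x) (X.filter fun z => W z = W y)
      have hu : ((X.filter fun z => U z = U x) ∪ (X.filter fun z => W z = W y)).card ≤ X.card :=
        card_le_card (union_subset (filter_subset _ _) (filter_subset _ _))
      rw [fb_eq] at hx2 hy2
      have hpos : 0 < ((X.filter fun z => U z = U x) ∩ (X.filter fun z => W z = W y)).card := by
        omega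
      obtain ⟨z, hz⟩ := card_pos.1 hpos
      obtain ⟨hz1, hz2⟩ := mem_inter.1 hz
      have hsub : (X.filter fun z => U z = U x) ∩ (X.filter fun z => W z = W y) ⊆
          X.filter fun t => J t = J z := by
        intro t ht
        obtain ⟨ht1, ht2⟩ := mem_inter.1 ht
        refine mem_filter.2 ⟨(mem_filter.1 ht1).1, (h z t).2 ⟨?_, ?_⟩⟩
        · rw [(mem_filter.1 ht1).2, (mem_filter.1 hz1).2]
        · rw [(mem_filter.1 ht2).2, (mem_filter.1 hz2).2]
      have h5 := card_le_card hsub
      have h6 := hbig z (mem_filter.1 hz1).1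
      rw [fb_eq] at h6
      omega
    have sw : ∀ {U W : V → G}, (∀ x y, J y = J x ↔ U y = U x ∧ W y = W x) →
        ∀ x y, J y = J x ↔ W y = W x ∧ U y = U x := fun h x y => by rw [h, and_comm]
    have fin : (1 / 1572864 : ℝ) * X.card ≤ mi X J a b + mi X J a c + mi X J b c := by
      have cab : (∀ x ∈ X, 8 * fb X a x ≤ 7 * X.card) → (∀ x ∈ X, 8 * fb X b x ≤ 7 * X.card) →
          (1 / 1572864 : ℝ) * X.card ≤ mi X J a b + mi X J a c + mi X J b c := fun pa pb =>
        spread X hX J a b c (fun g => -1 * f g) (fun g => 1 * f g) (fun g => f g) h1 h2 h3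
          (fun x => by simp [hc]; ring)
          (fun x hx => by rw [inj a ma (-1) (by norm_num) x hx]; exact pa x hx)
          (fun x hx => by rw [inj b mb 1 (by norm_num) x hx]; exact pb x hx)
      have cac : (∀ x ∈ X, 8 * fb X a x ≤ 7 * X.card) → (∀ x ∈ X, 8 * fb X c x ≤ 7 * X.card) →
          (1 / 1572864 : ℝ) * X.card ≤ mi X J a b + mi X J a c + mi X J b c := fun pa pc => by
        have := spread X hX J a c b (fun g => 1 * f g) (fun g => 1 * f g) (fun g => f g) h2 h1
          (sw h3) (fun x => by simp [hc])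
          (fun x hx => by rw [inj a ma 1 (by norm_num) x hx]; exact pa x hx)
          (fun x hx => by rw [inj c mc 1 (by norm_num) x hx]; exact pc x hx)
        rw [sy c b] at this
        linarith
      have cbc : (∀ x ∈ X, 8 * fb X b x ≤ 7 * X.card) → (∀ x ∈ X, 8 * fb X c x ≤ 7 * X.card) →
          (1 / 1572864 : ℝ) * X.card ≤ mi X J a b + mi X J a c + mi X J b c := fun pb pc => by
        have := spread X hX J b c a (fun g => 1 * f g) (fun g => -1 * f g) (fun g => f g) h3
          (sw h1) (sw h2) (fun x => by simp [hc])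
          (fun x hx => by rw [inj b mb 1 (by norm_num) x hx]; exact pb x hx)
          (fun x hx => by rw [inj c mc (-1) (by norm_num) x hx]; exact pc x hx)
        rw [sy b a, sy c a] at this
        linarith
      rcases two a b h1 with pa | pb
      · rcases two b c h3 with pb | pc
        · exact cab pa pb
        · exact cac pa pc
      · rcases two a c h2 with pa | pc
        · exact cab pa pb
        · exact cbc pb pc
    linarith

end
end Pool.Agent.Lib.MP_439fea_co.Gain
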