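import Pool.Agent.Lib.MP_439fea_co.Ud.Defs
import Pool.Agent.Lib.MP_439fea_co.Z.PCons

namespace Pool.Agent.Lib.MP_439fea_co.Ud
open Finset Pool.Agent.Lib.MP_439fea_co.Z
open scoped Classical
noncomputable section

variable {V : Type} {E A : V → V → Prop} {C : ℝ}

theorem ed_sub (h : ∀ a b, A a b → E a b) (X Y : Finset V) : ed A X Y ≤ ed E X Y :=
  sum_le_sum fun _ _ => card_le_card fun _ hb => mem_nb.2 ⟨(mem_nb.1 hb).1, h _ _ (mem_nb.1 hb).2⟩

theorem ST.sub (hst : ST E C) (h : ∀ a b, A a b → E a b) : ST A C := fun X Y M hM =>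
  le_trans (by exact_mod_cast ed_sub h X Y) (hst X Y M hM)

/-- Labelled incidence bound without symmetry. -/
theorem ed_lab {L : Type} (hst : ST A C) (hC : 0 ≤ C) (X Y : Finset V) (lab : V → L) {N J M : ℝ}
    (hM : 1 ≤ M) (hN : ∀ x ∈ X, ((fib X lab x).card : ℝ) ≤ N)
    (hJ : ∀ y ∈ Y, (((X.filter fun x => A x y).image lab).card : ℝ) ≤ J) :
    (ed A X Y : ℝ) ≤ C * (N * X.card / M ^ 2 + M * J * Y.card + X.card) := by
  have hmaps : ∀ a ∈ X, lab a ∈ X.image lab := fun a ha => mem_image_of_mem _ ha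
  set F : L → Finset V := fun l => X.filter fun x => lab x = l with hF
  set G : L → Finset V := fun l => Y.filter fun y => l ∈ (X.filter fun x => A x y).image lab with hG
  have e1 : ed A X Y = ∑ l ∈ X.image lab, ed A (F l) (G l) := by
    simp only [ed, hF]
    rw [← sum_fiberwise_of_maps_to hmaps]
    refine sum_congr rfl fun l _ => sum_congr rfl fun a ha => ?_
    obtain ⟨ha1, ha2⟩ := mem_filter.1 ha
    congr 1
    ext b
    simp only [mem_nb, hG, mem_filter, mem_image]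
    exact ⟨fun hb => ⟨⟨hb.1, a, ⟨ha1, hb.2⟩, ha2⟩, hb.2⟩, fun hb => ⟨hb.1.1, hb.2⟩⟩
  have e2 : (X.card : ℝ) = ∑ l ∈ X.image lab, ((F l).card : ℝ) := by
    exact_mod_cast card_eq_sum_card_fiberwise hmaps
  have e3 : ∑ l ∈ X.image lab, ((G l).card : ℝ) ≤ J * Y.card := by
    have h1 : ∑ l ∈ X.image lab, (G l).card = ∑ y ∈ Y,
        ((X.image lab).filter fun l => l ∈ (X.filter fun x => A x y).image lab).card := by
      simp only [hG, card_filter]
      rw [sum_comm]
    have h2 : ∑ l ∈ X.image lab, ((G l).card : ℝ) = ∑ y ∈ Y,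
        (((X.image lab).filter fun l => l ∈ (X.filter fun x => A x y).image lab).card : ℝ) := by
      exact_mod_cast h1
    rw [h2, mul_comm, ← nsmul_eq_mul]
    refine sum_le_card_nsmul _ _ _ fun y hy => le_trans ?_ (hJ y hy)
    exact_mod_cast card_le_card fun l hl => (mem_filter.1 hl).2
  have e4 : ∑ l ∈ X.image lab, ((F l).card : ℝ) ^ 2 ≤ N * X.card := by
    rw [e2, mul_sum]
    refine sum_le_sum fun l hl => ?_
    obtain ⟨x, hx, rfl⟩ := mem_image.1 hl
    rw [sq]
    exact mul_le_mul_of_nonneg_right (hN x hx) (Nat.cast_nonneg _)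
  rw [e1]
  push_cast
  refine (sum_le_sum fun l _ => hst (F l) (G l) M hM).trans ?_
  rw [← mul_sum, sum_add_distrib, sum_add_distrib, ← sum_div, ← mul_sum, ← e2]
  refine mul_le_mul_of_nonneg_left ?_ hC
  have h1 := div_le_div_of_nonneg_right e4 (sq_nonneg M)
  have h2 := mul_le_mul_of_nonneg_left e3 (by linarith : (0 : ℝ) ≤ M)
  nlinarith

theorem Amb.card_le_cube [Fintype V] {ρ : ℝ} (h : Amb E C ρ) (S : Finset V) : (S.card : ℝ) ≤ ρ ^ 3 :=
  le_trans (by exact_mod_cast card_le_univ S) h.card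

theorem smallS : SmallS := by
  intro C θ hC hθ
  have hC0 : 0 < C := by linarith
  set k : ℝ := θ / (3 * C) with hk
  have hk0 : 0 < k := by positivity
  have hθk : θ = C * (3 * k) := by rw [hk]; field_simp
  refine ⟨min 1 (k ^ 3), lt_min one_pos (by positivity), 1 / k, fun V _ E ρ S hρ h hS => ?_⟩
  have hρ0 : 0 < ρ := lt_of_lt_of_le (by positivity) hρ
  have hkρ : 1 ≤ k * ρ := by rwa [div_le_iff₀ hk0, mul_comm] at hρ
  have hS0 : (0 : ℝ) ≤ S.card := Nat.cast_nonneg _
  have hS1 : (S.card : ℝ) ≤ k ^ 3 * ρ ^ 3 :=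
    hS.trans (mul_le_mul_of_nonneg_right (min_le_right _ _) (by positivity))
  have hS2 := h.card_le_cube S
  have h34 : ρ ^ 3 ≤ k * ρ ^ 4 := by
    calc ρ ^ 3 = 1 * ρ ^ 3 := by ring
      _ ≤ k * ρ * ρ ^ 3 := by gcongr
      _ = _ := by ring
  constructor
  · refine (h.st S univ (k * ρ) hkρ).trans ?_
    rw [hθk, mul_assoc C]
    refine mul_le_mul_of_nonneg_left ?_ hC0.le
    have h1 : (S.card : ℝ) ^ 2 / (k * ρ) ^ 2 ≤ k * ρ ^ 4 := by
      rw [div_le_iff₀ (by positivity)]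
      calc (S.card : ℝ) ^ 2 = S.card * S.card := sq _
        _ ≤ k ^ 3 * ρ ^ 3 * ρ ^ 3 := mul_le_mul hS1 hS2 hS0 (by positivity)
        _ = _ := by ring
    have h2 : k * ρ * (univ : Finset V).card ≤ k * ρ ^ 4 := by
      calc k * ρ * (univ : Finset V).card ≤ k * ρ * ρ ^ 3 := by
            have := h.card_le_cube univ
            gcongr
        _ = _ := by ring
    linarith
  · refine (ed_small h.st hC0.le S S hkρ hρ0 le_rfl le_rfl hS1).trans ?_
    refine mul_le_mul_of_nonneg_right ?_ hS0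
    have h1 : k ^ 3 / k ^ 2 = k := by field_simp
    rw [h1, hθk, mul_assoc C]
    exact mul_le_mul_of_nonneg_left (by linarith) hC0.le

theorem richS : RichS := by
  intro V E C j S T hC hs hst hj hT
  rw [ed_comm hs]
  refine (rich_ed hst (by linarith) hs T S hj hT).trans (le_of_eq (by ring))

theorem e0S : E0S := by
  intro C J θ hC hJ hθ
  have hC0 : 0 < C := by linarith
  set k : ℝ := θ / (3 * C * J) with hk
  have hk0 : 0 < k := by positivity
  have hθk : θ = C * (3 * (k * J)) := by rw [hk]; field_simp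
  refine ⟨k ^ 3 * J, by positivity, max (1 / k) (1 / (k * J)),
    fun V _ E A ρ X Λ lab hρ h hA hlab => ?_⟩
  have hρ1 := (le_max_left _ _).trans hρ
  have hρ2 := (le_max_right _ _).trans hρ
  have hρ0 : 0 < ρ := lt_of_lt_of_le (by positivity) hρ1
  have hkρ : 1 ≤ k * ρ := by rwa [div_le_iff₀ hk0, mul_comm] at hρ1
  have hkρ2 : 1 ≤ k * J * ρ := by rwa [div_le_iff₀ (by positivity), mul_comm] at hρ2
  set X0 := X.filter fun x => ((fib X lab x).card : ℝ) ≤ k ^ 3 * J * ρ ^ 3 with hX0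
  have hsub : X0 ⊆ X := filter_subset _ _
  refine (ed_lab (ST.sub h.st hA) hC0.le X0 univ lab (N := k ^ 3 * J * ρ ^ 3) (J := J) hkρ
    (fun x hx => ?_) fun y _ => ?_).trans ?_
  · refine le_trans ?_ (mem_filter.1 hx).2
    exact_mod_cast card_le_card (filter_subset_filter _ hsub)
  · refine le_trans ?_ (hlab y)
    exact_mod_cast card_le_card (image_subset_image (filter_subset_filter _ hsub))
  · rw [hθk, mul_assoc C]
    refine mul_le_mul_of_nonneg_left ?_ hC0.le
    have h0 := h.card_le_cube X0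
    have h1 : k ^ 3 * J * ρ ^ 3 * X0.card / (k * ρ) ^ 2 ≤ k * J * ρ ^ 4 := by
      rw [div_le_iff₀ (by positivity)]
      calc k ^ 3 * J * ρ ^ 3 * X0.card ≤ k ^ 3 * J * ρ ^ 3 * ρ ^ 3 := by gcongr
        _ = _ := by ring
    have h2 : k * ρ * J * (univ : Finset V).card ≤ k * J * ρ ^ 4 := by
      calc k * ρ * J * (univ : Finset V).card ≤ k * ρ * J * ρ ^ 3 := by
            have := h.card_le_cube univ
            gcongr
        _ = _ := by ring
    have h3 : ρ ^ 3 ≤ k * J * ρ ^ 4 := by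
      calc ρ ^ 3 = 1 * ρ ^ 3 := by ring
        _ ≤ k * J * ρ * ρ ^ 3 := by gcongr
        _ = _ := by ring
    linarith

/-- Light fibres contain few points of a family of large degree. -/
theorem e0p (h : E0S) (C c J θ : ℝ) (hC : 1 ≤ C) (hc : 0 < c) (hJ : 0 < J) (hθ : 0 < θ) :
    ∃ η : ℝ, 0 < η ∧ ∃ ρ0 : ℝ, 0 < ρ0 ∧ ∀ (V : Type) [Fintype V] (E A : V → V → Prop) (ρ : ℝ)
      (X : Finset V) (Λ : Type) (lab : V → Λ), ρ0 ≤ ρ → Amb E C ρ → Fam E A X (c * ρ) →
      (∀ y, (((X.filter fun x => A x y).image lab).card : ℝ) ≤ J) →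
      ((X.filter fun x => ((fib X lab x).card : ℝ) ≤ η * ρ ^ 3).card : ℝ) ≤ θ * ρ ^ 3 := by
  obtain ⟨η, hη, ρ0, H⟩ := h C J (θ * c) hC hJ (by positivity)
  refine ⟨η, hη, max ρ0 1, lt_of_lt_of_le one_pos (le_max_right _ _),
    fun V _ E A ρ X Λ lab hρ ha hF hl => ?_⟩
  have hρ0 : 0 < ρ := lt_of_lt_of_le one_pos ((le_max_right _ _).trans hρ)
  have h1 := H V E A ρ X Λ lab ((le_max_left _ _).trans hρ) ha hF.sub hl
  have h2 := card_mul_le_ed (E := A) (X.filter fun x => ((fib X lab x).card : ℝ) ≤ η * ρ ^ 3) univ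
    (j := c * ρ) fun y hy => hF.deg y (mem_filter.1 hy).1
  refine le_of_mul_le_mul_left (h2.trans (h1.trans (le_of_eq (by ring)))) (by positivity : 0 < c * ρ)

/-- Points in heavy fibres carry few labels. -/
theorem heavy_labels {Λ : Type} (X : Finset V) (lab : V → Λ) {t : ℝ} :
    t * ((X.filter fun x => t < ((fib X lab x).card : ℝ)).image lab).card ≤ X.card := by
  set I := (X.filter fun x => t < ((fib X lab x).card : ℝ)).image lab with hI
  have h1 : ∑ l ∈ I, (X.filter fun x => lab x = l).card ≤ X.card := by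
    rw [← card_biUnion]
    · exact card_le_card fun x hx => by
        obtain ⟨l, -, hl⟩ := mem_biUnion.1 hx
        exact (mem_filter.1 hl).1
    · intro l _ l' _ hne
      exact disjoint_left.2 fun x hx hx' =>
        hne ((mem_filter.1 hx).2.symm.trans (mem_filter.1 hx').2)
  have h2 : ∑ l ∈ I, ((X.filter fun x => lab x = l).card : ℝ) ≤ X.card := by exact_mod_cast h1
  refine le_trans ?_ h2
  rw [mul_comm, ← nsmul_eq_mul]
  refine card_nsmul_le_sum _ _ _ fun l hl => ?_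
  obtain ⟨x, hx, rfl⟩ := mem_image.1 hl
  exact (mem_filter.1 hx).2.le

end
end Pool.Agent.Lib.MP_439fea_co.Ud
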