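import Mathlib

/-! Many edge disjoint cliques of size four force many cliques of size four. -/

namespace Pool.Agent.Lib.MP_439fea_co.Ud

open Finset SimpleGraph

variable {V : Type} [DecidableEq V] (G : SimpleGraph V) [DecidableRel G.Adj]

lemma k4_bad {ε d : ℝ} {s t : Finset V} (hε : ε ≤ d / 2) (h1 : ε ≤ 1)
    (hd : d ≤ G.edgeDensity s t) (hu : G.IsUniform ε s t) :
    (#{x ∈ s | (#{y ∈ t | G.Adj x y} : ℝ) < d / 2 * #t} : ℝ) ≤ #s * ε := by
  by_contra! h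
  set B := {x ∈ s | (#{y ∈ t | G.Adj x y} : ℝ) < d / 2 * #t} with hB
  have h2 := hu (filter_subset _ _ : B ⊆ s) Subset.rfl h.le
    (mul_le_of_le_one_right (Nat.cast_nonneg _) h1)
  have h0 := hu.pos
  have h3 : (#(G.interedges B t) : ℝ) ≤ #B * (d / 2 * #t) := by
    refine (Nat.cast_le.2 <| (card_le_card <| subset_of_eq
      (Rel.interedges_eq_biUnion _)).trans card_biUnion_le).trans ?_
    simp_rw [Nat.cast_sum, card_map, ← nsmul_eq_mul]
    exact sum_le_card_nsmul _ _ _ fun x hx => (mem_filter.1 hx).2.le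
  have h4 : (G.edgeDensity B t : ℝ) ≤ d / 2 := by
    rw [edgeDensity_def]
    push_cast
    exact div_le_of_le_mul₀ (by positivity) (by linarith) (by linarith)
  rw [abs_sub_lt_iff] at h2
  linarith [h2.2]

omit [DecidableEq V] in
lemma k4_slice {d : ℝ} {t u t' u' : Finset V} (h0 : 0 < d) (h1 : d ≤ 1)
    (hd : d ≤ G.edgeDensity t u) (hu : G.IsUniform (d ^ 2 / 8) t u) (ht' : t' ⊆ t) (hu' : u' ⊆ u)
    (ct : d / 2 * #t ≤ #t') (cu : d / 2 * #u ≤ #u') :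
    2 * (d / 4) ≤ G.edgeDensity t' u' ∧ G.IsUniform (d / 4) t' u' := by
  have e1 : d ^ 2 / 8 ≤ d / 8 := by nlinarith
  have key : ∀ {a b : ℝ}, 0 ≤ a → d / 2 * a ≤ b → a * (d ^ 2 / 8) ≤ b := fun {a b} ha hb => by
    nlinarith [mul_le_mul_of_nonneg_left e1 ha, mul_nonneg ha h0.le]
  have h2 := abs_sub_lt_iff.1 (hu ht' hu' (key (Nat.cast_nonneg _) ct) (key (Nat.cast_nonneg _) cu))
  refine ⟨by linarith [h2.2], fun a ha b hb ca cb => ?_⟩
  have key2 : ∀ {a b c : ℝ}, d / 2 * a ≤ b → b * (d / 4) ≤ c → a * (d ^ 2 / 8) ≤ c :=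
    fun {a b c} hb hc => by nlinarith [mul_le_mul_of_nonneg_right hb h0.le]
  have h3 := abs_sub_lt_iff.1 (hu (ha.trans ht') (hb.trans hu') (key2 ct ca) (key2 cu cb))
  rw [abs_sub_lt_iff]
  constructor <;> linarith [h2.1, h2.2, h3.1, h3.2]

/-- The ordered quadruples of pairwise adjacent vertices. -/
def quads [Fintype V] : Finset (V × V × V × V) :=
  {p | G.Adj p.1 p.2.1 ∧ G.Adj p.1 p.2.2.1 ∧ G.Adj p.1 p.2.2.2 ∧ G.Adj p.2.1 p.2.2.1 ∧
    G.Adj p.2.1 p.2.2.2 ∧ G.Adj p.2.2.1 p.2.2.2}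

lemma k4_count [Fintype V] {d : ℝ} {s t u v : Finset V} (h0 : 0 < d) (h1 : d ≤ 1)
    (hst : G.IsUniform (d ^ 2 / 8) s t ∧ d ≤ G.edgeDensity s t)
    (hsu : G.IsUniform (d ^ 2 / 8) s u ∧ d ≤ G.edgeDensity s u)
    (hsv : G.IsUniform (d ^ 2 / 8) s v ∧ d ≤ G.edgeDensity s v)
    (htu : G.IsUniform (d ^ 2 / 8) t u ∧ d ≤ G.edgeDensity t u)
    (htv : G.IsUniform (d ^ 2 / 8) t v ∧ d ≤ G.edgeDensity t v)
    (huv : G.IsUniform (d ^ 2 / 8) u v ∧ d ≤ G.edgeDensity u v) :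
    d ^ 6 / 2048 * #s * #t * #u * #v ≤ #(quads G) := by
  have e1 : d ^ 2 / 8 ≤ d / 8 := by nlinarith
  have b1 := k4_bad G (by linarith) (by linarith) hst.2 hst.1
  have b2 := k4_bad G (by linarith) (by linarith) hsu.2 hsu.1
  have b3 := k4_bad G (by linarith) (by linarith) hsv.2 hsv.1
  set B1 := {x ∈ s | (#{y ∈ t | G.Adj x y} : ℝ) < d / 2 * #t} with hB1
  set B2 := {x ∈ s | (#{y ∈ u | G.Adj x y} : ℝ) < d / 2 * #u} with hB2
  set B3 := {x ∈ s | (#{y ∈ v | G.Adj x y} : ℝ) < d / 2 * #v} with hB3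
  have hX : (#s : ℝ) / 2 ≤ #(s \ (B1 ∪ B2 ∪ B3)) := by
    have a1 : (#s : ℝ) ≤ #(s \ (B1 ∪ B2 ∪ B3)) + #(B1 ∪ B2 ∪ B3) := by
      exact_mod_cast card_le_card_sdiff_add_card
    have a2 : (#(B1 ∪ B2 ∪ B3) : ℝ) ≤ #B1 + #B2 + #B3 := by
      exact_mod_cast (card_union_le _ _).trans (Nat.add_le_add_right (card_union_le _ _) _)
    have a3 : (#s : ℝ) * (d ^ 2 / 8) ≤ #s * (1 / 8) :=
      mul_le_mul_of_nonneg_left (by linarith) (Nat.cast_nonneg _)
    have a4 : (0 : ℝ) ≤ #s := Nat.cast_nonneg _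
    linarith
  let T (x : V) : Finset (V × V × V) := ({y ∈ t | G.Adj x y} ×ˢ {y ∈ u | G.Adj x y} ×ˢ
    {y ∈ v | G.Adj x y}).filter fun (a, b, c) => G.Adj a b ∧ G.Adj a c ∧ G.Adj b c
  have hT : ∀ x ∈ s \ (B1 ∪ B2 ∪ B3), d ^ 6 / 1024 * #t * #u * #v ≤ #(T x) := fun x hx => by
    simp only [mem_sdiff, mem_union, hB1, hB2, hB3, mem_filter, not_or, not_and, not_lt] at hx
    obtain ⟨hs, ⟨c1, c2⟩, c3⟩ := hx
    replace c1 := c1 hs
    replace c2 := c2 hs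
    replace c3 := c3 hs
    have s1 := k4_slice G h0 h1 htu.2 htu.1 (filter_subset _ _) (filter_subset _ _) c1 c2
    have s2 := k4_slice G h0 h1 htv.2 htv.1 (filter_subset _ _) (filter_subset _ _) c1 c3
    have s3 := k4_slice G h0 h1 huv.2 huv.1 (filter_subset _ _) (filter_subset _ _) c2 c3
    refine le_trans ?_ (G.triangle_counting' s1.1 s1.2 s2.1 s2.2 s3.1 s3.2)
    calc d ^ 6 / 1024 * #t * #u * #v
        = 1 / 2 * (d / 4) ^ 3 * (d / 2 * #t) * (d / 2 * #u) * (d / 2 * #v) := by ring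
      _ ≤ _ := by
        have : 1 / 2 ≤ 1 - 2 * (d / 4) := by linarith
        gcongr
  have hc : #((s \ (B1 ∪ B2 ∪ B3)).sigma T) ≤ #(quads G) := by
    refine card_le_card_of_injOn (fun p => (p.1, p.2)) ?_ ?_
    · rintro ⟨x, a, b, c⟩ hp
      simp only [coe_sigma, Set.mem_sigma_iff, mem_coe, T, mem_filter, mem_product] at hp
      obtain ⟨-, ⟨⟨-, e1⟩, ⟨-, e2⟩, -, e3⟩, e4, e5, e6⟩ := hp
      exact mem_coe.2 (mem_filter.2 ⟨mem_univ _, e1, e2, e3, e4, e5, e6⟩)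
    · rintro ⟨x, p⟩ - ⟨y, q⟩ - e
      obtain ⟨rfl, rfl⟩ := Prod.mk.inj e
      rfl
  rw [card_sigma] at hc
  have h5 := card_nsmul_le_sum _ (fun x => (#(T x) : ℝ)) _ hT
  rw [nsmul_eq_mul, ← Nat.cast_sum] at h5
  calc d ^ 6 / 2048 * #s * #t * #u * #v = #s / 2 * (d ^ 6 / 1024 * #t * #u * #v) := by ring
    _ ≤ _ := by gcongr
    _ ≤ _ := h5
    _ ≤ _ := by exact_mod_cast hc

omit [DecidableRel G.Adj] in
lemma k4_elim {s : Finset V} (h : G.IsNClique 4 s) : ∃ a ∈ s, ∃ b ∈ s, ∃ c ∈ s, ∃ d ∈ s,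
    G.Adj a b ∧ G.Adj a c ∧ G.Adj a d ∧ G.Adj b c ∧ G.Adj b d ∧ G.Adj c d := by
  obtain ⟨a, t, ha, rfl, ht⟩ := card_eq_succ.1 h.card_eq
  obtain ⟨b, c, d, bc, bd, cd, rfl⟩ := card_eq_three.1 ht
  simp only [mem_insert, mem_singleton, not_or] at ha
  have k := h.isClique
  exact ⟨a, by simp, b, by simp, c, by simp, d, by simp, k (by simp) (by simp) ha.1,
    k (by simp) (by simp) ha.2.1, k (by simp) (by simp) ha.2.2, k (by simp) (by simp) bc,
    k (by simp) (by simp) bd, k (by simp) (by simp) cd⟩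

lemma k4_part [Fintype V] {P : Finpartition (univ : Finset V)} (hP : P.IsEquipartition) {b : ℕ}
    (hb : #P.parts ≤ b) {s : Finset V} (hs : s ∈ P.parts) :
    (Fintype.card V : ℝ) / (2 * b) ≤ #s := by
  have h0 : 0 < #P.parts := card_pos.2 ⟨_, hs⟩
  have h1 := hP.average_le_card_part hs
  have h2 := P.card_parts_le_card
  rw [card_univ] at h1 h2
  have h3 := Nat.div_add_mod (Fintype.card V) #P.parts
  have h4 := Nat.mod_lt (Fintype.card V) h0
  have h5 : 1 ≤ Fintype.card V / #P.parts := (Nat.one_le_div_iff h0).2 h2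
  have h6 : Fintype.card V ≤ 2 * b * #s := by
    nlinarith [Nat.mul_le_mul hb h1, Nat.mul_le_mul_left #P.parts h5]
  have hb0 : (0 : ℝ) < 2 * b := by
    have : 0 < b := h0.trans_le hb
    positivity
  rw [div_le_iff₀' hb0]
  exact_mod_cast h6

/-- The removal lemma for cliques of size four, in the form with edge disjoint cliques. -/
theorem k4_removal {δ : ℝ} (hδ : 0 < δ) : ∃ γ : ℝ, 0 < γ ∧ ∀ (V : Type) [Fintype V] [DecidableEq V]
    (G : SimpleGraph V) [DecidableRel G.Adj] (F : Finset (Finset V)), (∀ s ∈ F, G.IsNClique 4 s) →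
    (∀ s ∈ F, ∀ t ∈ F, s ≠ t → #(s ∩ t) ≤ 1) → δ * (Fintype.card V : ℝ) ^ 2 ≤ #F →
    γ * (Fintype.card V : ℝ) ^ 4 ≤ #(quads G) := by
  obtain ⟨d, h0, h1, hd⟩ : ∃ d : ℝ, 0 < d ∧ d ≤ 1 ∧ 5 * d ≤ δ :=
    ⟨min 1 (δ / 5), by positivity, min_le_left _ _, by linarith [min_le_right 1 (δ / 5)]⟩
  set l := ⌈4 / d⌉₊ with hl
  set b := SzemerediRegularity.bound (d ^ 2 / 8) l with hb
  have hl0 : 0 < l := Nat.ceil_pos.2 (by positivity)
  have hb0 : 0 < b := SzemerediRegularity.bound_pos _ _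
  refine ⟨min ((l : ℝ) ^ 4)⁻¹ (d ^ 6 / 2048 / (2 * b) ^ 4), by positivity, ?_⟩
  intro V _ _ G _ F hF hF2 hc
  rcases isEmpty_or_nonempty V with hV | hV
  · simp
  have hn : (0 : ℝ) < Fintype.card V := by exact_mod_cast Fintype.card_pos
  rcases le_total (Fintype.card V) l with hl' | hl'
  · obtain ⟨s, hs⟩ : F.Nonempty := card_pos.1 (by
      have : (0 : ℝ) < #F := lt_of_lt_of_le (by positivity) hc
      exact_mod_cast this)
    obtain ⟨x, -, y, -, z, -, w, -, e⟩ := k4_elim G (hF s hs)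
    have h2 : (1 : ℝ) ≤ #(quads G) := by
      exact_mod_cast card_pos.2 ⟨(x, y, z, w), mem_filter.2 ⟨mem_univ _, e⟩⟩
    calc _ ≤ ((l : ℝ) ^ 4)⁻¹ * (l : ℝ) ^ 4 := by
          gcongr
          exact min_le_left _ _
      _ = 1 := inv_mul_cancel₀ (by positivity)
      _ ≤ _ := h2
  obtain ⟨P, p1, p2, p3, p4⟩ := szemeredi_regularity G (by positivity : 0 < d ^ 2 / 8) hl'
  set A := (P.nonUniforms G (d ^ 2 / 8)).biUnion fun (U, W) => U ×ˢ W with hA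
  set B := P.parts.biUnion offDiag with hB
  set C := (P.sparsePairs G d).biUnion fun (U, W) => G.interedges U W with hC
  have a1 : (#A : ℝ) < 4 * (d ^ 2 / 8) * #(univ : Finset V) ^ 2 :=
    p1.sum_nonUniforms_lt univ_nonempty (by positivity) p4
  have a2 : (#B : ℝ) ≤ d / 2 * #(univ : Finset V) ^ 2 :=
    p1.card_biUnion_offDiag_le h0 ((Nat.le_ceil _).trans (Nat.cast_le.2 p2))
  have a3 : (#C : ℝ) ≤ 4 * d * #(univ : Finset V) ^ 2 := p1.card_interedges_sparsePairs_le h0.le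
  rw [card_univ] at a1 a2 a3
  have a4 : #(A ∪ B ∪ C) < #F := by
    have a5 : (#(A ∪ B ∪ C) : ℝ) ≤ #A + #B + #C := by
      exact_mod_cast (card_union_le _ _).trans (Nat.add_le_add_right (card_union_le _ _) _)
    have a6 : 4 * (d ^ 2 / 8) + d / 2 + 4 * d ≤ δ := by nlinarith
    have a7 := mul_le_mul_of_nonneg_right a6 (sq_nonneg (Fintype.card V : ℝ))
    have : (#(A ∪ B ∪ C) : ℝ) < #F := by linarith
    exact_mod_cast this
  obtain ⟨s, hs, hg⟩ : ∃ s ∈ F, ∀ x ∈ s, ∀ y ∈ s, x ≠ y → (x, y) ∉ A ∪ B ∪ C := by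
    by_contra! h
    choose! fx hx fy hy hne hm using h
    obtain ⟨s, hs, t, ht, hst, e⟩ :=
      exists_ne_map_eq_of_card_lt_of_maps_to a4 (f := fun s => (fx s, fy s)) hm
    obtain ⟨e1, e2⟩ := Prod.mk.inj e
    exact hne s hs (card_le_one.1 (hF2 s hs t ht hst) _ (mem_inter.2 ⟨hx s hs, e1 ▸ hx t ht⟩) _
      (mem_inter.2 ⟨hy s hs, e2 ▸ hy t ht⟩))
  have key : ∀ x ∈ s, ∀ y ∈ s, G.Adj x y → G.IsUniform (d ^ 2 / 8) (P.part x) (P.part y) ∧
      d ≤ G.edgeDensity (P.part x) (P.part y) := fun x hx y hy e => by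
    have n := hg x hx y hy e.ne
    have px := P.part_mem.2 (mem_univ x)
    have py := P.part_mem.2 (mem_univ y)
    have mx := P.mem_part (mem_univ x)
    have my := P.mem_part (mem_univ y)
    simp only [mem_union, not_or] at n
    have ne : P.part x ≠ P.part y := fun e' =>
      n.1.2 (mem_biUnion.2 ⟨_, px, mem_offDiag.2 ⟨mx, e' ▸ my, e.ne⟩⟩)
    refine ⟨by_contra fun k => n.1.1 (mem_biUnion.2 ⟨(P.part x, P.part y),
      (Finpartition.mk_mem_nonUniforms _ _).2 ⟨px, py, ne, k⟩, mem_product.2 ⟨mx, my⟩⟩),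
      not_lt.1 fun k => n.2 (mem_biUnion.2 ⟨(P.part x, P.part y),
      (Finpartition.mk_mem_sparsePairs _ _ _ _ _).2 ⟨px, py, ne, k⟩,
      (G.mem_interedges_iff).2 ⟨mx, my, e⟩⟩)⟩
  obtain ⟨x, hx, y, hy, z, hz, w, hw, e1, e2, e3, e4, e5, e6⟩ := k4_elim G (hF s hs)
  refine le_trans ?_ (k4_count G h0 h1 (key x hx y hy e1) (key x hx z hz e2) (key x hx w hw e3)
    (key y hy z hz e4) (key y hy w hw e5) (key z hz w hw e6))
  have q := fun x : V => k4_part p1 p3 (P.part_mem.2 (mem_univ x))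
  calc _ ≤ d ^ 6 / 2048 / (2 * b) ^ 4 * (Fintype.card V : ℝ) ^ 4 := by
        gcongr
        exact min_le_right _ _
    _ = d ^ 6 / 2048 * (Fintype.card V / (2 * b)) * (Fintype.card V / (2 * b)) *
        (Fintype.card V / (2 * b)) * (Fintype.card V / (2 * b)) := by ring
    _ ≤ _ := by gcongr <;> exact q _

end Pool.Agent.Lib.MP_439fea_co.Ud
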