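import Pool.Agent.Lib.MP_439fea_co.Ud.Defs

/-! Exit balls of two pseudo-ultrametrics. -/

namespace Pool.Agent.Lib.MP_439fea_co.Ud
open Finset Pool.Agent.Lib.MP_439fea_co.Z
open scoped Classical
noncomputable section

variable {V : Type}

theorem ll_det {Λ Γ : Type} (Y : Finset V) (f : V → Λ) (g : V → Γ)
    (h : ∀ a ∈ Y, ∀ b ∈ Y, g a = g b → f a = f b) : (Y.image f).card ≤ (Y.image g).card := by
  rcases Y.eq_empty_or_nonempty with rfl | ⟨a0, -⟩
  · simp
  let φ : Γ → Λ := fun u => if hu : ∃ a ∈ Y, g a = u then f hu.choose else f a0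
  have hs : Y.image f ⊆ (Y.image g).image φ := by
    intro u hu
    obtain ⟨a, ha, rfl⟩ := mem_image.1 hu
    refine mem_image.2 ⟨g a, mem_image_of_mem _ ha, ?_⟩
    have hu : ∃ b ∈ Y, g b = g a := ⟨a, ha, rfl⟩
    simp only [φ, dif_pos hu]
    exact h _ hu.choose_spec.1 _ ha hu.choose_spec.2
  exact (card_le_card hs).trans card_image_le

theorem ll_mem {Λ : Type} {X : Finset V} {f : V → Λ} {a b : V} :
    b ∈ fib X f a ↔ b ∈ X ∧ f b = f a := mem_filter

theorem ll_min (P : Finset V → Prop) (X : Finset V) (h : P X) :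
    ∃ K, P K ∧ ∀ K', P K' → K.card ≤ K'.card := by
  have hn : ∃ n, ∃ K, P K ∧ K.card = n := ⟨_, X, h, rfl⟩
  obtain ⟨K, hK, e⟩ := Nat.find_spec hn
  exact ⟨K, hK, fun K' h' => e ▸ Nat.find_min' hn ⟨K', h', rfl⟩⟩

theorem ll_heavy {Λ : Type} (X : Finset V) (lab : V → Λ) (N : ℝ) :
    (((X.filter fun x => N < ((fib X lab x).card : ℝ)).image lab).card : ℝ) * N ≤ X.card := by
  set I := (X.filter fun x => N < ((fib X lab x).card : ℝ)).image lab with hI
  have h1 : ∑ u ∈ I, (X.filter fun x => lab x = u).card ≤ X.card := by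
    rw [← card_biUnion]
    · exact card_le_card (biUnion_subset.2 fun u _ => filter_subset _ _)
    · intro u _ u' _ hne
      exact disjoint_filter.2 fun x _ h h' => hne (h.symm.trans h')
  have h2 : ∀ u ∈ I, N ≤ ((X.filter fun x => lab x = u).card : ℝ) := by
    intro u hu
    obtain ⟨a, ha, rfl⟩ := mem_image.1 hu
    exact (mem_filter.1 ha).2.le
  have h3 := card_nsmul_le_sum I _ N h2
  rw [nsmul_eq_mul] at h3
  refine h3.trans ?_
  exact_mod_cast h1

/-- One application of the bound on light fibres. -/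
theorem ll_step (h0 : E0S) (C c J θ : ℝ) (hC : 1 ≤ C) (hc : 0 < c) (hJ : 0 < J) (hθ : 0 < θ) :
    ∃ η : ℝ, 0 < η ∧ ∃ ρ0 : ℝ, ∀ (V : Type) [Fintype V] (E A : V → V → Prop) (ρ : ℝ)
      (X : Finset V) (Λ Γ : Type) (lab : V → Λ) (g : V → Γ) (I : Finset Γ), ρ0 ≤ ρ → Amb E C ρ →
      Fam E A X (c * ρ) → (I.card : ℝ) ≤ J → (∀ a ∈ X, g a ∈ I) →
      (∀ a ∈ X, ∀ b ∈ X, ∀ y, A a y → A b y → g a = g b → lab a = lab b) →
      ∃ X' ⊆ X, ∃ I' : Finset Λ, ((X \ X').card : ℝ) ≤ θ * ρ ^ 3 ∧ (I'.card : ℝ) ≤ 1 / η ∧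
        (∀ a ∈ X', lab a ∈ I') ∧ ∀ a ∈ X', η * ρ ^ 3 < (fib X lab a).card := by
  obtain ⟨η, hη, ρ0, H⟩ := h0 C J (θ * c) hC hJ (mul_pos hθ hc)
  refine ⟨η, hη, max ρ0 1, ?_⟩
  intro V _ E A ρ X Λ Γ lab g I hρ hA hF hg hI hl
  have ρ1 : 1 ≤ ρ := (le_max_right _ _).trans hρ
  have ρp : 0 < ρ := by linarith
  have h1 := H V E A ρ X Λ lab ((le_max_left _ _).trans hρ) hA hF.sub (by
    intro y
    refine le_trans ?_ hg
    have a1 := ll_det (X.filter fun x => A x y) lab g (fun a ha b hb hab =>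
      hl a (mem_filter.1 ha).1 b (mem_filter.1 hb).1 y (mem_filter.1 ha).2 (mem_filter.1 hb).2 hab)
    have a2 : ((X.filter fun x => A x y).image g).card ≤ I.card :=
      card_le_card (image_subset_iff.2 fun a ha => hI a (mem_filter.1 ha).1)
    exact_mod_cast a1.trans a2)
  refine ⟨X.filter fun x => η * ρ ^ 3 < ((fib X lab x).card : ℝ), filter_subset _ _,
    (X.filter fun x => η * ρ ^ 3 < ((fib X lab x).card : ℝ)).image lab, ?_, ?_,
    fun a ha => mem_image_of_mem _ ha, fun a ha => (mem_filter.1 ha).2⟩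
  · set L := X.filter fun x => ((fib X lab x).card : ℝ) ≤ η * ρ ^ 3 with hL
    have e : X \ (X.filter fun x => η * ρ ^ 3 < ((fib X lab x).card : ℝ)) = L := by
      ext x
      simp only [hL, mem_sdiff, mem_filter, not_and, not_lt]
      exact ⟨fun h => ⟨h.1, h.2 h.1⟩, fun h => ⟨h.1, fun _ => h.2⟩⟩
    rw [e]
    have a1 := card_nsmul_le_sum L (fun a => ((nb A univ a).card : ℝ)) (c * ρ)
      (fun a ha => hF.deg a (mem_filter.1 ha).1)
    rw [nsmul_eq_mul] at a1
    unfold ed at h1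
    push_cast at h1
    have a2 : (L.card : ℝ) * (c * ρ) ≤ θ * ρ ^ 3 * (c * ρ) := by
      refine (a1.trans h1).trans_eq ?_
      ring
    exact le_of_mul_le_mul_right a2 (mul_pos hc ρp)
  · have a1 := ll_heavy X lab (η * ρ ^ 3)
    have a2 : (X.card : ℝ) ≤ ρ ^ 3 := le_trans (by exact_mod_cast card_le_univ X) hA.card
    have a3 : 0 < ρ ^ 3 := by positivity
    rw [le_div_iff₀ hη]
    refine le_of_mul_le_mul_right ?_ a3
    rw [mul_assoc, one_mul]
    exact a1.trans a2

theorem ll_max {d1 d2 : V → V → ℝ} (h1 : PUM d1) (h2 : PUM d2) :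
    PUM fun a b => max (d1 a b) (d2 a b) where
  nonneg a b := (h1.nonneg a b).trans (le_max_left _ _)
  refl a := by rw [h1.refl, h2.refl, max_self]
  symm a b := by rw [h1.symm, h2.symm]
  ultra a b c := max_le
    ((h1.ultra a b c).trans (max_le_max (le_max_left _ _) (le_max_left _ _)))
    ((h2.ultra a b c).trans (max_le_max (le_max_right _ _) (le_max_right _ _)))

theorem ll_ball {d : V → V → ℝ} (hd : PUM d) (X : Finset V) {a b : V} {r : ℝ} (h : d a b < r) :
    (X.filter fun x => d a x < r) = X.filter fun x => d b x < r := by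
  refine filter_congr fun x _ => ⟨fun hx => ?_, fun hx => ?_⟩
  · exact (hd.ultra b a x).trans_lt (max_lt (by rwa [hd.symm]) hx)
  · exact (hd.ultra a b x).trans_lt (max_lt h hx)

/-- The radius at which the ball around a point becomes heavy. -/
theorem ll_rad (d : V → V → ℝ) (X : Finset V) (N : ℝ) (hN : 0 ≤ N) (hX : N < X.card) :
    ∃ r : V → ℝ, ∀ x, N < ((X.filter fun y => d x y ≤ r x).card : ℝ) ∧
      ((X.filter fun y => d x y < r x).card : ℝ) ≤ N := by
  have hne : X.Nonempty := by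
    rw [← card_pos]; exact_mod_cast hN.trans_lt hX
  have key : ∀ x, ∃ s : ℝ, N < ((X.filter fun y => d x y ≤ s).card : ℝ) ∧
      ((X.filter fun y => d x y < s).card : ℝ) ≤ N := by
    intro x
    obtain ⟨y0, hy0, hm⟩ := exists_max_image X (d x) hne
    have hT : (X.filter fun y => N < ((X.filter fun z => d x z ≤ d x y).card : ℝ)).Nonempty :=
      ⟨y0, mem_filter.2 ⟨hy0, by rwa [filter_true_of_mem hm]⟩⟩
    obtain ⟨y1, hy1, hm1⟩ := exists_min_image _ (d x) hT
    refine ⟨d x y1, (mem_filter.1 hy1).2, ?_⟩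
    rcases (X.filter fun y => d x y < d x y1).eq_empty_or_nonempty with he | he
    · rw [he]; simpa using hN
    · obtain ⟨y2, hy2, hm2⟩ := exists_max_image _ (d x) he
      by_contra hc
      push Not at hc
      have : y2 ∈ X.filter fun y => N < ((X.filter fun z => d x z ≤ d x y).card : ℝ) := by
        refine mem_filter.2 ⟨(mem_filter.1 hy2).1, hc.trans_le ?_⟩
        exact_mod_cast card_le_card fun z hz => mem_filter.2 ⟨(mem_filter.1 hz).1, hm2 z hz⟩
      exact absurd (hm1 y2 this) (not_le.2 (mem_filter.1 hy2).2)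
  choose r hr using key
  exact ⟨r, hr⟩

/-- Few reference points meet all the heavy balls. -/
theorem ll_ref {d : V → V → ℝ} (hd : PUM d) (X : Finset V) (N : ℝ) (r : V → ℝ)
    (h0 : ∀ x ∈ X, 0 ≤ r x) (hr : ∀ x, N < ((X.filter fun y => d x y ≤ r x).card : ℝ)) :
    ∃ (k : V → V) (K : Finset V), (∀ x ∈ X, d x (k x) ≤ r x) ∧ (∀ x ∈ X, k x ∈ K) ∧
      (K.card : ℝ) * N ≤ X.card := by
  obtain ⟨K, hK2, hm⟩ := ll_min (fun K => ∀ x ∈ X, ∃ k ∈ K, d x k ≤ r x) X
    fun x hx => ⟨x, hx, (hd.refl x).le.trans (h0 x hx)⟩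
  have hp : ∀ k ∈ K, ∃ p, d p k ≤ r p ∧ ∀ k' ∈ K, k' ≠ k → r p < d p k' := by
    intro k hk
    by_contra hc
    push Not at hc
    have : ∀ x ∈ X, ∃ k' ∈ K.erase k, d x k' ≤ r x := by
      intro x hx
      obtain ⟨k1, hk1, h1⟩ := hK2 x hx
      by_cases e : k1 = k
      · obtain ⟨k2, hk2, h2, h3⟩ := hc x (e ▸ h1)
        exact ⟨k2, mem_erase.2 ⟨h2, hk2⟩, h3⟩
      · exact ⟨k1, mem_erase.2 ⟨e, hk1⟩, h1⟩
    exact absurd (hm _ this) (not_le.2 (card_erase_lt_of_mem hk))
  choose! p hp1 hp2 using hp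
  have aux : ∀ k ∈ K, ∀ k' ∈ K, k ≠ k' → ∀ z, d (p k) z ≤ r (p k) → d (p k') z ≤ r (p k') →
      r (p k) ≤ r (p k') → False := by
    intro k hk k' hk' hne z h1 h2 h3
    refine absurd (hp2 k' hk' k hk hne) (not_lt.2 ?_)
    refine (hd.ultra _ z _).trans (max_le h2 ((hd.ultra _ (p k) _).trans (max_le ?_ ?_)))
    · rw [hd.symm]; exact h1.trans h3
    · exact (hp1 k hk).trans h3
  have h1 : ∑ k ∈ K, (X.filter fun y => d (p k) y ≤ r (p k)).card ≤ X.card := by
    rw [← card_biUnion]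
    · exact card_le_card (biUnion_subset.2 fun u _ => filter_subset _ _)
    · intro k hk k' hk' hne
      refine disjoint_filter.2 fun z _ h h' => ?_
      rcases le_total (r (p k)) (r (p k')) with h3 | h3
      · exact aux k hk k' hk' hne z h h' h3
      · exact aux k' hk' k hk hne.symm z h' h h3
  have h3 := card_nsmul_le_sum K (fun k => ((X.filter fun y => d (p k) y ≤ r (p k)).card : ℝ)) N
    (fun k _ => (hr _).le)
  rw [nsmul_eq_mul] at h3
  have h4 : (K.card : ℝ) * N ≤ X.card := h3.trans (by exact_mod_cast h1)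
  choose! k hk1 hk2 using hK2
  exact ⟨k, K, hk2, hk1, h4⟩

theorem ll_lip {d : V → V → ℝ} (hd : PUM d) (X : Finset V) (N : ℝ) (r : V → ℝ)
    (hr : ∀ x, N < ((X.filter fun y => d x y ≤ r x).card : ℝ) ∧
      ((X.filter fun y => d x y < r x).card : ℝ) ≤ N) (a b : V) : r a ≤ max (d a b) (r b) := by
  by_contra hc
  push Not at hc
  have : (X.filter fun y => d b y ≤ r b) ⊆ X.filter fun y => d a y < r a := by
    intro y hy
    refine mem_filter.2 ⟨(mem_filter.1 hy).1, (hd.ultra a b y).trans_lt ?_⟩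
    exact (max_le_max le_rfl (mem_filter.1 hy).2).trans_lt hc
  have h2 : ((X.filter fun y => d b y ≤ r b).card : ℝ) ≤ (X.filter fun y => d a y < r a).card := by
    exact_mod_cast card_le_card this
  linarith [(hr b).1, (hr a).2]

theorem Fam.ll_mono [Fintype V] {E A : V → V → Prop} {X Y : Finset V} {t : ℝ} (h : Fam E A X t)
    (hY : Y ⊆ X) : Fam E A Y t := ⟨h.sub, fun a ha => h.deg a (hY ha)⟩

theorem lemLS (h0 : E0S) : LemLS := by
  intro C c η θ hC hc hη hθ
  have hθ4 : 0 < θ / 4 := by positivity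
  obtain ⟨η1, hη1, ρ1, H1⟩ := ll_step h0 C c (1 / η) (θ / 4) hC hc (by positivity) hθ4
  obtain ⟨η2, hη2, ρ2, H2⟩ := ll_step h0 C c (1 / η1 + 1 / η1) (θ / 4) hC hc (by positivity) hθ4
  obtain ⟨η3, hη3, ρ3, H3⟩ := ll_step h0 C c (1 / η2) (θ / 4) hC hc (by positivity) hθ4
  refine ⟨min η3 θ, lt_min hη3 hθ, max (max ρ1 (max ρ2 ρ3)) (max 1 (1 / η)), ?_⟩
  intro V _ E H A ρ X d1 d2 hρ hA p1 p2 sep hH hF cH cA
  simp only [max_le_iff] at hρ
  obtain ⟨⟨r1, r2, r3⟩, r4, r5⟩ := hρ
  have ρp : 0 < ρ := by linarith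
  have ρ3p : 0 < ρ ^ 3 := by positivity
  rcases le_or_gt (X.card : ℝ) (η * ρ ^ 3) with hX | hX
  · have e : ∀ a, fib X (fun _ : V => (∅ : Finset V)) a = X := fun a =>
      Finset.ext fun b => ll_mem.trans (and_iff_left rfl)
    refine ⟨fun _ => ∅, fun a _ b _ c _ _ h => absurd rfl h, fun a _ => by rwa [e], ?_⟩
    simp only [e]
    by_cases h : (X.card : ℝ) ≤ min η3 θ * ρ ^ 3
    · refine le_trans ?_ (h.trans (mul_le_mul_of_nonneg_right (min_le_right _ _) ρ3p.le))
      exact_mod_cast card_filter_le _ _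
    · rw [filter_false_of_mem fun _ _ => h]
      simp only [card_empty, Nat.cast_zero]
      positivity
  have N1 : 1 ≤ η * ρ ^ 3 := by
    rw [div_le_iff₀ hη] at r5
    have : 1 ≤ ρ ^ 2 := one_le_pow₀ r4
    nlinarith
  have pd := ll_max p1 p2
  set d : V → V → ℝ := fun a b => max (d1 a b) (d2 a b) with hd
  have e1 : ∀ a b, d1 a b ≤ d a b := fun a b => le_max_left _ _
  have e2 : ∀ a b, d2 a b ≤ d a b := fun a b => le_max_right _ _
  obtain ⟨r, hr⟩ := ll_rad d X (η * ρ ^ 3) (by linarith) hX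
  have lip := ll_lip pd X _ r hr
  have rpos : ∀ x ∈ X, 0 < r x := by
    intro x hx
    by_contra hn
    push Not at hn
    have : (X.filter fun y => d x y ≤ r x) ⊆ {x} := by
      intro y hy
      rw [mem_singleton]
      by_contra hne
      exact absurd ((mem_filter.1 hy).2.trans hn)
        (not_le.2 (sep x hx y (mem_filter.1 hy).1 (Ne.symm hne)))
    have h2 : ((X.filter fun y => d x y ≤ r x).card : ℝ) ≤ 1 := by
      exact_mod_cast (card_le_card this).trans_eq (card_singleton x)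
    linarith [(hr x).1]
  have req : ∀ a b, d a b < r a → r b = r a := by
    intro a b h
    refine le_antisymm ((lip b a).trans (max_le (by rw [pd.symm]; exact h.le) le_rfl)) ?_
    rcases le_max_iff.1 (lip a b) with h' | h'
    · exact absurd h (not_lt.2 h')
    · exact h'
  set lab : V → Finset V := fun x => X.filter fun y => d x y < r x with hlab
  have leq : ∀ a b, d a b < r a → lab a = lab b := by
    intro a b h
    simp only [hlab]
    rw [req a b h]
    exact ll_ball pd X h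
  have lle : ∀ a, ∀ b ∈ X, lab a = lab b → d a b < r a := by
    intro a b hb h
    have : b ∈ lab b := mem_filter.2 ⟨hb, (pd.refl b).trans_lt (rpos b hb)⟩
    rw [← h] at this
    exact (mem_filter.1 this).2
  obtain ⟨k, K, hk, kK, hK⟩ := ll_ref pd X _ r (fun x hx => (rpos x hx).le) fun x => (hr x).1
  have hK' : (K.card : ℝ) ≤ 1 / η := by
    have a2 : (X.card : ℝ) ≤ ρ ^ 3 := le_trans (by exact_mod_cast card_le_univ X) hA.card
    rw [le_div_iff₀ hη]
    refine le_of_mul_le_mul_right ?_ ρ3p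
    rw [mul_assoc, one_mul]
    exact hK.trans a2
  have far : ∀ a ∈ X, ∀ b ∈ X, k a = k b → r a < r b → r b ≤ d b (k b) := by
    intro a ha b hb e h
    rcases le_max_iff.1 (lip b (k b)) with h' | h'
    · exact h'
    · exfalso
      have := (lip (k b) a).trans (max_le (by rw [pd.symm, ← e]; exact hk a ha) le_rfl)
      linarith
  set T : V → Prop := fun x => d1 x (k x) < r x ∧ r x ≤ d2 x (k x) with hT
  have t1 : ∀ a ∈ X, ∀ b ∈ X, ¬ T b → ∀ y, H a y → H b y → k a = k b → ¬ r a < r b := by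
    intro a ha b hb tb y ya yb e h
    have f1 := far a ha b hb e h
    have f2 : r b ≤ d1 b (k b) := by
      by_contra hn
      push Not at hn
      rcases le_max_iff.1 f1 with h' | h'
      · linarith
      · exact tb ⟨hn, h'⟩
    have f3 : r b ≤ d1 a b := by
      rcases le_max_iff.1 (f2.trans (p1.ultra b a (k b))) with h' | h'
      · rwa [p1.symm]
      · rw [← e] at h'; linarith [e1 a (k a), hk a ha]
    have f4 : d2 a b ≤ r b := by
      refine (p2.ultra a (k a) b).trans (max_le ?_ ?_)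
      · linarith [e2 a (k a), hk a ha]
      · rw [p2.symm, e]; exact (e2 _ _).trans (hk b hb)
    have f5 := cH a ha b hb y (by rintro rfl; exact lt_irrefl _ h) ya yb
    linarith
  have t2 : ∀ a ∈ X, ∀ b ∈ X, T b → ∀ y, A a y → A b y → k a = k b → ¬ r a < r b := by
    intro a ha b hb tb y ya yb e h
    have f3 : r b ≤ d2 a b := by
      rcases le_max_iff.1 (tb.2.trans (p2.ultra b a (k b))) with h' | h'
      · rwa [p2.symm]
      · rw [← e] at h'; linarith [e2 a (k a), hk a ha]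
    have f4 : d1 a b < r b := by
      refine (p1.ultra a (k a) b).trans_lt (max_lt ?_ ?_)
      · linarith [e1 a (k a), hk a ha]
      · rw [p1.symm, e]; exact tb.1
    have f5 := cA a ha b hb y ya yb
    linarith
  obtain ⟨Y1, s1, I1, c1, n1, m1, -⟩ := H1 V E H ρ (X.filter fun x => ¬ T x) _ _
    (fun x => (k x, r x)) k K r1 hA (hH.ll_mono (filter_subset _ _)) hK'
    (fun a ha => kK a (mem_filter.1 ha).1) (by
      intro a ha b hb y ya yb e
      obtain ⟨ha, ta⟩ := mem_filter.1 ha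
      obtain ⟨hb, tb⟩ := mem_filter.1 hb
      exact Prod.ext e (le_antisymm (not_lt.1 (t1 b hb a ha ta y yb ya e.symm))
        (not_lt.1 (t1 a ha b hb tb y ya yb e))))
  obtain ⟨Y2, s2, I2, c2, n2, m2, -⟩ := H1 V E A ρ (X.filter fun x => T x) _ _
    (fun x => (k x, r x)) k K r1 hA (hF.ll_mono (filter_subset _ _)) hK'
    (fun a ha => kK a (mem_filter.1 ha).1) (by
      intro a ha b hb y ya yb e
      obtain ⟨ha, ta⟩ := mem_filter.1 ha
      obtain ⟨hb, tb⟩ := mem_filter.1 hb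
      exact Prod.ext e (le_antisymm (not_lt.1 (t2 b hb a ha ta y yb ya e.symm))
        (not_lt.1 (t2 a ha b hb tb y ya yb e))))
  have s12 : Y1 ∪ Y2 ⊆ X :=
    union_subset (s1.trans (filter_subset _ _)) (s2.trans (filter_subset _ _))
  obtain ⟨Y3, s3, I3, c3, n3, m3, -⟩ := H2 V E H ρ (Y1 ∪ Y2) _ _
    (fun x => (r x, X.filter fun y => d1 x y < r x)) (fun x => (k x, r x)) (I1 ∪ I2)
    r2 hA (hH.ll_mono s12) (by
      refine le_trans ?_ (add_le_add n1 n2)
      exact_mod_cast card_union_le _ _) (fun a ha => mem_union.2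
        ((mem_union.1 ha).imp (m1 a) (m2 a))) (by
      intro a ha b hb y ya yb e
      obtain ⟨ek, er⟩ := Prod.mk.inj e
      refine Prod.ext er ?_
      by_cases hab : a = b
      · rw [hab]
      simp only
      rw [← er]
      refine ll_ball p1 X ((cH a (s12 ha) b (s12 hb) y hab ya yb).trans_le ?_)
      refine (p2.ultra a (k a) b).trans (max_le ((e2 _ _).trans (hk a (s12 ha))) ?_)
      rw [p2.symm, ek, er]; exact (e2 _ _).trans (hk b (s12 hb)))
  have s23 : Y3 ⊆ X := s3.trans s12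
  obtain ⟨Y4, s4, -, c4, -, -, n4⟩ := H3 V E A ρ Y3 _ _ lab
    (fun x => (r x, X.filter fun y => d1 x y < r x)) I3 r3 hA (hF.ll_mono s23) n3 m3 (by
      intro a ha b hb y ya yb e
      obtain ⟨er, eb⟩ := Prod.mk.inj e
      have : b ∈ X.filter fun y => d1 b y < r b :=
        mem_filter.2 ⟨s23 hb, (p1.refl b).trans_lt (rpos b (s23 hb))⟩
      rw [← eb] at this
      have f1 := (mem_filter.1 this).2
      exact leq a b (max_lt f1 ((cA a (s23 ha) b (s23 hb) y ya yb).trans_lt f1)))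
  refine ⟨lab, ?_, ?_, ?_⟩
  · intro a _ b hb c _ hab hac
    exact (lle a b hb hab).trans_le (not_lt.1 fun h => hac (leq a c h))
  · intro a _
    refine le_trans ?_ (hr a).2
    exact_mod_cast card_le_card fun b hb =>
      mem_filter.2 ⟨(ll_mem.1 hb).1, lle a b (ll_mem.1 hb).1 (ll_mem.1 hb).2.symm⟩
  · have sub : (X.filter fun a => ((fib X lab a).card : ℝ) ≤ min η3 θ * ρ ^ 3) ⊆
        (((X.filter fun x => ¬ T x) \ Y1 ∪ (X.filter fun x => T x) \ Y2) ∪ (Y1 ∪ Y2) \ Y3) ∪
          Y3 \ Y4 := by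
      intro a ha
      obtain ⟨ha, hl⟩ := mem_filter.1 ha
      have n : a ∉ Y4 := by
        intro h4
        have b1 : ((fib Y3 lab a).card : ℝ) ≤ (fib X lab a).card := by
          exact_mod_cast card_le_card fun b hb =>
            ll_mem.2 ⟨s23 (ll_mem.1 hb).1, (ll_mem.1 hb).2⟩
        have b2 := mul_le_mul_of_nonneg_right (min_le_left η3 θ) ρ3p.le
        linarith [n4 a h4]
      simp only [mem_union, mem_sdiff, mem_filter]
      tauto
    have b1 := (card_le_card sub).trans ((card_union_le _ _).trans (Nat.add_le_add_right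
      ((card_union_le _ _).trans (Nat.add_le_add_right (card_union_le _ _) _)) _))
    have b2 := (Nat.cast_le (α := ℝ)).2 b1
    push_cast at b2
    linarith

end
end Pool.Agent.Lib.MP_439fea_co.Ud
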