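import Pool.Agent.Lib.MP_439fea_co.Ud.Defs

namespace Pool.Agent.Lib.MP_439fea_co.Ud
open Finset
open scoped Classical

theorem max_pow {s t : ℝ} (hs : 0 < s) (ht : 0 ≤ t) (h : 2 * t ≤ s) :
    t ^ (5 / 4 : ℝ) + (s - t) ^ (5 / 4 : ℝ) + t / 8 * s ^ (1 / 4 : ℝ) ≤ s ^ (5 / 4 : ℝ) := by
  have e : ∀ x : ℝ, 0 ≤ x → x ^ (5 / 4 : ℝ) = x * x ^ (1 / 4 : ℝ) := fun x hx => by
    rw [show (5 / 4 : ℝ) = 1 + 1 / 4 by norm_num, Real.rpow_one_add' hx (by norm_num)]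
  have h1 : (s - t) ^ (1 / 4 : ℝ) ≤ s ^ (1 / 4 : ℝ) :=
    Real.rpow_le_rpow (by linarith) (by linarith) (by norm_num)
  have h2 : t ^ (1 / 4 : ℝ) ≤ 7 / 8 * s ^ (1 / 4 : ℝ) := by
    have : (7 / 8 : ℝ) = ((7 / 8 : ℝ) ^ 4) ^ (1 / 4 : ℝ) := by
      rw [show (1 / 4 : ℝ) = ((4 : ℕ) : ℝ)⁻¹ by norm_num, Real.pow_rpow_inv_natCast] <;> norm_num
    rw [this, ← Real.mul_rpow (by norm_num) hs.le]
    exact Real.rpow_le_rpow ht (by linarith) (by norm_num)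
  rw [e t ht, e s hs.le, e (s - t) (by linarith)]
  nlinarith [mul_le_mul_of_nonneg_left h1 (show 0 ≤ s - t by linarith),
    mul_le_mul_of_nonneg_left h2 ht]

theorem maxS : MaxS := by
  intro C c hC hc
  set a : ℝ := (c / C) ^ (12 : ℕ) with ha
  have ha0 : 0 < a := by positivity
  refine ⟨min a (min (c * a ^ (5 / 4 : ℝ)) (c * a ^ (1 / 4 : ℝ) / 8)), by positivity,
    fun V _ b ρ hρ hV hb hc' => ?_⟩
  obtain ⟨S, -, hS⟩ := exists_max_image (univ : Finset (Finset V))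
    (fun S => b S / (S.card : ℝ) ^ (5 / 4 : ℝ)) univ_nonempty
  have p3 : ∀ r : ℝ, (ρ ^ 3) ^ r = ρ ^ (3 * r) := fun r => by
    rw [Real.rpow_mul hρ.le]; norm_num
  have hu : 0 < ((univ : Finset V).card : ℝ) := by
    refine lt_of_le_of_ne (Nat.cast_nonneg _) fun e => ?_
    have := hb univ
    rw [← e, Real.zero_rpow (by norm_num), mul_zero] at this
    exact absurd (hc'.trans this) (not_le.2 (by positivity))
  set l := b S / (S.card : ℝ) ^ (5 / 4 : ℝ) with hl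
  have h1 : c * ρ ^ (1 / 4 : ℝ) ≤ l := by
    refine le_trans ?_ (hS univ (mem_univ _))
    rw [le_div_iff₀ (by positivity)]
    refine le_trans ?_ hc'
    have : ((univ : Finset V).card : ℝ) ^ (5 / 4 : ℝ) ≤ (ρ ^ 3) ^ (5 / 4 : ℝ) :=
      Real.rpow_le_rpow hu.le (by simpa using hV) (by norm_num)
    rw [p3] at this
    calc _ ≤ c * ρ ^ (1 / 4 : ℝ) * ρ ^ (3 * (5 / 4 : ℝ)) := by gcongr
      _ = _ := by rw [mul_assoc, ← Real.rpow_add hρ]; norm_num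
  have hl0 : 0 < l := lt_of_lt_of_le (by positivity) h1
  have hS0 : 0 < (S.card : ℝ) := by
    refine lt_of_le_of_ne (Nat.cast_nonneg _) fun e => ?_
    rw [hl, ← e, Real.zero_rpow (by norm_num), div_zero] at hl0
    exact lt_irrefl _ hl0
  have hbS : b S = l * (S.card : ℝ) ^ (5 / 4 : ℝ) := by rw [hl]; field_simp
  have hT : ∀ T : Finset V, b T ≤ l * (T.card : ℝ) ^ (5 / 4 : ℝ) := fun T => by
    rcases (Nat.cast_nonneg (α := ℝ) T.card).eq_or_lt with e | e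
    · have := hb T
      rw [← e, Real.zero_rpow (by norm_num), mul_zero] at this ⊢
      exact this
    · exact (div_le_iff₀ (Real.rpow_pos_of_pos e _)).1 (hS T (mem_univ _))
  have h2 : a * ρ ^ 3 ≤ S.card := by
    have h3 : l ≤ C * (S.card : ℝ) ^ (1 / 12 : ℝ) := by
      rw [hl, div_le_iff₀ (Real.rpow_pos_of_pos hS0 _), mul_assoc, ← Real.rpow_add hS0]
      norm_num
      exact hb S
    have h4 : c / C * ρ ^ (1 / 4 : ℝ) ≤ (S.card : ℝ) ^ (1 / 12 : ℝ) := by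
      rw [div_mul_eq_mul_div, div_le_iff₀ hC]; linarith
    have h5 := pow_le_pow_left₀ (by positivity) h4 12
    rw [mul_pow, ← Real.rpow_natCast (ρ ^ _), ← Real.rpow_natCast (_ ^ (1 / 12 : ℝ)),
      ← Real.rpow_mul hρ.le, ← Real.rpow_mul hS0.le] at h5
    norm_num at h5
    exact h5
  have h6 : ∀ r : ℝ, 0 ≤ r → a ^ r * ρ ^ (3 * r) ≤ (S.card : ℝ) ^ r := fun r hr => by
    rw [← p3, ← Real.mul_rpow ha0.le (by positivity)]
    exact Real.rpow_le_rpow (by positivity) h2 hr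
  refine ⟨S, le_trans (by gcongr; exact min_le_left _ _) h2, ?_, fun T hTS h => ?_⟩
  · calc _ ≤ c * a ^ (5 / 4 : ℝ) * ρ ^ 4 := by
          gcongr; exact (min_le_right _ _).trans (min_le_left _ _)
      _ = c * ρ ^ (1 / 4 : ℝ) * (a ^ (5 / 4 : ℝ) * ρ ^ (3 * (5 / 4 : ℝ))) := by
          have : ρ ^ 4 = ρ ^ (1 / 4 : ℝ) * ρ ^ (3 * (5 / 4 : ℝ)) := by
            rw [← Real.rpow_add hρ]; norm_num
          rw [this]; ring
      _ ≤ _ := by rw [hbS]; exact mul_le_mul h1 (h6 _ (by norm_num)) (by positivity) hl0.le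
  · have h7 := max_pow hS0 (Nat.cast_nonneg T.card) (by exact_mod_cast h)
    have h8 := hT (S \ T)
    rw [card_sdiff_of_subset hTS, Nat.cast_sub (card_le_card hTS)] at h8
    have h9 : c * a ^ (1 / 4 : ℝ) * ρ ≤ l * (S.card : ℝ) ^ (1 / 4 : ℝ) := by
      refine le_trans (le_of_eq ?_) (mul_le_mul h1 (h6 _ (by norm_num)) (by positivity) hl0.le)
      have : ρ = ρ ^ (1 / 4 : ℝ) * ρ ^ (3 * (1 / 4 : ℝ)) := by
        rw [← Real.rpow_add hρ]; norm_num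
      conv_lhs => rw [this]
      ring
    have h10 : min a (min (c * a ^ (5 / 4 : ℝ)) (c * a ^ (1 / 4 : ℝ) / 8)) * ρ * T.card ≤
        c * a ^ (1 / 4 : ℝ) / 8 * ρ * T.card :=
      mul_le_mul_of_nonneg_right (mul_le_mul_of_nonneg_right
        ((min_le_right _ _).trans (min_le_right _ _)) hρ.le) (Nat.cast_nonneg _)
    rw [hbS]
    nlinarith [hT T, mul_le_mul_of_nonneg_left h7 hl0.le,
      mul_le_mul_of_nonneg_right h9 (Nat.cast_nonneg (α := ℝ) T.card)]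

end Pool.Agent.Lib.MP_439fea_co.Ud
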