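import Pool.Agent.Lib.MP_439fea_co.Ud.Defs
import Pool.Agent.Lib.MP_439fea_co.Ud.K4

/-! Many patterns of four points and six centres. -/

namespace Pool.Agent.Lib.MP_439fea_co.Ud
open Finset Pool.Agent.Lib.MP_439fea_co.Z
open scoped Classical
noncomputable section

variable {V : Type} {E : V → V → Prop} {pt : V → Prop} {bl : V → V → Finset V}

variable (E pt bl) in
/-- Two different points of one block. -/
def Mate (a b : V) : Prop := pt a ∧ a ≠ b ∧ ∃ c, E a c ∧ b ∈ bl c a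

variable (E) in
/-- A common neighbour. -/
def cen (a b : V) : V := if h : ∃ c, E a c ∧ E b c then h.choose else a

variable (E) in
/-- At most one common neighbour. -/
def K22 : Prop := ∀ a a' b b', a ≠ a' → E a b → E a' b → E a b' → E a' b' → b = b'

variable (E pt bl) in
/-- The quadruples of points that lie pairwise in a block. -/
def mq [Fintype V] : Finset (Fin 4 → V) :=
  univ.filter fun p => ∀ i j, i ≠ j → Mate E pt bl (p i) (p j)

theorem cen_eq (hk : K22 E) {a b c : V} (hab : a ≠ b) (ha : E a c) (hb : E b c) :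
    cen E a b = c := by
  have h : ∃ c, E a c ∧ E b c := ⟨c, ha, hb⟩
  rw [cen, dif_pos h]
  exact hk a b _ _ hab h.choose_spec.1 h.choose_spec.2 ha hb

theorem Blk.pts (hB : Blk E pt bl) {a b c : V} (ha : pt a) (hc : E a c) (hb : b ∈ bl c a) : pt b :=
  (hB.bip b c (hB.adj a c ha hc b hb).1).2 ((hB.bip a c hc).1 ha)

theorem Blk.mate (hB : Blk E pt bl) {x a b c : V} (hx : pt x) (hc : E x c) (ha : a ∈ bl c x)
    (hb : b ∈ bl c x) (hab : a ≠ b) : Mate E pt bl a b :=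
  ⟨hB.pts hx hc ha, hab, c, (hB.adj x c hx hc a ha).1, (hB.adj x c hx hc a ha).2 ▸ hb⟩

theorem Mate.symm (hB : Blk E pt bl) {a b : V} (h : Mate E pt bl a b) : Mate E pt bl b a := by
  obtain ⟨ha, hab, c, hc, hb⟩ := h
  exact hB.mate ha hc hb (hB.mem a c ha hc) hab.symm

theorem Mate.spec (hk : K22 E) (hB : Blk E pt bl) {a b : V} (h : Mate E pt bl a b) :
    E a (cen E a b) ∧ b ∈ bl (cen E a b) a ∧ cen E a b = cen E b a := by
  obtain ⟨ha, hab, c, hc, hb⟩ := h
  have h1 := (hB.adj a c ha hc b hb).1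
  rw [cen_eq hk hab hc h1, cen_eq hk hab.symm h1 hc]
  exact ⟨hc, hb, rfl⟩

theorem pat_mem_fib {Λ : Type} {X : Finset V} {f : V → Λ} {a b : V} :
    b ∈ fib X f a ↔ b ∈ X ∧ f b = f a := mem_filter

theorem perr_nonneg {ψ : V → V → V → ℝ} (h0 : ∀ x c c', 0 ≤ ψ x c c') (p : Fin 4 → V)
    (c : Fin 4 → Fin 4 → V) : 0 ≤ perr ψ p c :=
  sum_nonneg fun _ _ => sum_nonneg fun _ _ => sum_nonneg fun _ _ => ite_nonneg (h0 _ _ _) le_rfl

variable [Fintype V] {lab : V → ℕ} {K d : ℝ}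

theorem pat_fib (hk : K22 E) (hB : Blk E pt bl) (hC : Cell E pt bl lab K d) {i j k : Fin 4}
    (ij : i ≠ j) (ik : i ≠ k) (jk : j ≠ k) {x c c' : V} (hx : pt x) (hc : E x c) (hc' : E x c') :
    (#{p ∈ mq E pt bl | (p i, cen E (p i) (p j), cen E (p i) (p k)) = (x, c, c')} : ℝ) ≤
      16 * (K * d) := by
  have h1 : {p ∈ mq E pt bl | (p i, cen E (p i) (p j), cen E (p i) (p k)) = (x, c, c')} ⊆
      Fintype.piFinset fun m => if m = i then {x} else if m = j then bl c x else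
        if m = k then bl c' x else fib (univ.filter pt) lab x := fun p hp => by
    obtain ⟨h2, h3⟩ := mem_filter.1 hp
    have h4 := (mem_filter.1 h2).2
    simp only [Prod.mk.injEq] at h3
    obtain ⟨rfl, rfl, rfl⟩ := h3
    refine Fintype.mem_piFinset.2 fun m => ?_
    split_ifs with m1 m2 m3
    · simp [m1]
    · exact m2 ▸ ((h4 i j ij).spec hk hB).2.1
    · exact m3 ▸ ((h4 i k ik).spec hk hB).2.1
    · obtain ⟨ha, -, e, he, hb⟩ := h4 i m (Ne.symm m1)
      exact pat_mem_fib.2 ⟨mem_filter.2 ⟨mem_univ _, hB.pts ha he hb⟩, hC.ins _ _ ha he _ hb⟩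
  have h2 := card_le_card h1
  have h3 : ∀ n : ℕ, (∏ m : Fin 4, if m = i then 1 else if m = j then 4 else
      if m = k then 4 else n) = 16 * n := fun n => by
    fin_cases i <;> fin_cases j <;> fin_cases k <;> simp [Fin.prod_univ_four] at ij ik jk ⊢ <;> ring
  simp only [Fintype.card_piFinset, apply_ite card, card_singleton, hB.card x c hx hc,
    hB.card x c' hx hc', h3] at h2
  have h4 : (#{p ∈ mq E pt bl | (p i, cen E (p i) (p j), cen E (p i) (p k)) = (x, c, c')} : ℝ) ≤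
    16 * #(fib (univ.filter pt) lab x) := by exact_mod_cast h2
  linarith [hC.small x]

theorem pat_wt (hk : K22 E) (hB : Blk E pt bl) (hC : Cell E pt bl lab K d) (hK : 0 ≤ K * d)
    (ψ : V → V → V → ℝ) (h0 : ∀ x c c', 0 ≤ ψ x c c') :
    ∑ p ∈ mq E pt bl, perr ψ p (fun i j => cen E (p i) (p j)) ≤ 1024 * (K * d) *
      ∑ x ∈ univ.filter pt, ∑ c ∈ nb E univ x, ∑ c' ∈ nb E univ x, ψ x c c' := by
  set S := ∑ x ∈ univ.filter pt, ∑ c ∈ nb E univ x, ∑ c' ∈ nb E univ x, ψ x c c' with hS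
  have hS0 : 0 ≤ S := sum_nonneg fun _ _ => sum_nonneg fun _ _ => sum_nonneg fun _ _ => h0 _ _ _
  have e : ∑ t ∈ univ.filter fun t : V × V × V => pt t.1 ∧ E t.1 t.2.1 ∧ E t.1 t.2.2,
      ψ t.1 t.2.1 t.2.2 = S := by
    rw [hS, sum_filter, Fintype.sum_prod_type, sum_filter]
    refine sum_congr rfl fun x _ => ?_
    by_cases hx : pt x
    · simp only [hx, true_and, if_true, Fintype.sum_prod_type, nb, sum_filter]
      refine sum_congr rfl fun c _ => ?_
      by_cases hc : E x c <;> simp [hc]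
    · simp [hx]
  have key : ∀ i j k : Fin 4, ∑ p ∈ mq E pt bl, (if i ≠ j ∧ i ≠ k ∧ j ≠ k then
      ψ (p i) (cen E (p i) (p j)) (cen E (p i) (p k)) else 0) ≤ 16 * (K * d) * S := by
    intro i j k
    split_ifs with h
    · obtain ⟨ij, ik, jk⟩ := h
      rw [← e, mul_sum, ← sum_fiberwise_of_maps_to (g := fun p : Fin 4 → V =>
        (p i, cen E (p i) (p j), cen E (p i) (p k))) (t := univ.filter fun t : V × V × V =>
          pt t.1 ∧ E t.1 t.2.1 ∧ E t.1 t.2.2) fun p hp => by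
        have h4 := (mem_filter.1 hp).2
        exact mem_filter.2 ⟨mem_univ _, (h4 i j ij).1, ((h4 i j ij).spec hk hB).1,
          ((h4 i k ik).spec hk hB).1⟩]
      refine sum_le_sum fun ⟨x, c, c'⟩ ht => ?_
      obtain ⟨hx, hc, hc'⟩ := (mem_filter.1 ht).2
      refine le_trans (le_of_eq ?_) (mul_le_mul_of_nonneg_right (pat_fib hk hB hC ij ik jk hx hc hc')
        (h0 x c c'))
      rw [← nsmul_eq_mul, ← sum_const]
      refine sum_congr rfl fun p hp => ?_
      have h3 := (mem_filter.1 hp).2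
      simp only [Prod.mk.injEq] at h3
      rw [h3.2.1, h3.2.2, h3.1]
    · rw [sum_const_zero]
      positivity
  unfold perr
  rw [sum_comm]
  refine (sum_le_sum fun i _ => (sum_comm.le.trans (sum_le_sum fun j _ => sum_comm.le.trans
    (sum_le_sum fun k _ => key i j k)))).trans (le_of_eq ?_)
  simp only [sum_const, card_univ, Fintype.card_fin, nsmul_eq_mul]
  push_cast
  ring

theorem pat_cell (hk : K22 E) (hB : Blk E pt bl) {δ γ : ℝ}
    (hγ : ∀ (V : Type) [Fintype V] [DecidableEq V] (G : SimpleGraph V) [DecidableRel G.Adj]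
      (F : Finset (Finset V)), (∀ s ∈ F, G.IsNClique 4 s) →
      (∀ s ∈ F, ∀ t ∈ F, s ≠ t → #(s ∩ t) ≤ 1) → δ * (Fintype.card V : ℝ) ^ 2 ≤ #F →
      γ * (Fintype.card V : ℝ) ^ 4 ≤ #(quads G))
    (W : Finset V) (hW : ∀ a ∈ W, pt a ∧ ∀ c, E a c → bl c a ⊆ W)
    (hd : ∀ a ∈ W, 4 * δ * #W ≤ #(nb E univ a)) :
    γ * (#W : ℝ) ^ 4 ≤ #{p ∈ mq E pt bl | p 0 ∈ W} := by
  let G : SimpleGraph W := ⟨fun a b => Mate E pt bl a b, ⟨fun _ _ h => h.symm hB⟩,
    ⟨fun _ h => h.2.1 rfl⟩⟩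
  let Fl : Finset (V × V) := univ.filter fun f => f.1 ∈ W ∧ E f.1 f.2
  let g : V × V → Finset W := fun f => (bl f.2 f.1).subtype (· ∈ W)
  have hFl : ∀ f ∈ Fl, f.1 ∈ W ∧ E f.1 f.2 := fun f hf => (mem_filter.1 hf).2
  have two : ∀ f ∈ Fl, ∀ f' ∈ Fl, ∀ a b : W, a ≠ b → a ∈ g f → b ∈ g f → a ∈ g f' → b ∈ g f' →
      f.2 = f'.2 := fun f hf f' hf' a b ab h1 h2 h3 h4 =>
    hk a b _ _ (Subtype.coe_injective.ne ab)
      (hB.adj _ _ (hW _ (hFl f hf).1).1 (hFl f hf).2 _ (mem_subtype.1 h1)).1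
      (hB.adj _ _ (hW _ (hFl f hf).1).1 (hFl f hf).2 _ (mem_subtype.1 h2)).1
      (hB.adj _ _ (hW _ (hFl f' hf').1).1 (hFl f' hf').2 _ (mem_subtype.1 h3)).1
      (hB.adj _ _ (hW _ (hFl f' hf').1).1 (hFl f' hf').2 _ (mem_subtype.1 h4)).1
  have four : ∀ f ∈ Fl, #(g f) = 4 := fun f hf => by
    rw [card_subtype, filter_true_of_mem fun b hb => (hW _ (hFl f hf).1).2 _ (hFl f hf).2 hb]
    exact hB.card _ _ (hW _ (hFl f hf).1).1 (hFl f hf).2
  have h1 : #Fl ≤ 4 * #(Fl.image g) := card_le_mul_card_image _ _ fun s hs => by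
    obtain ⟨f, hf, rfl⟩ := mem_image.1 hs
    obtain ⟨a, ha, b, hb, ab⟩ := one_lt_card.1 (show 1 < #(g f) by rw [four f hf]; norm_num)
    rw [← hB.card _ _ (hW _ (hFl f hf).1).1 (hFl f hf).2]
    refine card_le_card_of_injOn Prod.fst (fun f' hf' => ?_) fun f1 hf1 f2 hf2 e => ?_
    · obtain ⟨h2, h3⟩ := mem_filter.1 hf'
      have h4 : (⟨f'.1, (hFl f' h2).1⟩ : W) ∈ g f' :=
        mem_subtype.2 (hB.mem _ _ (hW _ (hFl f' h2).1).1 (hFl f' h2).2)
      rw [h3] at h4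
      exact mem_subtype.1 h4
    · obtain ⟨h2, h3⟩ := mem_filter.1 hf1
      obtain ⟨h4, h5⟩ := mem_filter.1 hf2
      exact Prod.ext e (two f1 h2 f2 h4 a b ab (h3 ▸ ha) (h3 ▸ hb) (h5 ▸ ha) (h5 ▸ hb))
  have h2 : 4 * δ * (#W : ℝ) ^ 2 ≤ #Fl := by
    have e : #Fl = ∑ a ∈ W, #(nb E univ a) := by
      rw [card_eq_sum_card_fiberwise (f := Prod.fst) (t := W) fun f hf => (hFl f hf).1]
      refine sum_congr rfl fun a ha => card_bij (fun f _ => f.2) (fun f hf => ?_)
        (fun f hf f' hf' e => ?_) fun c hc => ⟨(a, c), ?_, rfl⟩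
      · obtain ⟨h2, rfl⟩ := mem_filter.1 hf
        exact mem_filter.2 ⟨mem_univ _, (hFl f h2).2⟩
      · exact Prod.ext ((mem_filter.1 hf).2.trans (mem_filter.1 hf').2.symm) e
      · exact mem_filter.2 ⟨mem_filter.2 ⟨mem_univ _, ha, (mem_filter.1 hc).2⟩, rfl⟩
    rw [e, Nat.cast_sum]
    refine le_trans (le_of_eq ?_) (card_nsmul_le_sum W _ _ hd)
    rw [nsmul_eq_mul]
    ring
  have h3 := hγ W G (Fl.image g) (fun s hs => by
    obtain ⟨f, hf, rfl⟩ := mem_image.1 hs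
    exact ⟨fun a ha b hb ab => hB.mate (hW _ (hFl f hf).1).1 (hFl f hf).2 (mem_subtype.1 ha)
      (mem_subtype.1 hb) (Subtype.coe_injective.ne ab), four f hf⟩) (fun s hs t ht st => by
    obtain ⟨f, hf, rfl⟩ := mem_image.1 hs
    obtain ⟨f', hf', rfl⟩ := mem_image.1 ht
    refine card_le_one.2 fun a ha b hb => by_contra fun ab => st ?_
    obtain ⟨h4, h5⟩ := mem_inter.1 ha
    have h6 := two f hf f' hf' a b ab h4 (mem_inter.1 hb).1 h5 (mem_inter.1 hb).2
    have h7 := (hB.adj _ _ (hW _ (hFl f hf).1).1 (hFl f hf).2 _ (mem_subtype.1 h4)).2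
    have h8 := (hB.adj _ _ (hW _ (hFl f' hf').1).1 (hFl f' hf').2 _ (mem_subtype.1 h5)).2
    simp only [g]
    rw [← h7, ← h8, h6]) (by
    have h4 : (#Fl : ℝ) ≤ 4 * #(Fl.image g) := by exact_mod_cast h1
    rw [Fintype.card_coe]
    linarith)
  rw [Fintype.card_coe] at h3
  refine h3.trans (Nat.cast_le.2 (card_le_card_of_injOn
    (fun q => ![q.1.1, q.2.1.1, q.2.2.1.1, q.2.2.2.1]) (fun q hq => ?_) fun q _ q' _ e => ?_))
  · obtain ⟨a1, a2, a3, a4, a5, a6⟩ := (mem_filter.1 hq).2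
    refine mem_filter.2 ⟨mem_filter.2 ⟨mem_univ _, fun i j ij => ?_⟩, q.1.2⟩
    fin_cases i <;> fin_cases j
    exacts [absurd rfl ij, a1, a2, a3, a1.symm, absurd rfl ij, a4, a5, a2.symm, a4.symm,
      absurd rfl ij, a6, a3.symm, a5.symm, a6.symm, absurd rfl ij]
  · exact Prod.ext (Subtype.ext (congrFun e 0)) (Prod.ext (Subtype.ext (congrFun e 1))
      (Prod.ext (Subtype.ext (congrFun e 2)) (Subtype.ext (congrFun e 3))))

theorem pat_pts {C κ : ℝ} (hH : Hst E C κ K d) (hb : Bip E pt) :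
    κ * d ^ 3 ≤ (κ + K) * #(univ.filter pt) := by
  have h1 : ∑ c ∈ univ.filter fun c => ¬ pt c, #(nb E univ c) ≤
      ∑ a ∈ univ.filter pt, #(nb E univ a) := by
    have h2 := sum_card_bipartiteAbove_eq_sum_card_bipartiteBelow (s := univ.filter fun c => ¬ pt c)
      (t := univ.filter pt) E
    refine le_trans (sum_le_sum fun c hc => card_le_card fun a ha => ?_)
      (h2.le.trans (sum_le_sum fun a _ => card_le_card fun c hc => ?_))
    · have h3 := (mem_filter.1 ha).2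
      exact mem_filter.2 ⟨mem_filter.2 ⟨mem_univ _, (hb a c (hH.symm _ _ h3)).2
        (mem_filter.1 hc).2⟩, h3⟩
    · exact mem_filter.2 ⟨mem_univ _, hH.symm _ _ (mem_filter.1 hc).2⟩
  have h2 := card_nsmul_le_sum (univ.filter fun c => ¬ pt c) _ _ fun c _ => hH.lo c
  have h3 := sum_le_card_nsmul (univ.filter pt) _ _ fun a _ => hH.hi a
  have h4 : (#(univ.filter pt) : ℝ) + #(univ.filter fun c => ¬ pt c) = d ^ 3 := by
    rw [hH.hd, ← card_univ]
    exact_mod_cast card_filter_add_card_filter_not pt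
  have h5 : ∑ c ∈ univ.filter fun c => ¬ pt c, (#(nb E univ c) : ℝ) ≤
      ∑ a ∈ univ.filter pt, (#(nb E univ a) : ℝ) := by exact_mod_cast h1
  rw [nsmul_eq_mul] at h2 h3
  refine le_of_mul_le_mul_right ?_ hH.dpos
  rw [← h4]
  nlinarith

theorem pat_many {C κ γ : ℝ} (hκ : 0 < κ) (hK : 0 < K) (h0 : 0 < γ) (hH : Hst E C κ K d)
    (hB : Blk E pt bl) (hC : Cell E pt bl lab K d)
    (hγ : ∀ (V : Type) [Fintype V] [DecidableEq V] (G : SimpleGraph V) [DecidableRel G.Adj]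
      (F : Finset (Finset V)), (∀ s ∈ F, G.IsNClique 4 s) →
      (∀ s ∈ F, ∀ t ∈ F, s ≠ t → #(s ∩ t) ≤ 1) → κ / (4 * K) * (Fintype.card V : ℝ) ^ 2 ≤ #F →
      γ * (Fintype.card V : ℝ) ^ 4 ≤ #(quads G)) :
    γ * (κ / (κ + K)) ^ 4 / K ^ 3 * d ^ 6 ≤ #(mq E pt bl) := by
  have hd := hH.dpos
  have h1 : ∀ l ∈ univ.image lab, γ * (#{a ∈ univ.filter pt | lab a = l} : ℝ) ^ 4 ≤
      #{p ∈ mq E pt bl | lab (p 0) = l} := fun l _ => by
    refine (pat_cell hH.k22 hB hγ _ (fun a ha => ?_) fun a ha => ?_).trans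
      (Nat.cast_le.2 (card_le_card fun p hp => ?_))
    · obtain ⟨h2, h3⟩ := mem_filter.1 ha
      have h4 := (mem_filter.1 h2).2
      exact ⟨h4, fun c hc b hb => mem_filter.2 ⟨mem_filter.2 ⟨mem_univ _, hB.pts h4 hc hb⟩,
        (hC.ins _ _ h4 hc _ hb).trans h3⟩⟩
    · obtain ⟨-, rfl⟩ := mem_filter.1 ha
      refine le_trans ?_ (hH.lo a)
      have h2 : (#{b ∈ univ.filter pt | lab b = lab a} : ℝ) ≤ K * d :=
        (Nat.cast_le.2 (card_le_card fun b hb => pat_mem_fib.2 (mem_filter.1 hb))).trans (hC.small a)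
      refine (mul_le_mul_of_nonneg_left h2 (by positivity)).trans (le_of_eq ?_)
      field_simp
    · exact mem_filter.2 ⟨(mem_filter.1 hp).1, (mem_filter.1 (mem_filter.1 hp).2).2⟩
  have h2 := sum_le_sum h1
  rw [← Nat.cast_sum, ← card_eq_sum_card_fiberwise fun p _ => mem_image_of_mem lab (mem_univ _),
    ← mul_sum] at h2
  have h3 := pow_sum_le_card_mul_sum_pow (s := univ.image lab)
    (f := fun l => (#{a ∈ univ.filter pt | lab a = l} : ℝ)) (fun _ _ => Nat.cast_nonneg _) 3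
  rw [← Nat.cast_sum, ← card_eq_sum_card_fiberwise fun p _ => mem_image_of_mem lab (mem_univ _)]
    at h3
  have h4 : κ / (κ + K) * d ^ 3 ≤ #(univ.filter pt) := by
    rw [div_mul_eq_mul_div, div_le_iff₀' (by positivity)]
    exact pat_pts hH hB.bip
  have h5 := (pow_le_pow_left₀ (by positivity) h4 4).trans (h3.trans (mul_le_mul_of_nonneg_right
    (pow_le_pow_left₀ (Nat.cast_nonneg _) hC.few 3) (sum_nonneg fun _ _ => by positivity)))
  refine le_trans ?_ h2
  rw [mul_div_assoc, mul_assoc]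
  refine mul_le_mul_of_nonneg_left ?_ h0.le
  rw [div_mul_eq_mul_div, div_le_iff₀' (by positivity)]
  refine le_of_mul_le_mul_right ?_ (pow_pos hd 6)
  refine le_trans (le_of_eq ?_) (h5.trans (le_of_eq ?_)) <;> ring

theorem patS : PatS := by
  intro C κ K _ hκ hK
  obtain ⟨γ, h0, hγ⟩ := k4_removal (δ := κ / (4 * K)) (by positivity)
  obtain ⟨β, hβ⟩ : ∃ β, β = γ * (κ / (κ + K)) ^ 4 / K ^ 3 := ⟨_, rfl⟩
  have β0 : 0 < β := by rw [hβ]; positivity
  refine ⟨2048 * K / β, by positivity, 2048 * K ^ 2 / β, ?_⟩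
  intro V _ E pt bl lab d hd hH hB hC φ hφ
  have d0 := hH.dpos
  have h1 := pat_many hκ hK h0 hH hB hC hγ
  rw [← hβ] at h1
  let P := {p ∈ mq E pt bl | Pat E pt bl p fun i j => cen E (p i) (p j)}
  have h2 : (#(mq E pt bl) : ℝ) ≤ #P + 1024 * (K * d) * (d ^ 3 * (K * d)) := by
    have h3 := pat_wt hH.k22 hB hC (by positivity) (fun _ c c' => if c = c' then 1 else 0)
      fun _ _ _ => ite_nonneg zero_le_one le_rfl
    have h4 : ∑ x ∈ univ.filter pt, ∑ c ∈ nb E univ x, ∑ c' ∈ nb E univ x,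
        (if c = c' then (1 : ℝ) else 0) ≤ d ^ 3 * (K * d) := by
      refine (sum_le_card_nsmul _ _ (K * d) fun x _ => le_trans (le_of_eq ?_) (hH.hi x)).trans ?_
      · rw [card_eq_sum_ones, Nat.cast_sum]
        exact sum_congr rfl fun c hc => by simp [hc]
      · rw [nsmul_eq_mul, hH.hd]
        exact mul_le_mul_of_nonneg_right (Nat.cast_le.2 (card_le_univ _)) (by positivity)
    refine le_trans ?_ (add_le_add_right (h3.trans (mul_le_mul_of_nonneg_left h4 (by positivity))) _)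
    rw [card_eq_sum_ones, Nat.cast_sum, card_filter, Nat.cast_sum, ← sum_add_distrib]
    refine sum_le_sum fun p hp => ?_
    have h5 := (mem_filter.1 hp).2
    split_ifs with h6
    · exact le_add_of_nonneg_right (perr_nonneg (fun _ _ _ => ite_nonneg zero_le_one le_rfl) _ _)
    obtain ⟨i, j, k, h7, h8⟩ : ∃ i j k, (i ≠ j ∧ i ≠ k ∧ j ≠ k) ∧
        cen E (p i) (p j) = cen E (p i) (p k) := by
      by_contra h7
      exact h6 ⟨fun i => (h5 i (i + 1) (by fin_cases i <;> decide)).1,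
        fun i j ij => ((h5 i j ij).spec hH.k22 hB).2.2, fun i j ij => ((h5 i j ij).spec hH.k22 hB).1,
        fun i j ij => ((h5 i j ij).spec hH.k22 hB).2.1, fun i j ij => (h5 i j ij).2.1,
        fun i j k ij ik jk e => h7 ⟨i, j, k, ⟨ij, ik, jk⟩, e⟩⟩
    have n1 : ∀ i j k : Fin 4, (0 : ℝ) ≤ if i ≠ j ∧ i ≠ k ∧ j ≠ k then
        (if cen E (p i) (p j) = cen E (p i) (p k) then 1 else 0) else 0 := fun _ _ _ =>
      ite_nonneg (ite_nonneg zero_le_one le_rfl) le_rfl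
    rw [Nat.cast_zero, zero_add, Nat.cast_one, perr]
    refine le_trans ?_ (single_le_sum (fun i _ => sum_nonneg fun j _ => sum_nonneg fun k _ =>
      n1 i j k) (mem_univ i))
    refine le_trans ?_ (single_le_sum (fun j _ => sum_nonneg fun k _ => n1 i j k) (mem_univ j))
    refine le_trans ?_ (single_le_sum (fun k _ => n1 i j k) (mem_univ k))
    rw [if_pos h7, if_pos h8]
  have h3 : β / 2 * d ^ 6 ≤ #P := by
    rw [div_le_iff₀ β0] at hd
    nlinarith [mul_le_mul_of_nonneg_right hd (pow_pos d0 5).le]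
  have h4 : ∑ p ∈ P, perr φ p (fun i j => cen E (p i) (p j)) ≤ 1024 * (K * d) * chs E pt φ := by
    have h5 := pat_wt hH.k22 hB hC (by positivity) (fun x c c' => if c' ≠ c then φ x c c' else 0)
      fun _ _ _ => ite_nonneg (hφ _ _ _) le_rfl
    refine le_trans ?_ (h5.trans (le_of_eq ?_))
    · refine le_trans (le_of_eq (sum_congr rfl fun p hp => ?_)) (sum_le_sum_of_subset_of_nonneg
        (filter_subset _ _) fun p _ _ => perr_nonneg (fun _ _ _ => ite_nonneg (hφ _ _ _) le_rfl) _ _)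
      refine sum_congr rfl fun i _ => sum_congr rfl fun j _ => sum_congr rfl fun k _ => ?_
      refine if_ctx_congr Iff.rfl (fun h => ?_) fun _ => rfl
      exact (if_pos ((mem_filter.1 hp).2.cne i j k h.1 h.2.1 h.2.2).symm).symm
    · simp only [chs, ← filter_ne', sum_filter]
  obtain ⟨p, hp, hm⟩ := exists_min_image P (fun p => perr φ p fun i j => cen E (p i) (p j))
    (card_pos.1 (Nat.cast_pos.1 (lt_of_lt_of_le (by positivity) h3)))
  refine ⟨p, _, (mem_filter.1 hp).2, ?_⟩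
  have h5 := (card_nsmul_le_sum P _ _ hm).trans h4
  rw [nsmul_eq_mul] at h5
  have h6 := (mul_le_mul_of_nonneg_right h3 (perr_nonneg hφ p _)).trans h5
  rw [div_mul_eq_mul_div, le_div_iff₀ β0]
  refine le_of_mul_le_mul_right ?_ d0
  linarith

end
end Pool.Agent.Lib.MP_439fea_co.Ud
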