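import Pool.Agent.Lib.MP_439fea_co.Ud.Defs
import Pool.Agent.Lib.MP_439fea_co.Z.PArc

/-! Cuttings for the unit distances inside a strip. -/

namespace Pool.Agent.Lib.MP_439fea_co.Ud
open Finset Pool.Agent.Lib.MP_439fea_co.Z
open scoped Classical

lemma pl_extend {V : Type} {E : V → V → Prop} {P : V → Prop} (hP : ∀ a b, E a b → P a ∧ P b)
    (h : PL fun a b : Subtype P => E a b) : PL E := by
  refine ⟨fun a b e => h.symm ⟨a, (hP a b e).1⟩ ⟨b, (hP a b e).2⟩ e,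
    fun a a' b b' hne e1 e2 e3 e4 => congrArg Subtype.val (h.k22 ⟨a, (hP _ _ e1).1⟩
      ⟨a', (hP _ _ e2).1⟩ ⟨b, (hP _ _ e1).2⟩ ⟨b', (hP _ _ e3).2⟩
      (fun e => hne (congrArg Subtype.val e)) e1 e2 e3 e4), fun X Y q hq => ?_⟩
  obtain ⟨lab, l1, l2⟩ := h.cut (X.subtype P) (Y.subtype P) q hq
  have hY : (Y.subtype P).card / q ≤ Y.card / q :=
    Nat.div_le_div_right (by rw [card_subtype]; exact card_filter_le _ _)
  obtain ⟨l0, h0⟩ : ∃ l0, (insert l0 ((X.subtype P).image lab)).card ≤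
      16 * (Y.card / q + 2) ^ 2 := by
    rcases ((X.subtype P).image lab).eq_empty_or_nonempty with e | ⟨l0, e⟩
    · exact ⟨0, by rw [e]; simp; nlinarith [Nat.zero_le (Y.card / q)]⟩
    · exact ⟨l0, by rw [insert_eq_of_mem e]; exact l1.trans (by gcongr)⟩
  refine ⟨fun a => if ha : P a then lab ⟨a, ha⟩ else l0, le_trans (card_le_card fun i hi => ?_) h0,
    fun i => le_trans ?_ (l2 i)⟩
  · obtain ⟨a, ha, rfl⟩ := mem_image.1 hi
    split_ifs with hp
    · exact mem_insert_of_mem (mem_image_of_mem _ (mem_subtype.2 ha))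
    · exact mem_insert_self _ _
  · refine le_trans (card_le_card fun b hb => ?_) (card_image_le (f := Subtype.val))
    obtain ⟨hb, a, ha, e1, e2, e3⟩ := mem_filter.1 hb
    replace e1 := (dif_pos (hP a b e3).1).symm.trans e1
    refine mem_image.2 ⟨⟨b, (hP a b e3).2⟩, mem_filter.2 ⟨mem_subtype.2 hb, ⟨a, (hP a b e3).1⟩,
      mem_subtype.2 ha, e1, le_trans ?_ e2, e3⟩, rfl⟩
    exact card_le_card_of_injOn Subtype.val (fun c hc => mem_coe.2 (mem_filter.2
      ⟨mem_subtype.1 (mem_filter.1 (mem_coe.1 hc)).1, (mem_filter.1 (mem_coe.1 hc)).2⟩))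
      Subtype.val_injective.injOn

theorem plS : PlS := fun s t => by
  refine pl_extend (P := fun p : ℂ => s ≤ p.re ∧ p.re < s + 1)
    (fun a b e => ⟨⟨e.1, e.2.1⟩, e.2.2.1, e.2.2.2.1⟩)
    (Arc.pl (x := fun a => a.1.re) (y := fun a => a.1.im) (up := fun a => ¬ a.1.im < t)
      ⟨fun a b _ e1 e2 => Subtype.ext (Complex.ext e1 e2), fun a b => ?_, fun a b => ?_⟩)
  · rw [abs_lt]
    constructor <;> linarith [a.2.1, a.2.2, b.2.1, b.2.2]
  · have e : Complex.normSq (a.1 - b.1) = (a.1.re - b.1.re) ^ 2 + (a.1.im - b.1.im) ^ 2 := by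
      rw [Complex.normSq_apply, Complex.sub_re, Complex.sub_im, sq, sq]
    rw [Wn, e]
    constructor
    · rintro ⟨-, -, -, -, h1, h2⟩
      refine ⟨h2, ?_⟩
      by_cases ha : a.1.im < t
      · exact Or.inr ⟨h1.1 ha, not_not.2 ha, ha.trans_le (not_lt.1 (h1.1 ha))⟩
      · have hb := not_not.1 (mt h1.2 ha)
        exact Or.inl ⟨ha, not_not.2 hb, hb.trans_le (not_lt.1 ha)⟩
    · rintro ⟨h2, h1⟩
      exact ⟨a.2.1, a.2.2, b.2.1, b.2.2, by tauto, h2⟩

end Pool.Agent.Lib.MP_439fea_co.Ud
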