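import Pool.Agent.Lib.MP_439fea_co.Ud.RedA

/-! Two cuttings and the finite list of distances give the bound in a strip. -/

namespace Pool.Agent.Lib.MP_439fea_co.Ud
open Finset Pool.Agent.Lib.MP_439fea_co.Z
open scoped Classical
noncomputable section

theorem red_cell {s t C c σ ν : ℝ} (hC : 1 ≤ C) (hc : 0 ≤ c) (hpl : PL (Wn s t))
    (hst : ∀ s t, ST (Wn s t) C) (h3 : WinS) {m : ℕ} (hm : 1 ≤ m) (hσ : 5 * (m : ℝ) ≤ σ ^ 3)
    (D : Finset ℝ) (hD : ∀ B : Finset ℂ, (B.card : ℝ) ≤ σ ^ 3 → c * σ ^ 4 ≤ ed (Wn s t) B B →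
      ∃ p ∈ B, ∃ p' ∈ B, ∃ q ∈ B, p.im < t ∧ p ≠ p' ∧ Wn s t p q ∧ Wn s t p' q ∧
        Complex.normSq (p - p') ∈ D)
    (S T : Finset ℂ) (hT : ∀ q ∈ T, ¬ q.im < t) (hS : ∀ p ∈ S, p.im < t) (hν : 1 ≤ ν)
    (hSν : (S.card : ℝ) ≤ ν ^ 3) :
    (ed (Wn s t) S T : ℝ) ≤ c * σ ^ 4 * (16 * ((S.card : ℝ) / m + 2) ^ 2 + T.card / m) +
      4 * (m : ℝ) ^ 2 * (D.card * (72 * C * ν * S.card)) + (S.card : ℝ) ^ 2 / m := by
  obtain ⟨I, T', S', hI, hp, hdis, hed⟩ := red_pieces hpl T S hm hm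
  rw [ed_comm hpl.symm]
  obtain ⟨G, hG⟩ : ∃ G, G = I.filter fun j => c * σ ^ 4 ≤ ed (Wn s t) (T' j) (S' j) := ⟨_, rfl⟩
  have hch : ∀ j ∈ G, ∃ e : ℂ × ℂ, e.1 ∈ S ∧ e.2 ∈ S ∧ e.1 ≠ e.2 ∧
      Complex.normSq (e.1 - e.2) ∈ D ∧ ∃ q ∈ T' j, Wn s t e.1 q ∧ Wn s t e.2 q := by
    intro j hj
    rw [hG] at hj
    obtain ⟨g1, g2, g3, g4⟩ := hp j
    obtain ⟨p, hp1, p', hp2, q, hq, a1, a2, a3, a4, a5⟩ := hD (T' j ∪ S' j) (by
      have h1 : (T' j ∪ S' j).card ≤ 5 * m := (card_union_le _ _).trans (by omega)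
      exact le_trans (by exact_mod_cast h1) hσ)
      ((mem_filter.1 hj).2.trans (Nat.cast_le.2 (ed_mono subset_union_left subset_union_right)))
    have b1 : ¬ q.im < t := a3.2.2.2.2.1.1 a1
    have b2 : p'.im < t := a4.2.2.2.2.1.2 b1
    refine ⟨(p, p'), ?_, ?_, a2, a5, q, ?_, a3, a4⟩
    · exact (mem_union.1 hp1).elim (fun h => absurd a1 (hT _ (g1 h))) fun h => g2 h
    · exact (mem_union.1 hp2).elim (fun h => absurd b2 (hT _ (g1 h))) fun h => g2 h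
    · exact (mem_union.1 hq).elim id fun h => absurd (hS _ (g2 h)) b1
  choose! e he1 he2 he3 he4 q hq hq1 hq2 using hch
  have hGc : (G.card : ℝ) ≤ D.card * (72 * C * ν * S.card) := by
    have h1 : G.card ≤ ((D.filter fun τ => 0 < τ).biUnion fun τ => S.biUnion fun a =>
        (nb (fun p q : ℂ => Complex.normSq (p - q) = τ) S a).image fun b => (a, b)).card := by
      refine card_le_card_of_injOn e (fun j hj => ?_) fun j hj j' hj' h => ?_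
      · have hj := mem_coe.1 hj
        exact mem_coe.2 (mem_biUnion.2 ⟨_, mem_filter.2 ⟨he4 j hj,
          Complex.normSq_pos.2 (sub_ne_zero.2 (he3 j hj))⟩, mem_biUnion.2 ⟨_, he1 j hj,
          mem_image.2 ⟨_, mem_nb.2 ⟨he2 j hj, rfl⟩, rfl⟩⟩⟩)
      · have hj := mem_coe.1 hj
        have hj' := mem_coe.1 hj'
        have := hpl.k22 _ _ _ _ (he3 j hj) (hq1 j hj) (hq2 j hj) (h ▸ hq1 j' hj') (h ▸ hq2 j' hj')
        exact hdis j j' (q j) (hq j hj) (this ▸ hq j' hj')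
    have h2 : G.card ≤ ∑ τ ∈ D.filter fun τ => 0 < τ, ud S τ :=
      h1.trans (card_biUnion_le.trans (sum_le_sum fun τ _ =>
        card_biUnion_le.trans (sum_le_sum fun a _ => card_image_le)))
    have h4 : (G.card : ℝ) ≤ ∑ τ ∈ D.filter fun τ => 0 < τ, 72 * C * ν * S.card := by
      refine (Nat.cast_le.2 h2).trans ?_
      push_cast
      exact sum_le_sum fun τ hτ => ud_le hC hst h3 S (mem_filter.1 hτ).2 hν hSν
    rw [sum_const, nsmul_eq_mul] at h4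
    refine h4.trans (mul_le_mul_of_nonneg_right (Nat.cast_le.2 (card_filter_le _ _)) ?_)
    positivity
  have hσ4 : 0 ≤ c * σ ^ 4 := by positivity
  have h5 : ∑ j ∈ I, (ed (Wn s t) (T' j) (S' j) : ℝ) ≤
      ∑ j ∈ I, (c * σ ^ 4 + if j ∈ G then 4 * (m : ℝ) ^ 2 else 0) := by
    refine sum_le_sum fun j hj => ?_
    split_ifs with h
    · have g := ed_le_mul (Wn s t) (T' j) (S' j)
      have g3 : ((T' j).card : ℝ) ≤ m := by exact_mod_cast (hp j).2.2.1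
      have g4 : ((S' j).card : ℝ) ≤ 4 * m := by exact_mod_cast (hp j).2.2.2
      have := mul_le_mul g4 g3 (Nat.cast_nonneg _) (by positivity)
      nlinarith
    · rw [hG, mem_filter, not_and, not_le] at h
      linarith [h hj]
  rw [sum_add_distrib, sum_const, nsmul_eq_mul, ← sum_filter, sum_const, nsmul_eq_mul] at h5
  have h6 : ((I.filter fun j => j ∈ G).card : ℝ) ≤ G.card :=
    Nat.cast_le.2 (card_le_card fun j hj => (mem_filter.1 hj).2)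
  have h7 := mul_le_mul_of_nonneg_right (h6.trans hGc) (by positivity : 0 ≤ 4 * (m : ℝ) ^ 2)
  have h8 := mul_le_mul_of_nonneg_right hI hσ4
  linarith

theorem ed_wn (s t : ℝ) (hs : ∀ a b, Wn s t a b → Wn s t b a) (B : Finset ℂ) :
    ed (Wn s t) B B ≤ 2 * ed (Wn s t) (B.filter fun p => p.im < t) (B.filter fun p => ¬ p.im < t) := by
  rw [two_mul]
  nth_rewrite 2 [ed_comm hs (B.filter fun p => p.im < t)]
  rw [ed, ← sum_filter_add_sum_filter_not B fun p => p.im < t]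
  refine add_le_add (sum_le_sum fun a ha => card_le_card fun b hb => ?_)
    (sum_le_sum fun a ha => card_le_card fun b hb => ?_)
  · obtain ⟨h1, h2⟩ := mem_nb.1 hb
    exact mem_nb.2 ⟨mem_filter.2 ⟨h1, h2.2.2.2.2.1.1 (mem_filter.1 ha).2⟩, h2⟩
  · obtain ⟨h1, h2⟩ := mem_nb.1 hb
    exact mem_nb.2 ⟨mem_filter.2 ⟨h1, not_not.1 fun h =>
      (mem_filter.1 ha).2 (h2.2.2.2.2.1.2 h)⟩, h2⟩

theorem redS (h1 : PlS) (h2 : StS) (h3 : WinS) (h4 : FlexS) : RedS := by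
  intro c hc
  obtain ⟨C, hC, hst⟩ := h2
  have hst' : ∀ s t, ST (Wn s t) C := fun s t => hst ℂ _ (h1 s t)
  obtain ⟨σ0, hflex⟩ := h4 (c / 4899840) (by positivity)
  obtain ⟨k, hk⟩ := exists_nat_ge (max 1 (max σ0 (4640 / c)))
  have hk1 : (1 : ℝ) ≤ k := (le_max_left _ _).trans hk
  have hk2 : σ0 ≤ 2 * (k : ℝ) := by
    linarith [(le_max_left _ _).trans ((le_max_right _ _).trans hk)]
  have hk3 : 4640 ≤ k * c :=
    (div_le_iff₀ hc).1 ((le_max_right _ _).trans ((le_max_right _ _).trans hk))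
  obtain ⟨D, hD⟩ := hflex _ hk2
  obtain ⟨G, hG⟩ : ∃ G : ℝ, G = 83520 * C * (k : ℝ) ^ 6 * D.card := ⟨_, rfl⟩
  have hG0 : 0 ≤ G := by rw [hG]; positivity
  obtain ⟨δ, hδ⟩ : ∃ δ : ℝ, δ = c / (8 * (G + 1)) := ⟨_, rfl⟩
  have hδ0 : 0 < δ := by rw [hδ]; positivity
  have hGδ : G * δ ≤ c / 8 := by
    rw [hδ, mul_div_assoc', div_le_div_iff₀ (by positivity) (by norm_num)]
    nlinarith
  refine ⟨max k (max (1 / δ) (2 * (k : ℝ) ^ 2 / δ ^ 3)), fun ρ s t B hρ hB => ?_⟩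
  have r1 : (k : ℝ) ≤ ρ := (le_max_left _ _).trans hρ
  have r2 : 1 ≤ δ * ρ := by
    have := (div_le_iff₀ hδ0).1 ((le_max_left _ _).trans ((le_max_right _ _).trans hρ))
    linarith
  have r3 : 2 * (k : ℝ) ^ 2 ≤ ρ * δ ^ 3 :=
    (div_le_iff₀ (by positivity)).1 ((le_max_right _ _).trans ((le_max_right _ _).trans hρ))
  have r0 : 1 ≤ ρ := hk1.trans r1
  obtain ⟨x, hx⟩ : ∃ x : ℝ, x = ρ / k := ⟨_, rfl⟩
  have hk0 : (0 : ℝ) < k := by linarith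
  have hx1 : 1 ≤ x := by rw [hx, le_div_iff₀ hk0]; linarith
  have hρx : x * k = ρ := by rw [hx]; field_simp
  have hx0 : 0 < x := by linarith
  have hρ0 : 0 < ρ := by linarith
  clear hx hρ
  obtain ⟨q, hq1, hq2⟩ : ∃ q : ℕ, ρ ^ 2 * k ≤ q ∧ (q : ℝ) ≤ 2 * (ρ ^ 2 * k) := by
    have : 1 ≤ ρ ^ 2 * k := one_le_mul_of_one_le_of_one_le (one_le_pow₀ r0) hk1
    exact ⟨⌈ρ ^ 2 * k⌉₊, Nat.le_ceil _, by
      linarith [Nat.ceil_lt_add_one (show 0 ≤ ρ ^ 2 * k by linarith)]⟩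
  obtain ⟨N, hN1, hN2⟩ : ∃ N : ℕ, ρ * k ^ 2 ≤ N ∧ (N : ℝ) ≤ 2 * (ρ * k ^ 2) := by
    have : 1 ≤ ρ * k ^ 2 := one_le_mul_of_one_le_of_one_le r0 (one_le_pow₀ hk1)
    exact ⟨⌈ρ * k ^ 2⌉₊, Nat.le_ceil _, by
      linarith [Nat.ceil_lt_add_one (show 0 ≤ ρ * k ^ 2 by linarith)]⟩
  have hq0 : (0 : ℝ) < q := lt_of_lt_of_le (by positivity) hq1
  have hN0 : (0 : ℝ) < N := lt_of_lt_of_le (by positivity) hN1
  obtain ⟨P, hP⟩ : ∃ P, P = B.filter fun p => p.im < t := ⟨_, rfl⟩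
  obtain ⟨Q, hQ⟩ : ∃ Q, Q = B.filter fun p => ¬ p.im < t := ⟨_, rfl⟩
  have hPc : (P.card : ℝ) ≤ ρ ^ 3 := le_trans (Nat.cast_le.2 (hP ▸ card_filter_le _ _)) hB
  have hQc : (Q.card : ℝ) ≤ ρ ^ 3 := le_trans (Nat.cast_le.2 (hQ ▸ card_filter_le _ _)) hB
  obtain ⟨I, S, T, hI, hp, -, hed⟩ := red_pieces (h1 s t) P Q (q := q) (N := N)
    (by exact_mod_cast hq0) (by exact_mod_cast hN0)
  have a1 : (Q.card : ℝ) / q ≤ x := by
    rw [div_le_iff₀ hq0]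
    calc _ ≤ ρ ^ 3 := hQc
      _ = x * (ρ ^ 2 * k) := by rw [← hρx]; ring
      _ ≤ _ := by gcongr
  have a2 : (P.card : ℝ) / N ≤ x ^ 2 := by
    rw [div_le_iff₀ hN0]
    calc _ ≤ ρ ^ 3 := hPc
      _ = x ^ 2 * (ρ * k ^ 2) := by rw [← hρx]; ring
      _ ≤ _ := by gcongr
  have a3 : (I.card : ℝ) ≤ 145 * x ^ 2 := by
    have : ((Q.card : ℝ) / q + 2) ^ 2 ≤ (3 * x) ^ 2 := by gcongr; linarith
    linarith
  have a4 : (Q.card : ℝ) ^ 2 / q ≤ c / 8 * ρ ^ 4 := by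
    rw [div_le_iff₀ hq0]
    calc _ ≤ (ρ ^ 3) ^ 2 := by gcongr
      _ = 1 * ρ ^ 6 := by ring
      _ ≤ (k * c / 8) * ρ ^ 6 := by gcongr; linarith
      _ = c / 8 * ρ ^ 4 * (ρ ^ 2 * k) := by ring
      _ ≤ _ := by gcongr
  have hcell : ∀ i ∈ I, (ed (Wn s t) (S i) (T i) : ℝ) ≤
      c / 4899840 * (2 * k) ^ 4 * (264 * x ^ 2) +
        4 * ((k : ℝ) ^ 3) ^ 2 * (D.card * (72 * C * (δ * ρ) * (2 * (ρ * k ^ 2)))) +
        (2 * (ρ * k ^ 2)) ^ 2 / k ^ 3 := by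
    intro i _
    obtain ⟨g1, g2, g3, g4⟩ := hp i
    have b1 : ((S i).card : ℝ) ≤ 2 * (ρ * k ^ 2) := (Nat.cast_le.2 g3).trans hN2
    have b2 : ((T i).card : ℝ) ≤ 8 * (ρ ^ 2 * k) := by
      have : ((T i).card : ℝ) ≤ 4 * q := by exact_mod_cast g4
      linarith
    have b := red_cell (σ := 2 * k) (ν := δ * ρ) hC (by positivity) (h1 s t) hst' h3 (m := k ^ 3)
      (Nat.one_le_pow _ _ (by exact_mod_cast hk0)) (by push_cast; nlinarith [pow_pos hk0 3]) D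
      (hD s t) (S i) (T i) (fun y hy => (mem_filter.1 (hQ ▸ g2 hy : y ∈ B.filter _)).2)
      (fun y hy => (mem_filter.1 (hP ▸ g1 hy : y ∈ B.filter _)).2) r2 (by
        calc _ ≤ ρ * (2 * (k : ℝ) ^ 2) := by linarith
          _ ≤ ρ * (ρ * δ ^ 3) := by gcongr
          _ = 1 * (ρ ^ 2 * δ ^ 3) := by ring
          _ ≤ ρ * (ρ ^ 2 * δ ^ 3) := by gcongr
          _ = _ := by ring)
    push_cast at b
    have b3 : ((S i).card : ℝ) / k ^ 3 ≤ 2 * x := by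
      rw [div_le_iff₀ (by positivity)]
      calc _ ≤ 2 * (ρ * k ^ 2) := b1
        _ = _ := by rw [← hρx]; ring
    have b4 : ((T i).card : ℝ) / k ^ 3 ≤ 8 * x ^ 2 := by
      rw [div_le_iff₀ (by positivity)]
      calc _ ≤ 8 * (ρ ^ 2 * k) := b2
        _ = _ := by rw [← hρx]; ring
    have b5 : 16 * (((S i).card : ℝ) / k ^ 3 + 2) ^ 2 + (T i).card / k ^ 3 ≤ 264 * x ^ 2 := by
      have : (((S i).card : ℝ) / k ^ 3 + 2) ^ 2 ≤ (4 * x) ^ 2 := by gcongr; linarith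
      linarith
    refine b.trans ?_
    gcongr
  have a5 := sum_le_card_nsmul I _ _ hcell
  rw [nsmul_eq_mul] at a5
  replace a5 := a5.trans (mul_le_mul_of_nonneg_right a3 (by positivity))
  have a6 : 145 * x ^ 2 * (c / 4899840 * (2 * k) ^ 4 * (264 * x ^ 2) +
        4 * ((k : ℝ) ^ 3) ^ 2 * (D.card * (72 * C * (δ * ρ) * (2 * (ρ * k ^ 2)))) +
        (2 * (ρ * k ^ 2)) ^ 2 / k ^ 3) = (c / 8 + G * δ + 580 / k) * ρ ^ 4 := by
    rw [hG, ← hρx]; field_simp; ring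
  have a7 : 580 / (k : ℝ) ≤ c / 8 := by rw [div_le_iff₀ hk0]; linarith
  have a8 : (c / 8 + G * δ + 580 / k) * ρ ^ 4 ≤ (3 * (c / 8)) * ρ ^ 4 := by gcongr; linarith
  have a9 : (ed (Wn s t) B B : ℝ) ≤ 2 * ed (Wn s t) P Q := by
    rw [hP, hQ]; exact_mod_cast ed_wn s t (h1 s t).symm B
  linarith

end
end Pool.Agent.Lib.MP_439fea_co.Ud
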