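import Pool.Agent.Lib.MP_439fea_co.Ud.RegB

/-! Regularisation: an expander that consists of blocks. -/

namespace Pool.Agent.Lib.MP_439fea_co.Ud
open Finset Pool.Agent.Lib.MP_439fea_co.Z
open scoped Classical
noncomputable section

variable {V : Type}

/-- Flags whose block lies in `U`. -/
def regG (G : V → V → Prop) (B : V → V → Finset V) (U : Finset V) (p c : V) : Prop :=
  G p c ∧ B c p ⊆ U

/-- The symmetric version. -/
def regH (G : V → V → Prop) (B : V → V → Finset V) (U : Finset V) (a b : V) : Prop :=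
  regG G B U a b ∨ regG G B U b a

theorem reg_cross [Fintype V] {E : V → V → Prop} {pt : V → Prop} {G : V → V → Prop}
    {B : V → V → Finset V} {l : V → ℕ} {K ρ : ℝ} (h : RegB E pt G B l K ρ) (S T : Finset V) :
    ed (regG G B S) S S ≤ ed (regG G B T) T T + ed (regG G B (S \ T)) (S \ T) (S \ T) +
      4 * ed (regH G B S) T (S \ T) := by
  set φ : V × V → Finset (V × V) := fun x => if G x.1 x.2 then (B x.2 x.1).image (·, x.2)
    else (B x.1 x.2).image (·, x.1) with hφ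
  have k1 : ((regP (regH G B S) T (S \ T)).biUnion φ).card ≤
      (regP (regH G B S) T (S \ T)).card * 4 := by
    refine card_biUnion_le_card_mul _ _ _ fun x hx => ?_
    by_cases hG : G x.1 x.2
    · simp only [hφ, if_pos hG]
      exact card_image_le.trans (h.blk _ _ hG).2.1.le
    · simp only [hφ, if_neg hG]
      rcases (reg_memP.1 hx).2.2 with e | e
      · exact absurd e.1 hG
      · exact card_image_le.trans (h.blk _ _ e.1).2.1.le
  have k2 : regP (regG G B S) S S ⊆ regP (regG G B T) T T ∪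
      regP (regG G B (S \ T)) (S \ T) (S \ T) ∪ (regP (regH G B S) T (S \ T)).biUnion φ := by
    rintro ⟨p, c⟩ hx
    obtain ⟨-, hc, hG, hB⟩ := reg_memP.1 hx
    obtain ⟨b1, -, b3⟩ := h.blk _ _ hG
    by_cases hT : c ∈ T
    · by_cases hs : B c p ⊆ T
      · exact mem_union_left _ (mem_union_left _ (reg_memP.2 ⟨hs b1, hT, hG, hs⟩))
      · obtain ⟨p', h1, h2⟩ := not_subset.1 hs
        obtain ⟨j1, j2, -⟩ := b3 p' h1
        refine mem_union_right _ (mem_biUnion.2 ⟨(c, p'), reg_memP.2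
          ⟨hT, mem_sdiff.2 ⟨hB h1, h2⟩, Or.inr ⟨j1, j2 ▸ hB⟩⟩, ?_⟩)
        have : ¬ G c p' := fun e => (h.pt _ _ hG).2.1 (h.pt _ _ e).1
        simp only [hφ, if_neg this]
        exact mem_image.2 ⟨p, j2 ▸ b1, rfl⟩
    · by_cases hs : B c p ⊆ S \ T
      · exact mem_union_left _ (mem_union_right _
          (reg_memP.2 ⟨hs b1, mem_sdiff.2 ⟨hc, hT⟩, hG, hs⟩))
      · obtain ⟨p', h1, h2⟩ := not_subset.1 hs
        obtain ⟨j1, j2, -⟩ := b3 p' h1
        have h3 : p' ∈ T := by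
          by_contra h3
          exact h2 (mem_sdiff.2 ⟨hB h1, h3⟩)
        refine mem_union_right _ (mem_biUnion.2 ⟨(p', c), reg_memP.2
          ⟨h3, mem_sdiff.2 ⟨hc, hT⟩, Or.inl ⟨j1, j2 ▸ hB⟩⟩, ?_⟩)
        simp only [hφ, if_pos j1]
        exact mem_image.2 ⟨p, j2 ▸ b1, rfl⟩
  have k3 := (card_le_card k2).trans ((card_union_le _ _).trans
    (add_le_add (card_union_le _ _) k1))
  simp only [reg_ed]
  omega

theorem reg_sub (R : V → V → Prop) (S : Finset V) (X Y : Finset S) :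
    ed (fun a b : S => R a b) X Y =
      ed R (X.map (Function.Embedding.subtype _)) (Y.map (Function.Embedding.subtype _)) := by
  simp only [ed, nb, sum_map, filter_map, card_map]
  rfl

theorem reg_43 {E : V → V → Prop} {C : ℝ} (hC : 0 ≤ C) (h : ST E C) (U : Finset V) :
    (ed E U U : ℝ) ≤ 3 * C * (U.card : ℝ) ^ (4 / 3 : ℝ) := by
  rcases U.eq_empty_or_nonempty with rfl | hU
  · simp only [ed, sum_empty, Nat.cast_zero]
    positivity
  have h1 : (1 : ℝ) ≤ U.card := by exact_mod_cast hU.card_pos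
  have h3 : ((U.card : ℝ) ^ ((3 : ℕ)⁻¹ : ℝ)) ^ 3 = U.card :=
    Real.rpow_inv_natCast_pow (by linarith) (by norm_num)
  have h4 : ((U.card : ℝ) ^ ((3 : ℕ)⁻¹ : ℝ)) ^ 4 = (U.card : ℝ) ^ (4 / 3 : ℝ) := by
    rw [← Real.rpow_natCast, ← Real.rpow_mul (by linarith)]
    norm_num
  have ht : 1 ≤ (U.card : ℝ) ^ ((3 : ℕ)⁻¹ : ℝ) := Real.one_le_rpow h1 (by positivity)
  have h5 := h U U _ ht
  rw [← h4]
  generalize (U.card : ℝ) ^ ((3 : ℕ)⁻¹ : ℝ) = t at *
  rw [← h3, show (t ^ 3) ^ 2 / t ^ 2 = t ^ 4 by field_simp] at h5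
  have h6 : t ^ 3 ≤ t ^ 4 := pow_le_pow_right₀ ht (by norm_num)
  refine h5.trans ?_
  calc C * (t ^ 4 + t * t ^ 3 + t ^ 3) ≤ C * (t ^ 4 + t * t ^ 3 + t ^ 4) := by gcongr
    _ = _ := by ring

theorem regS (hR : RichS) (hM : MaxS) : RegS := by
  intro C c hC hc
  obtain ⟨K, hK, ρ0, h0⟩ := reg_blk hR hC hc
  obtain ⟨k, hk, hM⟩ := hM (3 * C) (c / 4) (by linarith) (by linarith)
  obtain ⟨κ, κ0, κ1, κk⟩ : ∃ κ : ℝ, 0 < κ ∧ κ ≤ 1 ∧ κ ≤ k :=
    ⟨min 1 k, lt_min one_pos hk, min_le_left _ _, min_le_right _ _⟩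
  refine ⟨κ / 4, K / κ ^ 2, by positivity, by positivity, max ρ0 (2 / κ), ?_⟩
  intro V _ E pt ρ hρ hP hS hB hV he
  obtain ⟨G, B, l, hG, h⟩ := h0 V E pt ρ ((le_max_left _ _).trans hρ) hP hS hB hV he
  have r2 : 2 ≤ κ * ρ := by
    rw [mul_comm, ← div_le_iff₀ κ0]
    exact (le_max_right _ _).trans hρ
  have r0 : 0 < ρ := (mul_pos_iff_of_pos_left κ0).1 (by linarith)
  have r1 : 1 ≤ ρ := by nlinarith
  have HE : ∀ U a b, regH G B U a b → E a b := fun U a b e =>
    e.elim (fun e => (h.pt _ _ e.1).2.2) fun e => hP.symm _ _ (h.pt _ _ e.1).2.2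
  obtain ⟨S, s1, -, s3⟩ := hM V (fun U => ed (regG G B U) U U) ρ r0 hV
    (fun U => le_trans (Nat.cast_le.2 (reg_mono (fun a b e => (h.pt _ _ e.1).2.2) U U))
      (reg_43 (by linarith) hS U))
    (hG.trans (Nat.cast_le.2 (reg_mono (fun a b e => ⟨e, subset_univ _⟩) _ _)))
  obtain ⟨d, d0, d3⟩ : ∃ d : ℝ, 0 ≤ d ∧ d ^ 3 = S.card :=
    ⟨(S.card : ℝ) ^ ((3 : ℕ)⁻¹ : ℝ), by positivity,
      Real.rpow_inv_natCast_pow (Nat.cast_nonneg _) (by norm_num)⟩
  have d1 : d ≤ ρ := by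
    refine le_of_pow_le_pow_left₀ (n := 3) (by norm_num) r0.le ?_
    rw [d3]
    exact le_trans (by exact_mod_cast card_le_univ S) hV
  have d2 : κ * ρ ≤ d := by
    refine le_of_pow_le_pow_left₀ (n := 3) (by norm_num) d0 ?_
    rw [d3, mul_pow]
    refine le_trans ?_ s1
    gcongr
    exact (pow_le_of_le_one κ0.le κ1 (by norm_num)).trans κk
  have dK : K * ρ ≤ K / κ ^ 2 * d := by
    rw [div_mul_eq_mul_div, le_div_iff₀ (by positivity), mul_assoc]
    gcongr
    nlinarith [mul_pos κ0 r0]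
  have S2 : 2 ≤ S.card := by
    have : (2 : ℝ) ≤ d ^ 3 := le_trans (by linarith) (le_self_pow₀ (by linarith) (by norm_num))
    rw [d3] at this
    exact_mod_cast this
  have ex : ∀ T : Finset S, 2 * T.card ≤ Fintype.card S →
      κ / 4 * d * T.card ≤ ed (fun a b : S => regH G B S a b) T (univ.filter (· ∉ T)) := by
    intro T hT
    set T' := T.map (Function.Embedding.subtype _) with hT'
    have e1 : (univ.filter (· ∉ T)).map (Function.Embedding.subtype _) = S \ T' := by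
      ext x
      simp only [hT', mem_map, mem_filter, mem_univ, true_and, mem_sdiff,
        Function.Embedding.coe_subtype]
      constructor
      · rintro ⟨a, ha, rfl⟩
        exact ⟨a.2, fun ⟨b, hb, e⟩ => ha (Subtype.ext e ▸ hb)⟩
      · rintro ⟨hx, hn⟩
        exact ⟨⟨x, hx⟩, fun hm => hn ⟨_, hm, rfl⟩, rfl⟩
    have e2 : T'.card = T.card := card_map _
    have k1 := s3 T' (fun x hx => by
      obtain ⟨a, -, rfl⟩ := mem_map.1 hx
      exact a.2) (by rwa [e2, ← Fintype.card_coe S])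
    have k2 : (ed (regG G B S) S S : ℝ) ≤ ed (regG G B T') T' T' +
        ed (regG G B (S \ T')) (S \ T') (S \ T') + 4 * ed (regH G B S) T' (S \ T') := by
      exact_mod_cast reg_cross h S T'
    rw [reg_sub, e1, ← hT', ← e2]
    have k3 : κ * d * T'.card ≤ k * ρ * T'.card := by gcongr
    linarith
  have lo : ∀ a : S, κ / 4 * d ≤ (nb (fun a b : S => regH G B S a b) univ a).card := by
    intro a
    have k1 := ex {a} (by rw [card_singleton, Fintype.card_coe]; omega)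
    rw [card_singleton, Nat.cast_one, mul_one, ed, sum_singleton] at k1
    exact k1.trans (Nat.cast_le.2 (card_le_card (filter_subset_filter _ (subset_univ _))))
  have hasn : ∀ a : S, ∃ b : S, regH G B S a b := fun a => by
    have k1 : (0 : ℝ) < (nb (fun a b : S => regH G B S a b) univ a).card :=
      lt_of_lt_of_le (by nlinarith) (lo a)
    obtain ⟨b, hb⟩ := card_pos.1 (Nat.cast_pos.1 k1)
    exact ⟨b, (mem_filter.1 hb).2⟩
  have ptG : ∀ p c, pt p → regH G B S p c → regG G B S p c := fun p c hp e =>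
    e.resolve_right fun e => (h.pt _ _ e.1).2.1 hp
  refine ⟨S, fun a b => regH G B S a b, fun c p => (B c p).subtype (· ∈ S), fun a => l a, d,
    by nlinarith, fun a b => HE S a b, ⟨fun a b => Or.symm, fun a a' b b' hn e1 e2 e3 e4 =>
      Subtype.ext (hP.k22 _ _ _ _ (fun e => hn (Subtype.ext e)) (HE _ _ _ e1) (HE _ _ _ e2)
        (HE _ _ _ e3) (HE _ _ _ e4)), fun X Y M hM => ?_, by linarith,
      by rw [d3, Fintype.card_coe], lo, fun a => ?_, fun T hT => ?_⟩,
    ⟨fun a b e => hB _ _ (HE _ _ _ e), fun p c hp e => ?_, fun p c hp e => ?_,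
      fun p c hp e p' hp' => ?_⟩, ⟨?_, fun a => ?_, fun p c hp e p' hp' => ?_⟩⟩
  · have k1 := hS (X.map (Function.Embedding.subtype _)) (Y.map (Function.Embedding.subtype _)) M hM
    rw [card_map, card_map] at k1
    rw [reg_sub]
    exact le_trans (Nat.cast_le.2 (reg_mono (HE S) _ _)) k1
  · obtain ⟨b, hb⟩ := hasn a
    have k1 : ((nb E univ (a : V)).card : ℝ) ≤ K * ρ :=
      hb.elim (fun e => (h.deg _ _ e.1).1) fun e => (h.deg _ _ e.1).2
    refine le_trans (Nat.cast_le.2 ?_) (k1.trans dK)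
    exact card_le_card_of_injOn Subtype.val (fun x hx => mem_coe.2 (mem_filter.2
      ⟨mem_univ _, HE _ _ _ (mem_filter.1 (mem_coe.1 hx)).2⟩)) Subtype.val_injective.injOn
  · refine (ex T hT).trans (le_of_eq ?_)
    congr 2
    ext x
    simp
  · exact mem_subtype.2 (h.blk _ _ (ptG _ _ hp e).1).1
  · obtain ⟨k1, k2⟩ := ptG _ _ hp e
    rw [card_subtype, filter_true_of_mem fun x hx => k2 hx, (h.blk _ _ k1).2.1]
  · obtain ⟨k1, k2⟩ := ptG _ _ hp e
    obtain ⟨j1, j2, -⟩ := (h.blk _ _ k1).2.2 _ (mem_subtype.1 hp')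
    exact ⟨Or.inl ⟨j1, j2 ▸ k2⟩, by simp only [j2]⟩
  · have k1 : (univ.image fun a : S => l a) ⊆ univ.image l := fun i hi => by
      obtain ⟨a, -, rfl⟩ := mem_image.1 hi
      exact mem_image_of_mem _ (mem_univ _)
    refine le_trans (Nat.cast_le.2 (card_le_card k1)) (h.few.trans ?_)
    rw [div_mul_eq_mul_div, le_div_iff₀ (by positivity), mul_assoc, ← mul_pow, mul_comm ρ]
    gcongr
  · refine le_trans (Nat.cast_le.2 ?_) ((h.small a).trans dK)
    refine card_le_card_of_injOn Subtype.val (fun x hx => ?_) Subtype.val_injective.injOn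
    obtain ⟨k1, k2⟩ := reg_fib.1 (mem_coe.1 hx)
    obtain ⟨b, hb⟩ := hasn x
    exact mem_coe.2 (mem_filter.2 ⟨mem_univ _,
      ⟨b, (ptG _ _ (by simpa using k1) hb).1⟩, k2⟩)
  · exact ((h.blk _ _ (ptG _ _ hp e).1).2.2 _ (mem_subtype.1 hp')).2.2

end
end Pool.Agent.Lib.MP_439fea_co.Ud
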