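import Pool.Agent.Lib.MP_439fea_co.Ud.XiB
import Pool.Agent.Lib.MP_439fea_co.Ud.Defs

namespace Pool.Agent.Lib.MP_439fea_co.Ud
open Finset Pool.Agent.Lib.MP_439fea_co.Z Pool.Agent.Lib.MP_439fea_co.Gain
open scoped Classical
noncomputable section

variable {V : Type}

lemma sum_lab {A : Type} (S : Finset V) (f : V → A) (g : V → ℝ) :
    ∑ x ∈ S, g x = ∑ l ∈ S.image f, ∑ x ∈ S.filter (fun x => f x = l), g x :=
  (sum_fiberwise_of_maps_to (fun _ hx => mem_image_of_mem _ hx) g).symm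

lemma pum_v {K : Type} [Field K] {v : AbsoluteValue K ℝ} (h : NA v) (f : V → K) :
    PUM fun a b => v (f a - f b) where
  nonneg _ _ := v.nonneg _
  refl a := by simp
  symm a b := v.map_sub _ _
  ultra a b c := by
    rw [← sub_add_sub_cancel (f a) (f b) (f c)]
    exact h.add _ _

/-- After `T` refinements the potential has gained `T` times. -/
lemma stages (hL : LemLS) {C c θ : ℝ} (hC : 1 ≤ C) (hc : 0 < c) (hθ : 0 < θ) (T : ℕ) :
    ∃ J : ℝ, 0 < J ∧ ∃ ρ0 : ℝ,
    ∀ (K : Type) [Field K] [CharZero K] (v : AbsoluteValue K ℝ) (V : Type) [Fintype V]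
      (E F1 F3 : V → V → Prop) (ρ : ℝ) (X : Finset V) (z w : V → K),
      ρ0 ≤ ρ → 0 < ρ → NA v → Amb E C ρ →
      (∀ a ∈ X, ∀ b ∈ X, z a = z b → w a = w b → a = b) →
      Fam E F1 X (c * ρ) → Fam E F3 X (c * ρ) →
      (∀ a ∈ X, ∀ b ∈ X, ∀ y, a ≠ b → F1 a y → F1 b y → v (z a - z b) < v (w a - w b)) →
      (∀ a ∈ X, ∀ b ∈ X, ∀ y, a ≠ b → F3 a y → F3 b y → v (w a - w b) < v (z a - z b)) →
      ∃ (Λ : Type) (lab : V → Λ) (G : Finset V), G ⊆ X ∧
        (X.card : ℝ) ≤ G.card + T * θ * ρ ^ 3 ∧ ((G.image lab).card : ℝ) ≤ J ∧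
        ∀ (N1 N2 N3 : V → Finset V) (D : ℕ), Tri v w z N1 N2 N3 D X → ∀ G' ⊆ G,
          ∑ x ∈ G', tm N1 N2 N3 D G' x ≤ ∑ x ∈ G', tm N1 N2 N3 D (cell G' lab x) x
            - T * ((1 / 1572864) * D * (G'.card - c / 4 * ρ ^ 3)) := by
  induction T with
  | zero =>
    refine ⟨1, one_pos, 0, ?_⟩
    intro K _ _ v V _ E F1 F3 ρ X z w _ _ _ _ _ _ _ _ _
    refine ⟨Unit, fun _ => (), X, Subset.rfl, by simp, ?_, ?_⟩
    · exact Nat.cast_le_one.2 (card_le_one.2 fun _ _ _ _ => rfl)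
    · intro N1 N2 N3 D _ G' _
      have : ∀ x, cell G' (fun _ => ()) x = G' := fun x => by
        ext t; simp [mem_cell]
      simp [this]
  | succ T ih =>
    obtain ⟨J, hJ, ρ1, h1⟩ := ih
    obtain ⟨η', hη', ρ2, h2⟩ := hL C c (c / 4 / J) θ hC hc (by positivity) hθ
    refine ⟨J * (1 / η'), by positivity, max ρ1 ρ2, ?_⟩
    intro K _ _ v V _ E F1 F3 ρ X z w hρ hρ0 hv hA hinj hF1 hF3 g1 g3
    obtain ⟨Λ, lab, G, hGX, hG1, hG2, hG3⟩ := h1 K v V E F1 F3 ρ X z w ((le_max_left _ _).trans hρ)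
      hρ0 hv hA hinj hF1 hF3 g1 g3
    obtain ⟨lab2, k1, k2, k3⟩ := h2 V E F3 F1 ρ X (fun a b => v (w a - w b))
      (fun a b => v (z a - z b)) ((le_max_right _ _).trans hρ) hA (pum_v hv w) (pum_v hv z)
      (by
        intro a ha b hb hab
        by_contra hcon
        rw [not_lt, max_le_iff] at hcon
        exact hab (hinj a ha b hb (sub_eq_zero.1 (v.nonpos_iff.1 hcon.2))
          (sub_eq_zero.1 (v.nonpos_iff.1 hcon.1))))
      hF3 hF1 g3 (by
        intro a ha b hb y p1 p2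
        by_cases e : a = b
        · simp [e]
        · exact (g1 a ha b hb y e p1 p2).le)
    have hX3 : (X.card : ℝ) ≤ ρ ^ 3 := le_trans (by exact_mod_cast card_le_univ X) hA.card
    set Lt := X.filter fun a => ((fib X lab2 a).card : ℝ) ≤ η' * ρ ^ 3 with hLt
    refine ⟨Λ × Finset V, fun x => (lab x, lab2 x), G \ Lt, sdiff_subset.trans hGX, ?_, ?_, ?_⟩
    · have : (G.card : ℝ) ≤ (G \ Lt).card + Lt.card := by exact_mod_cast card_le_card_sdiff_add_card
      push_cast
      linarith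
    · have a1 : ((G \ Lt).image fun x => (lab x, lab2 x)) ⊆ G.image lab ×ˢ (G \ Lt).image lab2 := by
        intro p hp
        simp only [mem_image] at hp
        obtain ⟨x, hx, rfl⟩ := hp
        exact mem_product.2 ⟨mem_image_of_mem _ (mem_sdiff.1 hx).1, mem_image_of_mem _ hx⟩
      have a2 : (((G \ Lt).image lab2).card : ℝ) ≤ 1 / η' := by
        have b1 : (((G \ Lt).image lab2).card : ℝ) * (η' * ρ ^ 3) ≤
            ∑ l ∈ (G \ Lt).image lab2, ((X.filter fun t => lab2 t = l).card : ℝ) := by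
          rw [← nsmul_eq_mul]
          refine card_nsmul_le_sum _ _ _ fun l hl => ?_
          obtain ⟨x, hx, rfl⟩ := mem_image.1 hl
          obtain ⟨hx1, hx2⟩ := mem_sdiff.1 hx
          have : ¬ ((fib X lab2 x).card : ℝ) ≤ η' * ρ ^ 3 := fun h =>
            hx2 (mem_filter.2 ⟨hGX hx1, h⟩)
          refine (not_le.1 this).le.trans (le_of_eq ?_)
          unfold fib
          congr
        have b2 : ∑ l ∈ (G \ Lt).image lab2, ((X.filter fun t => lab2 t = l).card : ℝ) ≤ X.card := by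
          rw [← Nat.cast_sum, Nat.cast_le]
          exact (sum_card_fiberwise_eq_card_filter X _ lab2).le.trans (card_filter_le _ _)
        rw [le_div_iff₀ hη']
        have b3 : 0 < ρ ^ 3 := by positivity
        refine le_of_mul_le_mul_right ?_ b3
        nlinarith
      have a3 : ((((G \ Lt).image fun x => (lab x, lab2 x)).card : ℕ) : ℝ) ≤
          (G.image lab).card * ((G \ Lt).image lab2).card := by
        rw [← Nat.cast_mul, Nat.cast_le, ← card_product]
        convert card_le_card a1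
      refine le_trans (le_of_eq ?_) (a3.trans (mul_le_mul hG2 a2 (Nat.cast_nonneg _) hJ.le))
      congr
      exact Subsingleton.elim _ _
    · intro N1 N2 N3 D hT G' hG'
      have hG'G : G' ⊆ G := hG'.trans sdiff_subset
      have hD : (0 : ℝ) ≤ D := Nat.cast_nonneg _
      have s1 := hG3 N1 N2 N3 D hT G' hG'G
      have hm0 : 0 ≤ c / 4 / J * ρ ^ 3 := by positivity
      have s2 : ∀ l ∈ G'.image lab,
          ∑ x ∈ G'.filter (fun x => lab x = l), tm N1 N2 N3 D (cell G' lab x) x ≤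
          ∑ x ∈ G'.filter (fun x => lab x = l),
            tm N1 N2 N3 D (cell G' (fun x => (lab x, lab2 x)) x) x
          - (1 / 1572864) * D * ((G'.filter (fun x => lab x = l)).card - c / 4 / J * ρ ^ 3) := by
        intro l _
        set P := G'.filter (fun x => lab x = l) with hP
        have hPX : P ⊆ X := (filter_subset _ _).trans (hG'G.trans hGX)
        have := clu (v := v) hv.add hv.nat lab2 P (hT.mono hPX)
          (fun a ha b hb o ho e1 e2 => k1 a (hPX ha) b (hPX hb) o (hPX ho) e1.symm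
            (fun e => e2 e.symm)) _ hm0 (fun x hx => le_trans (by
              rw [← card_cell]
              refine Nat.cast_le.2 (card_le_card fun t ht => ?_)
              unfold fib
              simp only [mem_filter]
              exact ⟨hPX (mem_cell.1 ht).1, (mem_cell.1 ht).2⟩) (k2 x (hPX hx)))
        have e1 : ∑ x ∈ P, tm N1 N2 N3 D (cell G' lab x) x = ∑ x ∈ P, tm N1 N2 N3 D P x := by
          refine sum_congr rfl fun x hx => ?_
          have : cell G' lab x = P := by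
            rw [hP, ← (mem_filter.1 hx).2]; rfl
          rw [this]
        have e2 : ∑ x ∈ P, tm N1 N2 N3 D (cell G' (fun x => (lab x, lab2 x)) x) x =
            ∑ x ∈ P, tm N1 N2 N3 D (cell P lab2 x) x := by
          refine sum_congr rfl fun x hx => ?_
          have : cell G' (fun x => (lab x, lab2 x)) x = cell P lab2 x := by
            ext t
            rw [mem_cell, mem_cell, hP, mem_filter, Prod.mk.injEq, (mem_filter.1 hx).2, and_assoc]
          rw [this]
        rw [e1, e2]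
        exact this
      have s3 := sum_le_sum s2
      rw [sum_sub_distrib, ← sum_lab, ← sum_lab, ← mul_sum, sum_sub_distrib, sum_const,
        nsmul_eq_mul] at s3
      have s4 : ∑ l ∈ G'.image lab, ((G'.filter (fun x => lab x = l)).card : ℝ) = G'.card := by
        rw [← Nat.cast_sum, ← card_eq_sum_card_image]
      have s5 : ((G'.image lab).card : ℝ) * (c / 4 / J * ρ ^ 3) ≤ c / 4 * ρ ^ 3 := by
        have b1 : ((G'.image lab).card : ℝ) ≤ J :=
          le_trans (by exact_mod_cast card_le_card (image_subset_image hG'G)) hG2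
        have b2 := mul_le_mul_of_nonneg_right b1 hm0
        have b3 : J * (c / 4 / J * ρ ^ 3) = c / 4 * ρ ^ 3 := by field_simp
        linarith
      rw [s4] at s3
      push_cast
      nlinarith [mul_le_mul_of_nonneg_left s5 hD]

lemma trim [Fintype V] {E A : V → V → Prop} {X : Finset V} {t : ℝ} (h : Fam E A X t) :
    ∃ N : V → Finset V, (∀ x ∈ X, (N x).card = ⌈t⌉₊) ∧ ∀ x ∈ X, ∀ y ∈ N x, A x y := by
  have : ∀ x, ∃ s : Finset V, x ∈ X → s.card = ⌈t⌉₊ ∧ ∀ y ∈ s, A x y := by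
    intro x
    by_cases hx : x ∈ X
    · obtain ⟨s, hs1, hs2⟩ := exists_subset_card_eq (Nat.ceil_le.2 (h.deg x hx))
      exact ⟨s, fun _ => ⟨hs2, fun y hy => (mem_nb.1 (hs1 hy)).2⟩⟩
    · exact ⟨∅, fun h => absurd h hx⟩
  choose N hN using this
  exact ⟨N, fun x hx => (hN x hx).1, fun x hx => (hN x hx).2⟩

theorem threeDS' (hL : LemLS) : ThreeDS := by
  intro C c hC hc
  set C2 : ℝ := 6 * Real.log (2 * C) + 96 * C / c - 6 * Real.log (c ^ 2 / 2) + 1 with hC2
  obtain ⟨T0, hT0⟩ := exists_nat_gt (2 * 1572864 * C2)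
  have hT1 : (0 : ℝ) < (T0 + 1 : ℕ) := by positivity
  obtain ⟨J, hJ, ρ1, h1⟩ := stages hL hC hc (θ := c / 2 / (T0 + 1 : ℕ)) (by positivity) (T0 + 1)
  refine ⟨max ρ1 (max 1 (6 * J / c)), ?_⟩
  intro K _ _ v V _ E F1 F2 F3 ρ X z w hρ hv hA hX hinj hF1 hF2 hF3 g1 g2 g3
  have hρ1 : 1 ≤ ρ := (le_max_left _ _).trans ((le_max_right _ _).trans hρ)
  have hρ2 : 6 * J / c ≤ ρ := (le_max_right _ _).trans ((le_max_right _ _).trans hρ)
  have hρ0 : 0 < ρ := by linarith
  obtain ⟨Λ, lab, G, hGX, hG1, hG2, hG3⟩ := h1 K v V E F1 F3 ρ X z w ((le_max_left _ _).trans hρ)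
    hρ0 hv hA hinj hF1 hF3 g1 g3
  obtain ⟨N1, n1, m1⟩ := trim hF1
  obtain ⟨N2, n2, m2⟩ := trim hF2
  obtain ⟨N3, n3, m3⟩ := trim hF3
  set D := ⌈c * ρ⌉₊ with hD
  have hDc : c * ρ ≤ D := Nat.le_ceil _
  have hD0 : (0 : ℝ) < D := lt_of_lt_of_le (by positivity) hDc
  have hT : Tri v w z N1 N2 N3 D X := ⟨n1, n2, n3,
    fun x hx x' hx' e y p q => g1 x hx x' hx' y e (m1 x hx y p) (m1 x' hx' y q),
    fun x hx x' hx' e y p q => g2 x hx x' hx' y e (m2 x hx y p) (m2 x' hx' y q),
    fun x hx x' hx' e y p q => g3 x hx x' hx' y e (m3 x hx y p) (m3 x' hx' y q)⟩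
  have s1 := hG3 N1 N2 N3 D hT G Subset.rfl
  have hcard : ∀ S : Finset V, (S.card : ℝ) ≤ ρ ^ 3 := fun S =>
    le_trans (by exact_mod_cast card_le_univ S) hA.card
  have h3 : 0 < ρ ^ 3 := by positivity
  have hG4 : c / 2 * ρ ^ 3 ≤ G.card := by
    have : ((T0 + 1 : ℕ) : ℝ) * (c / 2 / (T0 + 1 : ℕ)) * ρ ^ 3 = c / 2 * ρ ^ 3 := by field_simp
    linarith
  have hG0 : (0 : ℝ) < G.card := lt_of_lt_of_le (by positivity) hG4
  have lo : ∀ N : V → Finset V, (∀ x ∈ X, (N x).card = D) →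
      D * G.card * (Real.log (c ^ 2 / 2) + Real.log ρ) ≤ ∑ x ∈ G, kk N G x := by
    intro N hN
    rw [← Real.log_mul (by positivity) hρ0.ne']
    refine low N G D (fun x hx => hN x (hGX hx)) (by positivity) ?_
    have b1 := mul_le_mul_of_nonneg_left (hcard (G.biUnion N))
      (show 0 ≤ c ^ 2 / 2 * ρ by positivity)
    have b2 := mul_le_mul hDc hG4 (by positivity) hD0.le
    nlinarith
  have lo4 : Real.log G.card ≤ 3 * Real.log ρ := by
    have := Real.log_le_log hG0 (hcard G)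
    rwa [Real.log_pow, Nat.cast_ofNat] at this
  have lo5 : D * G.card * (6 * Real.log (c ^ 2 / 2) - 3 * Real.log ρ) ≤
      ∑ x ∈ G, tm N1 N2 N3 D G x := by
    unfold tm
    rw [sum_sub_distrib, ← mul_sum, sum_add_distrib, sum_add_distrib, sum_const, nsmul_eq_mul]
    have := mul_le_mul_of_nonneg_left lo4 (show 0 ≤ (D : ℝ) * G.card by positivity)
    linarith [lo N1 n1, lo N2 n2, lo N3 n3]
  have hi : ∀ l ∈ G.image lab, ∑ x ∈ G.filter (fun x => lab x = l), tm N1 N2 N3 D (cell G lab x) x ≤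
      D * (6 * Real.log (2 * C) + 96 * C / c - 3 * Real.log ρ) *
        (G.filter (fun x => lab x = l)).card + 3 * D * ρ := by
    intro l hl
    set P := G.filter (fun x => lab x = l) with hP
    have hPX : P ⊆ X := (filter_subset _ _).trans hGX
    have hP0 : (0 : ℝ) < P.card := by
      obtain ⟨x, hx, hxl⟩ := mem_image.1 hl
      exact Nat.cast_pos.2 (card_pos.2 ⟨x, mem_filter.2 ⟨hx, hxl⟩⟩)
    have e1 : ∑ x ∈ P, tm N1 N2 N3 D (cell G lab x) x = ∑ x ∈ P, tm N1 N2 N3 D P x := by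
      refine sum_congr rfl fun x hx => ?_
      have : cell G lab x = P := by
        rw [hP, ← (mem_filter.1 hx).2]; rfl
      rw [this]
    have u1 := up hA.st hC hA.symm hρ1 N1 P D (fun x hx => n1 x (hPX hx))
      (fun x hx y hy => hF1.sub _ _ (m1 x (hPX hx) y hy)) (hcard P)
    have u2 := up hA.st hC hA.symm hρ1 N2 P D (fun x hx => n2 x (hPX hx))
      (fun x hx y hy => hF2.sub _ _ (m2 x (hPX hx) y hy)) (hcard P)
    have u3 := up hA.st hC hA.symm hρ1 N3 P D (fun x hx => n3 x (hPX hx))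
      (fun x hx y hy => hF3.sub _ _ (m3 x (hPX hx) y hy)) (hcard P)
    have u4 : Real.log (1 + P.card / ρ) - Real.log P.card ≤ -Real.log ρ + ρ / P.card := by
      have e : 1 + P.card / ρ = (P.card / ρ) * (1 + ρ / P.card) := by field_simp; ring
      have := Real.log_le_sub_one_of_pos (show (0 : ℝ) < 1 + ρ / P.card by positivity)
      rw [e, Real.log_mul (by positivity) (by positivity), Real.log_div hP0.ne' hρ0.ne']
      linarith
    have u5 := mul_le_mul_of_nonneg_left u4 (show 0 ≤ 3 * (D : ℝ) * P.card by positivity)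
    have u6 : 3 * (D : ℝ) * P.card * (-Real.log ρ + ρ / P.card) =
        -(3 * D * P.card * Real.log ρ) + 3 * D * ρ := by field_simp
    have u7 : 96 * C * ρ * P.card ≤ D * (96 * C / c) * P.card := by
      refine mul_le_mul_of_nonneg_right ?_ hP0.le
      have e : (D : ℝ) * (96 * C / c) = 96 * C * (D / c) := by ring
      rw [e]
      refine mul_le_mul_of_nonneg_left ?_ (by positivity)
      rw [le_div_iff₀ hc]
      linarith
    rw [e1]
    unfold tm
    rw [sum_sub_distrib, ← mul_sum, sum_add_distrib, sum_add_distrib, sum_const, nsmul_eq_mul]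
    linarith
  have hi2 := sum_le_sum hi
  rw [← sum_lab, sum_add_distrib, ← mul_sum, sum_const, nsmul_eq_mul, ← Nat.cast_sum,
    ← card_eq_sum_card_image] at hi2
  have hi3 : ((G.image lab).card : ℝ) * (3 * D * ρ) ≤ D * G.card := by
    have b1 := mul_le_mul_of_nonneg_right hG2 (show 0 ≤ 3 * (D : ℝ) * ρ by positivity)
    have b2 : 6 * J ≤ ρ * c := (div_le_iff₀ hc).1 hρ2
    have b3 : ρ ^ 2 ≤ ρ ^ 3 := pow_le_pow_right₀ hρ1 (by norm_num)
    have b4 : 3 * J * ρ ≤ G.card := by nlinarith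
    nlinarith [mul_le_mul_of_nonneg_left b4 hD0.le]
  have fin1 : ((T0 + 1 : ℕ) : ℝ) * ((1 / 1572864) * D * (G.card - c / 4 * ρ ^ 3)) ≤
      D * G.card * C2 := by
    rw [hC2]; linarith
  have fin2 : (G.card : ℝ) / 2 ≤ G.card - c / 4 * ρ ^ 3 := by linarith
  have fin3 : ((T0 + 1 : ℕ) : ℝ) * ((1 / 1572864) * D * (G.card / 2)) ≤ D * G.card * C2 :=
    le_trans (mul_le_mul_of_nonneg_left (mul_le_mul_of_nonneg_left fin2 (by positivity)) hT1.le) fin1
  have fin4 : 0 < (D : ℝ) * G.card := by positivity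
  push_cast at fin3
  nlinarith [mul_lt_mul_of_pos_left hT0 fin4]

theorem threeDS (hL : LemLS) (_hR : RichS) : ThreeDS := threeDS' hL

end
end Pool.Agent.Lib.MP_439fea_co.Ud
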