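import Pool.Agent.Lib.MP_439fea_co.Ud.TwoC0

namespace Pool.Agent.Lib.MP_439fea_co.Ud
open Finset Pool.Agent.Lib.MP_439fea_co.Z
open scoped Classical

theorem tw_fib {V Λ : Type} {X X' : Finset V} (h : X' ⊆ X) (lab : V → Λ) (a : V) :
    fib X' lab a ⊆ fib X lab a := filter_subset_filter _ h

/-- Step V1: an open ball of slopes with many flags whose complement has half of the flags. -/
theorem tw_v1 (hR : RichP) (hP : PartS) (hC : ClsS) {C c κ : ℝ} (hC1 : 1 ≤ C) (hc : 0 < c)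
    (hκ : 0 < κ) : ∃ θ : ℝ, 0 < θ ∧ ∃ ρ0 : ℝ,
    ∀ (K : Type) [Field K] (v : AbsoluteValue K ℝ) (V : Type) [Fintype V]
    (E H : V → V → Prop) (ρ : ℝ) (X Y : Finset V) (zz : V → V → K) (w β : V → K),
    ρ0 ≤ ρ → NA v → Amb E C ρ → Function.Injective w → κ * ρ ^ 4 ≤ ed E X Y →
    Fam E H X (c * ρ) →
    (∀ y ∈ Y, ∀ y' ∈ Y, v (β y - β y') ≤ 1) → (∀ y ∈ Y, ∀ y' ∈ Y, β y = β y' → y = y') →
    (∀ y1 ∈ Y, ∀ y ∈ Y, ∀ a ∈ X, ∀ b ∈ X, E a y → E b y →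
      Near v (zz y1 a - zz y1 b) ((β y - β y1) * (w a - w b))) →
    (∀ y1 ∈ Y, ∀ a ∈ X, ∀ b ∈ X, ∀ y, a ≠ b → H a y → H b y →
      v (w a - w b) < v (zz y1 a - zz y1 b)) →
    ∃ y0 ∈ Y, ∃ s : ℝ, 0 < s ∧ θ * ρ ^ 4 ≤ ed E X (Y.filter fun y => v (β y0 - β y) < s) ∧
      2 * ed E X (Y.filter fun y => v (β y0 - β y) < s) < ed E X Y := by
  obtain ⟨δ, hδ, ρ1, h1⟩ := hR C (κ / 4) hC1 (by positivity)
  have hc1 : 0 < min c (min (κ / 4) (δ / 2)) := by positivity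
  obtain ⟨η, hη, h2⟩ := hC C _ hC1 hc1
  obtain ⟨J, hJ, ρ2, h3⟩ := hP C _ η (δ / 2) hC1 hc1 hη (by positivity)
  obtain ⟨θ, hθ, ρ3, h4⟩ := h2 J hJ
  refine ⟨θ, hθ, max (max ρ1 ρ2) (max ρ3 (2 / κ + 1)),
    fun K _ v V _ E H ρ X Y zz w β hρ hv hA hw hN hH hb hi hn hs => ?_⟩
  simp only [max_le_iff] at hρ
  obtain ⟨⟨r1, r2⟩, r3, r4⟩ := hρ
  have hρ : 0 < ρ := lt_of_lt_of_le (by positivity) r4
  have hN0 : 0 < ed E X Y := by
    exact_mod_cast lt_of_lt_of_le (show (0 : ℝ) < κ * ρ ^ 4 by positivity) hN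
  have hY : Y.Nonempty := nonempty_iff_ne_empty.2 fun e => by simp [e, ed, nb] at hN0
  obtain ⟨y1, hy1, y2, hy2, b1, b2⟩ := tw_ball hY (fun y y' => v (β y - β y')) (ed E X)
    (by simp [ed, nb]) hN0
  set s := v (β y1 - β y2) with hsd
  set B := Y.filter fun y => v (β y1 - β y) ≤ s with hB
  have b1' : κ * ρ ^ 4 ≤ 2 * (ed E X B : ℝ) := hN.trans (by exact_mod_cast b1)
  have hs0 : 0 < s := by
    refine lt_of_not_ge fun e => ?_
    have e1 : ∀ y ∈ B, y1 = y := fun y hy => hi _ hy1 _ (mem_filter.1 hy).1 (sub_eq_zero.1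
      (v.eq_zero.1 (le_antisymm ((mem_filter.1 hy).2.trans e) (v.nonneg _))))
    have e2 := ed_le_card_mul (E := E) X B (j := 1) fun x _ => by
      exact_mod_cast (card_filter_le _ _).trans
        (card_le_one.2 fun a ha b hb => (e1 a ha).symm.trans (e1 b hb))
    have e3 : 2 < κ * ρ := by
      have : κ * (2 / κ + 1) = 2 + κ := by field_simp
      nlinarith
    nlinarith [hA.tw_card X, mul_lt_mul_of_pos_right e3 (pow_pos hρ 3)]
  have hs1 : s ≤ 1 := hb _ hy1 _ hy2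
  have x3 := h1 V E ρ X (fun x => (nb E B x).card) r1 hA
    (fun x _ => Nat.cast_le.2 (card_le_card (nb_mono (subset_univ _) x)))
    (by rw [← Nat.cast_sum]; change _ ≤ (ed E X B : ℝ); linarith)
  set X3 := X.filter fun x => κ / 4 * ρ ≤ ((nb E B x).card : ℝ) with hX3
  have s3 : X3 ⊆ X := filter_subset _ _
  have fA : ∀ Z ⊆ X3, Fam E (fun a y => E a y ∧ y ∈ B) Z (min c (min (κ / 4) (δ / 2)) * ρ) :=
    fun Z hZ => ⟨fun _ _ e => e.1, fun a ha => by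
      rw [tw_nb]
      exact (mul_le_mul_of_nonneg_right ((min_le_right _ _).trans (min_le_left _ _)) hρ.le).trans
        (mem_filter.1 (hZ ha)).2⟩
  have vB : ∀ y ∈ B, v (β y - β y1) ≤ s := fun y hy => v.map_sub (β y1) (β y) ▸ (mem_filter.1 hy).2
  obtain ⟨lab, X4, s4, l1, l2, l3, l4⟩ := h3 V E H _ ρ X3 _ _ r2 hA (hv.tw_pum w hs0.le)
    (hv.tw_pum (zz y1) zero_le_one)
    (fun a _ b _ e => lt_max_of_lt_left (mul_pos hs0 (v.pos (sub_ne_zero.2 (hw.ne e)))))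
    ⟨hH.sub, fun a ha => (mul_le_mul_of_nonneg_right (min_le_left _ _) hρ.le).trans
      (hH.deg a (s3 ha))⟩ (fA _ Subset.rfl)
    (fun a ha b hb y e e1 e2 => by
      rw [one_mul]
      exact (mul_le_of_le_one_left (v.nonneg _) hs1).trans_lt
        (hs y1 hy1 a (s3 ha) b (s3 hb) y e e1 e2))
    (fun a ha b hb y e1 e2 => by
      rw [one_mul]
      refine ((hn y1 hy1 y (mem_filter.1 e1.2).1 a (s3 ha) b (s3 hb) e1.1 e2.1).tw_le hv).trans ?_
      rw [v.map_mul]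
      exact mul_le_mul_of_nonneg_right (vB y e1.2) (v.nonneg _))
  obtain ⟨a, -, y0, ha, g⟩ := h4 V E _ ρ X4 _ _ _ lab lab
    (fun y => Y.filter fun u => v (β y - β u) < s) r3 hA
    (le_trans (mul_le_mul_of_nonneg_right ((min_le_right _ _).trans (min_le_right _ _))
      (pow_pos hρ 3).le) (by linarith)) (fA _ s4)
    (fun a ha => le_trans (Nat.cast_le.2 (card_le_card (tw_fib s4 lab a))) (l2 a (s4 ha)))
    (le_of_eq_of_le (by congr; exact Subsingleton.elim _ _) l4)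
    (fun a ha b hb a' ha' b' hb' y y' e1 e2 e3 e4 n1 _ n2 n3 => by
      have := tw_det hv hs0 (vB y e1.2) (vB y' e3.2)
        (hn y1 hy1 y (mem_filter.1 e1.2).1 a (s3 (s4 ha)) b (s3 (s4 hb)) e1.1 e2.1)
        (hn y1 hy1 y' (mem_filter.1 e3.2).1 a' (s3 (s4 ha')) b' (s3 (s4 hb')) e3.1 e4.1)
        (l1 a (s4 ha) a' (s4 ha') b (s4 hb) n2 n1) (l1 b (s4 hb) b' (s4 hb') a (s4 ha) n3 n1.symm)
      rw [sub_sub_sub_cancel_right] at this
      exact filter_congr fun u _ => ⟨fun e => (hv.tw_tri _ (β y) _).trans_lt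
        (max_lt (v.map_sub (β y) (β y') ▸ this) e), fun e => (hv.tw_tri _ (β y') _).trans_lt
        (max_lt this e)⟩)
  refine ⟨y0, (mem_filter.1 ha.2).1, s, hs0, g.trans (Nat.cast_le.2 ?_),
    b2 y0 (mem_filter.1 ha.2).1⟩
  refine le_trans (sum_le_sum fun x _ => card_le_card fun y hy => ?_)
    (ed_mono (s4.trans s3) Subset.rfl)
  obtain ⟨-, e1, e2⟩ := mem_nb.1 hy
  refine mem_nb.2 ⟨?_, e1.1⟩
  rw [← e2]
  exact mem_filter.2 ⟨(mem_filter.1 e1.2).1, by simpa using hs0⟩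

theorem coreS (hS : SmallS) (hM : MaxS) (hR : RichP) (hP : PartS) (hC : ClsS) (h3 : V3S) :
    CoreS := by
  intro C c hC1 hc
  obtain ⟨κ, hκ, h1⟩ := hM (3 * C) (c ^ 2) (by positivity) (by positivity)
  obtain ⟨θ, hθ, ρ1, h2⟩ := tw_v1 hR hP hC hC1 hc hκ
  obtain ⟨δ, hδ, ρ2, h4⟩ := hS C (min θ (κ / 2) / 2) hC1 (by positivity)
  obtain ⟨δ', hδ', ρ3, h5⟩ := hR C (κ * δ / 2) hC1 (by positivity)
  obtain ⟨ρ4, h6⟩ := h3 C (min c (min (κ * δ / 2) δ')) hC1 (by positivity)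
  refine ⟨max (max ρ1 ρ2) (max (max ρ3 ρ4) 1),
    fun K _ _ v V _ E H ρ X Y zz w β hρ hv hA hX hw hd hY hH hb hi hn hs => ?_⟩
  simp only [max_le_iff] at hρ
  obtain ⟨⟨r1, r2⟩, ⟨r3, r4⟩, r5⟩ := hρ
  have hρ : 0 < ρ := one_pos.trans_le r5
  obtain ⟨S, -, s1, s2⟩ := h1 V (fun S => (ed E (S ∩ X) (S ∩ Y) : ℝ)) ρ hρ hA.card
    (fun S => le_trans (Nat.cast_le.2 (ed_mono inter_subset_left inter_subset_left))
      (tw_st hA.st (by linarith) S)) (by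
      rw [univ_inter, univ_inter]
      refine le_trans ?_ (card_mul_le_ed X Y hY)
      nlinarith [mul_le_mul_of_nonneg_left hX (mul_pos hc hρ).le])
  have sX : S ∩ X ⊆ X := inter_subset_right
  have sY : S ∩ Y ⊆ Y := inter_subset_right
  obtain ⟨y0, hy0, s, hs0, g1, g2⟩ := h2 K v V E H ρ (S ∩ X) (S ∩ Y) zz w β r1 hv hA hw s1
    ⟨hH.sub, fun a ha => hH.deg a (sX ha)⟩ (fun y hy y' hy' => hb y (sY hy) y' (sY hy'))
    (fun y hy y' hy' => hi y (sY hy) y' (sY hy'))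
    (fun y hy y' hy' a ha b hb => hn y (sY hy) y' (sY hy') a (sX ha) b (sX hb))
    (fun y hy a ha b hb => hs y (sY hy) a (sX ha) b (sX hb))
  set Y' := (S ∩ Y).filter fun y => v (β y0 - β y) < s with hY'
  have sY' : Y' ⊆ S ∩ Y := filter_subset _ _
  have big : ∀ Z : Finset V, min θ (κ / 2) * ρ ^ 4 ≤ ed E (S ∩ X) Z → δ * ρ ^ 3 ≤ Z.card :=
    fun Z hZ => le_of_not_ge fun e => by
      have e1 := (h4 V E ρ Z r2 hA e).1
      have e2 : (ed E (S ∩ X) Z : ℝ) ≤ ed E Z univ := by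
        rw [ed_comm hA.symm]
        exact Nat.cast_le.2 (ed_mono Subset.rfl (subset_univ _))
      nlinarith [mul_pos (lt_min hθ (half_pos hκ)) (pow_pos hρ 4)]
  have k1 := big Y' ((mul_le_mul_of_nonneg_right (min_le_left _ _) (pow_pos hρ 4).le).trans g1)
  have k2 := big ((S ∩ Y) \ Y') ((mul_le_mul_of_nonneg_right (min_le_right _ _)
    (pow_pos hρ 4).le).trans (by
      have e1 := Nat.cast_lt (α := ℝ).2 g2
      have e2 := congrArg (Nat.cast : ℕ → ℝ) (tw_ed_split (E := E) sY' (S ∩ X))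
      push_cast at e1 e2
      linarith))
  obtain ⟨T, t1, t2, t3, t4⟩ := tw_cross (E := E) hd sY'
  have k3 := tw_exp (mul_pos hκ hρ).le s2 t1 (k1.trans (Nat.cast_le.2 (card_le_card t2)))
    (k2.trans (Nat.cast_le.2 (card_le_card t3)))
  have k4 := h5 V E ρ (S ∩ X)
    (fun x => min ((nb E Y' x).card : ℝ) (nb E ((S ∩ Y) \ Y') x).card) r3 hA
    (fun x _ => (min_le_left _ _).trans (Nat.cast_le.2 (card_le_card (nb_mono (subset_univ _) x))))
    (by nlinarith)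
  have y0' : y0 ∈ Y' := mem_filter.2 ⟨hy0, by simpa using hs0⟩
  obtain ⟨u, hu, mx⟩ := exists_max_image Y' (fun y => v (β y0 - β y)) ⟨y0, y0'⟩
  have c2 : min c (min (κ * δ / 2) δ') * ρ ≤ κ * δ / 2 * ρ :=
    mul_le_mul_of_nonneg_right ((min_le_right _ _).trans (min_le_left _ _)) hρ.le
  refine h6 K v V E (fun a y => E a y ∧ y ∈ Y') (fun a y => E a y ∧ y ∈ (S ∩ Y) \ Y') H ρ _
    (zz y0) w (fun y => β y - β y0) (v (β y0 - β u)) r4 hv hA
    ((mul_le_mul_of_nonneg_right ((min_le_right _ _).trans (min_le_right _ _))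
      (pow_pos hρ 3).le).trans k4) hw
    ⟨fun _ _ e => e.1, fun a ha => by
      rw [tw_nb]; exact c2.trans ((mem_filter.1 ha).2.trans (min_le_left _ _))⟩
    ⟨fun _ _ e => e.1, fun a ha => by
      rw [tw_nb]; exact c2.trans ((mem_filter.1 ha).2.trans (min_le_right _ _))⟩
    ⟨hH.sub, fun a ha => (mul_le_mul_of_nonneg_right (min_le_left _ _) hρ.le).trans
      (hH.deg a (sX (mem_filter.1 ha).1))⟩ (v.nonneg _) (fun a ha b hb y e1 e2 => ?_)
    (fun a ha b hb y e1 e2 => hn y0 (sY hy0) y (sY (mem_sdiff.1 e1.2).1) a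
      (sX (mem_filter.1 ha).1) b (sX (mem_filter.1 hb).1) e1.1 e2.1) (fun a _ y e => ⟨?_, ?_⟩)
    (fun a ha b hb => hs y0 (sY hy0) a (sX (mem_filter.1 ha).1) b (sX (mem_filter.1 hb).1))
  · refine ((hn y0 (sY hy0) y (sY (sY' e1.2)) a (sX (mem_filter.1 ha).1) b
      (sX (mem_filter.1 hb).1) e1.1 e2.1).tw_le hv).trans ?_
    rw [v.map_mul, v.map_sub (β y)]
    exact mul_le_mul_of_nonneg_right (mx y e1.2) (v.nonneg _)
  · rw [v.map_sub (β y)]
    exact (mem_filter.1 hu).2.trans_le (le_of_not_gt fun e' =>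
      (mem_sdiff.1 e.2).2 (mem_filter.2 ⟨(mem_sdiff.1 e.2).1, e'⟩))
  · exact hb _ (sY (mem_sdiff.1 e.2).1) _ (sY hy0)

end Pool.Agent.Lib.MP_439fea_co.Ud
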