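import Pool.Agent.Lib.MP_439fea_co.Ud.TwoDefs

namespace Pool.Agent.Lib.MP_439fea_co.Ud
open Finset Pool.Agent.Lib.MP_439fea_co.Z
open scoped Classical
noncomputable section

section val
variable {K : Type} [Field K] {v : AbsoluteValue K ℝ}

theorem NA.v3_tri (h : NA v) (x y z : K) : v (x - z) ≤ max (v (x - y)) (v (y - z)) := by
  have := h.add (x - y) (y - z)
  rwa [sub_add_sub_cancel] at this

theorem NA.v3_lt (h : NA v) {x y : K} {r : ℝ} (hx : v x < r) (hy : v y < r) : v (x + y) < r :=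
  (h.add x y).trans_lt (max_lt hx hy)

theorem NA.v3_sub (h : NA v) {x y : K} {r : ℝ} (hx : v x < r) (hy : v y < r) : v (x - y) < r := by
  rw [sub_eq_add_neg]
  exact h.v3_lt hx (by rwa [v.map_neg])

theorem NA.v3_le (h : NA v) {x y : K} (hxy : v (x - y) < v y) : v x ≤ v y := by
  have := h.add (x - y) y
  rw [sub_add_cancel] at this
  exact this.trans (max_le hxy.le le_rfl)

theorem NA.v3_eq (h : NA v) {x y : K} (hxy : v (x - y) < v y) : v x = v y := by
  refine le_antisymm (h.v3_le hxy) (not_lt.1 fun e => ?_)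
  have := h.v3_sub e hxy
  rw [sub_sub_cancel] at this
  exact lt_irrefl _ this

theorem NA.v3_pum (h : NA v) {V : Type} (z : V → K) : PUM fun a b => v (z a - z b) :=
  ⟨fun _ _ => v.nonneg _, fun _ => by simp, fun _ _ => v.map_sub _ _, fun _ _ _ => h.v3_tri _ _ _⟩

theorem NA.v3_cl (h : NA v) {a b : K} (hab : v (a - b) < max (v a) (v b)) :
    {t | v (t - a) < v a} = {t | v (t - b) < v b} := by
  have h1 : v a = v b := by
    rcases lt_max_iff.1 hab with e | e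
    · exact (h.v3_eq (by rwa [v.map_sub])).symm
    · exact h.v3_eq e
  rw [h1, max_self] at hab
  ext t
  rw [Set.mem_ofPred_eq, Set.mem_ofPred_eq, h1]
  exact ⟨fun e => (h.v3_tri t a b).trans_lt (max_lt e hab),
    fun e => (h.v3_tri t b a).trans_lt (max_lt e (by rwa [v.map_sub]))⟩

theorem Near.v3_lt {x σ y : K} (h : Near v x (σ * y)) (hσ : 0 < v σ) (hy : y ≠ 0) :
    v (x - σ * y) < v σ * v y := by
  rcases h with h | h
  · rw [h, sub_self, map_zero]
    exact mul_pos hσ (v.pos hy)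
  · rwa [map_mul] at h

/-- Two chords with close ends have close slopes. -/
theorem NA.v3_slope (h : NA v) {x x' y y' σ σ' : K} (h1 : v (x - σ * y) < v σ * v y)
    (h2 : v (x' - σ' * y') < v σ' * v y') (h3 : v (x' - x) < v σ * v y) (h4 : v (y' - y) < v y) :
    v (σ - σ') < max (v σ) (v σ') := by
  have e := h.v3_eq h4
  have hy : 0 < v y := (v.nonneg _).trans_lt h4
  have hσ : 0 < v σ := (mul_pos_iff_of_pos_right hy).1 ((v.nonneg _).trans_lt h1)
  have h5 : v (σ * (y' - y)) < v σ * v y := by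
    rw [map_mul]
    exact mul_lt_mul_of_pos_left h4 hσ
  have h6 := h.v3_sub (h.v3_lt h3 h1) h5
  have m1 := mul_le_mul_of_nonneg_right (le_max_left (v σ) (v σ')) hy.le
  have m2 := mul_le_mul_of_nonneg_right (le_max_right (v σ) (v σ')) hy.le
  rw [e] at h2
  have h7 := h.v3_sub (h2.trans_le m2) (h6.trans_le m1)
  rw [show x' - σ' * y' - (x' - x + (x - σ * y) - σ * (y' - y)) = (σ - σ') * y' by ring, map_mul,
    e] at h7
  exact lt_of_mul_lt_mul_right h7 hy.le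

end val

theorem Fam.v3_mono {V : Type} [Fintype V] {E A : V → V → Prop} {X X' : Finset V} {t t' : ℝ}
    (h : Fam E A X t) (hX : X' ⊆ X) (ht : t' ≤ t) : Fam E A X' t' :=
  ⟨h.sub, fun a ha => ht.trans (h.deg a (hX ha))⟩

theorem v3_fib {V Λ : Type} {X X' : Finset V} (h : X' ⊆ X) (lab : V → Λ) (a : V) :
    fib X' lab a ⊆ fib X lab a := filter_subset_filter _ h

theorem v3_nb {V : Type} [Fintype V] {E A : V → V → Prop} (h : ∀ a b, A a b → E a b) (a : V) :
    nb A univ a ⊆ nb E univ a := fun b hb =>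
  mem_filter.2 ⟨mem_univ _, h a b (mem_filter.1 hb).2⟩

/-- Inside a cluster all distances are smaller than the distance to another cluster. -/
theorem Clu.v3_lt {V Λ : Type} {X : Finset V} {d1 d2 : V → V → ℝ} {lab : V → Λ} (u1 : PUM d1)
    (u2 : PUM d2) (h : Clu X (fun a b => max (d1 a b) (d2 a b)) lab) {a b p q : V} (ha : a ∈ X)
    (hb : b ∈ X) (hp : p ∈ X) (hq : q ∈ X) (hab : lab a ≠ lab b) (e1 : lab p = lab a)
    (e2 : lab q = lab a) : d1 p q < max (d1 a b) (d2 a b) := by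
  have h1 : max (d1 p q) (d2 p q) < max (d1 p b) (d2 p b) :=
    h p hp q hq b hb (e1.trans e2.symm) (e1 ▸ hab)
  have h2 : max (d1 a p) (d2 a p) < max (d1 a b) (d2 a b) := h a ha p hp b hb e1.symm hab
  rw [max_lt_iff, u1.symm a p, u2.symm a p] at h2
  refine ((le_max_left _ _).trans_lt h1).trans_le (max_le ?_ ?_)
  · exact (u1.ultra p a b).trans (max_le h2.1.le (le_max_left _ _))
  · exact (u2.ultra p a b).trans (max_le h2.2.le (le_max_right _ _))

theorem v3S (hR : RichP) (hF : FewS) (hP : PartS) (hC : ClsS) (h3 : ThreeDS) : V3S := by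
  intro C c hC1 hc
  obtain ⟨η, hη, hC⟩ := hC C (c / 2) hC1 (by positivity)
  obtain ⟨J1, hJ1, ρ1, hP⟩ := hP C c η (c / 4) hC1 hc hη (by positivity)
  obtain ⟨J2, hJ2, ρ2, hF⟩ := hF C c J1 (c / 4) hC1 hc hJ1 (by positivity)
  obtain ⟨θ, hθ, ρ3, hC⟩ := hC J2 hJ2
  obtain ⟨δ, hδ, ρ4, hR⟩ := hR C (θ / 2) hC1 (by positivity)
  obtain ⟨ρ5, h3⟩ := h3 C (min δ (min (θ / 2) c)) hC1 (by positivity)
  refine ⟨max (max (max ρ1 ρ2) (max ρ3 ρ4)) (max ρ5 1),
    fun K _ _ v V _ E A1 A2 H ρ X z w σ s hρ hv hA hX hw f1 f2 fH hs a1 a2 hσ aH => ?_⟩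
  simp only [max_le_iff] at hρ
  obtain ⟨⟨⟨r1, r2⟩, r3, r4⟩, r5, r6⟩ := hρ
  have hρ : 0 < ρ := one_pos.trans_le r6
  have hw0 : ∀ a b, a ≠ b → w a - w b ≠ 0 := fun a b e => sub_ne_zero.2 (hw.ne e)
  have hs1 : s ≤ 1 := by
    obtain ⟨a, ha⟩ := card_pos.1 (Nat.cast_pos.1 ((by positivity : 0 < c * ρ ^ 3).trans_le hX))
    obtain ⟨y, hy⟩ := card_pos.1 (Nat.cast_pos.1 ((mul_pos hc hρ).trans_le (f2.deg a ha)))
    have := hσ a ha y (mem_filter.1 hy).2
    exact this.1.le.trans this.2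
  have u1 := hv.v3_pum w
  have u2 := hv.v3_pum z
  obtain ⟨lab, X1, hX1, hcl, hfib, hc1, hi1⟩ := hP V E H A1 ρ X _ _ r1 hA u1 u2
    (fun a _ b _ e => lt_max_of_lt_left (v.pos (hw0 a b e))) fH f1 aH
    fun a ha b hb y e1 e2 => (a1 a ha b hb y e1 e2).trans (mul_le_of_le_one_left (v.nonneg _) hs1)
  let R : V → V → Prop := fun a b => lab b = lab a ∧ ∃ p ∈ X, ∃ q ∈ X, lab p = lab a ∧
    lab q = lab a ∧ v (z a - z b) ≤ s * v (w p - w q)
  have Rs : ∀ a b, R a b → R b a := by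
    rintro a b ⟨e, p, hp, q, hq, e1, e2, e3⟩
    exact ⟨e.symm, p, hp, q, hq, e1.trans e.symm, e2.trans e.symm, by rwa [v.map_sub]⟩
  have Rt : ∀ a b b', R a b → R b b' → R a b' := by
    rintro a b b' ⟨e, p, hp, q, hq, e1, e2, e3⟩ ⟨e', p', hp', q', hq', e1', e2', e3'⟩
    rcases le_max_iff.1 (hv.v3_tri (z a) (z b) (z b')) with e4 | e4
    · exact ⟨e'.trans e, p, hp, q, hq, e1, e2, e4.trans e3⟩
    · exact ⟨e'.trans e, p', hp', q', hq', e1'.trans e, e2'.trans e, e4.trans e3'⟩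
  have Rl : ∀ a ∈ X, ∀ b ∈ X, X.filter (R a) = X.filter (R b) → R a b := fun a _ b hb e =>
    (mem_filter.1 (show b ∈ X.filter (R a) from
      e ▸ mem_filter.2 ⟨hb, rfl, b, hb, b, hb, rfl, rfl, by simp⟩)).2
  obtain ⟨X2, hX2, hc2, hi2⟩ := hF V E A1 ρ X1 _ _ lab (fun a => X.filter (R a)) r2 hA
    (f1.v3_mono hX1 le_rfl) (le_trans (le_of_eq (by congr; exact Subsingleton.elim _ _)) hi1)
    fun a ha b hb y e1 e2 e => by
      have h1 : R a b :=
        ⟨e.symm, a, hX1 ha, b, hX1 hb, rfl, e.symm, a1 a (hX1 ha) b (hX1 hb) y e1 e2⟩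
      exact filter_congr fun x _ => ⟨Rt _ _ _ (Rs _ _ h1), Rt _ _ _ h1⟩
  have hX2' : X2 ⊆ X := hX2.trans hX1
  have near : ∀ a ∈ X, ∀ b ∈ X, ∀ y, a ≠ b → A2 a y → A2 b y →
      v (z a - z b - σ y * (w a - w b)) < v (σ y) * v (w a - w b) := fun a ha b hb y e e1 e2 =>
    (a2 a ha b hb y e1 e2).v3_lt (hs.trans_lt (hσ a ha y e1).1) (hw0 a b e)
  have clo : ∀ a ∈ X, ∀ b ∈ X, ∀ a' ∈ X, ∀ y, s < v (σ y) → lab a ≠ lab b →
      v (z a - z b) ≤ v (w a - w b) → R a a' → v (z a' - z a) < v (σ y) * v (w a - w b) ∧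
        v (w a' - w a) < v (w a - w b) := by
    rintro a ha b hb a' ha' y hy e hle ⟨e0, p, hp, q, hq, e1, e2, e3⟩
    have h1 := hcl.v3_lt u1 u2 ha hb hp hq e e1 e2
    have h2 := hcl.v3_lt u1 u2 ha hb ha' ha e e0 rfl
    rw [max_eq_left hle] at h1 h2
    exact ⟨(v.map_sub _ _).trans_lt (e3.trans_lt (mul_lt_mul'' hy h1 hs (v.nonneg _))), h2⟩
  obtain ⟨a0, ha0, y0, hy0, hed⟩ := hC V E A2 ρ X2 _ _ _ lab (fun a => X.filter (R a))
    (fun y => {t | v (t - σ y) < v (σ y)}) r3 hA (by linarith)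
    (f2.v3_mono hX2' (by nlinarith))
    (fun a ha => (Nat.cast_le.2 (card_le_card (v3_fib hX2' lab a))).trans (hfib a (hX2' ha))) hi2
    fun a ha b hb a' ha' b' hb' y y' e1 e2 e1' e2' n1 n2 l1 l2 => by
      have k1 := near a (hX2' ha) b (hX2' hb) y (fun e => n1 (e ▸ rfl)) e1 e2
      have k2 := near a' (hX2' ha') b' (hX2' hb') y' (fun e => n2 (e ▸ rfl)) e1' e2'
      have hy := hσ a (hX2' ha) y e1
      have k3 : v (z a - z b) ≤ v (w a - w b) := by
        refine (hv.v3_le (y := σ y * (w a - w b)) (by rwa [map_mul])).trans ?_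
        rw [map_mul]
        exact mul_le_of_le_one_left (v.nonneg _) hy.2
      have k4 := clo a (hX2' ha) b (hX2' hb) a' (hX2' ha') y hy.1 n1 k3
        (Rl a (hX2' ha) a' (hX2' ha') l1)
      have k5 := clo b (hX2' hb) a (hX2' ha) b' (hX2' hb') y hy.1 n1.symm
        (by rwa [v.map_sub (z b), v.map_sub (w b)]) (Rl b (hX2' hb) b' (hX2' hb') l2)
      rw [v.map_sub (w b)] at k5
      refine hv.v3_cl (hv.v3_slope k1 k2 ?_ ?_)
      · rw [sub_sub_sub_comm]
        exact hv.v3_sub k4.1 k5.1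
      · rw [sub_sub_sub_comm]
        exact hv.v3_sub k4.2 k5.2
  have h0 := hσ a0 (hX2' ha0) y0 hy0
  have hσ0 : 0 < v (σ y0) := hs.trans_lt h0.1
  have hσ0' : σ y0 ≠ 0 := v.pos_iff.1 hσ0
  let F2 : V → V → Prop := fun x y =>
    A2 x y ∧ {t | v (t - σ y) < v (σ y)} = {t | v (t - σ y0) < v (σ y0)}
  have hr := hR V E ρ X2 (fun x => (nb F2 univ x).card) r4 hA
    (fun x _ => Nat.cast_le.2 (card_le_card (v3_nb (fun a b e => f2.sub a b e.1) x)))
    (by
      rw [← Nat.cast_sum]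
      exact le_trans (le_of_eq (by ring)) hed)
  have hX3 : (X2.filter fun x => θ / 2 * ρ ≤ ((nb F2 univ x).card : ℝ)) ⊆ X :=
    (filter_subset _ _).trans hX2'
  have m1 : min δ (min (θ / 2) c) * ρ ≤ c * ρ :=
    mul_le_mul_of_nonneg_right ((min_le_right _ _).trans (min_le_right _ _)) hρ.le
  have dz : ∀ a b, z a / σ y0 - z b / σ y0 = (z a - z b) / σ y0 := fun a b => (sub_div _ _ _).symm
  refine h3 K v V E A1 F2 H ρ _ (fun a => z a / σ y0) w r5 hv hA
    ((mul_le_mul_of_nonneg_right (min_le_left _ _) (by positivity)).trans hr)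
    (fun a _ b _ _ e => hw e) (f1.v3_mono hX3 m1)
    ⟨fun a b e => f2.sub a b e.1, fun a ha => (mul_le_mul_of_nonneg_right
      ((min_le_right _ _).trans (min_le_left _ _)) hρ.le).trans (mem_filter.1 ha).2⟩
    (fH.v3_mono hX3 m1) (fun a ha b hb y e e1 e2 => ?_) (fun a ha b hb y e e1 e2 => ?_)
    fun a ha b hb y e e1 e2 => ?_
  · rw [dz, map_div₀, div_lt_iff₀' hσ0]
    exact (a1 a (hX3 ha) b (hX3 hb) y e1 e2).trans_lt
      (mul_lt_mul_of_pos_right h0.1 (v.pos (hw0 a b e)))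
  · have k1 := near a (hX3 ha) b (hX3 hb) y e e1.1 e2.1
    have k2 : v (σ y - σ y0) < v (σ y0) := by
      have : σ y ∈ {t | v (t - σ y) < v (σ y)} := by
        rw [Set.mem_ofPred_eq, sub_self, map_zero]
        exact hs.trans_lt (hσ a (hX3 ha) y e1.1).1
      rwa [e1.2] at this
    rw [hv.v3_eq k2] at k1
    have k3 := mul_lt_mul_of_pos_right k2 (v.pos (hw0 a b e))
    rw [← map_mul] at k3
    have k4 := hv.v3_lt k1 k3
    rw [dz, show (z a - z b) / σ y0 - (w a - w b) = (z a - z b - σ y * (w a - w b) +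
      (σ y - σ y0) * (w a - w b)) / σ y0 by field_simp; ring, map_div₀, div_lt_iff₀' hσ0]
    exact k4
  · rw [dz, map_div₀]
    exact (aH a (hX3 ha) b (hX3 hb) y e e1 e2).trans_le (le_div_self (v.nonneg _) hσ0 h0.2)

end
end Pool.Agent.Lib.MP_439fea_co.Ud
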