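import Pool.Agent.Lib.MP_439fea_co.Ud.TwoA
import Pool.Agent.Lib.MP_439fea_co.Ud.TwoC
import Pool.Agent.Lib.MP_439fea_co.Ud.TwoV3

namespace Pool.Agent.Lib.MP_439fea_co.Ud

theorem twoDS (h0 : E0S) (hS : SmallS) (hM : MaxS) (hL : LemLS) (h3 : ThreeDS) : TwoDS QT :=
  two_of_core (coreS hS hM (richP hS) (partS hL) (clsS h0)
    (v3S (richP hS) (fewS h0) (partS hL) (clsS h0) h3))

end Pool.Agent.Lib.MP_439fea_co.Ud
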