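import Pool.Agent.Lib.MP_439fea_co.Ud.Defs

/-! From strips to all configurations. -/

namespace Pool.Agent.Lib.MP_439fea_co.Ud
open Finset Pool.Agent.Lib.MP_439fea_co.Z
open scoped Classical
noncomputable section

theorem win_ed {V : Type} (E : V → V → Prop) (X Y : Finset V) :
    ed E X Y = ((X ×ˢ Y).filter fun x => E x.1 x.2).card := by
  unfold ed nb
  rw [card_filter, sum_product]
  refine sum_congr rfl fun a _ => ?_
  rw [card_filter]

/-- The windows that contain a point. -/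
def winW (p : ℂ) : Finset (ℤ × ℤ) :=
  Icc (⌊4 * p.re⌋ - 3) ⌊4 * p.re⌋ ×ˢ Icc (⌊2 * p.im⌋ - 1) (⌊2 * p.im⌋ + 1)

theorem winW_card (p : ℂ) : (winW p).card = 12 := by
  unfold winW
  rw [card_product, Int.card_Icc, Int.card_Icc]
  have h1 : ⌊4 * p.re⌋ + 1 - (⌊4 * p.re⌋ - 3) = 4 := by ring
  have h2 : ⌊2 * p.im⌋ + 1 + 1 - (⌊2 * p.im⌋ - 1) = 3 := by ring
  rw [h1, h2]; rfl

theorem winW_mem (p : ℂ) (k l : ℤ) (h1 : (k : ℝ) ≤ 4 * p.re) (h2 : 4 * p.re < k + 4)
    (h3 : (l : ℝ) - 1 ≤ 2 * p.im) (h4 : 2 * p.im < l + 2) : (k, l) ∈ winW p := by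
  unfold winW
  rw [mem_product, mem_Icc, mem_Icc]
  have a1 : k ≤ ⌊4 * p.re⌋ := Int.le_floor.2 h1
  have a2 : ⌊4 * p.re⌋ < k + 4 := Int.floor_lt.2 (by push_cast; exact h2)
  have a3 : l - 1 ≤ ⌊2 * p.im⌋ := Int.le_floor.2 (by push_cast; exact h3)
  have a4 : ⌊2 * p.im⌋ < l + 2 := Int.floor_lt.2 (by push_cast; exact h4)
  refine ⟨⟨?_, ?_⟩, ?_, ?_⟩ <;> simp only <;> omega

theorem win_cover (p q : ℂ) (h : Complex.normSq (p - q) = 1)
    (hv : (p - q).re ^ 2 ≤ (p - q).im ^ 2) :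
    ∃ i ∈ winW p, i ∈ winW q ∧ Wn ((i.1 : ℝ) / 4) ((i.2 : ℝ) / 2) p q := by
  have h' := h
  rw [Complex.normSq_apply, Complex.sub_re, Complex.sub_im] at h'
  rw [Complex.sub_re, Complex.sub_im] at hv
  have x1 : p.re - q.re < 3 / 4 := by nlinarith
  have x2 : q.re - p.re < 3 / 4 := by nlinarith
  have y1 : p.im - q.im ≤ 1 := by nlinarith
  have y2 : q.im - p.im ≤ 1 := by nlinarith
  have y3 : 1 / 2 ≤ p.im - q.im ∨ 1 / 2 ≤ q.im - p.im := by
    by_contra hc
    push Not at hc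
    nlinarith [hc.1, hc.2]
  set k : ℤ := ⌊4 * min p.re q.re⌋ with hk
  set l : ℤ := ⌊2 * min p.im q.im⌋ + 1 with hl
  have k1 : (k : ℝ) ≤ 4 * min p.re q.re := Int.floor_le _
  have k2 : 4 * min p.re q.re < k + 1 := Int.lt_floor_add_one _
  have l1 : (l : ℝ) - 1 ≤ 2 * min p.im q.im := by
    rw [hl]; push_cast; linarith [Int.floor_le (2 * min p.im q.im)]
  have l2 : 2 * min p.im q.im < l := by
    rw [hl]; push_cast; exact Int.lt_floor_add_one _
  have m1 := min_le_left p.re q.re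
  have m2 := min_le_right p.re q.re
  have m3 := min_le_left p.im q.im
  have m4 := min_le_right p.im q.im
  have m5 : p.re - 3 / 4 < min p.re q.re := lt_min (by linarith) (by linarith)
  have m6 : q.re - 3 / 4 < min p.re q.re := lt_min (by linarith) (by linarith)
  have m7 : p.im - 1 ≤ min p.im q.im := le_min (by linarith) (by linarith)
  have m8 : q.im - 1 ≤ min p.im q.im := le_min (by linarith) (by linarith)
  refine ⟨(k, l), winW_mem p k l (by linarith) (by linarith) (by linarith) (by linarith),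
    winW_mem q k l (by linarith) (by linarith) (by linarith) (by linarith),
    by simp only; linarith, by simp only; linarith, by simp only; linarith,
    by simp only; linarith, ?_, h⟩
  simp only
  rcases y3 with y3 | y3
  · have e : min p.im q.im = q.im := min_eq_right (by linarith)
    rw [e] at l1 l2
    constructor
    · intro hp; exfalso; linarith
    · intro hq; exfalso; apply hq; linarith
  · have e : min p.im q.im = p.im := min_eq_left (by linarith)
    rw [e] at l1 l2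
    constructor
    · intro _ hq; linarith
    · intro _; linarith

theorem win_vert (n : ℕ) (lam : ℝ) (hl : 0 ≤ lam)
    (H : ∀ (s t : ℝ) (B : Finset ℂ), B.card ≤ n → (ed (Wn s t) B B : ℝ) ≤ lam * B.card)
    (A : Finset ℂ) (hA : A.card ≤ n) :
    (((A ×ˢ A).filter fun x => Complex.normSq (x.1 - x.2) = 1 ∧
      (x.1 - x.2).re ^ 2 ≤ (x.1 - x.2).im ^ 2).card : ℝ) ≤ 12 * lam * A.card := by
  set I : Finset (ℤ × ℤ) := A.biUnion winW with hI
  set B : ℤ × ℤ → Finset ℂ := fun i => A.filter fun p => i ∈ winW p with hB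
  have h1 : ((A ×ˢ A).filter fun x => Complex.normSq (x.1 - x.2) = 1 ∧
      (x.1 - x.2).re ^ 2 ≤ (x.1 - x.2).im ^ 2) ⊆ I.biUnion fun i =>
        (B i ×ˢ B i).filter fun x => Wn ((i.1 : ℝ) / 4) ((i.2 : ℝ) / 2) x.1 x.2 := by
    intro x hx
    rw [mem_filter, mem_product] at hx
    obtain ⟨i, hp, hq, hw⟩ := win_cover x.1 x.2 hx.2.1 hx.2.2
    rw [mem_biUnion]
    refine ⟨i, mem_biUnion.2 ⟨x.1, hx.1.1, hp⟩, ?_⟩
    rw [mem_filter, mem_product]
    exact ⟨⟨mem_filter.2 ⟨hx.1.1, hp⟩, mem_filter.2 ⟨hx.1.2, hq⟩⟩, hw⟩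
  have h2 := (card_le_card h1).trans card_biUnion_le
  have h3 : ∑ i ∈ I, (B i).card ≤ 12 * A.card := by
    have e : ∑ i ∈ I, (B i).card = ∑ p ∈ A, (I.filter fun i => i ∈ winW p).card := by
      simp only [hB, card_filter]
      exact sum_comm
    rw [e, mul_comm, ← smul_eq_mul]
    refine sum_le_card_nsmul _ _ _ fun p _ => ?_
    rw [← winW_card p]
    exact card_le_card fun i hi => (mem_filter.1 hi).2
  have h4 : ∀ i ∈ I, ((((B i ×ˢ B i).filter fun x =>
      Wn ((i.1 : ℝ) / 4) ((i.2 : ℝ) / 2) x.1 x.2).card : ℕ) : ℝ) ≤ lam * (B i).card := by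
    intro i _
    rw [← win_ed]
    exact H _ _ _ ((card_le_card (filter_subset _ _)).trans hA)
  have h5 : ((∑ i ∈ I, (B i).card : ℕ) : ℝ) ≤ ((12 * A.card : ℕ) : ℝ) := by exact_mod_cast h3
  push_cast at h5
  calc _ ≤ ((∑ i ∈ I, ((B i ×ˢ B i).filter fun x =>
        Wn ((i.1 : ℝ) / 4) ((i.2 : ℝ) / 2) x.1 x.2).card : ℕ) : ℝ) := by exact_mod_cast h2
    _ ≤ ∑ i ∈ I, lam * ((B i).card : ℝ) := by
        push_cast; exact sum_le_sum h4
    _ = lam * ∑ i ∈ I, ((B i).card : ℝ) := by rw [mul_sum]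
    _ ≤ lam * (12 * A.card) := mul_le_mul_of_nonneg_left h5 hl
    _ = 12 * lam * A.card := by ring

theorem win_mul (n : ℕ) (lam : ℝ) (hl : 0 ≤ lam)
    (H : ∀ (s t : ℝ) (B : Finset ℂ), B.card ≤ n → (ed (Wn s t) B B : ℝ) ≤ lam * B.card)
    (A : Finset ℂ) (hA : A.card ≤ n) (m : ℂ) (hm : m ≠ 0) :
    (((A ×ˢ A).filter fun x => Complex.normSq (m * (x.1 - x.2)) = 1 ∧
      (m * (x.1 - x.2)).re ^ 2 ≤ (m * (x.1 - x.2)).im ^ 2).card : ℝ) ≤ 12 * lam * A.card := by
  have inj : Function.Injective fun p : ℂ => m * p := fun a b h => mul_left_cancel₀ hm h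
  have hc : (A.image fun p => m * p).card = A.card := card_image_of_injective _ inj
  have h := win_vert n lam hl H (A.image fun p => m * p) (hc.le.trans hA)
  rw [hc] at h
  refine le_trans ?_ h
  norm_cast
  refine card_le_card_of_injOn (fun x => (m * x.1, m * x.2)) ?_ ?_
  · intro x hx
    rw [mem_coe, mem_filter, mem_product] at hx
    rw [mem_coe, mem_filter, mem_product]
    refine ⟨⟨mem_image_of_mem _ hx.1.1, mem_image_of_mem _ hx.1.2⟩, ?_⟩
    simp only
    rw [← mul_sub]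
    exact hx.2
  · intro x _ y _ hxy
    simp only [Prod.mk.injEq] at hxy
    exact Prod.ext (inj hxy.1) (inj hxy.2)

theorem winS : WinS := by
  intro n lam hl H A τ hA hτ
  set r : ℝ := (Real.sqrt τ)⁻¹ with hr
  have r0 : r ≠ 0 := inv_ne_zero (Real.sqrt_pos.2 hτ).ne'
  have rr : r * r * τ = 1 := by
    rw [hr, ← mul_inv, Real.mul_self_sqrt hτ.le, inv_mul_cancel₀ hτ.ne']
  have c0 : (r : ℂ) ≠ 0 := by exact_mod_cast r0
  have h1 := win_mul n lam hl H A hA (r : ℂ) c0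
  have h2 := win_mul n lam hl H A hA ((r : ℂ) * Complex.I) (mul_ne_zero c0 Complex.I_ne_zero)
  have h3 : ((A ×ˢ A).filter fun x : ℂ × ℂ => Complex.normSq (x.1 - x.2) = τ) ⊆
      ((A ×ˢ A).filter fun x => Complex.normSq ((r : ℂ) * (x.1 - x.2)) = 1 ∧
        ((r : ℂ) * (x.1 - x.2)).re ^ 2 ≤ ((r : ℂ) * (x.1 - x.2)).im ^ 2) ∪
      ((A ×ˢ A).filter fun x => Complex.normSq ((r : ℂ) * Complex.I * (x.1 - x.2)) = 1 ∧
        ((r : ℂ) * Complex.I * (x.1 - x.2)).re ^ 2 ≤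
          ((r : ℂ) * Complex.I * (x.1 - x.2)).im ^ 2) := by
    intro x hx
    rw [mem_filter] at hx
    rw [mem_union, mem_filter, mem_filter]
    have e1 : Complex.normSq ((r : ℂ) * (x.1 - x.2)) = 1 := by
      rw [map_mul, hx.2, Complex.normSq_ofReal, rr]
    have e2 : Complex.normSq ((r : ℂ) * Complex.I * (x.1 - x.2)) = 1 := by
      rw [map_mul, map_mul, hx.2, Complex.normSq_ofReal, Complex.normSq_I, mul_one, rr]
    have e3 : ((r : ℂ) * Complex.I * (x.1 - x.2)).re = -((r : ℂ) * (x.1 - x.2)).im := by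
      rw [mul_right_comm, Complex.mul_I_re]
    have e4 : ((r : ℂ) * Complex.I * (x.1 - x.2)).im = ((r : ℂ) * (x.1 - x.2)).re := by
      rw [mul_right_comm, Complex.mul_I_im]
    rcases le_total (((r : ℂ) * (x.1 - x.2)).re ^ 2) (((r : ℂ) * (x.1 - x.2)).im ^ 2) with h | h
    · exact Or.inl ⟨hx.1, e1, h⟩
    · refine Or.inr ⟨hx.1, e2, ?_⟩
      rw [e3, e4, neg_sq]; exact h
  have h4 := (card_le_card h3).trans (card_union_le _ _)
  unfold ud
  rw [win_ed]
  have h5 := (Nat.cast_le (α := ℝ)).2 h4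
  push_cast at h5
  linarith

end
end Pool.Agent.Lib.MP_439fea_co.Ud
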