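import Pool.Agent.Lib.MP_439fea_co.Ud.Acc
import Pool.Agent.Lib.MP_439fea_co.Ud.Alg
import Pool.Agent.Lib.MP_439fea_co.Ud.Box
import Pool.Agent.Lib.MP_439fea_co.Ud.Fin
import Pool.Agent.Lib.MP_439fea_co.Ud.Flex
import Pool.Agent.Lib.MP_439fea_co.Ud.Inc
import Pool.Agent.Lib.MP_439fea_co.Ud.LemL
import Pool.Agent.Lib.MP_439fea_co.Ud.Max
import Pool.Agent.Lib.MP_439fea_co.Ud.Pat
import Pool.Agent.Lib.MP_439fea_co.Ud.Pl
import Pool.Agent.Lib.MP_439fea_co.Ud.Plc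
import Pool.Agent.Lib.MP_439fea_co.Ud.RedB
import Pool.Agent.Lib.MP_439fea_co.Ud.Reg
import Pool.Agent.Lib.MP_439fea_co.Ud.Three
import Pool.Agent.Lib.MP_439fea_co.Ud.Two
import Pool.Agent.Lib.MP_439fea_co.Ud.Win

/-! The number of pairs at one distance among `n` points of the plane is `o(n ^ (4 / 3))`. -/

namespace Pool.Agent.Lib.MP_439fea_co.Ud
open Pool.Agent.Lib.MP_439fea_co

theorem plcS : PlcS QT := by
  classical
  intro O _ _ S r hr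
  obtain ⟨L, i1, i2, φ, P, h1, h2, h3⟩ := plcS'_triv O (insert r S) r hr
  obtain ⟨a, -, ha⟩ := h2 r (Finset.mem_insert_self _ _)
  obtain ⟨i, hi⟩ := h3 a ha
  exact ⟨L, i1, i2, φ, P, h1, fun s hs => h2 s (Finset.mem_insert_of_mem hs), a, i, ha, hi⟩

theorem main : ∀ ε : ℝ, 0 < ε → ∃ n₀ : ℕ,
    ∀ (A : Finset (EuclideanSpace ℝ (Fin 2))) (d : ℝ), n₀ ≤ A.card →
      (pairs A d : ℝ) ≤ ε * (A.card : ℝ) ^ (4 / 3 : ℝ) :=
  fin' winS (redS plS stS winS (flexS plS (rigS QT stS (regS richS maxS) patS plcS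
    (boxS QT e0S smallS (twoDS e0S smallS maxS (lemLS e0S) (threeDS (lemLS e0S) richS)))
    (accS smallS algS))))

end Pool.Agent.Lib.MP_439fea_co.Ud
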