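import Pool.Agent.Lib.MP_439fea_co.Ud.Defs
import Pool.Agent.Lib.MP_439fea_co.Z.Plc

/-! Finitely many absolute values that see a given transcendental element. -/

namespace Pool.Agent.Lib.MP_439fea_co.Ud
open Finset Z
open scoped Classical
noncomputable section

/-- Existence of places with the property `Q` at one of which `r` has a pole. -/
def PlcS' (Q : ∀ (K : Type) [Field K], AbsoluteValue K ℝ → Prop) : Prop :=
  ∀ (O : Type) [Field O] [CharZero O] (S : Finset O) (r : O), Transcendental ℚ r →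
    ∃ (L : Type) (_ : Field L) (_ : CharZero L) (φ : L →+* O) (P : Plc L),
      (∀ i, Q L (P.v i)) ∧ (∀ s ∈ S, ∃ a ∈ P.A, φ a = s) ∧ ∀ a, φ a = r → ∃ i, 1 < P.v i a

variable {L : Type} [Field L]

theorem plc_one (v : Pl L) : v.ord 1 = 0 := by simpa using v.nat 1 one_ne_zero

theorem plc_neg (v : Pl L) {x : L} (hx : x ≠ 0) : v.ord (-x) = v.ord x := by
  have h := v.mul (-1) (-1) (by simp) (by simp)
  rw [neg_mul_neg, mul_one, plc_one] at h
  rw [← neg_one_mul, v.mul _ _ (by simp) hx]
  omega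

theorem plc_max (v : Pl L) {t : ℝ} (ht : 0 < t) (x y : L) :
    (if x + y = 0 then 0 else Real.exp (-(t * v.ord (x + y)))) ≤
      max (if x = 0 then 0 else Real.exp (-(t * v.ord x)))
        (if y = 0 then 0 else Real.exp (-(t * v.ord y))) := by
  by_cases hx : x = 0
  · simp only [hx, zero_add]
    exact le_max_right _ _
  by_cases hy : y = 0
  · simp only [hy, add_zero]
    exact le_max_left _ _
  rw [if_neg hx, if_neg hy]
  split_ifs with h
  · exact le_max_of_le_left (Real.exp_pos _).le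
  rcases min_le_iff.1 (v.add x y hx hy h) with h1 | h1
  · refine le_max_of_le_left (Real.exp_le_exp.2 (neg_le_neg ?_))
    exact mul_le_mul_of_nonneg_left (Int.cast_le.2 h1) ht.le
  · refine le_max_of_le_right (Real.exp_le_exp.2 (neg_le_neg ?_))
    exact mul_le_mul_of_nonneg_left (Int.cast_le.2 h1) ht.le

/-- the absolute value of a place with a weight -/
def plcAbs (v : Pl L) {t : ℝ} (ht : 0 < t) : AbsoluteValue L ℝ where
  toFun x := if x = 0 then 0 else Real.exp (-(t * v.ord x))
  map_mul' x y := by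
    by_cases hx : x = 0
    · simp [hx]
    by_cases hy : y = 0
    · simp [hy]
    rw [if_neg hx, if_neg hy, if_neg (mul_ne_zero hx hy), v.mul x y hx hy, ← Real.exp_add]
    push_cast
    ring_nf
  nonneg' x := by
    split_ifs
    exacts [le_rfl, (Real.exp_pos _).le]
  eq_zero' x := by
    split_ifs with h
    exacts [iff_of_true rfl h, iff_of_false (Real.exp_pos _).ne' h]
  add_le' x y := (plc_max v ht x y).trans (max_le_add_of_nonneg
    (by split_ifs; exacts [le_rfl, (Real.exp_pos _).le])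
    (by split_ifs; exacts [le_rfl, (Real.exp_pos _).le]))

theorem plcAbs_ne (v : Pl L) {t : ℝ} (ht : 0 < t) {x : L} (hx : x ≠ 0) :
    plcAbs v ht x = Real.exp (-(t * v.ord x)) := if_neg hx

theorem plcS' : PlcS' QD := fun O _ _ S r hr => by
  obtain ⟨L, P, hS, hrL, i₀, h₀⟩ := placesExist O S r hr
  have hr0 : (⟨r, hrL⟩ : L) ≠ 0 := fun h => hr (by
    rw [show r = 0 from congrArg Subtype.val h]
    exact isAlgebraic_zero)
  have hf : {i | ∃ x ∈ Subtype.val ⁻¹' (insert r S : Finset O), ∃ _ : (x : L) ≠ 0,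
      (P.pl i).ord x ≠ 0}.Finite := by
    simp only [Set.ofPred_exists, ← exists_prop]
    exact ((insert r S).finite_toSet.preimage Subtype.val_injective.injOn).biUnion' fun x _ =>
      Set.finite_iUnion fun hx => P.fin x hx
  obtain ⟨T, hT⟩ := hf.exists_finset
  let e := T.equivFin.symm
  have hsum : ∀ a : L, a ≠ 0 → ∑ i, Real.log (plcAbs (P.pl (e i)) (P.pos (e i)) a) =
      -∑ i ∈ T, P.wt i * (P.pl i).ord a := fun a ha => by
    simp only [plcAbs_ne _ _ ha, Real.log_exp]
    rw [e.sum_comp fun i : T => -(P.wt i * ((P.pl i).ord a : ℝ)),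
      sum_coe_sort T fun i => -(P.wt i * ((P.pl i).ord a : ℝ)), sum_neg_distrib]
  let A : Subring L :=
    { carrier := {a | ∀ i, i ∉ T → (P.pl i).Ge a 0}
      mul_mem' := fun {a b} ha hb i hi => by
        refine or_iff_not_imp_left.2 fun h => ?_
        rw [(P.pl i).mul _ _ (left_ne_zero_of_mul h) (right_ne_zero_of_mul h)]
        exact add_nonneg ((ha i hi).resolve_left (left_ne_zero_of_mul h))
          ((hb i hi).resolve_left (right_ne_zero_of_mul h))
      one_mem' := fun i _ => Or.inr (plc_one _).ge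
      add_mem' := fun {a b} ha hb i hi => by
        rcases eq_or_ne a 0 with rfl | h1
        · simpa only [zero_add] using hb i hi
        rcases eq_or_ne b 0 with rfl | h2
        · simpa only [add_zero] using ha i hi
        exact or_iff_not_imp_left.2 fun h => (le_min ((ha i hi).resolve_left h1)
          ((hb i hi).resolve_left h2)).trans ((P.pl i).add a b h1 h2 h)
      zero_mem' := fun i _ => Or.inl rfl
      neg_mem' := fun {a} ha i hi => or_iff_not_imp_left.2 fun h => by
        rw [plc_neg _ (neg_ne_zero.1 h)]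
        exact (ha i hi).resolve_left (neg_ne_zero.1 h) }
  refine ⟨L, inferInstance, inferInstance, L.subtype, ⟨A, T.card,
    fun i => plcAbs (P.pl (e i)) (P.pos (e i)), fun i => ⟨plc_max _ (P.pos _), fun n hn => ?_⟩,
    fun a ha h => ?_⟩, fun i => ?_, fun s hs => ⟨⟨s, hS s hs⟩, fun i hi =>
      or_iff_not_imp_left.2 fun h => (not_not.1 fun h' => hi ((hT i).2
        ⟨_, mem_insert_of_mem hs, h, h'⟩)).ge, rfl⟩, fun a ha => ?_⟩
  · rw [plcAbs_ne _ _ (Nat.cast_ne_zero.2 hn), (P.pl _).nat n hn]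
    simp
  · have h1 := P.prod a h (T ∪ (P.fin a h).toFinset) fun i hi =>
      mem_union_right _ ((Set.Finite.mem_toFinset _).2 hi)
    rw [← union_sdiff_self_eq_union, sum_union disjoint_sdiff] at h1
    rw [hsum a h, eq_neg_of_add_eq_zero_left h1, neg_neg]
    exact sum_nonneg fun i hi => mul_nonneg (P.pos i).le
      (Int.cast_nonneg ((ha i (mem_sdiff.1 hi).2).resolve_left h))
  · obtain ⟨p, h1, h2⟩ := (P.pl (e i)).unif
    refine ⟨p, h1, ?_, fun x hx => ⟨(P.pl (e i)).ord x, ?_⟩⟩
    · simpa [plcAbs_ne _ _ h1, h2] using P.pos _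
    · simp only [plcAbs_ne _ _ h1, plcAbs_ne _ _ hx, h2]
      rw [← Real.rpow_intCast, ← Real.exp_mul]
      simp
  · obtain rfl : a = ⟨r, hrL⟩ := Subtype.ext ha
    by_contra! h
    have h1 : ∀ i ∈ T, 0 ≤ P.wt i * ((P.pl i).ord ⟨r, hrL⟩ : ℝ) := fun i hi => by
      have h2 := h (e.symm ⟨i, hi⟩)
      simp only [plcAbs_ne _ _ hr0, e.apply_symm_apply, Real.exp_le_one_iff] at h2
      exact neg_nonpos.1 h2
    have h3 : ∀ i, (P.pl i).ord ⟨r, hrL⟩ ≠ 0 → i ∈ T := fun i hi =>
      (hT i).2 ⟨_, mem_insert_self r S, hr0, hi⟩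
    exact mul_ne_zero (P.pos i₀).ne' (Int.cast_ne_zero.2 h₀)
      ((sum_eq_zero_iff_of_nonneg h1).1 (P.prod _ hr0 T h3) i₀ (h3 i₀ h₀))

theorem plcS'_triv : PlcS' QT := fun O _ _ S r hr => by
  obtain ⟨L, _, _, φ, P, -, h⟩ := plcS' O S r hr
  exact ⟨L, _, ‹_›, φ, P, fun _ => trivial, h⟩

end
end Pool.Agent.Lib.MP_439fea_co.Ud
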