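import Pool.Agent.Lib.MP_439fea_co.Ud.Defs
import Pool.Agent.Lib.MP_439fea_co.Z.PCons

/-! Cutting a graph into small pieces. -/

namespace Pool.Agent.Lib.MP_439fea_co.Ud
open Finset Pool.Agent.Lib.MP_439fea_co.Z
open scoped Classical
noncomputable section

variable {V : Type}

theorem red_split (F : Finset V) {N : ℕ} (hN : 1 ≤ N) : ∃ g : V → ℕ,
    (∀ k, (F.filter fun x => g x = k).card ≤ N) ∧ ∀ x ∈ F, g x ≤ F.card / N := by
  let e : V → ℕ := fun x => if h : x ∈ F then (F.equivFin ⟨x, h⟩ : ℕ) else 0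
  have he : ∀ x ∈ F, e x < F.card := fun x hx => by
    simp only [e, dif_pos hx]; exact (F.equivFin ⟨x, hx⟩).2
  have hi : ∀ x ∈ F, ∀ y ∈ F, e x = e y → x = y := fun x hx y hy h => by
    simp only [e, dif_pos hx, dif_pos hy] at h
    exact congrArg Subtype.val (F.equivFin.injective (Fin.ext h))
  refine ⟨fun x => e x / N, fun k => ?_, fun x hx => Nat.div_le_div_right (he x hx).le⟩
  refine le_trans (card_le_card_of_injOn (t := range N) (fun x => e x % N)
    (fun x _ => mem_coe.2 (mem_range.2 (Nat.mod_lt _ hN))) fun x hx y hy h => ?_) (card_range N).le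
  obtain ⟨h1, h2⟩ := mem_filter.1 (mem_coe.1 hx)
  obtain ⟨h3, h4⟩ := mem_filter.1 (mem_coe.1 hy)
  refine hi x h1 y h3 ?_
  have h5 : e x % N = e y % N := h
  have h6 : e x / N = e y / N := Eq.trans h2 h4.symm
  rw [← Nat.div_add_mod (e x) N, ← Nat.div_add_mod (e y) N, h6, h5]

theorem red_pieces {E : V → V → Prop} (h : PL E) (X Y : Finset V) {q N : ℕ} (hq : 1 ≤ q)
    (hN : 1 ≤ N) : ∃ (I : Finset (ℕ × ℕ)) (S T : ℕ × ℕ → Finset V),
      (I.card : ℝ) ≤ 16 * ((Y.card : ℝ) / q + 2) ^ 2 + X.card / N ∧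
      (∀ i, S i ⊆ X ∧ T i ⊆ Y ∧ (S i).card ≤ N ∧ (T i).card ≤ 4 * q) ∧
      (∀ i j x, x ∈ S i → x ∈ S j → i = j) ∧
      (ed E X Y : ℝ) ≤ ∑ i ∈ I, (ed E (S i) (T i) : ℝ) + (Y.card : ℝ) ^ 2 / q := by
  obtain ⟨lab, hlab, hcell⟩ := h.cut X Y q hq
  have hq0 : (0 : ℝ) < q := by exact_mod_cast hq
  have hN0 : (0 : ℝ) < N := by exact_mod_cast hN
  obtain ⟨lo, hlo⟩ : ∃ lo, lo = X.filter fun a => (nb E Y a).card ≤ q := ⟨_, rfl⟩
  choose g hg1 hg2 using fun l => red_split (lo.filter fun a => lab a = l) hN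
  let f : V → ℕ × ℕ := fun x => (lab x, g (lab x) x)
  let T : ℕ × ℕ → Finset V := fun i =>
    Y.filter fun b => ∃ a ∈ X, lab a = i.1 ∧ (nb E Y a).card ≤ q ∧ E a b
  have hloX : lo ⊆ X := hlo ▸ filter_subset _ _
  refine ⟨lo.image f, fun i => lo.filter fun x => f x = i, T, ?_, fun i => ⟨?_, ?_, ?_, ?_⟩,
    fun i j x hi hj => (mem_filter.1 hi).2.symm.trans (mem_filter.1 hj).2, ?_⟩
  · have h1 : lo.image f ⊆ (X.image lab).biUnion fun l =>
        (range ((lo.filter fun a => lab a = l).card / N + 1)).image fun k => (l, k) := by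
      intro i hi
      obtain ⟨x, hx, rfl⟩ := mem_image.1 hi
      exact mem_biUnion.2 ⟨lab x, mem_image_of_mem _ (hloX hx), mem_image.2 ⟨g (lab x) x,
        mem_range.2 (Nat.lt_succ_of_le (hg2 _ x (mem_filter.2 ⟨hx, rfl⟩))), rfl⟩⟩
    have h2 : (lo.image f).card ≤ ∑ l ∈ X.image lab,
        ((lo.filter fun a => lab a = l).card / N + 1) :=
      (card_le_card h1).trans (card_biUnion_le.trans (sum_le_sum fun l _ =>
        card_image_le.trans (card_range _).le))
    have h3 : ((lo.image f).card : ℝ) ≤ ∑ l ∈ X.image lab,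
        (((lo.filter fun a => lab a = l).card : ℝ) / N + 1) := by
      refine (Nat.cast_le.2 h2).trans ?_
      push_cast
      exact sum_le_sum fun l _ => by gcongr; exact Nat.cast_div_le
    rw [sum_add_distrib, ← sum_div, ← Nat.cast_sum, ← card_eq_sum_card_fiberwise
      (fun x hx => mem_coe.2 (mem_image_of_mem lab (hloX (mem_coe.1 hx)))), sum_const, nsmul_eq_mul,
      mul_one] at h3
    have h4 : ((X.image lab).card : ℝ) ≤ 16 * ((Y.card : ℝ) / q + 2) ^ 2 := by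
      refine (Nat.cast_le.2 hlab).trans ?_
      push_cast
      gcongr
      exact Nat.cast_div_le
    have h5 : (lo.card : ℝ) / N ≤ X.card / N := by
      gcongr
    linarith
  · exact (filter_subset _ _).trans hloX
  · exact filter_subset _ _
  · refine le_trans (card_le_card fun x hx => ?_) (hg1 i.1 i.2)
    obtain ⟨h1, h2⟩ := mem_filter.1 hx
    obtain rfl := h2
    exact mem_filter.2 ⟨mem_filter.2 ⟨h1, rfl⟩, rfl⟩
  · exact hcell i.1
  · have h1 : (ed E X Y : ℝ) = ∑ a ∈ lo, ((nb E Y a).card : ℝ) +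
        ∑ a ∈ X.filter (fun a => ¬ (nb E Y a).card ≤ q), ((nb E Y a).card : ℝ) := by
      rw [hlo, sum_filter_add_sum_filter_not, ed]; push_cast; rfl
    have h2 : ∑ a ∈ lo, ((nb E Y a).card : ℝ) ≤
        ∑ i ∈ lo.image f, (ed E (lo.filter fun x => f x = i) (T i) : ℝ) := by
      rw [← sum_fiberwise_of_maps_to (fun x hx => mem_image_of_mem f hx)]
      refine sum_le_sum fun i _ => ?_
      rw [ed]; push_cast
      refine sum_le_sum fun a ha => Nat.cast_le.2 (card_le_card fun b hb => ?_)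
      obtain ⟨h3, h4⟩ := mem_filter.1 ha
      obtain ⟨h5, h6⟩ := mem_nb.1 hb
      refine mem_nb.2 ⟨mem_filter.2 ⟨h5, a, hloX h3, by rw [← h4], ?_, h6⟩, h6⟩
      rw [hlo] at h3
      exact (mem_filter.1 h3).2
    have h3 := cherry_le h.k22 (X.filter fun a => ¬ (nb E Y a).card ≤ q) Y
    have h4 : ∑ a ∈ X.filter (fun a => ¬ (nb E Y a).card ≤ q), ((nb E Y a).card : ℝ) ≤
        (Y.card : ℝ) ^ 2 / q := by
      rw [le_div_iff₀ hq0, sum_mul]
      refine le_trans (sum_le_sum fun a ha => ?_) h3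
      have h5 : (q : ℝ) + 1 ≤ (nb E Y a).card := by exact_mod_cast not_le.1 (mem_filter.1 ha).2
      exact mul_le_mul_of_nonneg_left (by linarith) (Nat.cast_nonneg _)
    linarith

theorem ed_le_mul (E : V → V → Prop) (X Y : Finset V) : (ed E X Y : ℝ) ≤ Y.card * X.card :=
  ed_le_card_mul X Y fun _ _ => Nat.cast_le.2 (card_filter_le _ _)

theorem ud_le {C : ℝ} (hC : 1 ≤ C) (hst : ∀ s t, ST (Wn s t) C) (h3 : WinS) (S : Finset ℂ)
    {τ ν : ℝ} (hτ : 0 < τ) (hν : 1 ≤ ν) (hS : (S.card : ℝ) ≤ ν ^ 3) :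
    (ud S τ : ℝ) ≤ 72 * C * ν * S.card := by
  have h := h3 S.card (3 * C * ν) (by positivity) (fun s t B hB => ?_) S τ le_rfl hτ
  · linarith
  · have h1 := hst s t B B ν hν
    have h2 : (B.card : ℝ) ≤ ν ^ 3 := (Nat.cast_le.2 hB).trans hS
    have h0 : (0 : ℝ) ≤ B.card := Nat.cast_nonneg _
    have h4 : (B.card : ℝ) ^ 2 / ν ^ 2 ≤ ν * B.card := by
      rw [div_le_iff₀ (by positivity)]
      nlinarith [mul_le_mul_of_nonneg_left h2 h0]
    have h5 : (B.card : ℝ) ≤ ν * B.card := le_mul_of_one_le_left h0 hν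
    calc _ ≤ C * (ν * B.card + ν * B.card + ν * B.card) := h1.trans (by gcongr)
      _ = _ := by ring

end
end Pool.Agent.Lib.MP_439fea_co.Ud
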