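import Pool.Agent.Lib.MP_439fea_co.Ud.Defs

/-! Regularisation, first part: cells and blocks. -/

namespace Pool.Agent.Lib.MP_439fea_co.Ud
open Finset Pool.Agent.Lib.MP_439fea_co.Z
open scoped Classical
noncomputable section

variable {V : Type}

/-- The adjacent pairs in `X × Y`. -/
def regP (R : V → V → Prop) (X Y : Finset V) : Finset (V × V) :=
  (X ×ˢ Y).filter fun x => R x.1 x.2

theorem reg_memP {R : V → V → Prop} {X Y : Finset V} {x : V × V} :
    x ∈ regP R X Y ↔ x.1 ∈ X ∧ x.2 ∈ Y ∧ R x.1 x.2 := by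
  simp [regP, and_assoc]

theorem reg_fib {Λ : Type} {X : Finset V} {f : V → Λ} {a b : V} :
    b ∈ fib X f a ↔ b ∈ X ∧ f b = f a := by
  simp [fib]

theorem reg_ed (R : V → V → Prop) (X Y : Finset V) : ed R X Y = (regP R X Y).card := by
  simp only [ed, nb, regP, card_filter]
  rw [sum_product]

theorem reg_comm {E : V → V → Prop} (hs : ∀ a b, E a b → E b a) (X Y : Finset V) :
    ed E X Y = ed E Y X := by
  simp only [ed, nb, card_filter]
  rw [sum_comm]
  refine sum_congr rfl fun b _ => sum_congr rfl fun a _ => ?_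
  have : E a b ↔ E b a := ⟨hs _ _, hs _ _⟩
  simp [this]

theorem reg_mono {R E : V → V → Prop} (h : ∀ a b, R a b → E a b) (X Y : Finset V) :
    ed R X Y ≤ ed E X Y :=
  sum_le_sum fun a _ => card_le_card fun b hb =>
    mem_filter.2 ⟨(mem_filter.1 hb).1, h a b (mem_filter.1 hb).2⟩

/-- Groups of equal size inside the fibres of a labelling. -/
theorem reg_grp {α Λ : Type} [DecidableEq α] (m : ℕ) (f : α → Λ) (F : Finset α) :
    ∃ (F' : Finset α) (g : α → Finset α), F' ⊆ F ∧
      (∀ a ∈ F \ F', (fib (F \ F') f a).card ≤ m) ∧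
      ∀ a ∈ F', a ∈ g a ∧ (g a).card = m + 1 ∧ ∀ b ∈ g a, b ∈ F' ∧ g b = g a ∧ f b = f a := by
  induction F using Finset.strongInduction with
  | H F ih =>
    by_cases h : ∀ a ∈ F, (fib F f a).card ≤ m
    · exact ⟨∅, fun _ => ∅, empty_subset _, by simpa using h, by simp⟩
    push Not at h
    obtain ⟨a, -, ha⟩ := h
    obtain ⟨B, hB, hc⟩ := exists_subset_card_eq (show m + 1 ≤ (fib F f a).card from ha)
    have hBF : B ⊆ F := fun x hx => (reg_fib.1 (hB hx)).1
    have hne : B.Nonempty := card_pos.1 (by omega)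
    obtain ⟨F', g, h1, h2, h3⟩ := ih (F \ B) (sdiff_ssubset hBF hne)
    have e : F \ (F' ∪ B) = (F \ B) \ F' := by
      ext x
      simp only [mem_sdiff, mem_union]
      tauto
    refine ⟨F' ∪ B, fun x => if x ∈ B then B else g x,
      union_subset (h1.trans sdiff_subset) hBF, by rwa [e], fun x hx => ?_⟩
    by_cases hxB : x ∈ B
    · simp only [if_pos hxB]
      refine ⟨hxB, hc, fun b hb => ⟨mem_union_right _ hb, if_pos hb, ?_⟩⟩
      rw [(reg_fib.1 (hB hb)).2, (reg_fib.1 (hB hxB)).2]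
    · simp only [if_neg hxB]
      obtain ⟨k1, k2, k3⟩ := h3 x ((mem_union.1 hx).resolve_right hxB)
      refine ⟨k1, k2, fun b hb => ?_⟩
      obtain ⟨j1, j2, j3⟩ := k3 b hb
      exact ⟨mem_union_left _ j1, by rw [if_neg (mem_sdiff.1 (h1 j1)).2, j2], j3⟩

/-- Splitting the classes of a labelling into small classes. -/
theorem reg_split [Fintype V] (m : ℕ) (f : V → ℕ) (X : Finset V) :
    ∃ l : V → ℕ, (m + 1) * (X.image l).card ≤ (m + 1) * (X.image f).card + X.card ∧
      (∀ a ∈ X, (fib X l a).card ≤ m + 1) ∧ ∀ a ∈ X, ∀ b ∈ X, l a = l b → f a = f b := by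
  obtain ⟨F', g, h1, h2, h3⟩ := reg_grp m f X
  obtain ⟨e, he⟩ := exists_injective_nat (Finset V ⊕ ℕ)
  refine ⟨fun a => e (if a ∈ F' then Sum.inl (g a) else Sum.inr (f a)), ?_, ?_, ?_⟩
  · have k1 : (m + 1) * (F'.image g).card ≤ F'.card := by
      refine mul_card_image_le_card _ _ fun b hb => ?_
      obtain ⟨a, ha, rfl⟩ := mem_image.1 hb
      obtain ⟨-, j2, j3⟩ := h3 a ha
      rw [← j2]
      exact card_le_card fun x hx => mem_filter.2 ⟨(j3 x hx).1, (j3 x hx).2.1⟩
    have k2 : (X.image fun a => e (if a ∈ F' then Sum.inl (g a) else Sum.inr (f a))) ⊆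
        (X.image f).image (fun i => e (Sum.inr i)) ∪ (F'.image g).image fun s => e (Sum.inl s) := by
      intro i hi
      obtain ⟨a, ha, rfl⟩ := mem_image.1 hi
      by_cases h : a ∈ F'
      · rw [if_pos h]
        exact mem_union_right _ (mem_image_of_mem _ (mem_image_of_mem _ h))
      · rw [if_neg h]
        exact mem_union_left _ (mem_image_of_mem _ (mem_image_of_mem _ ha))
    have k3 := (card_le_card k2).trans ((card_union_le _ _).trans
      (add_le_add card_image_le card_image_le))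
    have k4 := card_le_card h1
    nlinarith
  · intro a ha
    by_cases h : a ∈ F'
    · rw [← (h3 a h).2.1]
      refine card_le_card fun b hb => ?_
      have e1 := he (reg_fib.1 hb).2
      rw [if_pos h] at e1
      by_cases hb' : b ∈ F'
      · rw [if_pos hb'] at e1
        rw [← Sum.inl.inj e1]
        exact (h3 b hb').1
      · rw [if_neg hb'] at e1
        cases e1
    · refine le_trans (card_le_card fun b hb => ?_)
        ((h2 a (mem_sdiff.2 ⟨ha, h⟩)).trans (Nat.le_succ m))
      have e1 := he (reg_fib.1 hb).2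
      rw [if_neg h] at e1
      by_cases hb' : b ∈ F'
      · rw [if_pos hb'] at e1
        cases e1
      · rw [if_neg hb'] at e1
        exact reg_fib.2 ⟨mem_sdiff.2 ⟨(reg_fib.1 hb).1, hb'⟩, Sum.inr.inj e1⟩
  · intro a _ b _ hab
    have e1 := he hab
    by_cases h : a ∈ F' <;> by_cases h' : b ∈ F'
    · rw [if_pos h, if_pos h'] at e1
      exact ((h3 b h').2.2 a (Sum.inl.inj e1 ▸ (h3 a h).1)).2.2
    · rw [if_pos h, if_neg h'] at e1
      cases e1
    · rw [if_neg h, if_pos h'] at e1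
      cases e1
    · rw [if_neg h, if_neg h'] at e1
      exact Sum.inr.inj e1

/-- Blocks of four points of one class on a centre. -/
theorem reg_four (E : V → V → Prop) (P Q : Finset V) (l : V → ℕ) (n : ℕ)
    (hn : ∀ a ∈ P, (Q.filter fun b => ∃ a' ∈ P, l a' = l a ∧ E a' b).card ≤ n) :
    ∃ (G : V → V → Prop) (B : V → V → Finset V),
      ed E P Q ≤ ed G P Q + 3 * (n * (P.image l).card) ∧
      ∀ p c, G p c → p ∈ P ∧ c ∈ Q ∧ E p c ∧ p ∈ B c p ∧ (B c p).card = 4 ∧
        ∀ p' ∈ B c p, G p' c ∧ B c p' = B c p ∧ l p' = l p := by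
  set F := regP E P Q with hF
  obtain ⟨F', g, h1, h2, h3⟩ := reg_grp 3 (fun x : V × V => (x.2, l x.1)) F
  refine ⟨fun p c => (p, c) ∈ F', fun c p => (g (p, c)).image Prod.fst, ?_, ?_⟩
  · have k1 : (F \ F').card ≤ 3 * ((F \ F').image fun x : V × V => (x.2, l x.1)).card := by
      refine card_le_mul_card_image _ _ fun b hb => ?_
      obtain ⟨a, ha, rfl⟩ := mem_image.1 hb
      refine le_trans (card_le_card fun x hx => ?_) (h2 a ha)
      exact reg_fib.2 (mem_filter.1 hx)
    have k2 : ((F \ F').image fun x : V × V => (x.2, l x.1)).card ≤ n * (P.image l).card := by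
      refine card_le_mul_card_image_of_maps_to (f := Prod.snd) (fun y hy => ?_) n fun i hi => ?_
      · obtain ⟨x, hx, rfl⟩ := mem_image.1 hy
        exact mem_image_of_mem _ (reg_memP.1 (mem_sdiff.1 hx).1).1
      · obtain ⟨a, ha, rfl⟩ := mem_image.1 hi
        refine le_trans (card_le_card_of_injOn Prod.fst (fun y hy => ?_) fun y hy y' hy' e => ?_)
          (hn a ha)
        · obtain ⟨j1, j2⟩ := mem_filter.1 (mem_coe.1 hy)
          obtain ⟨x, hx, rfl⟩ := mem_image.1 j1
          obtain ⟨j3, j4, j5⟩ := reg_memP.1 (mem_sdiff.1 hx).1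
          exact mem_coe.2 (mem_filter.2 ⟨j4, x.1, j3, j2, j5⟩)
        · exact Prod.ext e ((mem_filter.1 (mem_coe.1 hy)).2.trans
            (mem_filter.1 (mem_coe.1 hy')).2.symm)
    have k3 : F'.card ≤ ed (fun p c => (p, c) ∈ F') P Q := by
      rw [reg_ed]
      exact card_le_card fun x hx =>
        reg_memP.2 ⟨(reg_memP.1 (h1 hx)).1, (reg_memP.1 (h1 hx)).2.1, hx⟩
    have k4 := card_sdiff_add_card_eq_card h1
    rw [reg_ed, ← hF]
    omega
  · intro p c h
    obtain ⟨k1, k2, k3⟩ := h3 _ h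
    obtain ⟨j1, j2, j3⟩ := reg_memP.1 (h1 h)
    refine ⟨j1, j2, j3, mem_image_of_mem Prod.fst k1, ?_, ?_⟩
    · rw [card_image_of_injOn, k2]
      intro x hx y hy e
      exact Prod.ext e ((Prod.mk.inj (k3 x hx).2.2).1.trans (Prod.mk.inj (k3 y hy).2.2).1.symm)
    · intro p' hp'
      obtain ⟨⟨x, y⟩, hx, rfl⟩ := mem_image.1 hp'
      obtain ⟨i1, i2, i3⟩ := k3 _ hx
      obtain ⟨rfl, i4⟩ := Prod.mk.inj i3
      exact ⟨i1, by simp only [i2], i4⟩

/-- Removing the vertices of a set `D` from a bipartite graph. -/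
theorem reg_trim [Fintype V] {E : V → V → Prop} {pt : V → Prop} (hs : ∀ a b, E a b → E b a)
    (hb : Bip E pt) (D : Finset V) :
    ed E univ univ ≤ 2 * ed E (univ.filter fun a => a ∉ D ∧ pt a)
      (univ.filter fun a => a ∉ D ∧ ¬ pt a) + 2 * ed E univ D := by
  set P := univ.filter fun a => a ∉ D ∧ pt a
  set Q := univ.filter fun a => a ∉ D ∧ ¬ pt a
  have h : ed E univ univ ≤ ed E P Q + ed E Q P + ed E univ D + ed E D univ := by
    simp only [reg_ed]
    refine le_trans (card_le_card fun x hx => ?_) ((card_union_le _ _).trans (add_le_add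
      ((card_union_le _ _).trans (add_le_add (card_union_le _ _) le_rfl)) le_rfl))
    have hE := (reg_memP.1 hx).2.2
    have := hb _ _ hE
    simp only [mem_union, reg_memP, mem_filter, mem_univ, true_and, P, Q]
    tauto
  rw [reg_comm hs Q P, reg_comm hs D univ] at h
  omega

end
end Pool.Agent.Lib.MP_439fea_co.Ud
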