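import Pool.Agent.Lib.MP_439fea_co.Ud.RegA

/-! Regularisation, second part: the constants. -/

namespace Pool.Agent.Lib.MP_439fea_co.Ud
open Finset Pool.Agent.Lib.MP_439fea_co.Z
open scoped Classical
noncomputable section

variable {V : Type}

/-- Flags grouped in blocks of four inside small cells. -/
structure RegB [Fintype V] (E : V → V → Prop) (pt : V → Prop) (G : V → V → Prop)
    (B : V → V → Finset V) (l : V → ℕ) (K ρ : ℝ) : Prop where
  few : ((univ.image l).card : ℝ) ≤ K * ρ ^ 2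
  small : ∀ a, ((univ.filter fun p => (∃ c, G p c) ∧ l p = l a).card : ℝ) ≤ K * ρ
  pt : ∀ p c, G p c → pt p ∧ ¬ pt c ∧ E p c
  deg : ∀ p c, G p c → ((nb E univ p).card : ℝ) ≤ K * ρ ∧ ((nb E univ c).card : ℝ) ≤ K * ρ
  blk : ∀ p c, G p c → p ∈ B c p ∧ (B c p).card = 4 ∧
    ∀ p' ∈ B c p, G p' c ∧ B c p' = B c p ∧ l p' = l p

theorem reg_rich {C c K ρ n : ℝ} (hC : 1 ≤ C) (hc : 0 < c) (hK : 128 * C ^ 3 ≤ c * K)
    (hK1 : 1 ≤ K) (hρ : 32 * C ≤ c * ρ) (h1 : 1 ≤ ρ) (hn0 : 0 ≤ n) (hn : n ≤ ρ ^ 3) :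
    2 * C * (4 * C ^ 2 * n ^ 2 / (K * ρ) ^ 2 + n) ≤ c * ρ ^ 4 / 8 := by
  have e1 : 2 * C * (4 * C ^ 2 * n ^ 2 / (K * ρ) ^ 2) ≤ c * ρ ^ 4 / 16 := by
    rw [← mul_div_assoc, div_le_iff₀ (by positivity)]
    have k1 : n ^ 2 ≤ (ρ ^ 3) ^ 2 := by gcongr
    have k2 : 128 * C ^ 3 ≤ c * K ^ 2 := hK.trans (by gcongr; nlinarith)
    calc 2 * C * (4 * C ^ 2 * n ^ 2) = 128 * C ^ 3 * n ^ 2 / 16 := by ring
      _ ≤ c * K ^ 2 * (ρ ^ 3) ^ 2 / 16 := by gcongr
      _ = _ := by ring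
  have e2 : 2 * C * n ≤ c * ρ ^ 4 / 16 := by
    calc 2 * C * n = 32 * C * n / 16 := by ring
      _ ≤ c * ρ * ρ ^ 3 / 16 := by gcongr
      _ = _ := by ring
  linarith

theorem reg_blk (hR : RichS) {C c : ℝ} (hC : 1 ≤ C) (hc : 0 < c) :
    ∃ K : ℝ, 0 < K ∧ ∃ ρ0 : ℝ, ∀ (V : Type) [Fintype V] (E : V → V → Prop) (pt : V → Prop) (ρ : ℝ),
      ρ0 ≤ ρ → PL E → ST E C → Bip E pt → (Fintype.card V : ℝ) ≤ ρ ^ 3 →
      c * ρ ^ 4 ≤ ed E univ univ →
      ∃ G B l, c / 4 * ρ ^ 4 ≤ ed G univ univ ∧ RegB E pt G B l K ρ := by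
  obtain ⟨K, hK, hK2⟩ : ∃ K : ℝ, 128 * C ^ 3 ≤ c * K ∧ 2 * C ≤ K := by
    refine ⟨128 * C ^ 3 / c + 2 * C, ?_, le_add_of_nonneg_left (by positivity)⟩
    rw [mul_add, mul_div_cancel₀ _ hc.ne']
    exact le_add_of_nonneg_right (by positivity)
  obtain ⟨L, hL, hL1⟩ : ∃ L : ℝ, 12480 ≤ c * L ∧ 1 ≤ L := by
    refine ⟨12480 / c + 1, ?_, le_add_of_nonneg_left (by positivity)⟩
    rw [mul_add, mul_div_cancel₀ _ hc.ne']
    linarith
  have hL2 : 1 ≤ L ^ 2 := one_le_pow₀ hL1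
  refine ⟨K + 3 * L ^ 2 + 66, by linarith, K + 2 * L + 32 * C / c, ?_⟩
  intro V _ E pt ρ hρ hP hS hB hV he
  have c0 : 0 ≤ 32 * C / c := by positivity
  have r1 : 1 ≤ ρ := by linarith
  have r2 : 32 * C ≤ c * ρ := by
    rw [mul_comm c, ← div_le_iff₀ hc]
    linarith
  have cV : ∀ X : Finset V, (X.card : ℝ) ≤ ρ ^ 3 := fun X =>
    le_trans (by exact_mod_cast card_le_univ X) hV
  set D := univ.filter fun y => K * ρ ≤ (nb E univ y).card with hD
  have h1 : (ed E univ D : ℝ) ≤ c * ρ ^ 4 / 8 :=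
    (hR V E C (K * ρ) univ D hC hP.symm hS (by nlinarith) fun y hy => (mem_filter.1 hy).2).trans
      (reg_rich hC hc hK (by linarith) r2 r1 (Nat.cast_nonneg _) (cV _))
  have h2 := reg_trim hP.symm hB D
  set P := univ.filter fun a => a ∉ D ∧ pt a with hPd
  set Q := univ.filter fun a => a ∉ D ∧ ¬ pt a with hQd
  have low : ∀ a, a ∉ D → ((nb E univ a).card : ℝ) ≤ K * ρ := fun a ha => by
    by_contra h
    exact ha (mem_filter.2 ⟨mem_univ _, (not_le.1 h).le⟩)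
  obtain ⟨t, rfl⟩ : ∃ t, ρ = L * t := ⟨ρ / L, by field_simp⟩
  have t2 : 2 ≤ t := by
    by_contra h
    nlinarith
  set q := ⌈L * (L * t) ^ 2⌉₊ with hq
  have q0 : 1 ≤ L * (L * t) ^ 2 := one_le_mul_of_one_le_of_one_le hL1 (one_le_pow₀ r1)
  have q1 : L * (L * t) ^ 2 ≤ q := Nat.le_ceil _
  have q2 : (q : ℝ) ≤ 2 * (L * (L * t) ^ 2) := by
    have := Nat.ceil_lt_add_one (show 0 ≤ L * (L * t) ^ 2 by linarith)
    linarith
  have q3 : 1 ≤ q := by exact_mod_cast q0.trans q1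
  obtain ⟨f, f1, f2⟩ := hP.cut P Q q q3
  set m := ⌈L ^ 2 * (L * t)⌉₊ with hm
  have m0 : 1 ≤ L ^ 2 * (L * t) := one_le_mul_of_one_le_of_one_le hL2 r1
  have m1 : L ^ 2 * (L * t) ≤ m := Nat.le_ceil _
  have m2 : (m : ℝ) + 1 ≤ 3 * (L ^ 2 * (L * t)) := by
    have := Nat.ceil_lt_add_one (show 0 ≤ L ^ 2 * (L * t) by linarith)
    linarith
  obtain ⟨l, l1, l2, l3⟩ := reg_split m f P
  have n1 : ((Q.card / q : ℕ) : ℝ) ≤ t := by
    refine Nat.cast_div_le.trans ?_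
    rw [div_le_iff₀ (by linarith)]
    calc (Q.card : ℝ) ≤ (L * t) ^ 3 := cV Q
      _ = t * (L * (L * t) ^ 2) := by ring
      _ ≤ t * q := by gcongr
  have n2 : ((P.image f).card : ℝ) ≤ 64 * t ^ 2 := by
    have : ((P.image f).card : ℝ) ≤ 16 * (((Q.card / q : ℕ) : ℝ) + 2) ^ 2 := by exact_mod_cast f1
    calc ((P.image f).card : ℝ) ≤ _ := this
      _ ≤ 16 * (t + t) ^ 2 := by gcongr
      _ = _ := by ring
  have n3 : ((P.image l).card : ℝ) ≤ 65 * t ^ 2 := by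
    have k : ((m : ℝ) + 1) * (P.image l).card ≤ (m + 1) * (P.image f).card + P.card := by
      exact_mod_cast l1
    have k1 : (P.card : ℝ) ≤ (m + 1) * t ^ 2 := by
      calc (P.card : ℝ) ≤ (L * t) ^ 3 := cV P
        _ = L ^ 2 * (L * t) * t ^ 2 := by ring
        _ ≤ (m + 1) * t ^ 2 := by gcongr; linarith
    have k2 : ((m : ℝ) + 1) * (P.image f).card ≤ (m + 1) * (64 * t ^ 2) := by gcongr
    refine le_of_mul_le_mul_left (a := (m : ℝ) + 1) ?_ (by positivity)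
    linarith
  obtain ⟨G, B, g1, g2⟩ := reg_four E P Q l (4 * q) fun a ha => by
    refine le_trans (card_le_card fun b hb => ?_) (f2 (f a))
    obtain ⟨b1, a', b2, b3, b4⟩ := mem_filter.1 hb
    refine mem_filter.2 ⟨b1, a', b2, l3 _ b2 _ ha b3, ?_, b4⟩
    have k1 : (nb E Q a').card ≤ (nb E univ a').card :=
      card_le_card (filter_subset_filter _ (subset_univ _))
    have k2 := low a' (mem_filter.1 b2).2.1
    have k3 : K * (L * t) ≤ L * (L * t) ^ 2 := by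
      calc K * (L * t) ≤ (L * t) * (L * t) := by gcongr; linarith
        _ = 1 * (L * t) ^ 2 := by ring
        _ ≤ _ := by gcongr
    have k4 : ((nb E Q a').card : ℝ) ≤ (nb E univ a').card := by exact_mod_cast k1
    exact_mod_cast k4.trans (k2.trans (k3.trans q1))
  have KK : ∀ x : ℝ, 0 ≤ x → K * x ≤ (K + 3 * L ^ 2 + 66) * x := fun x hx => by gcongr; linarith
  refine ⟨G, B, fun a => if a ∈ P then l a else 0, ?_, ?_, fun a => ?_, fun p c h => ?_,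
    fun p c h => ?_, fun p c h => ?_⟩
  · have k1 : (ed E P Q : ℝ) ≤ ed G P Q + 3 * (4 * q * (P.image l).card) := by exact_mod_cast g1
    have k2 : (ed E univ univ : ℝ) ≤ 2 * ed E P Q + 2 * ed E univ D := by exact_mod_cast h2
    have k3 : (ed G P Q : ℝ) ≤ ed G univ univ := by
      rw [reg_ed, reg_ed]
      exact_mod_cast card_le_card fun x hx =>
        reg_memP.2 ⟨mem_univ _, mem_univ _, (reg_memP.1 hx).2.2⟩
    have k4 : 3 * (4 * (q : ℝ) * (P.image l).card) ≤ c * (L * t) ^ 4 / 8 := by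
      calc 3 * (4 * (q : ℝ) * (P.image l).card) ≤ 3 * (4 * (2 * (L * (L * t) ^ 2)) * (65 * t ^ 2)) := by
            gcongr
        _ = 12480 * (L ^ 3 * t ^ 4) / 8 := by ring
        _ ≤ c * L * (L ^ 3 * t ^ 4) / 8 := by gcongr
        _ = _ := by ring
    linarith
  · have k1 : (univ.image fun a => if a ∈ P then l a else 0) ⊆ insert 0 (P.image l) := by
      intro i hi
      obtain ⟨a, -, rfl⟩ := mem_image.1 hi
      by_cases h : a ∈ P
      · rw [if_pos h]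
        exact mem_insert_of_mem (mem_image_of_mem _ h)
      · rw [if_neg h]
        exact mem_insert_self _ _
    have k2 : ((univ.image fun a => if a ∈ P then l a else 0).card : ℝ) ≤ (P.image l).card + 1 := by
      exact_mod_cast (card_le_card k1).trans (card_insert_le _ _)
    have k3 : t ^ 2 ≤ (L * t) ^ 2 := by
      rw [mul_pow]
      nlinarith
    have k4 : 1 ≤ (L * t) ^ 2 := one_le_pow₀ r1
    have k5 : 66 * (L * t) ^ 2 ≤ (K + 3 * L ^ 2 + 66) * (L * t) ^ 2 := by gcongr; linarith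
    linarith
  · have k5 : 3 * (L ^ 2 * (L * t)) ≤ (K + 3 * L ^ 2 + 66) * (L * t) := by
      rw [← mul_assoc]
      gcongr
      linarith
    refine le_trans ?_ (m2.trans k5)
    rcases (univ.filter fun p => (∃ c, G p c) ∧ (if p ∈ P then l p else 0) =
      if a ∈ P then l a else 0).eq_empty_or_nonempty with h | ⟨p, hp⟩
    · rw [h, card_empty, Nat.cast_zero]
      positivity
    obtain ⟨⟨c, hc⟩, e⟩ := (mem_filter.1 hp).2
    have pP := (g2 _ _ hc).1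
    rw [if_pos pP] at e
    refine le_trans ?_ (show ((fib P l p).card : ℝ) ≤ m + 1 by exact_mod_cast l2 p pP)
    refine Nat.cast_le.2 (card_le_card fun p' hp' => ?_)
    obtain ⟨⟨c', hc'⟩, e'⟩ := (mem_filter.1 hp').2
    have pP' := (g2 _ _ hc').1
    rw [if_pos pP'] at e'
    exact reg_fib.2 ⟨pP', e'.trans e.symm⟩
  · obtain ⟨k1, k2, k3, -⟩ := g2 p c h
    exact ⟨(mem_filter.1 k1).2.2, (mem_filter.1 k2).2.2, k3⟩
  · obtain ⟨k1, k2, -⟩ := g2 p c h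
    exact ⟨(low _ (mem_filter.1 k1).2.1).trans (KK _ (by linarith)),
      (low _ (mem_filter.1 k2).2.1).trans (KK _ (by linarith))⟩
  · obtain ⟨k1, -, -, k2, k3, k4⟩ := g2 p c h
    refine ⟨k2, k3, fun p' hp' => ?_⟩
    obtain ⟨j1, j2, j3⟩ := k4 p' hp'
    exact ⟨j1, j2, by rw [if_pos k1, if_pos (g2 _ _ j1).1, j3]⟩

end
end Pool.Agent.Lib.MP_439fea_co.Ud
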