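import Pool.Agent.Lib.MP_439fea_co.Ud.Defs
import Pool.Agent.Lib.MP_439fea_co.Z.PSt

/-! Assembly of the rigidity statement. -/

namespace Pool.Agent.Lib.MP_439fea_co.Ud
open Finset Pool.Agent.Lib.MP_439fea_co.Z
open scoped Classical
noncomputable section

theorem stS : StS := st_of_pl

theorem men_map {K O : Type} [Field K] [Field O] (φ : K →+* O) (a b c d e f : K) :
    φ (men a b c d e f) = men (φ a) (φ b) (φ c) (φ d) (φ e) (φ f) := by
  simp [men]

theorem NA.sub_le {K : Type} [Field K] {v : AbsoluteValue K ℝ} (h : NA v) {x y a : K} {R : ℝ}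
    (hx : v (x - a) ≤ R) (hy : v (y - a) ≤ R) : v (x - y) ≤ R := by
  have h1 := h.add (x - a) (-(y - a))
  rw [v.map_neg, show x - a + -(y - a) = x - y by ring] at h1
  exact h1.trans (max_le hx hy)

theorem exists_cherry {V : Type} [Fintype V] {E : V → V → Prop} {pt : V → Prop}
    {bl : V → V → Finset V} {C κ K d : ℝ} (h : Hst E C κ K d) (hκ : 0 < κ) (hb : Blk E pt bl) :
    ∃ p p' q, pt p ∧ p ≠ p' ∧ E p q ∧ E p' q := by
  have h0 : (0 : ℝ) < Fintype.card V := h.hd ▸ pow_pos h.dpos 3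
  obtain ⟨a⟩ : Nonempty V := Fintype.card_pos_iff.1 (by exact_mod_cast h0)
  have h1 : (0 : ℝ) < (nb E univ a).card := (mul_pos hκ h.dpos).trans_le (h.lo a)
  obtain ⟨b, hb1⟩ := card_pos.1 (show 0 < (nb E univ a).card by exact_mod_cast h1)
  have hab := (mem_nb.1 hb1).2
  obtain ⟨p, q, hp, hpq⟩ : ∃ p q, pt p ∧ E p q := by
    by_cases ha : pt a
    · exact ⟨a, b, ha, hab⟩
    · exact ⟨b, a, (hb.bip b a (h.symm _ _ hab)).2 ha, h.symm _ _ hab⟩
  obtain ⟨p', hp', hne⟩ := exists_mem_ne (s := bl q p) (by rw [hb.card p q hp hpq]; norm_num) p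
  exact ⟨p, p', q, hp, hne.symm, hpq, (hb.adj p q hp hpq p' hp').1⟩

theorem rigS (Q : ∀ (K : Type) [Field K], AbsoluteValue K ℝ → Prop) (h1 : StS) (h2 : RegS)
    (h3 : PatS) (h4 : PlcS Q) (h5 : BoxS Q) (h6 : AccS) : RigS := by
  intro c hc
  obtain ⟨C, hC, hst⟩ := h1
  obtain ⟨κ, K, hκ, hK, ρ1, hreg⟩ := h2 C c hC hc
  obtain ⟨K', hK', d1, hpat⟩ := h3 C κ K hC hκ hK
  obtain ⟨ε, hε, d2, hacc⟩ := h6 C κ K K' hC hκ hK hK'
  obtain ⟨d3, hbox⟩ := h5 C κ K ε hC hκ hK hε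
  refine ⟨max ρ1 (max d1 (max d2 d3) / κ), fun V _ E pt ρ hρ hpl hbip hcard hed => ?_⟩
  obtain ⟨S, H, bl, lab, d, hd, hsub, hH, hB, hCe⟩ :=
    hreg V E pt ρ ((le_max_left _ _).trans hρ) hpl (hst V E hpl) hbip hcard hed
  have hd' : max d1 (max d2 d3) ≤ d := by
    have := (div_le_iff₀ hκ).1 ((le_max_right _ _).trans hρ)
    linarith
  have hR := hpat S H _ bl lab d ((le_max_left _ _).trans hd') hH hB hCe
  obtain ⟨p, p', q, hp, hne, e1, e2⟩ := exists_cherry hH hκ hB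
  refine ⟨p, p', q, hp, fun e => hne (Subtype.ext e), hsub _ _ e1, hsub _ _ e2, ?_⟩
  intro O _ _ z w hre hstar
  by_contra htr
  obtain ⟨L, _, _, φ, P, hQ, hmem, r, i0, hr, hbig⟩ := h4 O
    ((univ.image z ∪ univ.image w) ∪ (univ.image (fun e : V × V => (z e.1 - z e.2)⁻¹) ∪
      univ.image (fun e : V × V => (w e.1 - w e.2)⁻¹))) _ htr
  have hz : ∀ x : V, ∃ a ∈ P.A, φ a = z x := fun x => hmem _ (by simp)
  have hw : ∀ x : V, ∃ a ∈ P.A, φ a = w x := fun x => hmem _ (by simp)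
  choose Z hZA hZ using hz
  choose W hWA hW using hw
  have hinj := φ.injective
  have hasZ : P.Has (fun x : S => Z x) := fun a b => by
    refine ⟨P.A.sub_mem (hZA _) (hZA _), ?_⟩
    obtain ⟨u, hu, hu'⟩ := hmem ((z a - z b)⁻¹) (mem_union_right _ (mem_union_left _
      (mem_image.2 ⟨(a, b), mem_univ _, rfl⟩)))
    have : u = (Z a - Z b)⁻¹ := hinj (by rw [hu', map_inv₀, map_sub, hZ, hZ])
    exact this ▸ hu
  have hasW : P.Has (fun x : S => W x) := fun a b => by
    refine ⟨P.A.sub_mem (hWA _) (hWA _), ?_⟩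
    obtain ⟨u, hu, hu'⟩ := hmem ((w a - w b)⁻¹) (mem_union_right _ (mem_union_right _
      (mem_image.2 ⟨(a, b), mem_univ _, rfl⟩)))
    have : u = (W a - W b)⁻¹ := hinj (by rw [hu', map_inv₀, map_sub, hW, hW])
    exact this ▸ hu
  have hre' : Re H (fun x : S => Z x) (fun x : S => W x) := by
    refine ⟨fun a b e => Subtype.ext (hre.zinj ?_), fun a b e => Subtype.ext (hre.winj ?_),
      fun a b e => hinj ?_⟩
    · rw [← hZ, ← hZ]; exact congrArg φ e
    · rw [← hW, ← hW]; exact congrArg φ e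
    · rw [map_mul, map_sub, map_sub, hZ, hZ, hW, hW, map_one]; exact hre.adj _ _ (hsub _ _ e)
  have hstar' : Star (fun x : S => Z x) (fun x : S => W x) := fun a b c d e f => by
    rw [← map_eq_zero_iff φ hinj, ← map_eq_zero_iff φ hinj (x := men (W a) _ _ _ _ _),
      men_map, men_map]
    simp only [hZ, hW]
    exact hstar _ _ _ _ _ _
  have hb := fun i => hbox L (P.v i) S H d (fun x : S => Z x) (fun x : S => W x)
    ((le_max_right _ _).trans ((le_max_right _ _).trans hd')) (P.na i) (hQ i) hH hre'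
  choose a b R T hRp hTp hRT hfew using hb
  let F : Frame L S := ⟨P, fun x => Z x, fun x => W x, hasZ, hasW, a, b, R, T, hRp, hTp, hRT⟩
  have key : ∀ i x, F.Ef i x = 0 ↔ P.v i (Z x - a i) ≤ R i ∧ P.v i (W x - b i) ≤ T i := by
    intro i x
    have g1 : 0 ≤ P.v i (Z x - a i) / R i := div_nonneg ((P.v i).nonneg _) (hRp i).le
    have g2 : 0 ≤ P.v i (W x - b i) / T i := div_nonneg ((P.v i).nonneg _) (hTp i).le
    change Real.posLog (P.v i (Z x - a i) / R i) + Real.posLog (P.v i (W x - b i) / T i) = 0 ↔ _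
    rw [add_eq_zero_iff_of_nonneg Real.posLog_nonneg Real.posLog_nonneg, Real.posLog_eq_zero_iff,
      Real.posLog_eq_zero_iff, abs_of_nonneg g1, abs_of_nonneg g2, div_le_one (hRp i),
      div_le_one (hTp i)]
  have h0 := hacc L S F H _ bl d ((le_max_left _ _).trans ((le_max_right _ _).trans hd')) hH hB hR
    hre' hstar' (fun i => by
      refine le_trans (Nat.cast_le.2 (card_le_card fun x hx => ?_)) (hfew i)
      rw [mem_filter] at hx ⊢
      refine ⟨hx.1, ?_⟩
      by_contra hn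
      rw [not_or, not_lt, not_lt] at hn
      exact hx.2 ((key i x).2 hn))
  have h00 : ∀ x, F.Ef i0 x = 0 := fun x =>
    (sum_eq_zero_iff_of_nonneg fun i _ => add_nonneg Real.posLog_nonneg Real.posLog_nonneg).1
      (h0 x) i0 (mem_univ _)
  have k1 := (key i0 p).1 (h00 p)
  have k2 := (key i0 p').1 (h00 p')
  have hr' : r = (Z p - Z p') * (W p - W p') := hinj (by
    rw [hr, map_mul, map_sub, map_sub, hZ, hZ, hW, hW])
  rw [hr', map_mul] at hbig
  have := mul_le_mul ((P.na i0).sub_le k1.1 k2.1) ((P.na i0).sub_le k1.2 k2.2)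
    ((P.v i0).nonneg _) (hRp i0).le
  rw [hRT] at this
  linarith

end
end Pool.Agent.Lib.MP_439fea_co.Ud
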