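import Pool.Agent.Lib.MP_439fea_co.Ud.TwoDefs
import Pool.Agent.Lib.MP_439fea_co.Z.PCons

/-! Slopes of chords: reduction of the two-dimensional lemma to its combinatorial core. -/

namespace Pool.Agent.Lib.MP_439fea_co.Ud
open Finset Pool.Agent.Lib.MP_439fea_co.Z
open scoped Classical
noncomputable section

variable {K : Type} [Field K] {v : AbsoluteValue K ℝ}

theorem twa_sub (hv : NA v) (a b : K) : v (a - b) ≤ max (v a) (v b) := by
  have := hv.add a (-b)
  rwa [← sub_eq_add_neg, v.map_neg] at this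

theorem twa_one_le (hv : NA v) {a e : K} (ha : 1 ≤ v a) (he : v e < 1) : 1 ≤ v (a + e) := by
  have h1 := twa_sub hv (a + e) e
  rw [add_sub_cancel_right] at h1
  by_contra h2
  exact absurd (ha.trans h1) (not_le.2 (max_lt (not_le.1 h2) he))

theorem twa_mul (hv : NA v) {s t : K} (hs : v (s - 1) < 1) (ht : v (t - 1) < 1) :
    v (s * t - 1) < 1 := by
  have h1 : s * t - 1 = (s - 1) * (t - 1) + ((s - 1) + (t - 1)) := by ring
  rw [h1]
  refine (hv.add _ _).trans_lt (max_lt ?_ ((hv.add _ _).trans_lt (max_lt hs ht)))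
  rw [v.map_mul]
  exact mul_lt_one_of_nonneg_of_lt_one_left (v.nonneg _) hs ht.le

theorem twa_div {a b : K} (hb : 1 ≤ v b) (h : v (a - b) < 1) : v (a / b - 1) < 1 := by
  have hb0 : b ≠ 0 := fun h0 => by
    rw [h0, v.map_zero] at hb
    linarith
  have h1 : a / b - 1 = (a - b) / b := by field_simp
  rw [h1, map_div₀, div_lt_one (by linarith)]
  linarith

theorem twa_near {t b : K} (ht : v (t - 1) < 1) : Near v (t * b) b := by
  by_cases hb : b = 0
  · left
    rw [hb, mul_zero]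
  · right
    have h1 : t * b - b = (t - 1) * b := by ring
    rw [h1, v.map_mul]
    exact mul_lt_of_lt_one_left (v.pos hb) ht

theorem twa_col (hv : NA v) : ∃ col : K → Prop,
    ∀ a b, 1 ≤ v a → (col a ↔ col b) → 1 ≤ v (a + b) := by
  obtain ⟨r, hr⟩ := exists_wellFoundedLT (Set K)
  let cls : K → Set K := fun a => {t | v (t - a) < 1}
  have hcls : ∀ a b, v (a - b) < 1 → cls a = cls b := by
    intro a b hab
    ext t
    simp only [cls, Set.mem_ofPred_eq]
    constructor
    · intro h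
      have := hv.add (t - a) (a - b)
      rw [sub_add_sub_cancel] at this
      exact this.trans_lt (max_lt h hab)
    · intro h
      have := twa_sub hv (t - b) (a - b)
      rw [sub_sub_sub_cancel_right] at this
      exact this.trans_lt (max_lt h hab)
  refine ⟨fun a => r.lt (cls a) (cls (-a)), fun a b ha hab => ?_⟩
  by_contra h
  have h1 := not_le.1 h
  have h2 : cls b = cls (-a) := hcls _ _ (by rwa [sub_neg_eq_add, add_comm])
  have h3 : cls a = cls (-b) := hcls _ _ (by rwa [sub_neg_eq_add])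
  simp only [h2, ← h3] at hab
  have h4 : cls a = cls (-a) := by
    rcases @lt_trichotomy _ r (cls a) (cls (-a)) with h5 | h5 | h5
    · exact absurd (hab.1 h5) (@lt_asymm _ r.toPartialOrder.toPreorder _ _ h5)
    · exact h5
    · exact absurd (hab.2 h5) (@lt_asymm _ r.toPartialOrder.toPreorder _ _ h5)
  have h5 : a ∈ cls a := by simp [cls]
  rw [h4] at h5
  have h6 : v (a - -a) < 1 := h5
  have h7 : a - -a = ((2 : ℕ) : K) * a := by push_cast; ring
  rw [h7, v.map_mul, hv.nat 2 (by norm_num), one_mul] at h6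
  linarith

theorem twa_ne {a : K} (ha : 1 ≤ v a) : a ≠ 0 := fun h0 => by
  rw [h0, v.map_zero] at ha
  linarith

theorem twa_slope (hv : NA v) {x s s' p q : K} (hs : v (s - x) < 1) (hs' : v (s' - x) < 1)
    (hp : 1 ≤ v (x - p)) (hq : 1 ≤ v (x - q)) (hpq : 1 ≤ v ((x - p) + (x - q))) :
    Near v (((s - p)⁻¹ - (s - q)⁻¹) - ((s' - p)⁻¹ - (s' - q)⁻¹))
      ((-((x - p)⁻¹) ^ 2 - -((x - q)⁻¹) ^ 2) * (s - s')) := by
  have key : ∀ {y r : K}, v (y - x) < 1 → 1 ≤ v (x - r) → 1 ≤ v (y - r) := by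
    intro y r hy hr
    have := twa_one_le hv hr hy
    rwa [sub_add_sub_cancel'] at this
  have one : ∀ {y r : K}, v (y - x) < 1 → 1 ≤ v (x - r) → v ((x - r) / (y - r) - 1) < 1 := by
    intro y r hy hr
    refine twa_div (key hy hr) ?_
    rwa [sub_sub_sub_cancel_right, v.map_sub]
  have h5 : v (((s - p) + (s' - q)) / ((x - p) + (x - q)) - 1) < 1 := by
    refine twa_div hpq ?_
    have h6 : (s - p) + (s' - q) - ((x - p) + (x - q)) = (s - x) + (s' - x) := by ring
    rw [h6]
    exact (hv.add _ _).trans_lt (max_lt hs hs')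
  have h6 := twa_mul hv (twa_mul hv (twa_mul hv (twa_mul hv h5 (one hs hp)) (one hs' hp))
    (one hs hq)) (one hs' hq)
  have h7 := twa_near (b := (-((x - p)⁻¹) ^ 2 - -((x - q)⁻¹) ^ 2) * (s - s')) h6
  refine Eq.subst (motive := fun t => Near v t _) (Eq.symm ?_) h7
  have n1 := twa_ne (key hs hp)
  have n2 := twa_ne (key hs' hp)
  have n3 := twa_ne (key hs hq)
  have n4 := twa_ne (key hs' hq)
  have n5 := twa_ne hp
  have n6 := twa_ne hq
  have n7 := twa_ne hpq
  field_simp
  ring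

theorem two_of_core (h : CoreS) : TwoDS QT := by
  intro C c hC hc
  obtain ⟨ρ0, hcore⟩ := h C (c / 2) hC (half_pos hc)
  refine ⟨max ρ0 1, fun K _ _ v V _ E ρ X z w hρ hv _ hamb hR hX hrow hA hB => ?_⟩
  have hρ0 : 0 < ρ := lt_of_lt_of_le one_pos ((le_max_right _ _).trans hρ)
  have hne : X.Nonempty := by
    rw [← card_pos]
    have : (0 : ℝ) < X.card := lt_of_lt_of_le (by positivity) hX
    exact_mod_cast this
  obtain ⟨x0, hx0⟩ := hne
  obtain ⟨col, hcol⟩ := twa_col hv
  have hinv : ∀ a y, E a y → z a - z y = (w a - w y)⁻¹ := fun a y hay =>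
    eq_inv_of_mul_eq_one_left (hR.adj a y hay)
  have main : ∀ (Y X1 : Finset V), X1 ⊆ X → c / 2 * ρ ^ 3 ≤ X1.card →
      (∀ a ∈ X1, c / 2 * ρ ≤ (nb E Y a).card) → (∀ y ∈ Y, 1 ≤ v (w x0 - w y)) →
      (∀ y ∈ Y, ∀ y' ∈ Y, col (w x0 - w y) ↔ col (w x0 - w y')) → False := by
    intro Y X1 hX1 hc1 hdeg hY hYc
    have hsum : ∀ y ∈ Y, ∀ y' ∈ Y, 1 ≤ v ((w x0 - w y) + (w x0 - w y')) := fun y hy y' hy' =>
      hcol _ _ (hY y hy) (hYc y hy y' hy')
    refine hcore K v V E (fun x y => E x y ∧ 1 < v (z x - z y)) ρ X1 Y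
      (fun y1 a => z a - (w a - w y1)⁻¹) w (fun y => -((w x0 - w y)⁻¹) ^ 2)
      ((le_max_left _ _).trans hρ) hv hamb hc1 hR.winj ?_ hdeg
      ⟨fun _ _ hab => hab.1, fun a ha => le_trans ?_ (hB a (hX1 ha))⟩ ?_ ?_ ?_ ?_
    · exact disjoint_left.2 fun y hy hy' => absurd (hY y hy') (not_le.2 (hrow _ hx0 _ (hX1 hy)))
    · nlinarith [mul_pos hc hρ0]
    · intro y hy y' hy'
      have h1 : ∀ y ∈ Y, v (-((w x0 - w y)⁻¹) ^ 2) ≤ 1 := by
        intro y hy
        rw [v.map_neg, map_pow, map_inv₀]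
        exact pow_le_one₀ (inv_nonneg.2 (v.nonneg _)) (inv_le_one_of_one_le₀ (hY y hy))
      exact (twa_sub hv _ _).trans (max_le (h1 y hy) (h1 y' hy'))
    · intro y hy y' hy' hyy
      have h1 : (w x0 - w y) ^ 2 = (w x0 - w y') ^ 2 := by
        have := neg_injective hyy
        rwa [inv_pow, inv_pow, inv_inj] at this
      rcases sq_eq_sq_iff_eq_or_eq_neg.1 h1 with h2 | h2
      · exact hR.winj (sub_right_injective h2)
      · exact absurd (by rw [h2, neg_add_cancel]) (twa_ne (hsum y hy y' hy'))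
    · intro y1 hy1 y hy a ha b hb hay hby
      have h1 := twa_slope hv (hrow a (hX1 ha) x0 hx0) (hrow b (hX1 hb) x0 hx0) (hY y hy)
        (hY y1 hy1) (hsum y hy y1 hy1)
      refine Eq.subst (motive := fun t => Near v t _) (Eq.symm ?_) h1
      rw [← hinv a y hay, ← hinv b y hby]
      ring
    · intro y1 hy1 a ha b hb y hab hay hby
      have hw0 : 0 < v (w a - w b) := v.pos (sub_ne_zero.2 fun h0 => hab (hR.winj h0))
      have h1 : z a - z b = -((w a - w b) * ((z a - z y) * (z b - z y))) := by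
        have e1 := hR.adj a y hay.1
        have e2 := hR.adj b y hby.1
        linear_combination (z b - z y) * e1 - (z a - z y) * e2
      have h2 : v (w a - w b) < v (z a - z b) := by
        rw [h1, v.map_neg, v.map_mul, v.map_mul]
        exact lt_mul_of_one_lt_right hw0 (by nlinarith [hay.2, hby.2])
      have k1 : ∀ a ∈ X1, 1 ≤ v (w a - w y1) := by
        intro a ha
        have := twa_one_le hv (hY y1 hy1) (hrow a (hX1 ha) x0 hx0)
        rwa [sub_add_sub_cancel'] at this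
      have h3 : v ((w a - w y1)⁻¹ - (w b - w y1)⁻¹) ≤ v (w a - w b) := by
        have n1 := twa_ne (k1 a ha)
        have n2 := twa_ne (k1 b hb)
        have h4 : (w a - w y1)⁻¹ - (w b - w y1)⁻¹ =
            -((w a - w b) / ((w a - w y1) * (w b - w y1))) := by
          field_simp
          ring
        rw [h4, v.map_neg, map_div₀, v.map_mul]
        exact div_le_self hw0.le (one_le_mul_of_one_le_of_one_le (k1 a ha) (k1 b hb))
      have h4 := hv.add ((z a - (w a - w y1)⁻¹) - (z b - (w b - w y1)⁻¹))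
        ((w a - w y1)⁻¹ - (w b - w y1)⁻¹)
      have h5 : (z a - (w a - w y1)⁻¹) - (z b - (w b - w y1)⁻¹) +
          ((w a - w y1)⁻¹ - (w b - w y1)⁻¹) = z a - z b := by ring
      rw [h5] at h4
      by_contra h6
      exact absurd (h4.trans (max_le (not_lt.1 h6) h3)) (not_le.2 h2)
  set Y1 := univ.filter fun y => 1 ≤ v (w x0 - w y) ∧ col (w x0 - w y) with hY1
  set Y2 := univ.filter fun y => 1 ≤ v (w x0 - w y) ∧ ¬ col (w x0 - w y) with hY2
  have hdeg : ∀ a ∈ X, c * ρ ≤ (nb E Y1 a).card + (nb E Y2 a).card := by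
    intro a ha
    refine (hA a ha).trans ?_
    rw [← Nat.cast_add]
    refine Nat.cast_le.2 (le_trans (card_le_card fun y hy => ?_) (card_union_le _ _))
    obtain ⟨h1, h2⟩ := (mem_nb.1 hy).2
    have h3 : 1 ≤ v (w a - w y) := by
      have h4 : v (z a - z y) * v (w a - w y) = 1 := by rw [← v.map_mul, hR.adj _ _ h1, v.map_one]
      nlinarith [v.nonneg (w a - w y)]
    have h4 : 1 ≤ v (w x0 - w y) := by
      have := twa_one_le hv h3 (hrow x0 hx0 a ha)
      rwa [sub_add_sub_cancel'] at this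
    by_cases h5 : col (w x0 - w y)
    · exact mem_union_left _ (mem_nb.2 ⟨mem_filter.2 ⟨mem_univ _, h4, h5⟩, h1⟩)
    · exact mem_union_right _ (mem_nb.2 ⟨mem_filter.2 ⟨mem_univ _, h4, h5⟩, h1⟩)
  have hsp := card_filter_add_card_filter_not (s := X) fun a => c / 2 * ρ ≤ (nb E Y1 a).card
  have hsp' : ((X.filter fun a => c / 2 * ρ ≤ (nb E Y1 a).card).card : ℝ) +
      (X.filter fun a => ¬ c / 2 * ρ ≤ (nb E Y1 a).card).card = X.card := by exact_mod_cast hsp
  by_cases h1 : c / 2 * ρ ^ 3 ≤ (X.filter fun a => c / 2 * ρ ≤ (nb E Y1 a).card).card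
  · exact main Y1 _ (filter_subset _ _) h1 (fun a ha => (mem_filter.1 ha).2)
      (fun y hy => (mem_filter.1 hy).2.1) fun y hy y' hy' =>
        iff_of_true (mem_filter.1 hy).2.2 (mem_filter.1 hy').2.2
  · refine main Y2 (X.filter fun a => ¬ c / 2 * ρ ≤ (nb E Y1 a).card) (filter_subset _ _)
      (by linarith [not_le.1 h1]) (fun a ha => ?_)
      (fun y hy => (mem_filter.1 hy).2.1) fun y hy y' hy' =>
        iff_of_false (mem_filter.1 hy).2.2 (mem_filter.1 hy').2.2
    have h2 := hdeg a (mem_filter.1 ha).1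
    linarith [not_le.1 (mem_filter.1 ha).2]

end
end Pool.Agent.Lib.MP_439fea_co.Ud
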