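import Pool.Agent.Lib.MP_439fea_co.Ud.TwoDefs
import Pool.Agent.Lib.MP_439fea_co.Z.PCons

namespace Pool.Agent.Lib.MP_439fea_co.Ud
open Finset Pool.Agent.Lib.MP_439fea_co.Z
open scoped Classical

theorem tw_img_le {V Λ Λ' : Type} [DecidableEq Λ] [DecidableEq Λ'] (S : Finset V) (f : V → Λ)
    (g : V → Λ')
    (h : ∀ a ∈ S, ∀ b ∈ S, g a = g b → f a = f b) : (S.image f).card ≤ (S.image g).card := by
  have : ∀ l ∈ S.image f, ∃ a ∈ S, f a = l := fun l hl => mem_image.1 hl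
  choose! r h1 h2 using fun l : S.image f => this l l.2
  rw [← card_attach]
  refine card_le_card_of_injOn (fun l => g (r l)) (fun l _ => mem_image_of_mem g (h1 l))
    fun l _ l' _ e => Subtype.ext ?_
  rw [← h2 l, ← h2 l']
  exact h _ (h1 l) _ (h1 l') e

theorem tw_img_big {V Λ : Type} {X X' : Finset V} (lab : V → Λ) {t : ℝ}
    (h : ∀ a ∈ X', t ≤ (fib X lab a).card) : ((X'.image lab).card : ℝ) * t ≤ X.card := by
  have h1 := sum_card_fiberwise_eq_card_filter X (X'.image lab) lab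
  have h2 : ((X'.image lab).card : ℝ) * t ≤
      ∑ l ∈ X'.image lab, ((X.filter fun i => lab i = l).card : ℝ) := by
    rw [← nsmul_eq_mul, ← sum_const]
    refine sum_le_sum fun l hl => ?_
    obtain ⟨a, ha, rfl⟩ := mem_image.1 hl
    exact h a ha
  refine h2.trans ?_
  rw [← Nat.cast_sum, h1]
  exact Nat.cast_le.2 (card_filter_le _ _)

theorem Amb.tw_card {V : Type} [Fintype V] {E : V → V → Prop} {C ρ : ℝ} (h : Amb E C ρ)
    (X : Finset V) : (X.card : ℝ) ≤ ρ ^ 3 := (Nat.cast_le.2 (card_le_univ X)).trans h.card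

theorem tw_heavy {V Λ : Type} [i : DecidableEq Λ] {X : Finset V} (lab : V → Λ) {η θ ρ : ℝ}
    (hη : 0 < η) (hρ : 0 < ρ) (hX : (X.card : ℝ) ≤ ρ ^ 3)
    (h : ((X.filter fun a => ((fib X lab a).card : ℝ) ≤ η * ρ ^ 3).card : ℝ) ≤ θ * ρ ^ 3) :
    ∃ X' ⊆ X, (X.card : ℝ) ≤ X'.card + θ * ρ ^ 3 ∧ ((X'.image lab).card : ℝ) ≤ 1 / η := by
  obtain rfl : i = fun a b => Classical.propDecidable (a = b) := Subsingleton.elim _ _
  refine ⟨X.filter fun a => ¬ ((fib X lab a).card : ℝ) ≤ η * ρ ^ 3, filter_subset _ _, ?_, ?_⟩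
  · have := card_filter_add_card_filter_not (s := X)
      fun a => ((fib X lab a).card : ℝ) ≤ η * ρ ^ 3
    rw [← this, Nat.cast_add]
    linarith
  · have := (tw_img_big (X := X) (t := η * ρ ^ 3) lab
      (X' := X.filter fun a => ¬ ((fib X lab a).card : ℝ) ≤ η * ρ ^ 3)
      fun a ha => (not_le.1 (mem_filter.1 ha).2).le).trans hX
    rw [le_div_iff₀ hη]
    exact le_of_mul_le_mul_right (by linarith) (pow_pos hρ 3)

theorem richP (hS : SmallS) : RichP := by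
  intro C θ hC hθ
  obtain ⟨δ, hδ, ρ0, h⟩ := hS C (θ / 2) hC (by positivity)
  refine ⟨δ, hδ, max ρ0 1, fun V _ E ρ X f hρ hA hf hs => le_of_not_gt fun hlt => ?_⟩
  have hρ1 : 0 < ρ := lt_of_lt_of_le one_pos ((le_max_right _ _).trans hρ)
  have h1 := (h V E ρ _ ((le_max_left _ _).trans hρ) hA hlt.le).1
  have h2 : ∑ x ∈ X.filter fun x => θ * ρ ≤ f x, f x ≤
      (ed E (X.filter fun x => θ * ρ ≤ f x) univ : ℝ) := by
    rw [ed, Nat.cast_sum]
    exact sum_le_sum fun x hx => hf x (mem_filter.1 hx).1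
  have h3 : ∑ x ∈ X.filter fun x => ¬ θ * ρ ≤ f x, f x ≤ ρ ^ 3 * (θ * ρ) := by
    refine (sum_le_card_nsmul _ _ (θ * ρ) fun x hx => (not_le.1 (mem_filter.1 hx).2).le).trans ?_
    rw [nsmul_eq_mul]
    exact mul_le_mul_of_nonneg_right (hA.tw_card _) (by positivity)
  rw [← sum_filter_add_sum_filter_not X fun x => θ * ρ ≤ f x] at hs
  nlinarith [mul_pos hθ (pow_pos hρ1 4)]

theorem fewS (h0 : E0S) : FewS := by
  intro C c J θ hC hc hJ hθ
  obtain ⟨η, hη, ρ0, h⟩ := h0 C J (θ * c) hC hJ (by positivity)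
  refine ⟨1 / η, by positivity, max ρ0 1, fun V _ E A ρ X Λ Λ' lab lab' hρ hA hF hI hl => ?_⟩
  have hρ1 : 0 < ρ := lt_of_lt_of_le one_pos ((le_max_right _ _).trans hρ)
  refine tw_heavy lab' hη hρ1 (hA.tw_card X) ?_
  have h1 := h V E A ρ X Λ' lab' ((le_max_left _ _).trans hρ) hA hF.sub fun y =>
    le_trans (Nat.cast_le.2 ((tw_img_le _ lab' lab fun a ha b hb =>
      hl a (mem_filter.1 ha).1 b (mem_filter.1 hb).1 y (mem_filter.1 ha).2
        (mem_filter.1 hb).2).trans (card_le_card (image_subset_image (filter_subset _ _))))) hI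
  have h2 := (card_mul_le_ed _ univ fun a ha => hF.deg a (mem_filter.1 ha).1).trans h1
  exact le_of_mul_le_mul_left (h2.trans (le_of_eq (by ring))) (mul_pos hc hρ1)

theorem partS (hL : LemLS) : PartS := by
  intro C c η θ hC hc hη hθ
  obtain ⟨η', hη', ρ0, h⟩ := hL C c η θ hC hc hη hθ
  refine ⟨1 / η', by positivity, max ρ0 1,
    fun V _ E H A ρ X d1 d2 hρ hA u1 u2 hs f1 f2 a1 a2 => ?_⟩
  obtain ⟨lab, h1, h2, h3⟩ :=
    h V E H A ρ X d1 d2 ((le_max_left _ _).trans hρ) hA u1 u2 hs f1 f2 a1 a2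
  obtain ⟨X', h4, h5, h6⟩ := tw_heavy lab hη'
    (lt_of_lt_of_le one_pos ((le_max_right _ _).trans hρ)) (hA.tw_card X) h3
  exact ⟨lab, X', h4, h1, h2, h5, h6⟩

theorem clsS (h0 : E0S) : ClsS := by
  intro C c hC hc
  obtain ⟨η, hη, ρ0, h⟩ := h0 C 1 (c ^ 2 / 2) hC one_pos (by positivity)
  refine ⟨η, hη, fun J hJ => ⟨c ^ 2 / (4 * J ^ 2), by positivity, max ρ0 1,
    fun V _ E A ρ X Λ Λ' Γ lab lab' cl hρ hA hX hF hf hI hd => ?_⟩⟩
  have hρ1 : 0 < ρ := lt_of_lt_of_le one_pos ((le_max_right _ _).trans hρ)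
  let bad : V → Prop := fun y => ∀ a ∈ X, ∀ b ∈ X, A a y → A b y → lab a = lab b
  have h1 := h V E (fun a y => A a y ∧ bad y) ρ X Λ lab ((le_max_left _ _).trans hρ) hA
    (fun a b e => hF.sub a b e.1) fun y => by
      rw [← Nat.cast_one, Nat.cast_le]
      refine card_le_one.2 fun l hl l' hl' => ?_
      obtain ⟨a, ha, rfl⟩ := mem_image.1 hl
      obtain ⟨b, hb, rfl⟩ := mem_image.1 hl'
      simp only [mem_filter] at ha hb
      exact ha.2.2 a ha.1 b hb.1 ha.2.1 hb.2.1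
  rw [filter_true_of_mem hf] at h1
  let G : Finset V := univ.filter fun y => ¬ bad y
  have hG : ∀ y ∈ G, ∃ a b, a ∈ X ∧ b ∈ X ∧ A a y ∧ A b y ∧ lab a ≠ lab b := fun y hy => by
    by_contra hn
    exact (mem_filter.1 hy).2 fun a ha b hb e1 e2 =>
      by_contra fun e => hn ⟨a, b, ha, hb, e1, e2, e⟩
  choose! p q hp hq e1 e2 e3 using hG
  have h2 : ((G.image cl).card : ℝ) ≤ J ^ 2 := by
    have h3 := tw_img_le G cl (fun y => (lab' (p y), lab' (q y))) fun y hy y' hy' e =>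
      hd _ (hp y hy) _ (hq y hy) _ (hp y' hy') _ (hq y' hy') y y' (e1 y hy) (e2 y hy) (e1 y' hy')
        (e2 y' hy') (e3 y hy) (e3 y' hy') (Prod.ext_iff.1 e).1 (Prod.ext_iff.1 e).2
    have h4 : (G.image fun y => (lab' (p y), lab' (q y))) ⊆ X.image lab' ×ˢ X.image lab' :=
      image_subset_iff.2 fun y hy =>
        mem_product.2 ⟨mem_image_of_mem _ (hp y hy), mem_image_of_mem _ (hq y hy)⟩
    have h5 := Nat.cast_le (α := ℝ).2 (h3.trans (card_le_card h4))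
    rw [card_product, Nat.cast_mul] at h5
    exact h5.trans (by nlinarith [Nat.cast_nonneg (α := ℝ) (X.image lab').card])
  have h6 : ed A X univ ≤ ed (fun a y => A a y ∧ bad y) X univ +
      ∑ γ ∈ G.image cl, ed (fun x y => A x y ∧ cl y = γ) X univ := by
    simp only [ed]
    rw [sum_comm, ← sum_add_distrib]
    refine sum_le_sum fun a _ => le_trans (card_le_card (t := nb (fun a y => A a y ∧ bad y) univ a ∪
      (G.image cl).biUnion fun γ => nb (fun x y => A x y ∧ cl y = γ) univ a) fun y hy => ?_)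
      ((card_union_le _ _).trans (Nat.add_le_add_left card_biUnion_le _))
    have := (mem_nb.1 hy).2
    by_cases hb : bad y
    · exact mem_union_left _ (mem_nb.2 ⟨mem_univ _, this, hb⟩)
    · exact mem_union_right _ (mem_biUnion.2 ⟨cl y, mem_image_of_mem _
        (mem_filter.2 ⟨mem_univ _, hb⟩), mem_nb.2 ⟨mem_univ _, this, rfl⟩⟩)
  by_contra hn
  have h7 : ∑ γ ∈ G.image cl, (ed (fun x y => A x y ∧ cl y = γ) X univ : ℝ) ≤
      J ^ 2 * (c ^ 2 / (4 * J ^ 2) * ρ ^ 4) := by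
    refine (sum_le_card_nsmul _ _ (c ^ 2 / (4 * J ^ 2) * ρ ^ 4) fun γ hγ => ?_).trans ?_
    · obtain ⟨y, hy, rfl⟩ := mem_image.1 hγ
      exact le_of_not_ge fun e => hn ⟨p y, hp y hy, y, e1 y hy, e⟩
    · rw [nsmul_eq_mul]
      exact mul_le_mul_of_nonneg_right h2 (by positivity)
  have h8 := card_mul_le_ed X univ hF.deg
  have h9 := Nat.cast_le (α := ℝ).2 h6
  rw [Nat.cast_add, Nat.cast_sum] at h9
  have h10 : J ^ 2 * (c ^ 2 / (4 * J ^ 2) * ρ ^ 4) = c ^ 2 / 4 * ρ ^ 4 := by field_simp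
  nlinarith [mul_le_mul_of_nonneg_left hX (mul_pos hc hρ1).le,
    mul_pos (pow_pos hc 2) (pow_pos hρ1 4)]

end Pool.Agent.Lib.MP_439fea_co.Ud
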