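import Pool.Agent.Lib.MP_439fea_co.Ud.TwoB

namespace Pool.Agent.Lib.MP_439fea_co.Ud
open Finset Pool.Agent.Lib.MP_439fea_co.Z
open scoped Classical

section
variable {K : Type} [Field K] {v : AbsoluteValue K ℝ}

theorem NA.tw_add (h : NA v) {x y : K} {t : ℝ} (hx : v x < t) (hy : v y < t) : v (x + y) < t :=
  (h.add x y).trans_lt (max_lt hx hy)

theorem NA.tw_sub (h : NA v) {x y : K} {t : ℝ} (hx : v x < t) (hy : v y < t) : v (x - y) < t := by
  rw [sub_eq_add_neg]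
  exact h.tw_add hx (by rwa [v.map_neg])

theorem NA.tw_tri (h : NA v) (x y z : K) : v (x - z) ≤ max (v (x - y)) (v (y - z)) := by
  rw [← sub_add_sub_cancel x y z]
  exact h.add _ _

theorem NA.tw_pum (h : NA v) {V : Type} (f : V → K) {s : ℝ} (hs : 0 ≤ s) :
    PUM fun a b => s * v (f a - f b) where
  nonneg a b := mul_nonneg hs (v.nonneg _)
  refl a := by simp
  symm a b := by rw [v.map_sub]
  ultra a b c := by
    rw [← mul_max_of_nonneg _ _ hs]
    exact mul_le_mul_of_nonneg_left (h.tw_tri _ _ _) hs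

theorem Near.tw_le (h : NA v) {a b : K} (e : Near v a b) : v a ≤ v b := by
  rcases e with rfl | e
  · exact le_rfl
  · have := h.add (a - b) b
    rw [sub_add_cancel] at this
    exact this.trans (max_le e.le le_rfl)

theorem Near.tw_lt {a b : K} (e : Near v a b) {t : ℝ} (ht : 0 < t) (hb : v b ≤ t) :
    v (a - b) < t := by
  rcases e with rfl | e
  · simpa using ht
  · exact e.trans_le hb

theorem tw_det (h : NA v) {s : ℝ} (hs : 0 < s) {wa wb wa' wb' za zb za' zb' σ σ' : K}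
    (h1 : v σ ≤ s) (h2 : v σ' ≤ s) (n1 : Near v (za - zb) (σ * (wa - wb)))
    (n2 : Near v (za' - zb') (σ' * (wa' - wb')))
    (c1 : max (s * v (wa - wa')) (1 * v (za - za')) < max (s * v (wa - wb)) (1 * v (za - zb)))
    (c2 : max (s * v (wb - wb')) (1 * v (zb - zb')) < max (s * v (wb - wa)) (1 * v (zb - za))) :
    v (σ - σ') < s := by
  have m1 : v (σ * (wa - wb)) ≤ s * v (wa - wb) := by
    rw [v.map_mul]; exact mul_le_mul_of_nonneg_right h1 (v.nonneg _)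
  rw [v.map_sub wb wa, v.map_sub zb za] at c2
  simp only [one_mul] at c1 c2
  rw [max_eq_left ((n1.tw_le h).trans m1), max_lt_iff] at c1 c2
  have hp : 0 < s * v (wa - wb) := (v.nonneg _).trans_lt c1.2
  have e1 : v (wa - wa' - (wb - wb')) < v (wa - wb) :=
    h.tw_sub (lt_of_mul_lt_mul_left c1.1 hs.le) (lt_of_mul_lt_mul_left c2.1 hs.le)
  have e2 : v (wa' - wb') ≤ v (wa - wb) := by
    have := h.add (wa - wb) (-(wa - wa' - (wb - wb')))
    rw [v.map_neg, show wa - wb + -(wa - wa' - (wb - wb')) = wa' - wb' by ring] at this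
    exact this.trans (max_le le_rfl e1.le)
  have m2 : v (σ' * (wa' - wb')) ≤ s * v (wa - wb) := by
    rw [v.map_mul]; exact mul_le_mul h2 e2 (v.nonneg _) hs.le
  have m3 : v (σ' * (wa - wa' - (wb - wb'))) < s * v (wa - wb) := by
    rw [v.map_mul]
    exact (mul_le_mul_of_nonneg_right h2 (v.nonneg _)).trans_lt (mul_lt_mul_of_pos_left e1 hs)
  have := h.tw_sub (h.tw_add (h.tw_sub (h.tw_sub c1.2 c2.2) (n1.tw_lt hp m1)) (n2.tw_lt hp m2)) m3
  rw [show za - za' - (zb - zb') - (za - zb - σ * (wa - wb)) + (za' - zb' - σ' * (wa' - wb')) -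
    σ' * (wa - wa' - (wb - wb')) = (σ - σ') * (wa - wb) by ring, v.map_mul] at this
  exact lt_of_mul_lt_mul_right this (v.nonneg _)

end

variable {V : Type} {E : V → V → Prop}

theorem tw_nb [Fintype V] (B : Finset V) (x : V) :
    nb (fun a y => E a y ∧ y ∈ B) univ x = nb E B x := by
  ext y
  simp [mem_nb, and_comm]

theorem tw_nb_split {Y Y' : Finset V} (h : Y' ⊆ Y) (x : V) :
    (nb E Y x).card = (nb E Y' x).card + (nb E (Y \ Y') x).card := by
  rw [← card_union_of_disjoint]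
  · simp only [nb]
    rw [← filter_union, union_sdiff_of_subset h]
  · exact disjoint_sdiff.mono (filter_subset _ _) (filter_subset _ _)

theorem tw_ed_split {Y Y' : Finset V} (h : Y' ⊆ Y) (X : Finset V) :
    ed E X Y = ed E X Y' + ed E X (Y \ Y') := by
  simp only [ed, tw_nb_split h, sum_add_distrib]

theorem tw_exp {b : Finset V → ℝ} {S T : Finset V} {k m : ℝ} (hk : 0 ≤ k)
    (h : ∀ T ⊆ S, 2 * T.card ≤ S.card → b T + b (S \ T) + k * T.card ≤ b S) (hT : T ⊆ S)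
    (h1 : m ≤ T.card) (h2 : m ≤ (S \ T).card) : b T + b (S \ T) + k * m ≤ b S := by
  by_cases e : 2 * T.card ≤ S.card
  · linarith [h T hT e, mul_le_mul_of_nonneg_left h1 hk]
  · have := h (S \ T) sdiff_subset (by rw [card_sdiff_of_subset hT]; omega)
    rw [Finset.sdiff_sdiff_eq_self hT] at this
    linarith [mul_le_mul_of_nonneg_left h2 hk]

theorem tw_cross {X Y S Y' : Finset V} (hd : Disjoint X Y) (h : Y' ⊆ S ∩ Y) :
    ∃ T ⊆ S, Y' ⊆ T ∧ (S ∩ Y) \ Y' ⊆ S \ T ∧ (ed E (S ∩ X) (S ∩ Y) : ℝ) =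
      ed E (T ∩ X) (T ∩ Y) + ed E ((S \ T) ∩ X) ((S \ T) ∩ Y) +
        ∑ x ∈ S ∩ X, min ((nb E Y' x).card : ℝ) (nb E ((S ∩ Y) \ Y') x).card := by
  let P : V → Prop := fun x => (nb E ((S ∩ Y) \ Y') x).card ≤ (nb E Y' x).card
  have hd' : ∀ a, a ∈ X → a ∈ Y → False := fun a h1 h2 => disjoint_left.1 hd h1 h2
  have h' : ∀ a, a ∈ Y' → a ∈ S ∧ a ∈ Y := fun a ha => mem_inter.1 (h ha)
  have e1 : (Y' ∪ (S ∩ X).filter P) ∩ X = (S ∩ X).filter P := by
    ext a; simp only [mem_inter, mem_union, mem_filter]; grind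
  have e2 : (Y' ∪ (S ∩ X).filter P) ∩ Y = Y' := by
    ext a; simp only [mem_inter, mem_union, mem_filter]; grind
  have e3 : (S \ (Y' ∪ (S ∩ X).filter P)) ∩ X = (S ∩ X).filter fun x => ¬ P x := by
    ext a; simp only [mem_inter, mem_union, mem_filter, mem_sdiff]; grind
  have e4 : (S \ (Y' ∪ (S ∩ X).filter P)) ∩ Y = (S ∩ Y) \ Y' := by
    ext a; simp only [mem_inter, mem_union, mem_filter, mem_sdiff]; grind
  refine ⟨Y' ∪ (S ∩ X).filter P, union_subset (h.trans inter_subset_left)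
    ((filter_subset _ _).trans inter_subset_left), subset_union_left,
    e4.symm.subset.trans inter_subset_left, ?_⟩
  rw [e1, e2, e3, e4]
  simp only [ed, Nat.cast_sum, sum_filter, ← sum_add_distrib]
  refine sum_congr rfl fun x _ => ?_
  rw [tw_nb_split h, Nat.cast_add]
  by_cases hp : P x
  · rw [min_eq_right (Nat.cast_le.2 hp)]; simp [hp]
  · rw [min_eq_left (Nat.cast_le.2 (not_le.1 hp).le)]; simp [hp, add_comm]

theorem tw_st {C : ℝ} (h : ST E C) (hC : 0 ≤ C) (S : Finset V) :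
    (ed E S S : ℝ) ≤ 3 * C * (S.card : ℝ) ^ (4 / 3 : ℝ) := by
  rcases S.eq_empty_or_nonempty with rfl | hS
  · simp [ed]
  · have h1 : (1 : ℝ) ≤ S.card := by exact_mod_cast hS.card_pos
    obtain ⟨M, hM, e⟩ : ∃ M : ℝ, 1 ≤ M ∧ (S.card : ℝ) = M ^ 3 :=
      ⟨(S.card : ℝ) ^ ((3 : ℕ) : ℝ)⁻¹, Real.one_le_rpow h1 (by norm_num),
        (Real.rpow_inv_natCast_pow (by linarith) (by norm_num)).symm⟩
    have h2 : (M ^ 3) ^ (4 / 3 : ℝ) = M ^ 4 := by
      rw [← Real.rpow_natCast, ← Real.rpow_mul (by linarith)]; norm_num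
    have h3 := h S S M hM
    have h4 : (M ^ 3) ^ 2 / M ^ 2 = M ^ 4 := by field_simp
    rw [e, h4] at h3
    rw [e, h2]
    have h5 : M ^ 3 ≤ M ^ 4 := pow_le_pow_right₀ hM (by norm_num)
    nlinarith [mul_le_mul_of_nonneg_left h5 hC]

/-- A closed ball with half of the weight whose open subballs have less than half. -/
theorem tw_ball {Y : Finset V} (hY : Y.Nonempty) (d : V → V → ℝ) (μ : Finset V → ℕ)
    (h0 : μ ∅ = 0) (h1 : 0 < μ Y) : ∃ y1 ∈ Y, ∃ y2 ∈ Y,
      μ Y ≤ 2 * μ (Y.filter fun y => d y1 y ≤ d y1 y2) ∧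
      ∀ y ∈ Y, 2 * μ (Y.filter fun u => d y u < d y1 y2) < μ Y := by
  obtain ⟨p, hp, hm⟩ := exists_min_image ((Y ×ˢ Y).filter fun p =>
      μ Y ≤ 2 * μ (Y.filter fun y => d p.1 y ≤ d p.1 p.2)) (fun p => d p.1 p.2) (by
    obtain ⟨y, hy⟩ := hY
    obtain ⟨u, hu, e⟩ := exists_max_image Y (d y) ⟨y, hy⟩
    exact ⟨(y, u), mem_filter.2 ⟨mem_product.2 ⟨hy, hu⟩, by rw [filter_true_of_mem e]; omega⟩⟩)
  rw [mem_filter, mem_product] at hp
  refine ⟨p.1, hp.1.1, p.2, hp.1.2, hp.2, fun y hy => lt_of_not_ge fun e => ?_⟩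
  rcases (Y.filter fun u => d y u < d p.1 p.2).eq_empty_or_nonempty with e0 | e0
  · rw [e0, h0] at e; omega
  · obtain ⟨u, hu, e1⟩ := exists_max_image _ (d y) e0
    have e2 : (Y.filter fun a => d y a ≤ d y u) = Y.filter fun a => d y a < d p.1 p.2 := by
      ext a
      simp only [mem_filter] at hu e1 ⊢
      exact ⟨fun ha => ⟨ha.1, ha.2.trans_lt hu.2⟩, fun ha => ⟨ha.1, e1 a ha⟩⟩
    exact absurd (hm (y, u) (mem_filter.2 ⟨mem_product.2 ⟨hy, (mem_filter.1 hu).1⟩, by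
      rw [e2]; exact e⟩)) (not_le.2 (mem_filter.1 hu).2)

end Pool.Agent.Lib.MP_439fea_co.Ud
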