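import Pool.Agent.Lib.MP_439fea_co.Ud.Defs

namespace Pool.Agent.Lib.MP_439fea_co.Ud
open Finset Pool.Agent.Lib.MP_439fea_co.Z
open scoped Classical
noncomputable section

/-- `a` lies in `b * (1 + small)`. -/
def Near {K : Type} [Field K] (v : AbsoluteValue K ℝ) (a b : K) : Prop := a = b ∨ v (a - b) < v b

/-- Many flags give many points of large degree. -/
def RichP : Prop := ∀ C θ : ℝ, 1 ≤ C → 0 < θ → ∃ δ : ℝ, 0 < δ ∧ ∃ ρ0 : ℝ,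
  ∀ (V : Type) [Fintype V] (E : V → V → Prop) (ρ : ℝ) (X : Finset V) (f : V → ℝ),
    ρ0 ≤ ρ → Amb E C ρ → (∀ x ∈ X, f x ≤ (nb E univ x).card) →
    2 * θ * ρ ^ 4 ≤ ∑ x ∈ X, f x → δ * ρ ^ 3 ≤ (X.filter fun x => θ * ρ ≤ f x).card

/-- Most points lie in boundedly many fibres. -/
def FewS : Prop := ∀ C c J θ : ℝ, 1 ≤ C → 0 < c → 0 < J → 0 < θ → ∃ J' : ℝ, 0 < J' ∧ ∃ ρ0 : ℝ,
  ∀ (V : Type) [Fintype V] (E A : V → V → Prop) (ρ : ℝ) (X : Finset V) (Λ Λ' : Type)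
    (lab : V → Λ) (lab' : V → Λ'), ρ0 ≤ ρ → Amb E C ρ → Fam E A X (c * ρ) →
    ((X.image lab).card : ℝ) ≤ J →
    (∀ a ∈ X, ∀ b ∈ X, ∀ y, A a y → A b y → lab a = lab b → lab' a = lab' b) →
    ∃ X' ⊆ X, (X.card : ℝ) ≤ X'.card + θ * ρ ^ 3 ∧ ((X'.image lab').card : ℝ) ≤ J'

/-- Lemma L with the number of parts. -/
def PartS : Prop := ∀ C c η θ : ℝ, 1 ≤ C → 0 < c → 0 < η → 0 < θ → ∃ J : ℝ, 0 < J ∧ ∃ ρ0 : ℝ,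
  ∀ (V : Type) [Fintype V] (E H A : V → V → Prop) (ρ : ℝ) (X : Finset V) (d1 d2 : V → V → ℝ),
    ρ0 ≤ ρ → Amb E C ρ → PUM d1 → PUM d2 →
    (∀ a ∈ X, ∀ b ∈ X, a ≠ b → 0 < max (d1 a b) (d2 a b)) →
    Fam E H X (c * ρ) → Fam E A X (c * ρ) →
    (∀ a ∈ X, ∀ b ∈ X, ∀ y, a ≠ b → H a y → H b y → d1 a b < d2 a b) →
    (∀ a ∈ X, ∀ b ∈ X, ∀ y, A a y → A b y → d2 a b ≤ d1 a b) →
    ∃ (lab : V → Finset V) (X' : Finset V), X' ⊆ X ∧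
      Clu X (fun a b => max (d1 a b) (d2 a b)) lab ∧
      (∀ a ∈ X, ((fib X lab a).card : ℝ) ≤ η * ρ ^ 3) ∧
      (X.card : ℝ) ≤ X'.card + θ * ρ ^ 3 ∧ ((X'.image lab).card : ℝ) ≤ J

/-- One class of curves carries many flags. -/
def ClsS : Prop := ∀ C c : ℝ, 1 ≤ C → 0 < c → ∃ η : ℝ, 0 < η ∧ ∀ J : ℝ, 0 < J →
  ∃ θ : ℝ, 0 < θ ∧ ∃ ρ0 : ℝ,
  ∀ (V : Type) [Fintype V] (E A : V → V → Prop) (ρ : ℝ) (X : Finset V) (Λ Λ' Γ : Type)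
    (lab : V → Λ) (lab' : V → Λ') (cl : V → Γ), ρ0 ≤ ρ → Amb E C ρ → c * ρ ^ 3 ≤ X.card →
    Fam E A X (c * ρ) → (∀ a ∈ X, ((fib X lab a).card : ℝ) ≤ η * ρ ^ 3) →
    ((X.image lab').card : ℝ) ≤ J →
    (∀ a ∈ X, ∀ b ∈ X, ∀ a' ∈ X, ∀ b' ∈ X, ∀ y y', A a y → A b y → A a' y' → A b' y' →
      lab a ≠ lab b → lab a' ≠ lab b' → lab' a = lab' a' → lab' b = lab' b' → cl y = cl y') →
    ∃ a ∈ X, ∃ y0, A a y0 ∧ θ * ρ ^ 4 ≤ ed (fun x y => A x y ∧ cl y = cl y0) X univ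

/-- Two separated groups of slopes and a steep family. -/
def V3S : Prop := ∀ C c : ℝ, 1 ≤ C → 0 < c → ∃ ρ0 : ℝ,
  ∀ (K : Type) [Field K] [CharZero K] (v : AbsoluteValue K ℝ) (V : Type) [Fintype V]
    (E A1 A2 H : V → V → Prop) (ρ : ℝ) (X : Finset V) (z w σ : V → K) (s : ℝ),
    ρ0 ≤ ρ → NA v → Amb E C ρ → c * ρ ^ 3 ≤ X.card → Function.Injective w →
    Fam E A1 X (c * ρ) → Fam E A2 X (c * ρ) → Fam E H X (c * ρ) → 0 ≤ s →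
    (∀ a ∈ X, ∀ b ∈ X, ∀ y, A1 a y → A1 b y → v (z a - z b) ≤ s * v (w a - w b)) →
    (∀ a ∈ X, ∀ b ∈ X, ∀ y, A2 a y → A2 b y → Near v (z a - z b) (σ y * (w a - w b))) →
    (∀ a ∈ X, ∀ y, A2 a y → s < v (σ y) ∧ v (σ y) ≤ 1) →
    (∀ a ∈ X, ∀ b ∈ X, ∀ y, a ≠ b → H a y → H b y → v (w a - w b) < v (z a - z b)) → False

/-- The combinatorial core of the two-dimensional lemma. -/
def CoreS : Prop := ∀ C c : ℝ, 1 ≤ C → 0 < c → ∃ ρ0 : ℝ,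
  ∀ (K : Type) [Field K] [CharZero K] (v : AbsoluteValue K ℝ) (V : Type) [Fintype V]
    (E H : V → V → Prop) (ρ : ℝ) (X Y : Finset V) (zz : V → V → K) (w β : V → K),
    ρ0 ≤ ρ → NA v → Amb E C ρ → c * ρ ^ 3 ≤ X.card → Function.Injective w → Disjoint X Y →
    (∀ a ∈ X, c * ρ ≤ (nb E Y a).card) → Fam E H X (c * ρ) →
    (∀ y ∈ Y, ∀ y' ∈ Y, v (β y - β y') ≤ 1) → (∀ y ∈ Y, ∀ y' ∈ Y, β y = β y' → y = y') →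
    (∀ y1 ∈ Y, ∀ y ∈ Y, ∀ a ∈ X, ∀ b ∈ X, E a y → E b y →
      Near v (zz y1 a - zz y1 b) ((β y - β y1) * (w a - w b))) →
    (∀ y1 ∈ Y, ∀ a ∈ X, ∀ b ∈ X, ∀ y, a ≠ b → H a y → H b y →
      v (w a - w b) < v (zz y1 a - zz y1 b)) → False

end
end Pool.Agent.Lib.MP_439fea_co.Ud
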