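import Pool.Agent.Lib.MP_439fea_co.Ud.Gain

namespace Pool.Agent.Lib.MP_439fea_co.Gain
open Finset
open scoped Classical
noncomputable section

variable {V : Type}

/-- Number of points of `S` that carry a flag on `y`. -/
def fl (N : V → Finset V) (S : Finset V) (y : V) : ℕ := (S.filter fun x => y ∈ N x).card

/-- Logarithmic weight of the flags at `x` inside `S`. -/
def kk (N : V → Finset V) (S : Finset V) (x : V) : ℝ := ∑ y ∈ N x, Real.log (fl N S y)

/-- The class of `x` in `S`. -/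
def cell {A : Type} (S : Finset V) (f : V → A) (x : V) : Finset V := S.filter fun y => f y = f x

lemma mem_cell {A : Type} {S : Finset V} {f : V → A} {x y : V} :
    y ∈ cell S f x ↔ y ∈ S ∧ f y = f x := mem_filter

lemma card_cell {A : Type} (S : Finset V) (f : V → A) (x : V) : (cell S f x).card = fb S f x := rfl

lemma cell_eq {A : Type} {S : Finset V} {f : V → A} {x y : V} (h : f y = f x) :
    cell S f y = cell S f x := by
  unfold cell; rw [h]

lemma sum_cell {A : Type} (S : Finset V) (f : V → A) (g : V → ℝ) :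
    ∑ x ∈ S, g x = ∑ T ∈ S.image (cell S f), ∑ x ∈ T, g x := by
  rw [← sum_fiberwise_of_maps_to (s := S) (t := S.image (cell S f)) (g := cell S f)
    (fun x hx => mem_image_of_mem _ hx)]
  refine sum_congr rfl fun T hT => ?_
  obtain ⟨x, hx, rfl⟩ := mem_image.1 hT
  refine sum_congr ?_ fun _ _ => rfl
  ext y
  rw [mem_filter, mem_cell]
  refine and_congr_right fun hy => ⟨fun h => ?_, fun h => cell_eq h⟩
  have : y ∈ cell S f y := mem_cell.2 ⟨hy, rfl⟩
  rw [h] at this
  exact (mem_cell.1 this).2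

/-- Exchange of the order of summation over flags. -/
lemma sum_flags (N : V → Finset V) (S : Finset V) (g : V → V → ℝ) :
    ∑ x ∈ S, ∑ y ∈ N x, g x y = ∑ y ∈ S.biUnion N, ∑ x ∈ S.filter (fun x => y ∈ N x), g x y := by
  refine sum_comm' fun x y => ?_
  simp only [mem_filter, mem_biUnion]
  constructor
  · rintro ⟨h1, h2⟩; exact ⟨⟨h1, h2⟩, x, h1, h2⟩
  · rintro ⟨⟨h1, h2⟩, _⟩; exact ⟨h1, h2⟩

/-- Log-sum inequality for one family of flags. -/
lemma logsum {A B : Type} (N : V → Finset V) (S : Finset V) (D : ℕ) (J : V → A) (U : V → B)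
    (hD : ∀ x ∈ S, (N x).card = D) (hJ : ∀ x y, J y = J x → U y = U x)
    (hU : ∀ x ∈ S, ∀ x' ∈ S, ∀ y, y ∈ N x → y ∈ N x' → U x' = U x) :
    ∑ x ∈ S, kk N S x ≤ ∑ x ∈ S, (kk N (cell S J x) x +
      D * (Real.log (fb S U x) - Real.log (fb S J x))) := by
  have e1 : ∀ x ∈ S, ∀ y, fl N (cell S J x) y = fb (S.filter fun x => y ∈ N x) J x := by
    intro x _ y
    unfold fl fb cell
    rw [filter_comm]
  have h1 : ∀ x ∈ S, ∀ y ∈ N x, Real.log (fl N S y) ≤ Real.log (fl N (cell S J x) y) +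
      (Real.log (fb S U x) - Real.log (fb S J x)) +
      ((fl N S y : ℝ) / fb S U x * (fb S J x / fb (S.filter fun x => y ∈ N x) J x) - 1) := by
    intro x hx y hy
    have hxy : x ∈ S.filter fun x => y ∈ N x := mem_filter.2 ⟨hx, hy⟩
    have a1 : (0 : ℝ) < fl N S y := by exact_mod_cast card_pos.2 ⟨x, hxy⟩
    have a2 : (0 : ℝ) < fb S U x := by exact_mod_cast fb_pos S U hx
    have a3 : (0 : ℝ) < fb S J x := by exact_mod_cast fb_pos S J hx
    have a4 : (0 : ℝ) < fb (S.filter fun x => y ∈ N x) J x := by exact_mod_cast fb_pos _ J hxy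
    have hp : 0 < (fl N S y : ℝ) / fb S U x * (fb S J x / fb (S.filter fun x => y ∈ N x) J x) := by
      positivity
    have := Real.log_le_sub_one_of_pos hp
    rw [Real.log_mul (by positivity) (by positivity), Real.log_div a1.ne' a2.ne',
      Real.log_div a3.ne' a4.ne'] at this
    rw [e1 x hx y]
    linarith
  have h2 : ∑ x ∈ S, ∑ y ∈ N x,
      ((fl N S y : ℝ) / fb S U x * (fb S J x / fb (S.filter fun x => y ∈ N x) J x) - 1) ≤ 0 := by
    rw [sum_flags]
    refine sum_nonpos fun y hy => ?_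
    obtain ⟨x0, hx0, hy0⟩ := mem_biUnion.1 hy
    set Sy := S.filter fun x => y ∈ N x with hSy
    have a2 : (0 : ℝ) < fb S U x0 := by exact_mod_cast fb_pos S U hx0
    have e2 : ∀ x ∈ Sy, (fl N S y : ℝ) / fb S U x * (fb S J x / fb Sy J x) =
        (fl N S y : ℝ) / fb S U x0 * (fb S J x / fb Sy J x) := by
      intro x hx
      have := hU x0 hx0 x (mem_filter.1 hx).1 y hy0 (mem_filter.1 hx).2
      unfold fb
      rw [this]
    have e3 : ∑ x ∈ Sy, ((fb S J x : ℝ) / fb Sy J x) ≤ fb S U x0 := by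
      have := sum_div_fb Sy J (fun p => ((S.filter fun t => J t = p).card : ℝ))
      unfold fb at this ⊢
      rw [this, ← Nat.cast_sum, Nat.cast_le]
      refine (sum_card_fiberwise_eq_card_filter S (Sy.image J) J).le.trans
        (card_le_card fun t ht => ?_)
      obtain ⟨htS, ht2⟩ := mem_filter.1 ht
      obtain ⟨x, hx, hxt⟩ := mem_image.1 ht2
      refine mem_filter.2 ⟨htS, ?_⟩
      rw [hJ x t hxt.symm]
      exact hU x0 hx0 x (mem_filter.1 hx).1 y hy0 (mem_filter.1 hx).2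
    rw [sum_sub_distrib, sum_congr rfl e2, ← mul_sum]
    simp only [sum_const, nsmul_eq_mul, mul_one]
    have e4 : (fl N S y : ℝ) = Sy.card := rfl
    have : (fl N S y : ℝ) / fb S U x0 * ∑ x ∈ Sy, ((fb S J x : ℝ) / fb Sy J x) ≤
        (fl N S y : ℝ) / fb S U x0 * fb S U x0 :=
      mul_le_mul_of_nonneg_left e3 (by positivity)
    rw [div_mul_cancel₀ _ a2.ne'] at this
    linarith
  have h3 : ∑ x ∈ S, kk N S x ≤ ∑ x ∈ S, ∑ y ∈ N x, (Real.log (fl N (cell S J x) y) +
      (Real.log (fb S U x) - Real.log (fb S J x)) +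
      ((fl N S y : ℝ) / fb S U x * (fb S J x / fb (S.filter fun x => y ∈ N x) J x) - 1)) :=
    sum_le_sum fun x hx => sum_le_sum fun y hy => h1 x hx y hy
  refine h3.trans ?_
  have h4 : ∀ x ∈ S, ∑ y ∈ N x, (Real.log (fl N (cell S J x) y) +
      (Real.log (fb S U x) - Real.log (fb S J x)) +
      ((fl N S y : ℝ) / fb S U x * (fb S J x / fb (S.filter fun x => y ∈ N x) J x) - 1)) =
      (kk N (cell S J x) x + D * (Real.log (fb S U x) - Real.log (fb S J x))) + ∑ y ∈ N x,
      ((fl N S y : ℝ) / fb S U x * (fb S J x / fb (S.filter fun x => y ∈ N x) J x) - 1) := by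
    intro x hx
    rw [sum_add_distrib, sum_add_distrib, sum_const, hD x hx, nsmul_eq_mul]
    rfl
  rw [sum_congr rfl h4, sum_add_distrib]
  linarith

/-- Contribution of the point `x` to the potential of `S`. -/
def tm (N1 N2 N3 : V → Finset V) (D : ℕ) (S : Finset V) (x : V) : ℝ :=
  2 * (kk N1 S x + kk N2 S x + kk N3 S x) - 3 * D * Real.log S.card

/-- The three families of flags with their directions. -/
structure Tri {K : Type} [Field K] (v : AbsoluteValue K ℝ) (w z : V → K)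
    (N1 N2 N3 : V → Finset V) (D : ℕ) (X : Finset V) : Prop where
  c1 : ∀ x ∈ X, (N1 x).card = D
  c2 : ∀ x ∈ X, (N2 x).card = D
  c3 : ∀ x ∈ X, (N3 x).card = D
  f1 : ∀ x ∈ X, ∀ x' ∈ X, x ≠ x' → ∀ y, y ∈ N1 x → y ∈ N1 x' → v (z x - z x') < v (w x - w x')
  f2 : ∀ x ∈ X, ∀ x' ∈ X, x ≠ x' → ∀ y, y ∈ N2 x → y ∈ N2 x' →
    v ((z x - z x') - (w x - w x')) < v (w x - w x')
  f3 : ∀ x ∈ X, ∀ x' ∈ X, x ≠ x' → ∀ y, y ∈ N3 x → y ∈ N3 x' → v (w x - w x') < v (z x - z x')

lemma Tri.mono {K : Type} [Field K] {v : AbsoluteValue K ℝ} {w z : V → K}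
    {N1 N2 N3 : V → Finset V} {D : ℕ} {X S : Finset V} (h : Tri v w z N1 N2 N3 D X) (hS : S ⊆ X) :
    Tri v w z N1 N2 N3 D S :=
  ⟨fun x hx => h.c1 x (hS hx), fun x hx => h.c2 x (hS hx), fun x hx => h.c3 x (hS hx),
    fun x hx x' hx' => h.f1 x (hS hx) x' (hS hx'), fun x hx x' hx' => h.f2 x (hS hx) x' (hS hx'),
    fun x hx x' hx' => h.f3 x (hS hx) x' (hS hx')⟩

/-- The open ball of radius `r` as a rational subspace. -/
def ballSub {K : Type} [Field K] [CharZero K] (v : AbsoluteValue K ℝ) (hv : IsNonarchimedean v)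
    (hn : ∀ n : ℕ, n ≠ 0 → v n = 1) (r : ℝ) (hr : 0 < r) : Submodule ℚ K where
  carrier := {k | v k < r}
  zero_mem' := by simpa using hr
  add_mem' := fun {a b} ha hb => lt_of_le_of_lt (hv a b) (max_lt ha hb)
  smul_mem' := fun q k hk => by
    have hz : ∀ m : ℤ, v m ≤ 1 := by
      intro m
      rcases Int.natAbs_eq m with h | h
      · rw [h, Int.cast_natCast]
        by_cases h0 : m.natAbs = 0
        · simp [h0]
        · exact (hn _ h0).le
      · rw [h, Int.cast_neg, Int.cast_natCast, AbsoluteValue.map_neg]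
        by_cases h0 : m.natAbs = 0
        · simp [h0]
        · exact (hn _ h0).le
    have hq : v (q : K) ≤ 1 := by
      rw [Rat.cast_def, map_div₀, hn _ q.den_nz, div_one]
      exact hz _
    show v (q • k) < r
    rw [Rat.smul_def, map_mul]
    have h0 := v.nonneg k
    have hk' : v k < r := hk
    nlinarith [v.nonneg (q : K)]

/-- The distance that combines both coordinates. -/
def dm {K : Type} [Field K] (v : AbsoluteValue K ℝ) (w z : V → K) (x y : V) : ℝ :=
  max (v (w x - w y)) (v (z x - z y))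

/-- One step down the tree. -/
lemma step {K : Type} [Field K] [CharZero K] {v : AbsoluteValue K ℝ} (hv : IsNonarchimedean v)
    (hn : ∀ n : ℕ, n ≠ 0 → v n = 1) {w z : V → K} {N1 N2 N3 : V → Finset V} {D : ℕ}
    {S : Finset V} (h : Tri v w z N1 N2 N3 D S) {r : ℝ} (hr : 0 < r)
    (hd : ∀ x ∈ S, ∀ y ∈ S, dm v w z x y ≤ r) :
    ∃ (A : Type) (J : V → A), (∀ x y, J y = J x ↔ dm v w z x y < r) ∧
      ∀ m : ℝ, 0 ≤ m → (∀ x ∈ S, (fb S J x : ℝ) ≤ m) →
      ∑ x ∈ S, tm N1 N2 N3 D S x ≤ ∑ x ∈ S, tm N1 N2 N3 D (cell S J x) x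
        - (1 / 1572864) * D * (S.card - m) := by
  set P := ballSub v hv hn r hr with hP
  have hq : ∀ s t : K, P.mkQ s = P.mkQ t ↔ v (t - s) < r := by
    intro s t
    rw [Submodule.mkQ_apply, Submodule.mkQ_apply, eq_comm, Submodule.Quotient.eq]
    rfl
  set a : V → K ⧸ P := fun x => P.mkQ (w x) with ha
  set b : V → K ⧸ P := fun x => P.mkQ (z x) with hb
  refine ⟨(K ⧸ P) × (K ⧸ P), fun y => (a y, b y), fun x y => ?_, fun m hm0 hm => ?_⟩
  · rw [Prod.mk.injEq, ha, hb, hq, hq, dm, max_lt_iff]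
  have hg := gain S a b m hm0 hm
  have l1 := logsum N1 S D (fun y => (a y, b y)) b h.c1
    (fun x y e => (Prod.mk.injEq _ _ _ _ ▸ e : _ ∧ _).2) (by
      intro x hx x' hx' y h1 h2
      by_cases e : x = x'
      · rw [e]
      · exact (hq _ _).2 (lt_of_lt_of_le (h.f1 x hx x' hx' e y h1 h2)
          ((le_max_left _ _).trans (hd x hx x' hx'))))
  have l3 := logsum N3 S D (fun y => (a y, b y)) a h.c3
    (fun x y e => (Prod.mk.injEq _ _ _ _ ▸ e : _ ∧ _).1) (by
      intro x hx x' hx' y h1 h2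
      by_cases e : x = x'
      · rw [e]
      · exact (hq _ _).2 (lt_of_lt_of_le (h.f3 x hx x' hx' e y h1 h2)
          ((le_max_right _ _).trans (hd x hx x' hx'))))
  have l2 := logsum N2 S D (fun y => (a y, b y)) (fun y => b y - a y) h.c2
    (fun x y e => by
      obtain ⟨e1, e2⟩ : _ ∧ _ := Prod.mk.injEq _ _ _ _ ▸ e
      simp only [e1, e2]) (by
      intro x hx x' hx' y h1 h2
      by_cases e : x = x'
      · rw [e]
      · have := lt_of_lt_of_le (h.f2 x hx x' hx' e y h1 h2)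
          ((le_max_left _ _).trans (hd x hx x' hx'))
        simp only [ha, hb, ← map_sub]
        refine (hq _ _).2 ?_
        rw [show z x - w x - (z x' - w x') = z x - z x' - (w x - w x') by ring]
        exact this)
  have hD : (0 : ℝ) ≤ D := Nat.cast_nonneg _
  have hg2 := mul_le_mul_of_nonneg_left hg hD
  unfold tm
  simp only [card_cell]
  simp only [sum_add_distrib, sum_sub_distrib, ← mul_sum] at l1 l2 l3 hg2 ⊢
  linarith

/-- A labelling whose classes are clusters. -/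
def Clu {A : Type} (d : V → V → ℝ) (f : V → A) (S : Finset V) : Prop :=
  ∀ x ∈ S, ∀ x' ∈ S, ∀ o ∈ S, f x' = f x → f o ≠ f x → d x x' < d x o

/-- Superadditivity with gain over a partition into clusters. -/
theorem clu {K : Type} [Field K] [CharZero K] {v : AbsoluteValue K ℝ} (hv : IsNonarchimedean v)
    (hn : ∀ n : ℕ, n ≠ 0 → v n = 1) {w z : V → K} {N1 N2 N3 : V → Finset V} {D : ℕ} {B : Type}
    (f : V → B) (S : Finset V) : Tri v w z N1 N2 N3 D S → Clu (dm v w z) f S →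
    ∀ m : ℝ, 0 ≤ m → (∀ x ∈ S, (fb S f x : ℝ) ≤ m) →
      ∑ x ∈ S, tm N1 N2 N3 D S x ≤ ∑ x ∈ S, tm N1 N2 N3 D (cell S f x) x
        - (1 / 1572864) * D * (S.card - m) := by
  induction S using Finset.strongInduction with
  | H S ih =>
  intro h hc m hm0 hm
  have hD : (0 : ℝ) ≤ D := Nat.cast_nonneg _
  by_cases htriv : ∀ x ∈ S, ∀ y ∈ S, f y = f x
  · have e : ∀ x ∈ S, cell S f x = S := fun x hx => filter_eq_self.2 fun y hy => htriv x hx y hy
    have e' : ∑ x ∈ S, tm N1 N2 N3 D (cell S f x) x = ∑ x ∈ S, tm N1 N2 N3 D S x :=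
      sum_congr rfl fun x hx => by rw [e x hx]
    rw [e']
    have : (S.card : ℝ) ≤ m := by
      rcases S.eq_empty_or_nonempty with rfl | ⟨x, hx⟩
      · simpa using hm0
      · have := hm x hx
        rwa [← card_cell, e x hx] at this
    nlinarith [mul_nonneg hD (sub_nonneg.2 this)]
  push Not at htriv
  obtain ⟨x1, hx1, y1, hy1, hne⟩ := htriv
  obtain ⟨p, hp, hpm⟩ := exists_max_image (S ×ˢ S) (fun p => dm v w z p.1 p.2)
    ⟨(x1, x1), mem_product.2 ⟨hx1, hx1⟩⟩
  set r := dm v w z p.1 p.2 with hr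
  have hd : ∀ x ∈ S, ∀ y ∈ S, dm v w z x y ≤ r := fun x hx y hy =>
    hpm (x, y) (mem_product.2 ⟨hx, hy⟩)
  have hfd : ∀ x ∈ S, ∀ y ∈ S, f y = f x → dm v w z x y < r := by
    intro x hx y hy e
    by_cases e1 : f x1 = f x
    · exact lt_of_lt_of_le (hc x hx y hy y1 hy1 e (by rw [← e1]; exact hne)) (hd x hx y1 hy1)
    · exact lt_of_lt_of_le (hc x hx y hy x1 hx1 e e1) (hd x hx x1 hx1)
  have hr0 : 0 < r := lt_of_le_of_lt (le_max_of_le_left (v.nonneg _)) (hfd x1 hx1 x1 hx1 rfl)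
  obtain ⟨A, J, hJ, hstep⟩ := step hv hn h hr0 hd
  obtain ⟨x0, hx0, hmax⟩ := exists_max_image S (fb S J) ⟨x1, hx1⟩
  have s1 := hstep (fb S J x0) (Nat.cast_nonneg _) fun x hx => by exact_mod_cast hmax x hx
  have hsub : ∀ x, cell S J x ⊆ S := fun x => filter_subset _ _
  have hss : ∀ x ∈ S, cell S J x ⊂ S := by
    intro x hx
    refine ⟨hsub x, fun hS => ?_⟩
    have q1 := (mem_cell.1 (hS (mem_product.1 hp).1)).2
    have q2 := (mem_cell.1 (hS (mem_product.1 hp).2)).2
    exact lt_irrefl _ ((hJ p.1 p.2).1 (q2.trans q1.symm))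
  have hcc : ∀ x ∈ S, ∀ y ∈ cell S J x, cell (cell S J x) f y = cell S f y := by
    intro x _ y hy
    ext t
    rw [mem_cell, mem_cell, mem_cell]
    obtain ⟨hyS, hyJ⟩ := mem_cell.1 hy
    refine ⟨fun q => ⟨q.1.1, q.2⟩, fun q => ⟨⟨q.1, ?_⟩, q.2⟩⟩
    exact ((hJ y t).2 (hfd y hyS t q.1 q.2)).trans hyJ
  have hch : ∀ x ∈ S, ∀ m' : ℝ, 0 ≤ m' → (∀ y ∈ cell S J x, (fb S f y : ℝ) ≤ m') →
      ∑ y ∈ cell S J x, tm N1 N2 N3 D (cell S J y) y ≤
        ∑ y ∈ cell S J x, tm N1 N2 N3 D (cell S f y) y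
        - (1 / 1572864) * D * ((cell S J x).card - m') := by
    intro x hx m' hm0' hm'
    have := ih _ (hss x hx) (h.mono (hsub x))
      (fun a ha b hb o ho => hc a (hsub x ha) b (hsub x hb) o (hsub x ho)) m' hm0' (by
        intro y hy
        rw [← card_cell, hcc x hx y hy, card_cell]
        exact hm' y hy)
    have e1 : ∑ y ∈ cell S J x, tm N1 N2 N3 D (cell (cell S J x) f y) y =
        ∑ y ∈ cell S J x, tm N1 N2 N3 D (cell S f y) y :=
      sum_congr rfl fun y hy => by rw [hcc x hx y hy]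
    have e2 : ∑ y ∈ cell S J x, tm N1 N2 N3 D (cell S J y) y =
        ∑ y ∈ cell S J x, tm N1 N2 N3 D (cell S J x) y :=
      sum_congr rfl fun y hy => by rw [cell_eq (mem_cell.1 hy).2]
    rw [e1] at this
    rw [e2]
    exact this
  have hT0 : cell S J x0 ∈ S.image (cell S J) := mem_image_of_mem _ hx0
  rw [sum_cell S J fun x => tm N1 N2 N3 D (cell S J x) x, ← add_sum_erase _ _ hT0] at s1
  rw [sum_cell S J fun x => tm N1 N2 N3 D (cell S f x) x, ← add_sum_erase _ _ hT0]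
  have s2 := hch x0 hx0 m hm0 fun y hy => hm y (hsub x0 hy)
  have s3 : ∑ T ∈ (S.image (cell S J)).erase (cell S J x0), ∑ x ∈ T, tm N1 N2 N3 D (cell S J x) x ≤
      ∑ T ∈ (S.image (cell S J)).erase (cell S J x0), ∑ x ∈ T, tm N1 N2 N3 D (cell S f x) x := by
    refine sum_le_sum fun T hT => ?_
    obtain ⟨x, hx, rfl⟩ := mem_image.1 (mem_of_mem_erase hT)
    have := hch x hx (cell S J x).card (Nat.cast_nonneg _) (by
      intro y hy
      rw [← card_cell, ← hcc x hx y hy]
      exact_mod_cast card_le_card (filter_subset _ _))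
    simpa using this
  rw [card_cell] at s2
  linarith

end
end Pool.Agent.Lib.MP_439fea_co.Gain
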