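import Pool.Agent.Lib.MP_439fea_co.Ud.Xi
import Pool.Agent.Lib.MP_439fea_co.Z.PCons

namespace Pool.Agent.Lib.MP_439fea_co.Gain
open Finset Pool.Agent.Lib.MP_439fea_co.Z
open scoped Classical
noncomputable section

variable {V : Type}

/-- Lower bound for the weight of a family of flags. -/
lemma low (N : V → Finset V) (S : Finset V) (D : ℕ) (hD : ∀ x ∈ S, (N x).card = D) {A : ℝ}
    (hA : 0 < A) (h : A * (S.biUnion N).card ≤ D * S.card) :
    D * S.card * Real.log A ≤ ∑ x ∈ S, kk N S x := by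
  have h1 : ∀ x ∈ S, ∀ y ∈ N x, Real.log A + 1 - A / fl N S y ≤ Real.log (fl N S y) := by
    intro x hx y hy
    have a1 : (0 : ℝ) < fl N S y := by exact_mod_cast card_pos.2 ⟨x, mem_filter.2 ⟨hx, hy⟩⟩
    have := Real.log_le_sub_one_of_pos (div_pos hA a1)
    rw [Real.log_div hA.ne' a1.ne'] at this
    linarith
  have h2 : ∑ x ∈ S, ∑ y ∈ N x, A / (fl N S y : ℝ) = A * (S.biUnion N).card := by
    rw [sum_flags N S fun _ y => A / (fl N S y : ℝ)]
    have : ∀ y ∈ S.biUnion N, ∑ _x ∈ S.filter (fun x => y ∈ N x), A / (fl N S y : ℝ) = A := by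
      intro y hy
      obtain ⟨x, hx, hy⟩ := mem_biUnion.1 hy
      have a1 : (0 : ℝ) < fl N S y := by exact_mod_cast card_pos.2 ⟨x, mem_filter.2 ⟨hx, hy⟩⟩
      rw [sum_const, nsmul_eq_mul]
      exact mul_div_cancel₀ _ a1.ne'
    rw [sum_congr rfl this, sum_const, nsmul_eq_mul, mul_comm]
  have h3 : ∑ x ∈ S, ∑ y ∈ N x, (Real.log A + 1 - A / fl N S y) ≤ ∑ x ∈ S, kk N S x :=
    sum_le_sum fun x hx => sum_le_sum fun y hy => h1 x hx y hy
  have h4 : ∑ x ∈ S, ∑ y ∈ N x, (Real.log A + 1 - A / fl N S y) =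
      D * S.card * (Real.log A + 1) - ∑ x ∈ S, ∑ y ∈ N x, A / (fl N S y : ℝ) := by
    have : ∀ x ∈ S, ∑ y ∈ N x, (Real.log A + 1 - A / fl N S y) =
        D * (Real.log A + 1) - ∑ y ∈ N x, A / (fl N S y : ℝ) := by
      intro x hx
      rw [sum_sub_distrib, sum_const, hD x hx, nsmul_eq_mul]
    rw [sum_congr rfl this, sum_sub_distrib, sum_const, nsmul_eq_mul]
    ring
  rw [h4, h2] at h3
  linarith

lemma log_dyad {B n : ℝ} (hB : 0 < B) (hn : 0 < n) (k : ℕ) (h : n ≤ 2 ^ k * B) :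
    Real.log n ≤ Real.log B + ∑ i ∈ range k, (if 2 ^ i * B ≤ n then (1 : ℝ) else 0) := by
  induction k with
  | zero => simpa using Real.log_le_log hn (by simpa using h)
  | succ k ih =>
    by_cases h1 : n ≤ 2 ^ k * B
    · rw [sum_range_succ]
      have := ih h1
      split_ifs <;> linarith
    · have h2 : ∀ i ∈ range (k + 1), (if 2 ^ i * B ≤ n then (1 : ℝ) else 0) = 1 := by
        intro i hi
        have : (2 : ℝ) ^ i ≤ 2 ^ k := pow_le_pow_right₀ one_le_two (Nat.lt_succ_iff.1 (mem_range.1 hi))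
        rw [if_pos ((mul_le_mul_of_nonneg_right this hB.le).trans (not_le.1 h1).le)]
      rw [sum_congr rfl h2, sum_const, card_range, nsmul_eq_mul, mul_one]
      have h3 := Real.log_le_log hn h
      rw [Real.log_mul (by positivity) hB.ne', Real.log_pow] at h3
      have h4 : Real.log 2 ≤ 1 := by
        have := Real.log_le_sub_one_of_pos (show (0 : ℝ) < 2 by norm_num)
        linarith
      have h5 : (0 : ℝ) ≤ ((k + 1 : ℕ) : ℝ) := Nat.cast_nonneg _
      nlinarith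

/-- Upper bound for the weight of a family of flags. -/
lemma up {E : V → V → Prop} {C ρ : ℝ} (hst : ST E C) (hC : 1 ≤ C) (hs : ∀ a b, E a b → E b a)
    (hρ : 1 ≤ ρ) (N : V → Finset V) (S : Finset V) (D : ℕ) (hD : ∀ x ∈ S, (N x).card = D)
    (hE : ∀ x ∈ S, ∀ y ∈ N x, E x y) (hS : (S.card : ℝ) ≤ ρ ^ 3) :
    ∑ x ∈ S, kk N S x ≤ D * S.card * (Real.log (2 * C) + Real.log (1 + S.card / ρ) / 2)
      + 16 * C * ρ * S.card := by
  have hρ0 : 0 < ρ := by linarith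
  have hS0 : (0 : ℝ) ≤ S.card := Nat.cast_nonneg _
  set β := Real.sqrt (1 + S.card / ρ) with hβ
  have hq : (0 : ℝ) ≤ S.card / ρ := by positivity
  have hβ2 : β ^ 2 = 1 + S.card / ρ := Real.sq_sqrt (by linarith)
  have hβ1 : 1 ≤ β := Real.one_le_sqrt.2 (by linarith)
  set B := 2 * C * β with hB
  have hB1 : 2 * C ≤ B := by nlinarith
  have hB0 : 0 < B := by linarith
  have hlog : Real.log B = Real.log (2 * C) + Real.log (1 + S.card / ρ) / 2 := by
    rw [hB, Real.log_mul (by linarith) (by linarith), hβ, Real.log_sqrt (by linarith)]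
  set k0 := 3 * ⌈ρ⌉₊ with hk0
  have hk1 : (k0 : ℝ) ≤ 6 * ρ := by
    have := (Nat.ceil_lt_add_one hρ0.le).le
    rw [hk0]; push_cast; linarith
  have hk2 : ρ ^ 3 ≤ 2 ^ k0 := by
    have h1 : ρ ≤ 2 ^ ⌈ρ⌉₊ := (Nat.le_ceil ρ).trans (by exact_mod_cast Nat.lt_two_pow_self.le)
    rw [hk0, mul_comm, pow_mul]
    exact pow_le_pow_left₀ hρ0.le h1 3
  have h1 : ∀ x ∈ S, ∀ y ∈ N x, Real.log (fl N S y) ≤ Real.log B +
      ∑ i ∈ range k0, (if 2 ^ i * B ≤ (fl N S y : ℝ) then (1 : ℝ) else 0) := by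
    intro x hx y hy
    have a1 : (0 : ℝ) < fl N S y := by exact_mod_cast card_pos.2 ⟨x, mem_filter.2 ⟨hx, hy⟩⟩
    refine log_dyad hB0 a1 k0 ?_
    have a2 : (fl N S y : ℝ) ≤ S.card := by exact_mod_cast card_filter_le _ _
    have a3 : (0 : ℝ) < 2 ^ k0 := by positivity
    nlinarith
  have h2 : ∀ i : ℕ, ∑ x ∈ S, ∑ y ∈ N x, (if 2 ^ i * B ≤ (fl N S y : ℝ) then (1 : ℝ) else 0) ≤
      2 * C * ρ * S.card * (1 / 2) ^ i + 2 * C * S.card := by
    intro i
    have hp : (1 : ℝ) ≤ 2 ^ i := one_le_pow₀ one_le_two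
    have hnb : ∀ y, fl N S y ≤ (nb E S y).card := fun y => card_le_card fun x hx =>
      mem_nb.2 ⟨(mem_filter.1 hx).1, hs _ _ (hE x (mem_filter.1 hx).1 y (mem_filter.1 hx).2)⟩
    set R := (S.biUnion N).filter fun y => 2 ^ i * B ≤ (fl N S y : ℝ) with hR
    have r1 := rich_ed hst (by linarith) hs R S (j := 2 ^ i * B) (by nlinarith) (fun y hy =>
      (mem_filter.1 hy).2.trans (by exact_mod_cast hnb y))
    have r2 : ∑ x ∈ S, ∑ y ∈ N x, (if 2 ^ i * B ≤ (fl N S y : ℝ) then (1 : ℝ) else 0) ≤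
        ed E R S := by
      rw [sum_flags N S fun _ y => if 2 ^ i * B ≤ (fl N S y : ℝ) then (1 : ℝ) else 0]
      unfold ed
      rw [Nat.cast_sum, hR, sum_filter]
      refine sum_le_sum fun y _ => ?_
      split_ifs
      · rw [sum_const, nsmul_eq_mul, mul_one]
        exact_mod_cast hnb y
      · simp
    have r3 : 8 * C ^ 3 * (S.card : ℝ) ^ 2 / (2 ^ i * B) ^ 2 ≤
        2 * C * ρ * S.card * (1 / 2) ^ i := by
      rw [div_le_iff₀ (by positivity)]
      have e : 2 * C * ρ * S.card * (1 / 2) ^ i * (2 ^ i * B) ^ 2 =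
          8 * C ^ 3 * S.card * (2 ^ i * (ρ + S.card)) := by
        rw [hB, mul_pow, mul_pow, hβ2, one_div, inv_pow]
        field_simp
        ring
      rw [e]
      have : (S.card : ℝ) ≤ 2 ^ i * (ρ + S.card) := by nlinarith
      have h8 : 0 ≤ 8 * C ^ 3 * (S.card : ℝ) := by positivity
      nlinarith [mul_le_mul_of_nonneg_left this h8]
    linarith
  have h3 : ∑ x ∈ S, kk N S x ≤ ∑ x ∈ S, ∑ y ∈ N x, (Real.log B +
      ∑ i ∈ range k0, (if 2 ^ i * B ≤ (fl N S y : ℝ) then (1 : ℝ) else 0)) :=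
    sum_le_sum fun x hx => sum_le_sum fun y hy => h1 x hx y hy
  have h4 : ∑ x ∈ S, ∑ y ∈ N x, (Real.log B +
      ∑ i ∈ range k0, (if 2 ^ i * B ≤ (fl N S y : ℝ) then (1 : ℝ) else 0)) =
      D * S.card * Real.log B + ∑ i ∈ range k0, ∑ x ∈ S, ∑ y ∈ N x,
        (if 2 ^ i * B ≤ (fl N S y : ℝ) then (1 : ℝ) else 0) := by
    have : ∀ x ∈ S, ∑ y ∈ N x, (Real.log B +
        ∑ i ∈ range k0, (if 2 ^ i * B ≤ (fl N S y : ℝ) then (1 : ℝ) else 0)) =
        D * Real.log B + ∑ i ∈ range k0, ∑ y ∈ N x,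
          (if 2 ^ i * B ≤ (fl N S y : ℝ) then (1 : ℝ) else 0) := by
      intro x hx
      rw [sum_add_distrib, sum_const, hD x hx, nsmul_eq_mul, sum_comm]
    rw [sum_congr rfl this, sum_add_distrib, sum_const, nsmul_eq_mul, sum_comm]
    ring
  have h5 := sum_le_sum (s := range k0) fun i _ => h2 i
  rw [sum_add_distrib, ← mul_sum, sum_const, card_range, nsmul_eq_mul] at h5
  have h6 := sum_geometric_two_le k0
  have h7 : 0 ≤ 2 * C * ρ * (S.card : ℝ) := by positivity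
  have h8 : 0 ≤ 2 * C * (S.card : ℝ) := by positivity
  rw [← hlog]
  nlinarith [mul_le_mul_of_nonneg_left h6 h7, mul_le_mul_of_nonneg_right hk1 h8]

end
end Pool.Agent.Lib.MP_439fea_co.Gain
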